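import Mathlib

/-!
FF-10 Alg13.  Pure algebra for the lemma L13.

PROOF. Put `C = (Y + Y⁻¹)/2`, `S = (Y - Y⁻¹)/(2I)`, `K = k⁻¹ Y` (`K ≠ 0`), so `C² + S² = 1`, `Y = C + I S`,
`Y⁻¹ = C - I S`.
Step 1. From `hA` and `hA'`: `S = I K (Y c2 + c5)`: `hA'` says `S C - K c5 S + I (K (K s5² + c2 + C c5)) = 0` and `hA` says
`K² s5² + K (c2 + C c5) = -S² - K (c2 + C c5)`, so `S C - K c5 S - I S² - I K (c2 + C c5) = 0`, i.e.
`S (C - I S) = K (I c2 + I c5 C + c5 S) = I K (c2 + c5 (C - I S)) = I K (c2 + c5 Y⁻¹)`; multiply by `Y`.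
Suppose `B := (c5 + c2 C) + K (C + c2 c5) = 0`, i.e. `C (K + c2) = -c5 (1 + K c2)`. Let `N = K + c2`, `M = 1 + K c2`,
`T = 1 + 2 K c2 + K²`. Then `N² = T - s2²`, `M² + K² s2² = T`, `M + K N = T`.
Step 2. `hA` is `T = (C - K c5)²` (use `S² = 1 - C²`, `s5² = 1 - c5²`).
Step 3. Case `N ≠ 0`: `C = -c5 M/N`, `C - K c5 = -c5 T/N`, so `T N² = c5² T²`: `T = 0` or `N² = c5² T`. From step 1 and
`Y = C + I S`: `S M = I K (C c2 + c5)` and `C c2 + c5 = c5 K s2²/N`, so `S M N = I K² c5 s2²`, hence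
`M² N² (1 - C²) = -K⁴ c5² s2⁴`, i.e. `M² N² = c5² (M⁴ - K⁴ s2⁴)` (as `C² N² = c5² M²`).
 If `T = 0`: `M⁴ = K⁴ s2⁴`, so `M N = 0`, `M = 0`, so `K² s2² = T - M² = 0`: contradiction (`K ≠ 0`, `s2 ≠ 0`).
 If `N² = c5² T`: `M² N² = c5² (M² + K² s2²)(M² - K² s2²) = c5² T (M² - K² s2²) = N² (M² - K² s2²)`, so
 `N² K² s2² = 0`: contradiction.
Step 4. Case `N = 0`: `K = -c2`, `c5 (1 - c2²) = c5 s2² = 0`, so `c5 = 0`, `s5² = 1`, `hA`: `S² + K² + 2 K c2 = 0`, so `S² = c2²`,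
`C² = 1 - c2² = s2²`. Step 1: `S M = I K C c2` with `M = 1 - c2² = s2²`: `s2² S = -I c2² C`; square:
`s2⁴ c2² = -c2⁴ s2²`, so `c2² s2² (s2² + c2²) = 0`, `c2 = 0`, `K = 0`: contradiction.
Second claim: `c2 = 0`. Step 1: `S = I K c5`, so `C = Y - I S = Y + K c5`, step 2 (`T = 1 + K²`): `1 + K² = (C - K c5)² = Y²`,
so `Y² (1 - k⁻²) = 1`. And `S = (Y - Y⁻¹)/(2I) = I K c5` gives `Y - Y⁻¹ = -2 K c5 = -2 k⁻¹ Y c5`, so
`Y² (1 + 2 k⁻¹ c5) = 1`. Hence `-k⁻² = 2 k⁻¹ c5`, `k⁻¹ = -2 c5`.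
-/

namespace Pool.Agent.Helper22.FF

private theorem alg13_step1 {F : Type*} [Field F] (I Y C S K c2 c5 s5 : F) (hI : I ^ 2 = -1)
    (hY1 : (C - I * S) * Y = 1)
    (hA : s5 ^ 2 * K ^ 2 + S ^ 2 + 2 * K * (c2 + C * c5) = 0)
    (hA' : S * C - K * c5 * S + I * K * (K * s5 ^ 2 + c2 + C * c5) = 0) :
    S = I * K * (Y * c2 + c5) := by
  linear_combination Y * (hA' - I * hA + K * c5 * S * hI) - (S - I * K * c5) * hY1

private theorem alg13_core {F : Type*} [Field F] (I C S K c2 s2 c5 s5 : F)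
    (hI : I ^ 2 = -1) (hK : K ≠ 0) (hs2 : s2 ≠ 0)
    (h2 : c2 ^ 2 + s2 ^ 2 = 1) (h5 : c5 ^ 2 + s5 ^ 2 = 1) (hCS : C ^ 2 + S ^ 2 = 1)
    (hA : s5 ^ 2 * K ^ 2 + S ^ 2 + 2 * K * (c2 + C * c5) = 0)
    (h1 : S * (1 + K * c2) = I * K * (C * c2 + c5))
    (hB : (c5 + c2 * C) + K * (C + c2 * c5) = 0) : False := by
  have hT : 1 + 2 * K * c2 + K ^ 2 = (C - K * c5) ^ 2 := by
    linear_combination hA - hCS - K ^ 2 * h5
  have hCN : C * (K + c2) = -(c5 * (1 + K * c2)) := by linear_combination hB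
  by_cases hN : K + c2 = 0
  · have hK2 : K = -c2 := by linear_combination hN
    subst hK2
    have hM : 1 + -c2 * c2 = s2 ^ 2 := by linear_combination -h2
    have hc5 : c5 = 0 := by
      have h3 : c5 * s2 ^ 2 = 0 := by
        rw [← hM]
        linear_combination hCN
      exact (mul_eq_zero.1 h3).resolve_right (pow_ne_zero 2 hs2)
    subst hc5
    have hS2 : S ^ 2 = c2 ^ 2 := by linear_combination hA - c2 ^ 2 * h5
    have hC2 : C ^ 2 = s2 ^ 2 := by linear_combination hCS - hS2 - h2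
    have h4 : S * s2 ^ 2 = -(I * c2 ^ 2 * C) := by
      rw [← hM]
      linear_combination h1
    have h6 : (S * s2 ^ 2) ^ 2 = (-(I * c2 ^ 2 * C)) ^ 2 := by rw [h4]
    have h7 : c2 ^ 2 * s2 ^ 2 = 0 := by
      have e1 : c2 ^ 2 * s2 ^ 4 = -(c2 ^ 4 * s2 ^ 2) := by
        linear_combination h6 - s2 ^ 4 * hS2 + c2 ^ 4 * C ^ 2 * hI - c2 ^ 4 * hC2
      linear_combination e1 - c2 ^ 2 * s2 ^ 2 * h2
    rcases mul_eq_zero.1 h7 with h8 | h8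
    · exact hK (by rw [pow_eq_zero_iff two_ne_zero] at h8; rw [h8, neg_zero])
    · exact pow_ne_zero 2 hs2 h8
  · have hNT : (1 + 2 * K * c2 + K ^ 2) *
        ((K + c2) ^ 2 - c5 ^ 2 * (1 + 2 * K * c2 + K ^ 2)) = 0 := by
      have e1 : (K + c2) * (C - K * c5) = -(c5 * (1 + 2 * K * c2 + K ^ 2)) := by
        linear_combination hCN
      have e2 : ((K + c2) * (C - K * c5)) ^ 2 = (-(c5 * (1 + 2 * K * c2 + K ^ 2))) ^ 2 := by
        rw [e1]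
      linear_combination e2 + (K + c2) ^ 2 * hT
    have h3 : S * (1 + K * c2) * (K + c2) = I * K ^ 2 * c5 * s2 ^ 2 := by
      have e1 : (K + c2) * (C * c2 + c5) = c5 * K * s2 ^ 2 := by
        linear_combination c2 * hCN - c5 * K * h2
      linear_combination (K + c2) * h1 + I * K * e1
    have h4 : (S * (1 + K * c2) * (K + c2)) ^ 2 = (I * K ^ 2 * c5 * s2 ^ 2) ^ 2 := by rw [h3]
    have h4' : (C * (K + c2)) ^ 2 = (-(c5 * (1 + K * c2))) ^ 2 := by rw [hCN]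
    have h6 : (1 + K * c2) ^ 2 * (K + c2) ^ 2 =
        c5 ^ 2 * ((1 + K * c2) ^ 4 - K ^ 4 * s2 ^ 4) := by
      linear_combination h4 + (1 + K * c2) ^ 2 * h4' - (1 + K * c2) ^ 2 * (K + c2) ^ 2 * hCS +
        K ^ 4 * c5 ^ 2 * s2 ^ 4 * hI
    have hMT : (1 + K * c2) ^ 2 + K ^ 2 * s2 ^ 2 = 1 + 2 * K * c2 + K ^ 2 := by
      linear_combination K ^ 2 * h2
    have hKs : K ^ 2 * s2 ^ 2 ≠ 0 := mul_ne_zero (pow_ne_zero 2 hK) (pow_ne_zero 2 hs2)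
    rcases mul_eq_zero.1 hNT with h7 | h7
    · have h8 : (1 + K * c2) ^ 2 * (K + c2) ^ 2 = 0 := by
        rw [h7] at hMT
        linear_combination h6 + c5 ^ 2 * ((1 + K * c2) ^ 2 - K ^ 2 * s2 ^ 2) * hMT
      rcases mul_eq_zero.1 h8 with h9 | h9
      · apply hKs
        rw [h7, h9] at hMT
        linear_combination hMT
      · exact pow_ne_zero 2 hN h9
    · have h8 : (K + c2) ^ 2 * (K ^ 2 * s2 ^ 2) = 0 := by
        linear_combination h6 + c5 ^ 2 * ((1 + K * c2) ^ 2 - K ^ 2 * s2 ^ 2) * hMT -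
          ((1 + K * c2) ^ 2 - K ^ 2 * s2 ^ 2) * h7
      rcases mul_eq_zero.1 h8 with h9 | h9
      · exact pow_ne_zero 2 hN h9
      · exact hKs h9

theorem alg13 {F : Type*} [Field F] [CharZero F] (I k Y c2 s2 c5 s5 : F) (hI : I ^ 2 = -1)
    (hk : k ≠ 0) (hY : Y ≠ 0) (h2 : c2 ^ 2 + s2 ^ 2 = 1) (h5 : c5 ^ 2 + s5 ^ 2 = 1) (hs2 : s2 ≠ 0)
    (hA : s5 ^ 2 * (k⁻¹ * Y) ^ 2 + ((Y - Y⁻¹) / (2 * I)) ^ 2
      + 2 * (k⁻¹ * Y) * (c2 + (Y + Y⁻¹) / 2 * c5) = 0)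
    (hA' : ((Y - Y⁻¹) / (2 * I)) * ((Y + Y⁻¹) / 2) - (k⁻¹ * Y) * c5 * ((Y - Y⁻¹) / (2 * I))
      + I * (k⁻¹ * Y) * ((k⁻¹ * Y) * s5 ^ 2 + c2 + (Y + Y⁻¹) / 2 * c5) = 0) :
    (c5 + c2 * ((Y + Y⁻¹) / 2)) + (k⁻¹ * Y) * ((Y + Y⁻¹) / 2 + c2 * c5) ≠ 0 ∧
      (c2 = 0 → k⁻¹ = -2 * c5) := by
  have hI0 : I ≠ 0 := by
    rintro rfl
    rw [zero_pow two_ne_zero] at hI
    have : (1 : F) = 0 := by linear_combination hI
    exact one_ne_zero this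
  have h20 : (2 : F) ≠ 0 := two_ne_zero
  have hYY : Y * Y⁻¹ = 1 := mul_inv_cancel₀ hY
  have hk0 : k⁻¹ ≠ 0 := inv_ne_zero hk
  have hIS : I * ((Y - Y⁻¹) / (2 * I)) = (Y - Y⁻¹) / 2 := by
    field_simp
  set C : F := (Y + Y⁻¹) / 2 with hC
  set S : F := (Y - Y⁻¹) / (2 * I) with hS
  have e1 : C + I * S = Y := by
    rw [hIS, hC]
    ring
  have e2 : C - I * S = Y⁻¹ := by
    rw [hIS, hC]
    ring
  have hY1 : (C - I * S) * Y = 1 := by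
    rw [e2]
    exact inv_mul_cancel₀ hY
  have hCS : C ^ 2 + S ^ 2 = 1 := by
    have e3 : (C + I * S) * (C - I * S) = 1 := by
      rw [e1, e2]
      exact hYY
    linear_combination e3 + S ^ 2 * hI
  have hst := alg13_step1 I Y C S (k⁻¹ * Y) c2 c5 s5 hI hY1 hA hA'
  refine ⟨fun hB => ?_, fun hc2 => ?_⟩
  · refine alg13_core I C S (k⁻¹ * Y) c2 s2 c5 s5 hI (mul_ne_zero hk0 hY) hs2 h2 h5 hCS hA ?_ hB
    linear_combination hst + I * (k⁻¹ * Y) * c2 * (-e1) + (k⁻¹ * Y) * c2 * S * hI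
  · subst hc2
    have hT : 1 + (k⁻¹ * Y) ^ 2 = (C - (k⁻¹ * Y) * c5) ^ 2 := by
      linear_combination hA - hCS - (k⁻¹ * Y) ^ 2 * h5
    have hCK : C - (k⁻¹ * Y) * c5 = Y := by
      linear_combination e1 - I * hst + (-(k⁻¹ * Y * c5)) * hI
    rw [hCK] at hT
    have h3 : Y - Y⁻¹ = -2 * (k⁻¹ * Y) * c5 := by
      have e3 : 2 * (I * S) = Y - Y⁻¹ := by
        rw [hIS]
        ring
      linear_combination -e3 + 2 * I * hst + 2 * (k⁻¹ * Y) * c5 * hI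
    have h4 : Y ^ 2 - 1 = -2 * k⁻¹ * Y ^ 2 * c5 := by
      linear_combination Y * h3 + hYY
    have h6 : (k⁻¹ * Y ^ 2) * (k⁻¹ + 2 * c5) = 0 := by
      linear_combination hT + h4
    have h7 : k⁻¹ * Y ^ 2 ≠ 0 := mul_ne_zero hk0 (pow_ne_zero 2 hY)
    have h8 := (mul_eq_zero.1 h6).resolve_left h7
    linear_combination h8

end Pool.Agent.Helper22.FF
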