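import Pool.Agent.Helper22.FF.Defs

/-!
FF-01 Place.  A place at infinity.

PROOF of `exists_pl`. Let `φ` be the hyperfilter on `ι` (`Filter.hyperfilter ι`, an ultrafilter),
`K := Filter.Germ (hyperfilter ι : Filter ι) ℂ`, a field (`Filter.Germ.instField`, for ultrafilters),
`ev f := (f : K)` (the coercion of functions is a ring homomorphism, `Filter.Germ.coeRingHom`).
`C := (ev ∘ const).range`, a subring of `K` isomorphic to `ℂ` (constant germs). It is integrally
closed in `K`: an element of `K` which is integral over `C` is a root of a monic polynomial with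
coefficients in `C`, which splits over the algebraically closed field `C ≅ ℂ`, so it lies in `C`
(`IsIntegrallyClosedIn C K`, see `Subring.isIntegrallyClosedIn_iff`). `ev x ∉ C`: if `ev x` is a
constant germ then `x` is constant on a set of the hyperfilter, which is infinite, contradicting
injectivity (singletons and the empty set are not in the hyperfilter). By
`Subring.exists_le_valuationSubring_of_isIntegrallyClosedIn` (Mathlib.RingTheory.Valuation.LocalSubring)
there is a `ValuationSubring V` of `K` with `C ≤ V` and `ev x ∉ V`. Put `k := IsLocalRing.ResidueField V`,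
`j c := residue (ev (const c))`, and `Lim f a := ∃ h : ev f ∈ V, residue ⟨ev f, h⟩ = a`.
`const, add, mul, uniq` are clear. `dich`: `f` nowhere zero, so `ev f ≠ 0` and
`ev (fun i => (f i)⁻¹) = (ev f)⁻¹` (both products with `ev f` are `1`). If `ev f ∈ V` we have a limit.
Otherwise `(ev f)⁻¹ ∈ V` (`ValuationSubring.mem_or_inv_mem`) and it is not a unit of `V`, so its
residue is `0`. The last statement: the same with `f = x`.
`Pl.inv`: by `dich` for `fun i => (f i)⁻¹`: either it has a limit `b`, then `f * f⁻¹ = 1` gives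
`a * b = j 1 = 1` (`mul`, `const`, `uniq`), so `b = a⁻¹`; or `f` has limit `0` (`inv_inv`), so `a = 0`.
`Pl.tri`: `dich`, and `Pl.inv`.
Universe: `ι : Type`, so `K : Type` and `k : Type`.
-/

open Real Set

namespace Pool.Agent.Helper22.FF

private theorem int_closed {K : Type} [Field K] (c0 : ℂ →+* K) :
    IsIntegrallyClosedIn c0.range K := by
  rw [Subring.isIntegrallyClosedIn_iff]
  rintro y ⟨p, hp, hpy⟩
  have hinj : Function.Injective c0.rangeRestrict := fun a b hab =>
    c0.injective (congrArg Subtype.val hab)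
  let e : ℂ ≃+* c0.range := RingEquiv.ofBijective c0.rangeRestrict
    ⟨hinj, c0.rangeRestrict_surjective⟩
  let _ : Algebra ℂ K := c0.toAlgebra
  have hcomp : (algebraMap ℂ K).comp (e.symm : c0.range →+* ℂ) = algebraMap c0.range K := by
    ext z
    have h1 : e (e.symm z) = z := e.apply_symm_apply z
    have h2 : ((e (e.symm z) : c0.range) : K) = c0 (e.symm z) := rfl
    show c0 (e.symm z) = (z : K)
    rw [← h2, h1]
  have hint : IsIntegral ℂ y := by
    refine ⟨p.map (e.symm : c0.range →+* ℂ), hp.map _, ?_⟩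
    rw [Polynomial.eval₂_map, hcomp]
    exact hpy
  have hdeg : (minpoly ℂ y).degree = 1 :=
    IsAlgClosed.degree_eq_one_of_irreducible ℂ (minpoly.irreducible hint)
  obtain ⟨z, hz⟩ := minpoly.mem_range_of_degree_eq_one ℂ y hdeg
  exact ⟨z, hz⟩

private theorem mk_pl {ι : Type} {K : Type} [Field K] (ev : (ι → ℂ) →+* K)
    (x : ι → ℂ) (h0 : ∀ i, x i ≠ 0) (hx : ∀ c : ℂ, ev x ≠ ev (fun _ => c)) :
    ∃ P : Pl ι, P.Lim (fun i => (x i)⁻¹) 0 := by
  let c0 : ℂ →+* K := ev.comp (Pi.constRingHom ι ℂ)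
  have hC : IsIntegrallyClosedIn c0.range K := int_closed c0
  have hxC : ev x ∉ c0.range := by
    rintro ⟨c, hc⟩
    exact hx c hc.symm
  obtain ⟨V, hV, hxV⟩ := Subring.exists_le_valuationSubring_of_isIntegrallyClosedIn hxC
  have hcV : ∀ c : ℂ, ev (fun _ => c) ∈ V := fun c => hV ⟨c, rfl⟩
  have hinv : ∀ f : ι → ℂ, (∀ i, f i ≠ 0) → ev (fun i => (f i)⁻¹) = (ev f)⁻¹ := by
    intro f hf
    have h1 : ev f * ev (fun i => (f i)⁻¹) = 1 := by
      rw [← map_mul]
      have h2 : (f * fun i => (f i)⁻¹) = 1 := by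
        funext i
        exact mul_inv_cancel₀ (hf i)
      rw [h2, map_one]
    exact eq_inv_of_mul_eq_one_right h1
  have hres : ∀ f : ι → ℂ, (∀ i, f i ≠ 0) → ev f ∉ V → ∃ h : ev (fun i => (f i)⁻¹) ∈ V,
      IsLocalRing.residue V ⟨ev (fun i => (f i)⁻¹), h⟩ = 0 := by
    intro f hf hfV
    have h1 : ev (fun i => (f i)⁻¹) ∈ V := by
      rw [hinv f hf]
      exact (V.mem_or_inv_mem (ev f)).resolve_left hfV
    refine ⟨h1, ?_⟩
    rw [IsLocalRing.residue_eq_zero_iff, IsLocalRing.mem_maximalIdeal, mem_nonunits_iff]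
    rintro ⟨u, hu⟩
    apply hfV
    have h2 : ((u : V) : K) * (((u⁻¹ : Vˣ) : V) : K) = 1 := by
      exact congrArg (fun z : V => (z : K)) (Units.mul_inv u)
    have h4 : ((u : V) : K) = (ev f)⁻¹ := by
      rw [hu]
      exact hinv f hf
    have h5 : (((u⁻¹ : Vˣ) : V) : K) = ev f := by
      rw [h4] at h2
      have h6 := eq_inv_of_mul_eq_one_right h2
      rwa [inv_inv] at h6
    rw [← h5]
    exact ((u⁻¹ : Vˣ) : V).2
  refine ⟨{ k := IsLocalRing.ResidueField V
            fld := inferInstance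
            j := (IsLocalRing.residue V).comp (c0.codRestrict V.toSubring fun c => hcV c)
            Lim := fun f a => ∃ h : ev f ∈ V, IsLocalRing.residue V ⟨ev f, h⟩ = a
            const := fun c => ⟨hcV c, rfl⟩
            add := ?_
            mul := ?_
            uniq := ?_
            dich := ?_ }, ?_⟩
  · rintro f g a b ⟨h1, h2⟩ ⟨h3, h4⟩
    have h5 : ev (fun i => f i + g i) = ev f + ev g := map_add ev f g
    refine ⟨h5 ▸ V.add_mem _ _ h1 h3, ?_⟩
    have h6 : (⟨ev (fun i => f i + g i), h5 ▸ V.add_mem _ _ h1 h3⟩ : V) =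
        ⟨ev f, h1⟩ + ⟨ev g, h3⟩ := Subtype.ext h5
    rw [h6, map_add, h2, h4]
  · rintro f g a b ⟨h1, h2⟩ ⟨h3, h4⟩
    have h5 : ev (fun i => f i * g i) = ev f * ev g := map_mul ev f g
    refine ⟨h5 ▸ V.mul_mem _ _ h1 h3, ?_⟩
    have h6 : (⟨ev (fun i => f i * g i), h5 ▸ V.mul_mem _ _ h1 h3⟩ : V) =
        ⟨ev f, h1⟩ * ⟨ev g, h3⟩ := Subtype.ext h5
    rw [h6, map_mul, h2, h4]
  · rintro f a b ⟨h1, h2⟩ ⟨h3, h4⟩
    rw [← h2, ← h4]
  · intro f hf
    by_cases h : ev f ∈ V
    · exact Or.inl ⟨_, h, rfl⟩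
    · exact Or.inr (hres f hf h)
  · exact hres x h0 hxV

/-- a place at infinity for an injective function on an infinite type -/
theorem exists_pl {ι : Type} [Infinite ι] (x : ι → ℂ) (hx : Function.Injective x)
    (h0 : ∀ i, x i ≠ 0) : ∃ P : Pl ι, P.Lim (fun i => (x i)⁻¹) 0 := by
  refine mk_pl (K := Filter.Germ (Filter.hyperfilter ι : Filter ι) ℂ)
    (Filter.Germ.coeRingHom (Filter.hyperfilter ι : Filter ι)) x h0 fun c hc => ?_
  have h1 : (x : Filter.Germ (Filter.hyperfilter ι : Filter ι) ℂ) =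
      ((fun _ : ι => c : ι → ℂ) : Filter.Germ (Filter.hyperfilter ι : Filter ι) ℂ) := hc
  have h2 := Filter.Germ.coe_eq.1 h1
  refine Filter.notMem_hyperfilter_of_finite ?_ h2
  refine Set.Subsingleton.finite fun i hi j hj => hx ?_
  exact (show x i = c from hi).trans (show x j = c from hj).symm

/-- inverse of a function with a nonzero limit -/
theorem Pl.inv {ι : Type} (P : Pl ι) {f : ι → ℂ} {a : P.k} (h : P.Lim f a) (ha : a ≠ 0)
    (hf : ∀ i, f i ≠ 0) : P.Lim (fun i => (f i)⁻¹) a⁻¹ := by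
  rcases P.dich (fun i => (f i)⁻¹) (fun i => inv_ne_zero (hf i)) with ⟨b, hb⟩ | hb
  · have h1 := P.mul h hb
    have h2 : (fun i => f i * (f i)⁻¹) = fun _ => (1 : ℂ) := by
      funext i
      exact mul_inv_cancel₀ (hf i)
    rw [h2] at h1
    have h3 := P.uniq h1 (P.const 1)
    rw [map_one] at h3
    rwa [← eq_inv_of_mul_eq_one_right h3]
  · simp only [inv_inv] at hb
    exact absurd (P.uniq h hb) ha

/-- the three cases for a nowhere zero function -/
theorem Pl.tri {ι : Type} (P : Pl ι) (f : ι → ℂ) (hf : ∀ i, f i ≠ 0) :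
    (∃ a, a ≠ 0 ∧ P.Lim f a ∧ P.Lim (fun i => (f i)⁻¹) a⁻¹) ∨ P.Lim f 0 ∨
      P.Lim (fun i => (f i)⁻¹) 0 := by
  rcases P.dich f hf with ⟨a, ha⟩ | h
  · by_cases h0 : a = 0
    · exact Or.inr (Or.inl (h0 ▸ ha))
    · exact Or.inl ⟨a, h0, ha, P.inv ha h0 hf⟩
  · exact Or.inr (Or.inr h)

/-- negation -/
theorem Pl.neg {ι : Type} (P : Pl ι) {f : ι → ℂ} {a : P.k} (h : P.Lim f a) :
    P.Lim (fun i => -f i) (-a) := by
  have h1 := P.mul (P.const (-1)) h
  rw [map_neg, map_one] at h1
  simpa only [neg_mul, one_mul] using h1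

/-- subtraction -/
theorem Pl.sub {ι : Type} (P : Pl ι) {f g : ι → ℂ} {a b : P.k} (h : P.Lim f a) (h' : P.Lim g b) :
    P.Lim (fun i => f i - g i) (a - b) := by
  simpa only [sub_eq_add_neg] using P.add h (P.neg h')

/-- powers -/
theorem Pl.pow {ι : Type} (P : Pl ι) {f : ι → ℂ} {a : P.k} (h : P.Lim f a) (n : ℕ) :
    P.Lim (fun i => f i ^ n) (a ^ n) := by
  induction n with
  | zero =>
    have h1 := P.const 1
    rw [map_one] at h1
    simpa only [pow_zero] using h1
  | succ n ih =>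
    simpa only [pow_succ] using P.mul ih h

/-- the residue field has characteristic zero -/
theorem Pl.charZero {ι : Type} (P : Pl ι) : CharZero P.k := by
  exact charZero_of_injective_ringHom (f := P.j) P.j.injective

/-- a function and its inverse do not both have limits, if the inverse tends to zero -/
theorem Pl.not_lim {ι : Type} [Nonempty ι] (P : Pl ι) {f : ι → ℂ} (hf : ∀ i, f i ≠ 0)
    (h : P.Lim (fun i => (f i)⁻¹) 0) (a : P.k) : ¬ P.Lim f a := by
  intro h'
  have h1 := P.mul h' h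
  have h2 : (fun i => f i * (f i)⁻¹) = fun _ => (1 : ℂ) := by
    funext i
    exact mul_inv_cancel₀ (hf i)
  rw [h2, mul_zero] at h1
  have h3 := P.uniq h1 (P.const 1)
  rw [map_one] at h3
  exact zero_ne_one h3

end Pool.Agent.Helper22.FF
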