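import Pool.Agent.Helper22.FF.Basic
import Pool.Agent.Helper22.FF.Place

/-!
FF-06 Apex.  Equilateral base and constant angles at the apex (three point perspective problem).

`01 = 02 = 12`, the angles at `03, 13, 23` are constant. Let `b = l 2 / l 0`, `c = l 4 / l 0`, `d = l 5 / l 0`
(positive). PROOF. Identities (`ring` after unfolding):
`W 5 * D 2 + W 2 * W 4 = 8 (l₂² + l₄² - l₀²) Gr`, `W 4 * D 1 + W 2 * W 5 = 8 (l₂² + l₅² - l₁²) Gr`,
`W 2 * D 0 + W 4 * W 5 = 8 (l₄² + l₅² - l₃²) Gr`. With the formulas for cos and sin in `TT_facts` this is the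
spherical cosine law: `(b² + c² - 1) = 2 b c · c3`, `(b² + d² - 1) = 2 b d · c2`, `(c² + d² - 1) = 2 c d · c1`, where
`c3 = (cos γ' + cos β' cos δ')/(sin sin)` etc. are constants (functions of `β, γ, δ` only). Moreover
`1 - c1² - c2² - c3² + 2 c1 c2 c3 = Gr l / (l₂² l₄² l₅²) > 0` (ring with the three equations), a constant `Δ > 0`.
If the set is infinite, then (as `(b, c, d)` determines `l` in `Nm`, `finite_of_ratio`) one of `b, c, d` takes
infinitely many values; choose an infinite subset on which it is injective (`exists_inf_const_or_inj`; if all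
three take finitely many values the set is finite) and take `ι` = this subset, and the place `P` of `exists_pl`
for this function (cast to `ℂ`). So one of the three functions `b, c, d` has no finite limit in `P`.
Claim: there is one of them, say `b`, with `b⁻¹ → 0` and such that `c / b` and `d / b` have limits `γ, δ` in `P.k`
(choose the largest; use `Pl.dich` for the quotients). Dividing the equations by `b²` (and using `b⁻¹ → 0`):
`1 + γ² = 2 γ c3`, `1 + δ² = 2 δ c2`, `γ² + δ² = 2 γ δ c1`. Hence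
`4 γ² δ² Δ = 4γ²δ² - (γ²+δ²)² - γ²(δ²+1)² - δ²(γ²+1)² + (γ²+δ²)(δ²+1)(γ²+1) = 0` (ring), so `γ = 0` or `δ = 0`
(`Δ ≠ 0` in `P.k`, `P.j` is injective), contradicting `1 + γ² = 2 γ c3` or `1 + δ² = 2 δ c2`. The other choices of
the largest function are the same with the names permuted (state the claim for abstract `b c d c1 c2 c3`,
symmetric, and apply it three times).
-/

open Real Set Pool.Agent.Helper1.Tet

namespace Pool.Agent.Helper22.FF

/-- the core: no place at which the largest function is infinite -/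
private theorem apex_core {ι : Type} (P : Pl ι) {b c d : ι → ℂ} {c1 c2 c3 : ℂ}
    (hb : ∀ i, b i ≠ 0) (e3 : ∀ i, b i ^ 2 + c i ^ 2 - 1 = 2 * b i * c i * c3)
    (e2 : ∀ i, b i ^ 2 + d i ^ 2 - 1 = 2 * b i * d i * c2)
    (e1 : ∀ i, c i ^ 2 + d i ^ 2 - 1 = 2 * c i * d i * c1)
    (hΔ : 1 - c1 ^ 2 - c2 ^ 2 - c3 ^ 2 + 2 * c1 * c2 * c3 ≠ 0)
    (h0 : P.Lim (fun i => (b i)⁻¹) 0) {g e : P.k} (hg : P.Lim (fun i => c i * (b i)⁻¹) g)
    (he : P.Lim (fun i => d i * (b i)⁻¹) e) : False := by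
  have hq : ∀ (a f : ι → ℂ) (r : ℂ) (u v : P.k),
      (∀ i, a i ^ 2 + f i ^ 2 - 1 = 2 * a i * f i * r) →
      P.Lim (fun i => a i * (b i)⁻¹) u → P.Lim (fun i => f i * (b i)⁻¹) v →
      u ^ 2 + v ^ 2 = 2 * u * v * P.j r := by
    intro a f r u v hi hu hv
    have h1 := P.sub (P.add (P.pow hu 2) (P.pow hv 2)) (P.pow h0 2)
    have h2 := P.mul (P.mul (P.mul (P.const 2) hu) hv) (P.const r)
    have h3 : (fun i => (a i * (b i)⁻¹) ^ 2 + (f i * (b i)⁻¹) ^ 2 - (b i)⁻¹ ^ 2) =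
        fun i => 2 * (a i * (b i)⁻¹) * (f i * (b i)⁻¹) * r := by
      funext i
      have h4 := hb i
      have h5 := hi i
      linear_combination (b i)⁻¹ ^ 2 * h5
    rw [h3] at h1
    have h6 := P.uniq h1 h2
    have h7 : P.j 2 = 2 := map_ofNat P.j 2
    rw [h7] at h6
    linear_combination h6
  have hbb : P.Lim (fun i => b i * (b i)⁻¹) 1 := by
    have h1 : (fun i => b i * (b i)⁻¹) = fun _ => (1 : ℂ) := by
      funext i
      exact mul_inv_cancel₀ (hb i)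
    rw [h1, ← map_one P.j]
    exact P.const 1
  have q3 := hq b c c3 1 g e3 hbb hg
  have q2 := hq b d c2 1 e e2 hbb he
  have q1 := hq c d c1 g e e1 hg he
  have hcz : CharZero P.k := P.charZero
  have hΔ' : 1 - P.j c1 ^ 2 - P.j c2 ^ 2 - P.j c3 ^ 2 + 2 * P.j c1 * P.j c2 * P.j c3 ≠ 0 := by
    intro h
    apply hΔ
    apply P.j.injective
    rw [map_zero, ← h]
    simp only [map_add, map_sub, map_mul, map_pow, map_one, map_ofNat]
  have hz : 4 * (g ^ 2 * e ^ 2) *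
      (1 - P.j c1 ^ 2 - P.j c2 ^ 2 - P.j c3 ^ 2 + 2 * P.j c1 * P.j c2 * P.j c3) = 0 := by
    generalize P.j c1 = s1 at q1 hΔ' ⊢
    generalize P.j c2 = s2 at q2 hΔ' ⊢
    generalize P.j c3 = s3 at q3 hΔ' ⊢
    have a1 : 2 * g * e * s1 = g ^ 2 + e ^ 2 := q1.symm
    have a2 : 2 * e * s2 = 1 + e ^ 2 := by linear_combination -q2
    have a3 : 2 * g * s3 = 1 + g ^ 2 := by linear_combination -q3
    have a4 : 4 * (g ^ 2 * e ^ 2) * (1 - s1 ^ 2 - s2 ^ 2 - s3 ^ 2 + 2 * s1 * s2 * s3) =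
        4 * g ^ 2 * e ^ 2 - (2 * g * e * s1) ^ 2 - g ^ 2 * (2 * e * s2) ^ 2 -
          e ^ 2 * (2 * g * s3) ^ 2 + (2 * g * e * s1) * (2 * e * s2) * (2 * g * s3) := by ring
    rw [a4, a1, a2, a3]
    ring
  rcases mul_eq_zero.1 hz with h | h
  · have h8 : g ^ 2 * e ^ 2 = 0 := (mul_eq_zero.1 h).resolve_left (by norm_num)
    rcases mul_eq_zero.1 h8 with h9 | h9
    · have h10 : g = 0 := pow_eq_zero_iff (two_ne_zero) |>.1 h9
      rw [h10] at q3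
      have : (1 : P.k) = 0 := by linear_combination q3
      exact one_ne_zero this
    · have h10 : e = 0 := pow_eq_zero_iff (two_ne_zero) |>.1 h9
      rw [h10] at q2
      have : (1 : P.k) = 0 := by linear_combination q2
      exact one_ne_zero this
  · exact hΔ' h

/-- one of three nowhere zero functions is the largest one -/
private theorem apex_max {ι : Type} (P : Pl ι) (f : Fin 3 → ι → ℂ) (hf : ∀ m i, f m i ≠ 0) :
    ∃ m, ∀ n, ∃ a, P.Lim (fun i => f n i * (f m i)⁻¹) a := by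
  have hdiv : ∀ m n, (∃ a, P.Lim (fun i => f n i * (f m i)⁻¹) a) ∨
      (∃ a, P.Lim (fun i => f m i * (f n i)⁻¹) a) := by
    intro m n
    rcases P.dich (fun i => f n i * (f m i)⁻¹)
      (fun i => mul_ne_zero (hf n i) (inv_ne_zero (hf m i))) with h | h
    · exact Or.inl h
    · refine Or.inr ⟨0, ?_⟩
      have h1 : (fun i => (f n i * (f m i)⁻¹)⁻¹) = fun i => f m i * (f n i)⁻¹ := by
        funext i
        rw [mul_inv, inv_inv, mul_comm]
      rwa [h1] at h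
  have hself : ∀ m, ∃ a, P.Lim (fun i => f m i * (f m i)⁻¹) a := by
    intro m
    refine ⟨P.j 1, ?_⟩
    have h1 : (fun i => f m i * (f m i)⁻¹) = fun _ => (1 : ℂ) := by
      funext i
      exact mul_inv_cancel₀ (hf m i)
    rw [h1]
    exact P.const 1
  have htr : ∀ m n k, (∃ a, P.Lim (fun i => f n i * (f m i)⁻¹) a) →
      (∃ a, P.Lim (fun i => f k i * (f n i)⁻¹) a) →
      ∃ a, P.Lim (fun i => f k i * (f m i)⁻¹) a := by
    rintro m n k ⟨a, ha⟩ ⟨b, hb⟩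
    refine ⟨a * b, ?_⟩
    have h1 := P.mul ha hb
    have h2 : (fun i => f n i * (f m i)⁻¹ * (f k i * (f n i)⁻¹)) =
        fun i => f k i * (f m i)⁻¹ := by
      funext i
      have h3 := hf n i
      field_simp
    rwa [h2] at h1
  -- the larger one of the first two
  obtain ⟨m, hm0, hm1⟩ : ∃ m, (∃ a, P.Lim (fun i => f 0 i * (f m i)⁻¹) a) ∧
      (∃ a, P.Lim (fun i => f 1 i * (f m i)⁻¹) a) := by
    rcases hdiv 0 1 with h | h
    · exact ⟨0, hself 0, h⟩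
    · exact ⟨1, h, hself 1⟩
  rcases hdiv m 2 with h | h
  · refine ⟨m, fun n => ?_⟩
    fin_cases n
    · exact hm0
    · exact hm1
    · exact h
  · refine ⟨2, fun n => ?_⟩
    fin_cases n
    · exact htr 2 m 0 h hm0
    · exact htr 2 m 1 h hm1
    · exact hself 2

/-- a set of points all whose coordinates take finitely many values is finite -/
private theorem apex_fin {S : Set (Fin 3 → ℝ)} (h : ∀ m, ((fun x : Fin 3 → ℝ => x m) '' S).Finite) :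
    S.Finite := by
  refine (Set.Finite.pi' h).subset ?_
  intro x hx m
  exact ⟨x, hx, rfl⟩

/-- the abstract statement: finitely many solutions of the three point perspective equations -/
theorem p3p_finite (c1 c2 c3 : ℝ) (hΔ : 1 - c1 ^ 2 - c2 ^ 2 - c3 ^ 2 + 2 * c1 * c2 * c3 ≠ 0) :
    {x : Fin 3 → ℝ | (∀ i, 0 < x i) ∧ x 0 ^ 2 + x 1 ^ 2 - 1 = 2 * x 0 * x 1 * c3 ∧
      x 0 ^ 2 + x 2 ^ 2 - 1 = 2 * x 0 * x 2 * c2 ∧
      x 1 ^ 2 + x 2 ^ 2 - 1 = 2 * x 1 * x 2 * c1}.Finite := by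
  set S : Set (Fin 3 → ℝ) := {x : Fin 3 → ℝ | (∀ i, 0 < x i) ∧
      x 0 ^ 2 + x 1 ^ 2 - 1 = 2 * x 0 * x 1 * c3 ∧
      x 0 ^ 2 + x 2 ^ 2 - 1 = 2 * x 0 * x 2 * c2 ∧
      x 1 ^ 2 + x 2 ^ 2 - 1 = 2 * x 1 * x 2 * c1} with hS
  refine apex_fin fun m => ?_
  by_contra hinf
  have hinf' : ((fun x : Fin 3 → ℝ => x m) '' S).Infinite := hinf
  let ι : Type := ↥((fun x : Fin 3 → ℝ => x m) '' S)
  have hι : Infinite ι := hinf'.to_subtype
  have hsec : ∀ t : ι, ∃ x, x ∈ S ∧ x m = (t : ℝ) := fun t => t.2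
  choose s hsS hsm using hsec
  let f : Fin 3 → ι → ℂ := fun n t => ((s t n : ℝ) : ℂ)
  have hf : ∀ n t, f n t ≠ 0 := fun n t =>
    Complex.ofReal_ne_zero.2 ((hsS t).1 n).ne'
  have hinj : Function.Injective (f m) := by
    intro t t' h
    have h1 : s t m = s t' m := Complex.ofReal_injective h
    rw [hsm, hsm] at h1
    exact Subtype.ext h1
  obtain ⟨P, hP⟩ := exists_pl (f m) hinj (hf m)
  obtain ⟨n, hn⟩ := apex_max P f hf
  have h0 : P.Lim (fun i => (f n i)⁻¹) 0 := by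
    obtain ⟨a, ha⟩ := hn m
    have h1 := P.mul hP ha
    rw [zero_mul] at h1
    have h2 : (fun i => (f m i)⁻¹ * (f m i * (f n i)⁻¹)) = fun i => (f n i)⁻¹ := by
      funext i
      have h3 := hf m i
      field_simp
    rwa [h2] at h1
  have e3 : ∀ t, f 0 t ^ 2 + f 1 t ^ 2 - 1 = 2 * f 0 t * f 1 t * (c3 : ℂ) := fun t => by
    have h1 := (hsS t).2.1
    simp only [f]
    exact_mod_cast congrArg (fun r : ℝ => (r : ℂ)) h1
  have e2 : ∀ t, f 0 t ^ 2 + f 2 t ^ 2 - 1 = 2 * f 0 t * f 2 t * (c2 : ℂ) := fun t => by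
    have h1 := (hsS t).2.2.1
    simp only [f]
    exact_mod_cast congrArg (fun r : ℝ => (r : ℂ)) h1
  have e1 : ∀ t, f 1 t ^ 2 + f 2 t ^ 2 - 1 = 2 * f 1 t * f 2 t * (c1 : ℂ) := fun t => by
    have h1 := (hsS t).2.2.2
    simp only [f]
    exact_mod_cast congrArg (fun r : ℝ => (r : ℂ)) h1
  have hΔ' : 1 - (c1 : ℂ) ^ 2 - (c2 : ℂ) ^ 2 - (c3 : ℂ) ^ 2 +
      2 * (c1 : ℂ) * (c2 : ℂ) * (c3 : ℂ) ≠ 0 := by
    intro h
    apply hΔ
    exact_mod_cast h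
  obtain ⟨a0, ha0⟩ := hn 0
  obtain ⟨a1, ha1⟩ := hn 1
  obtain ⟨a2, ha2⟩ := hn 2
  fin_cases n
  · exact apex_core P (hf 0) e3 e2 e1 hΔ' h0 ha1 ha2
  · refine apex_core P (b := f 1) (c := f 0) (d := f 2) (c1 := c2) (c2 := c1) (c3 := c3)
      (hf 1) (fun t => ?_) (fun t => e1 t) (fun t => e2 t) (fun h => hΔ' ?_) h0 ha0 ha2
    · linear_combination e3 t
    · linear_combination h
  · refine apex_core P (b := f 2) (c := f 0) (d := f 1) (c1 := c3) (c2 := c1) (c3 := c2)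
      (hf 2) (fun t => ?_) (fun t => ?_) (fun t => e3 t) (fun h => hΔ' ?_) h0 ha0 ha1
    · linear_combination e2 t
    · linear_combination e1 t
    · linear_combination h

private theorem apex_id1 (l : Fin 6 → ℝ) :
    W l 5 * D l 2 + W l 2 * W l 4 = 8 * (l 2 ^ 2 + l 4 ^ 2 - l 0 ^ 2) * Gr l := by
  simp only [D, heron, W, wform, ea, eb, ec, ed, ix, Gr]
  simp
  ring

private theorem apex_id2 (l : Fin 6 → ℝ) :
    W l 4 * D l 1 + W l 2 * W l 5 = 8 * (l 2 ^ 2 + l 5 ^ 2 - l 1 ^ 2) * Gr l := by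
  simp only [D, heron, W, wform, ea, eb, ec, ed, ix, Gr]
  simp
  ring

private theorem apex_id3 (l : Fin 6 → ℝ) :
    W l 2 * D l 0 + W l 4 * W l 5 = 8 * (l 4 ^ 2 + l 5 ^ 2 - l 3 ^ 2) * Gr l := by
  simp only [D, heron, W, wform, ea, eb, ec, ed, ix, Gr]
  simp
  ring

/-- the spherical cosine law, abstractly -/
private theorem apex_cos {W2 W4 W5 p q r x y G n : ℝ} (hp : 0 < p) (hq : 0 < q) (hr : 0 < r)
    (hx : 0 < x) (hy : 0 < y) (hG : 0 < G) (h : W5 * r ^ 2 + W2 * W4 = 8 * n * G) :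
    n = 2 * x * y * ((W5 / (p * q) + W2 / (q * r) * (W4 / (p * r))) /
      (4 * x * √G / (q * r) * (4 * y * √G / (p * r)))) := by
  have hs : 0 < √G := sqrt_pos.2 hG
  have hs2 : √G ^ 2 = G := sq_sqrt hG.le
  have h1 : (W5 / (p * q) + W2 / (q * r) * (W4 / (p * r))) = 8 * n * G / (p * q * r ^ 2) := by
    rw [← h]
    field_simp
  rw [h1]
  generalize √G = s at hs hs2 ⊢
  rw [← hs2]
  field_simp
  ring

private theorem apex_laws {l : Fin 6 → ℝ} (hl : l ∈ TT) :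
    l 2 ^ 2 + l 4 ^ 2 - l 0 ^ 2 = 2 * l 2 * l 4 *
      ((cos (al l 5) + cos (al l 2) * cos (al l 4)) / (sin (al l 2) * sin (al l 4))) ∧
    l 2 ^ 2 + l 5 ^ 2 - l 1 ^ 2 = 2 * l 2 * l 5 *
      ((cos (al l 4) + cos (al l 2) * cos (al l 5)) / (sin (al l 2) * sin (al l 5))) ∧
    l 4 ^ 2 + l 5 ^ 2 - l 3 ^ 2 = 2 * l 4 * l 5 *
      ((cos (al l 2) + cos (al l 4) * cos (al l 5)) / (sin (al l 4) * sin (al l 5))) := by
  have hf := TT_facts hl
  obtain ⟨hpos, hD, hcos, hsin, -⟩ := hf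
  have hG : 0 < Gr l := hl.2
  have s0 := sqrt_pos.2 (hD 0)
  have s1 := sqrt_pos.2 (hD 1)
  have s2 := sqrt_pos.2 (hD 2)
  have t0 : √(D l 0) ^ 2 = D l 0 := sq_sqrt (hD 0).le
  have t1 : √(D l 1) ^ 2 = D l 1 := sq_sqrt (hD 1).le
  have t2 : √(D l 2) ^ 2 = D l 2 := sq_sqrt (hD 2).le
  have i1 := apex_id1 l
  have i2 := apex_id2 l
  have i3 := apex_id3 l
  rw [← t2] at i1
  rw [← t1] at i2
  rw [← t0] at i3
  have e2 : ec 2 = 1 := rfl
  have e2' : ed 2 = 2 := rfl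
  have e4 : ec 4 = 0 := rfl
  have e4' : ed 4 = 2 := rfl
  have e5 : ec 5 = 0 := rfl
  have e5' : ed 5 = 1 := rfl
  refine ⟨?_, ?_, ?_⟩
  · rw [hcos 5, hcos 2, hcos 4, hsin 2, hsin 4, e2, e2', e4, e4', e5, e5']
    exact apex_cos s0 s1 s2 (hpos 2) (hpos 4) hG i1
  · rw [hcos 5, hcos 2, hcos 4, hsin 2, hsin 5, e2, e2', e4, e4', e5, e5']
    have := apex_cos s0 s2 s1 (hpos 2) (hpos 5) hG i2
    rw [mul_comm √(D l 2) √(D l 1)] at this
    exact this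
  · rw [hcos 5, hcos 2, hcos 4, hsin 4, hsin 5, e2, e2', e4, e4', e5, e5']
    have h5 := apex_cos s1 s2 s0 (hpos 4) (hpos 5) hG i3
    rw [mul_comm √(D l 2) √(D l 0), mul_comm √(D l 1) √(D l 0)] at h5
    exact h5

theorem L11 (β γ δ : ℝ) : {l | l ∈ Nm ∧ l 1 = l 0 ∧ l 3 = l 0 ∧
    al l 2 = β ∧ al l 4 = γ ∧ al l 5 = δ}.Finite := by
  set c3 := (cos δ + cos β * cos γ) / (sin β * sin γ) with hc3
  set c2 := (cos γ + cos β * cos δ) / (sin β * sin δ) with hc2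
  set c1 := (cos β + cos γ * cos δ) / (sin γ * sin δ) with hc1
  set S : Set (Fin 6 → ℝ) := {l | l ∈ Nm ∧ l 1 = l 0 ∧ l 3 = l 0 ∧
    al l 2 = β ∧ al l 4 = γ ∧ al l 5 = δ} with hS
  have hlaw : ∀ l ∈ S, l 2 ^ 2 + l 4 ^ 2 - l 0 ^ 2 = 2 * l 2 * l 4 * c3 ∧
      l 2 ^ 2 + l 5 ^ 2 - l 0 ^ 2 = 2 * l 2 * l 5 * c2 ∧
      l 4 ^ 2 + l 5 ^ 2 - l 0 ^ 2 = 2 * l 4 * l 5 * c1 := by
    rintro l ⟨hl, h1, h3, a2, a4, a5⟩
    have h := apex_laws hl.1
    rw [a2, a4, a5, h1, h3] at h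
    exact h
  rcases S.eq_empty_or_nonempty with hemp | ⟨l0, hl0⟩
  · rw [hemp]
    exact Set.finite_empty
  have hΔ : 1 - c1 ^ 2 - c2 ^ 2 - c3 ^ 2 + 2 * c1 * c2 * c3 ≠ 0 := by
    obtain ⟨b3, b2, b1⟩ := hlaw l0 hl0
    obtain ⟨hl, h1, h3, -, -, -⟩ := hl0
    have hG : 0 < Gr l0 := hl.1.2
    intro h0
    have h4 : Gr l0 = l0 2 ^ 2 * l0 4 ^ 2 * l0 5 ^ 2 *
        (1 - c1 ^ 2 - c2 ^ 2 - c3 ^ 2 + 2 * c1 * c2 * c3) := by
      have h5 : l0 2 ^ 2 * l0 4 ^ 2 * l0 5 ^ 2 *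
          (1 - c1 ^ 2 - c2 ^ 2 - c3 ^ 2 + 2 * c1 * c2 * c3) =
          l0 2 ^ 2 * l0 4 ^ 2 * l0 5 ^ 2 - l0 2 ^ 2 * (2 * l0 4 * l0 5 * c1) ^ 2 / 4 -
          l0 4 ^ 2 * (2 * l0 2 * l0 5 * c2) ^ 2 / 4 - l0 5 ^ 2 * (2 * l0 2 * l0 4 * c3) ^ 2 / 4 +
          (2 * l0 4 * l0 5 * c1) * (2 * l0 2 * l0 5 * c2) * (2 * l0 2 * l0 4 * c3) / 4 := by
        ring
      rw [h5, ← b1, ← b2, ← b3]
      simp only [Gr, h1, h3]
      ring
    rw [h0, mul_zero] at h4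
    exact hG.ne' h4
  refine finite_of_ratio (S := S) (fun l hl => hl.1) 0 ?_
  refine ((p3p_finite c1 c2 c3 hΔ).image fun x : Fin 3 → ℝ =>
    (![1, 1, x 0 ^ 2, 1, x 1 ^ 2, x 2 ^ 2] : Fin 6 → ℝ)).subset ?_
  rintro _ ⟨l, hl, rfl⟩
  obtain ⟨b3, b2, b1⟩ := hlaw l hl
  obtain ⟨hlN, h1, h3, -, -, -⟩ := hl
  have hpos := (TT_facts hlN.1).1
  have p0 := hpos 0
  refine ⟨![l 2 / l 0, l 4 / l 0, l 5 / l 0], ⟨fun i => ?_, ?_, ?_, ?_⟩, ?_⟩
  · fin_cases i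
    · exact div_pos (hpos 2) p0
    · exact div_pos (hpos 4) p0
    · exact div_pos (hpos 5) p0
  · show (l 2 / l 0) ^ 2 + (l 4 / l 0) ^ 2 - 1 = 2 * (l 2 / l 0) * (l 4 / l 0) * c3
    field_simp
    linear_combination b3
  · show (l 2 / l 0) ^ 2 + (l 5 / l 0) ^ 2 - 1 = 2 * (l 2 / l 0) * (l 5 / l 0) * c2
    field_simp
    linear_combination b2
  · show (l 4 / l 0) ^ 2 + (l 5 / l 0) ^ 2 - 1 = 2 * (l 4 / l 0) * (l 5 / l 0) * c1
    field_simp
    linear_combination b1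
  · have p1 : l 0 ^ 2 ≠ 0 := by positivity
    funext i
    fin_cases i
    · show (1 : ℝ) = l 0 ^ 2 / l 0 ^ 2
      rw [div_self p1]
    · show (1 : ℝ) = l 1 ^ 2 / l 0 ^ 2
      rw [h1, div_self p1]
    · show (l 2 / l 0) ^ 2 = l 2 ^ 2 / l 0 ^ 2
      rw [div_pow]
    · show (1 : ℝ) = l 3 ^ 2 / l 0 ^ 2
      rw [h3, div_self p1]
    · show (l 4 / l 0) ^ 2 = l 4 ^ 2 / l 0 ^ 2
      rw [div_pow]
    · show (l 5 / l 0) ^ 2 = l 5 ^ 2 / l 0 ^ 2
      rw [div_pow]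

end Pool.Agent.Helper22.FF
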