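import Pool.Agent.Helper22.FF.Defs

/-!
FF-03 Basic.  Elementary facts about the angles of a tetrahedron.

PROOF. Everything is from `TT_facts` (TTFacts.lean): for `l ∈ TT`: `0 < l j`, `0 < D l v`,
`cos (al l j) = W l j / (√(D l (ec j)) * √(D l (ed j)))`,
`sin (al l j) = 4 * l j * √(Gr l) / (√(D l (ec j)) * √(D l (ed j)))`, `al l j ∈ Ioo 0 π`,
`det (GG (al l)) = 0`, adjugate entries positive, `Phi (al l) j = κ * l j` with `κ > 0`; `0 < Gr l` is
part of `l ∈ TT`. The identity `W² + 16 l² Gr = D D'` is `T4b.W_sq`.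
* `al_injOn`: if `al l = al l'` then `κ l j = Phi j = κ' l' j` for all `j`; sum over `j`: `κ = κ'`.
* `cos_sq_al`, `sin_sq_al`: square the formulas.
* `sin_sum01`: `al l 0` is at the edge `01` between the faces opposite to `2, 3` (`D l 2, D l 3`),
  `al l 1` at `02` between the faces opposite to `1, 3`. With `t = 4 l₀ √Gr` (the same for both edges
  as `l 1 = l 0`): `sin(al 0 + al 1) √D2 √D3 √D1 √D3 = t W1 + W0 t`. Square, `t² = 16 l₀² Gr`.
  `sin_sum24` (edges `03`: faces `D l 1, D l 2`; `13`: faces `D l 0, D l 2`), `sin_sum35` (edges `12`: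
  `D l 0, D l 3`; `23`: `D l 0, D l 1`) are the same.
* `finite_of_ratio`: the map `l ↦ (l i ^ 2 / l j ^ 2)_i` is injective on `Nm`: equal squared ratios give
  equal ratios `l i / l j` (positive), and `∑ l i = 1` gives `1 / l j = ∑ (l i / l j)`.
* `exists_inf_const_or_inj`: if all fibres of `f` in `S` are finite, then `f '' S` is infinite
  (otherwise `S` is a finite union of finite sets); choose one point in each fibre
  (`Set.exists_subset_bijOn` or a right inverse on the image).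
* `DD_eq_zero`: `t4_det` (Trig.lean) and `det = 0`. `PP_eq`: `Phi (al l) j = adj (ec j) (ed j) * sin`, the
  explicit entries are `t4_off` (Trig.lean), so `PP (cos al) (sin al) j = Phi (al l) j = κ l j`.
* `vertex3`: `TT_strict` gives `0 < sv (al l) v` and `0 ≤ gc (al l) c`; `sv (al l) 3 = al 2 + al 4 + al 5 - π`
and `sv (al l) 2 + gc (al l) 0 = π + al 5 - al 2 - al 4` (unfold the sums).
-/

open Real Set Pool.Agent.Helper1.Tet

namespace Pool.Agent.Helper22.FF

namespace BasicAux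

private theorem sum_sq (a b c t w w' : ℝ) (ha : 0 < a) (hb : 0 < b) (hc : 0 < c) :
    ((t / (b * c)) * (w' / (a * c)) + (w / (b * c)) * (t / (a * c))) ^ 2 *
      ((c ^ 2) ^ 2 * (a ^ 2 * b ^ 2)) = t ^ 2 * (w + w') ^ 2 := by
  field_simp
  ring

private theorem phi_PP (l : Fin 6 → ℝ) (j : Fin 6) :
    PP (fun m => cos (al l m)) (fun m => sin (al l m)) j = Phi (al l) j := by
  obtain ⟨h0, h1, h2, h3, h4, h5⟩ := t4_off (al l)
  fin_cases j
  · change _ = (GG (al l)).adjugate 2 3 * sin (al l 0)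
    rw [h0]
    simp only [PP]
    simp
    ring
  · change _ = (GG (al l)).adjugate 1 3 * sin (al l 1)
    rw [h1]
    simp only [PP]
    simp
    ring
  · change _ = (GG (al l)).adjugate 1 2 * sin (al l 2)
    rw [h2]
    simp only [PP]
    simp
    ring
  · change _ = (GG (al l)).adjugate 0 3 * sin (al l 3)
    rw [h3]
    simp only [PP]
    simp
    ring
  · change _ = (GG (al l)).adjugate 0 2 * sin (al l 4)
    rw [h4]
    simp only [PP]
    simp
    ring
  · change _ = (GG (al l)).adjugate 0 1 * sin (al l 5)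
    rw [h5]
    simp only [PP]
    simp
    ring

end BasicAux

theorem al_injOn : Set.InjOn al Nm := by
  intro l hl l' hl' h
  obtain ⟨-, -, -, -, -, -, -, -, κ, hκ, h1⟩ := TT_facts hl.1
  obtain ⟨-, -, -, -, -, -, -, -, κ', hκ', h2⟩ := TT_facts hl'.1
  have h3 : ∀ j, κ * l j = κ' * l' j := fun j => by rw [← h1, ← h2, h]
  have h4 : κ = κ' := by
    have h5 : ∑ j, κ * l j = ∑ j, κ' * l' j := Finset.sum_congr rfl fun j _ => h3 j
    rw [← Finset.mul_sum, ← Finset.mul_sum, hl.2, hl'.2, mul_one, mul_one] at h5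
    exact h5
  funext j
  have h5 := h3 j
  rw [← h4] at h5
  exact mul_left_cancel₀ hκ.ne' h5

theorem W_sq_add (l : Fin 6 → ℝ) (j : Fin 6) :
    W l j ^ 2 + 16 * l j ^ 2 * Gr l = D l (ec j) * D l (ed j) :=
  T4b.W_sq l j

theorem cos_sq_al {l : Fin 6 → ℝ} (hl : l ∈ TT) (j : Fin 6) :
    cos (al l j) ^ 2 * (D l (ec j) * D l (ed j)) = W l j ^ 2 := by
  obtain ⟨-, hD, hc, -⟩ := TT_facts hl
  have h1 := hD (ec j)
  have h2 := hD (ed j)
  rw [hc j, div_pow, mul_pow, Real.sq_sqrt h1.le, Real.sq_sqrt h2.le]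
  field_simp

theorem sin_sq_al {l : Fin 6 → ℝ} (hl : l ∈ TT) (j : Fin 6) :
    sin (al l j) ^ 2 * (D l (ec j) * D l (ed j)) = 16 * l j ^ 2 * Gr l := by
  have h1 := cos_sq_al hl j
  have h2 := W_sq_add l j
  have h3 := sin_sq_add_cos_sq (al l j)
  linear_combination (D l (ec j) * D l (ed j)) * h3 - h1 - h2

/-- the sum of two angles at edges of the same length (`01` and `02`) -/
theorem sin_sum01 {l : Fin 6 → ℝ} (hl : l ∈ TT) (h : l 1 = l 0) :
    sin (al l 0 + al l 1) ^ 2 * (D l 3 ^ 2 * (D l 1 * D l 2)) =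
      16 * l 0 ^ 2 * Gr l * (W l 0 + W l 1) ^ 2 := by
  obtain ⟨-, hD, hc, hs, -⟩ := TT_facts hl
  have hG : 0 < Gr l := hl.2
  have c0 : cos (al l 0) = W l 0 / (√(D l 2) * √(D l 3)) := hc 0
  have c1 : cos (al l 1) = W l 1 / (√(D l 1) * √(D l 3)) := hc 1
  have s0 : sin (al l 0) = 4 * l 0 * √(Gr l) / (√(D l 2) * √(D l 3)) := hs 0
  have s1 : sin (al l 1) = 4 * l 1 * √(Gr l) / (√(D l 1) * √(D l 3)) := hs 1
  rw [h] at s1
  have key := BasicAux.sum_sq (√(D l 1)) (√(D l 2)) (√(D l 3)) (4 * l 0 * √(Gr l)) (W l 0) (W l 1)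
    (Real.sqrt_pos.2 (hD 1)) (Real.sqrt_pos.2 (hD 2)) (Real.sqrt_pos.2 (hD 3))
  rw [← c0, ← c1, ← s0, ← s1, ← sin_add, Real.sq_sqrt (hD 1).le, Real.sq_sqrt (hD 2).le,
    Real.sq_sqrt (hD 3).le, mul_pow (4 * l 0), Real.sq_sqrt hG.le] at key
  rw [key]
  ring

/-- the same for the edges `03` and `13` -/
theorem sin_sum24 {l : Fin 6 → ℝ} (hl : l ∈ TT) (h : l 4 = l 2) :
    sin (al l 2 + al l 4) ^ 2 * (D l 2 ^ 2 * (D l 1 * D l 0)) =
      16 * l 2 ^ 2 * Gr l * (W l 2 + W l 4) ^ 2 := by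
  obtain ⟨-, hD, hc, hs, -⟩ := TT_facts hl
  have hG : 0 < Gr l := hl.2
  have c0 : cos (al l 2) = W l 2 / (√(D l 1) * √(D l 2)) := hc 2
  have c1 : cos (al l 4) = W l 4 / (√(D l 0) * √(D l 2)) := hc 4
  have s0 : sin (al l 2) = 4 * l 2 * √(Gr l) / (√(D l 1) * √(D l 2)) := hs 2
  have s1 : sin (al l 4) = 4 * l 4 * √(Gr l) / (√(D l 0) * √(D l 2)) := hs 4
  rw [h] at s1
  have key := BasicAux.sum_sq (√(D l 0)) (√(D l 1)) (√(D l 2)) (4 * l 2 * √(Gr l)) (W l 2) (W l 4)
    (Real.sqrt_pos.2 (hD 0)) (Real.sqrt_pos.2 (hD 1)) (Real.sqrt_pos.2 (hD 2))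
  rw [← c0, ← c1, ← s0, ← s1, ← sin_add, Real.sq_sqrt (hD 0).le, Real.sq_sqrt (hD 1).le,
    Real.sq_sqrt (hD 2).le, mul_pow (4 * l 2), Real.sq_sqrt hG.le] at key
  linear_combination key

/-- the same for the edges `12` and `23` -/
theorem sin_sum35 {l : Fin 6 → ℝ} (hl : l ∈ TT) (h : l 5 = l 3) :
    sin (al l 3 + al l 5) ^ 2 * (D l 0 ^ 2 * (D l 3 * D l 1)) =
      16 * l 3 ^ 2 * Gr l * (W l 3 + W l 5) ^ 2 := by
  obtain ⟨-, hD, hc, hs, -⟩ := TT_facts hl
  have hG : 0 < Gr l := hl.2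
  have c0 : cos (al l 3) = W l 3 / (√(D l 3) * √(D l 0)) := by
    rw [mul_comm]
    exact hc 3
  have c1 : cos (al l 5) = W l 5 / (√(D l 1) * √(D l 0)) := by
    rw [mul_comm]
    exact hc 5
  have s0 : sin (al l 3) = 4 * l 3 * √(Gr l) / (√(D l 3) * √(D l 0)) := by
    rw [mul_comm (√(D l 3))]
    exact hs 3
  have s1 : sin (al l 5) = 4 * l 5 * √(Gr l) / (√(D l 1) * √(D l 0)) := by
    rw [mul_comm (√(D l 1))]
    exact hs 5
  rw [h] at s1
  have key := BasicAux.sum_sq (√(D l 1)) (√(D l 3)) (√(D l 0)) (4 * l 3 * √(Gr l)) (W l 3) (W l 5)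
    (Real.sqrt_pos.2 (hD 1)) (Real.sqrt_pos.2 (hD 3)) (Real.sqrt_pos.2 (hD 0))
  rw [← c0, ← c1, ← s0, ← s1, ← sin_add, Real.sq_sqrt (hD 1).le, Real.sq_sqrt (hD 3).le,
    Real.sq_sqrt (hD 0).le, mul_pow (4 * l 3), Real.sq_sqrt hG.le] at key
  linear_combination key

/-- a subset of `Nm` whose squared length ratios take finitely many values is finite -/
theorem finite_of_ratio {S : Set (Fin 6 → ℝ)} (hS : S ⊆ Nm) (j : Fin 6)
    (h : ((fun (l : Fin 6 → ℝ) (i : Fin 6) => l i ^ 2 / l j ^ 2) '' S).Finite) : S.Finite := by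
  refine Set.Finite.of_finite_image h ?_
  intro l hl l' hl' he
  have hp := (TT_facts (hS hl).1).1
  have hp' := (TT_facts (hS hl').1).1
  have h1 : ∀ i, l i / l j = l' i / l' j := by
    intro i
    have h2 := congrFun he i
    simp only [← div_pow] at h2
    have h3 : 0 ≤ l i / l j := (div_pos (hp i) (hp j)).le
    have h4 : 0 ≤ l' i / l' j := (div_pos (hp' i) (hp' j)).le
    exact (pow_left_inj₀ h3 h4 two_ne_zero).1 h2
  have h2 : (l j)⁻¹ = (l' j)⁻¹ := by
    have h3 : ∑ i, l i / l j = ∑ i, l' i / l' j := Finset.sum_congr rfl fun i _ => h1 i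
    rw [← Finset.sum_div, ← Finset.sum_div, (hS hl).2, (hS hl').2, one_div, one_div] at h3
    exact h3
  have h3 : l j = l' j := inv_injective h2
  funext i
  have h4 := h1 i
  rw [← h3] at h4
  have h5 := (hp j).ne'
  field_simp at h4
  exact h4

/-- either a real function is constant on an infinite subset, or it is injective on one -/
theorem exists_inf_const_or_inj {X : Type*} {S : Set X} (hS : S.Infinite) (f : X → ℝ) :
    (∃ v, {x | x ∈ S ∧ f x = v}.Infinite) ∨ ∃ S' ⊆ S, S'.Infinite ∧ Set.InjOn f S' := by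
  by_cases hc : ∃ v, {x | x ∈ S ∧ f x = v}.Infinite
  · exact Or.inl hc
  · right
    push Not at hc
    have hinf : (f '' S).Infinite := by
      intro hfin
      refine hS ((hfin.biUnion fun v _ => hc v).subset fun x hx => ?_)
      simp only [Set.mem_iUnion]
      exact ⟨f x, ⟨x, hx, rfl⟩, hx, rfl⟩
    obtain ⟨S', hS', hb⟩ := (Set.surjOn_image f S).exists_bijOn_subset
    refine ⟨S', hS', ?_, hb.injOn⟩
    intro hfin
    apply hinf
    rw [← hb.image_eq]
    exact hfin.image f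

theorem DD_eq_zero {l : Fin 6 → ℝ} (hl : l ∈ TT) : DD (fun j => cos (al l j)) = 0 := by
  obtain ⟨-, -, -, -, -, h, -⟩ := TT_facts hl
  rw [t4_det] at h
  exact h

theorem PP_eq {l : Fin 6 → ℝ} (hl : l ∈ TT) {i j : Fin 6} (h : l i = l j) :
    PP (fun m => cos (al l m)) (fun m => sin (al l m)) i =
      PP (fun m => cos (al l m)) (fun m => sin (al l m)) j := by
  obtain ⟨-, -, -, -, -, -, -, -, κ, hκ, h1⟩ := TT_facts hl
  rw [BasicAux.phi_PP, BasicAux.phi_PP, h1, h1, h]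

/-- the complex form of `DD_eq_zero` -/
theorem DD_eq_zero_complex {l : Fin 6 → ℝ} (hl : l ∈ TT) :
    DD (fun j => (cos (al l j) : ℂ)) = 0 := by
  have h := DD_eq_zero hl
  have h2 : DD (fun j => (cos (al l j) : ℂ)) = ((DD (fun j => cos (al l j)) : ℝ) : ℂ) := by
    simp only [DD]
    push_cast
    ring
  rw [h2, h, Complex.ofReal_zero]

private theorem PP_cast (c s : Fin 6 → ℝ) (i : Fin 6) :
    PP (fun m => (c m : ℂ)) (fun m => (s m : ℂ)) i = ((PP c s i : ℝ) : ℂ) := by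
  fin_cases i <;> simp [PP]

/-- the complex form of `PP_eq` -/
theorem PP_eq_complex {l : Fin 6 → ℝ} (hl : l ∈ TT) {i j : Fin 6} (h : l i = l j) :
    PP (fun m => (cos (al l m) : ℂ)) (fun m => (sin (al l m) : ℂ)) i =
      PP (fun m => (cos (al l m) : ℂ)) (fun m => (sin (al l m) : ℂ)) j := by
  have h1 := PP_eq hl h
  rw [PP_cast (fun m => cos (al l m)) (fun m => sin (al l m)) i,
    PP_cast (fun m => cos (al l m)) (fun m => sin (al l m)) j, h1]

/-- cosine and sine through the exponential -/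
theorem cos_exp (t : ℝ) : (cos t : ℂ) =
    (Complex.exp (t * Complex.I) + (Complex.exp (t * Complex.I))⁻¹) / 2 := by
  rw [Complex.ofReal_cos, Complex.cos, ← Complex.exp_neg, neg_mul]

theorem sin_exp (t : ℝ) : (sin t : ℂ) =
    (Complex.exp (t * Complex.I) - (Complex.exp (t * Complex.I))⁻¹) / (2 * Complex.I) := by
  rw [Complex.ofReal_sin, Complex.sin, ← Complex.exp_neg, neg_mul]
  have h : Complex.I ^ 2 = -1 := Complex.I_sq
  have h2 := Complex.I_ne_zero
  field_simp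
  rw [h]
  ring

/-- the exponential is injective on the angles -/
theorem exp_injOn : Set.InjOn (fun t : ℝ => Complex.exp (t * Complex.I)) (Ioo 0 π) := by
  intro t ht s hs h
  have h1 := congrArg Complex.re h
  simp only [Complex.exp_ofReal_mul_I_re] at h1
  exact injOn_cos ⟨ht.1.le, ht.2.le⟩ ⟨hs.1.le, hs.2.le⟩ h1

/-- conditions at the vertices: the angle sum at a vertex is larger than `π` and the sum of two
angles minus the third is less than `π` -/
theorem vertex3 {l : Fin 6 → ℝ} (hl : l ∈ TT) :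
    π < al l 2 + al l 4 + al l 5 ∧ al l 2 + al l 4 < π + al l 5 := by
  obtain ⟨h1, h2⟩ := TT_strict hl
  have h3 := h1 3
  have h4 := h1 2
  have h5 := h2 0
  simp [sv, Fin.sum_univ_six, ea, eb] at h3 h4
  simp [gc, Fin.sum_univ_six, cl] at h5
  constructor <;> linarith

end Pool.Agent.Helper22.FF
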