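import Pool.Agent.Helper22.FF.Defs
import Pool.Agent.Helper1.Tet.Realize
import Pool.Agent.Helper1.Tet.Limit

/-!
FF-02 Relabel.  Permutations of the vertices.

PROOF. `es σ j = ix (σ (ea j)) (σ (eb j))`. `es_bijective`, `es_mul`, and the facts
`ix (ea j) (eb j) = j`, `ix a b = ix b a`: by `decide` (24 permutations of `Fin 4`, `Fin 6`).
`Nm_es`: `l ∈ TT` is `len p` for an affinely independent `p` (`exists_tet`), and
`fun j => len p (es σ j) = len (p ∘ σ)` (`t1_len_ix`, `σ (ea j) ≠ σ (eb j)`), `p ∘ σ` is affinely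
independent, so it is in `TT` by `len_mem_TT` (Dual.lean); the sum is invariant
(`Function.Bijective.sum_comp`). `al_es`: `al l j = arccos (W l j / (√(D l (ec j)) * √(D l (ed j))))`;
with `W_ix`, `D_ix`, `al_ix` of `Helper1.Tet.Limit` (which express `W l (ix a b)`, `D l d`, `al l (ix a b)`
through `l (ix _ _)` for four distinct labels) both sides are the same expression: for
`l' = fun j => l (es σ j)` we have `l' (ix a b) = l (ix (σ a) (σ b))` for `a ≠ b` (`decide`).
Alternatively by cases on `σ` and `j` and `simp`/`ring` (slow).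
`al_symm`: by `h` the vector `fun j => l (es σ j)` is `l`.
-/

open Real Set Pool.Agent.Helper1.Tet

namespace Pool.Agent.Helper22.FF

namespace RelabelAux

open LimitAux

lemma ea_ne_eb : ∀ j : Fin 6, ea j ≠ eb j := by decide

lemma ix_ea_eb : ∀ j : Fin 6, ix (ea j) (eb j) = j := by decide

lemma vert : ∀ j : Fin 6, ea j ≠ eb j ∧ ea j ≠ ec j ∧ ea j ≠ ed j ∧ eb j ≠ ec j ∧ eb j ≠ ed j ∧
    ec j ≠ ed j := by decide

lemma es_ix (σ : Equiv.Perm (Fin 4)) {a b : Fin 4} (hab : a ≠ b) :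
    es σ (ix a b) = ix (σ a) (σ b) := by
  have h : ∀ a b : Fin 4, a ≠ b → (ea (ix a b) = a ∧ eb (ix a b) = b) ∨
      (ea (ix a b) = b ∧ eb (ix a b) = a) := by decide
  unfold es
  rcases h a b hab with ⟨e1, e2⟩ | ⟨e1, e2⟩
  · rw [e1, e2]
  · rw [e1, e2, ix_symm]

lemma es_one (j : Fin 6) : es 1 j = j := by
  unfold es
  simp only [Equiv.Perm.coe_one, id_eq, ix_ea_eb]

end RelabelAux

open RelabelAux LimitAux

theorem es_mul (σ τ : Equiv.Perm (Fin 4)) (j : Fin 6) : es (σ * τ) j = es σ (es τ j) := by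
  have h : es σ (es τ j) = ix (σ (τ (ea j))) (σ (τ (eb j))) := by
    rw [show es τ j = ix (τ (ea j)) (τ (eb j)) from rfl]
    exact es_ix σ fun h => ea_ne_eb j (τ.injective h)
  rw [h]
  rfl

theorem es_bijective (σ : Equiv.Perm (Fin 4)) : Function.Bijective (es σ) := by
  refine Function.bijective_iff_has_inverse.2 ⟨es σ⁻¹, fun j => ?_, fun j => ?_⟩
  · rw [← es_mul, inv_mul_cancel, es_one]
  · rw [← es_mul, mul_inv_cancel, es_one]

theorem TT_es (σ : Equiv.Perm (Fin 4)) {l : Fin 6 → ℝ} (hl : l ∈ TT) :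
    (fun j => l (es σ j)) ∈ TT := by
  obtain ⟨p, hp, rfl⟩ := exists_tet hl
  have h : (fun j => len p (es σ j)) = len (p ∘ σ) := by
    funext j
    show len p (ix (σ (ea j)) (σ (eb j))) = dist (p (σ (ea j))) (p (σ (eb j)))
    exact t1_len_ix p _ _ fun h => ea_ne_eb j (σ.injective h)
  rw [h]
  exact len_mem_TT _ (hp.comp_embedding σ.toEmbedding)

theorem Nm_es (σ : Equiv.Perm (Fin 4)) {l : Fin 6 → ℝ} (hl : l ∈ Nm) :
    (fun j => l (es σ j)) ∈ Nm :=
  ⟨TT_es σ hl.1, ((es_bijective σ).sum_comp l).trans hl.2⟩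

theorem al_es (σ : Equiv.Perm (Fin 4)) (l : Fin 6 → ℝ) (j : Fin 6) :
    al (fun j => l (es σ j)) j = al l (es σ j) := by
  obtain ⟨hab, hac, had, hbc, hbd, hcd⟩ := vert j
  have hi : ∀ {a b : Fin 4}, a ≠ b → σ a ≠ σ b := fun h h' => h (σ.injective h')
  have hl : ∀ {a b : Fin 4}, a ≠ b → (fun j => l (es σ j)) (ix a b) = l (ix (σ a) (σ b)) :=
    fun h => congrArg l (es_ix σ h)
  have e1 : es σ j = ix (σ (ea j)) (σ (eb j)) := rfl
  have e2 : al (fun j => l (es σ j)) j = al (fun j => l (es σ j)) (ix (ea j) (eb j)) := by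
    rw [ix_ea_eb]
  rw [e1, e2, al_ix _ hab hac had hbc hbd hcd,
    al_ix _ (hi hab) (hi hac) (hi had) (hi hbc) (hi hbd) (hi hcd),
    W_ix _ hab hac had hbc hbd hcd,
    W_ix _ (hi hab) (hi hac) (hi had) (hi hbc) (hi hbd) (hi hcd),
    D_ix _ hab hac had hbc hbd hcd,
    D_ix _ (hi hab) (hi hac) (hi had) (hi hbc) (hi hbd) (hi hcd),
    D_ix _ hab had hac hbd hbc hcd.symm,
    D_ix _ (hi hab) (hi had) (hi hac) (hi hbd) (hi hbc) (hi hcd.symm)]
  simp only [hl hab, hl hac, hl had, hl hbc, hl hbd, hl hcd]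

/-- equal edges under a relabelling which preserves the lengths have equal angles -/
theorem al_symm (σ : Equiv.Perm (Fin 4)) {l : Fin 6 → ℝ} (h : ∀ j, l (es σ j) = l j)
    (j : Fin 6) : al l (es σ j) = al l j := by
  rw [← al_es σ l j, funext h]

end Pool.Agent.Helper22.FF
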