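import Pool.Agent.Helper22.FF.Basic
import Pool.Agent.Helper22.FF.Relabel

/-!
FF-04 Const.  Families with at most one varying pair of angles.

Notation: `c j = cos (al l j)`, `s j = sin (al l j)`, all `s j > 0`; `DD c = 0` (`DD_eq_zero`).
* `L0`: `al_injOn` (subsingleton).
* `L18`: let `y = al l 2`, `al l 3 = κ - y`. In `DD c` collect the powers of `Y = exp (i y)`:
`c 2 = (Y + Y⁻¹)/2`, `c 3 = (K Y⁻¹ + K⁻¹ Y)/2`, `K = exp (iκ)`. `DD` is a quadratic polynomial in `c 2, c 3` plus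
`c 2 ^ 2 * c 3 ^ 2`, so `Y ^ 4 * DD` is a polynomial in `Y` of degree 8 with leading coefficient
`K⁻² / 16 ≠ 0`: finitely many `Y`, hence finitely many `y ∈ (0, π)` (`exp_injOn`), hence finitely many angle
vectors and by `al_injOn` finitely many `l`. (A real version: `cos y cos (κ - y) = (cos κ + cos (2y - κ))/2`,
put `u = y - κ/2`; any way to see a nonzero polynomial is fine.)
* `L17`: let `x = al l 0`, `al l 1 = κ - x`, and write `a 2 .. a 5` for the constant angles,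
`c2 = cos (a 2)` etc. If the set is infinite then infinitely many `x` (as in `L18`), and `0 < κ < 2π`.
`DD c = F0 + F1 c0 + F2 c1 - s5² c0² - s4² c1² - 2 c0 c1 (c2 + c4 c5)` with
`F1 = -2 c3 (c4 + c2 c5)`, `F2 = -2 c3 (c5 + c2 c4)`, `F0 = 1 - c2² - c3² - c4² - c5² - 2 c2 c4 c5 + c2² c3²`.
`X ^ 2 * DD`, `X = exp (i x)`, is a polynomial of degree 4 in `X` with infinitely many roots, so with
`K = exp (iκ)`:
  (1) `s5² + K⁻² s4² + 2 K⁻¹ (c2 + c4 c5) = 0`,  (2) `F1 + K⁻¹ F2 = 0`,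
  (3) `F0 - (s4² + s5²)/2 - (c2 + c4 c5) cos κ = 0`.
(1) times `K`, real and imaginary parts: `(s5² + s4²) cos κ + 2 (c2 + c4 c5) = 0`, `(s5² - s4²) sin κ = 0`.
`Δ := 1 - c2² - c4² - c5² - 2 c2 c4 c5 > 0` (the adjugate entry `(3,3)`, `t4_adj` and `TT_facts`, for any `l` in
the set), and `s4² s5² - (c2 + c4 c5)² = Δ`. If `sin κ = 0` then `cos κ = -1` (as `0 < κ < 2π`), so
`4 (c2 + c4 c5)² = (s4² + s5²)² ≥ 4 s4² s5²`, contradicting `Δ > 0`. So `s4 = s5 =: s`,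
`c2 + c4 c5 = -s² cos κ`, `Δ = s⁴ sin² κ`. (2): imaginary part `F2 sin κ = 0`, so `F2 = 0`, `F1 = 0`. (3):
`F0 = s² sin² κ`, and `F0 = Δ - c3² s2²`. So `c3² s2² = -s² (1 - s²) sin² κ ≤ 0`, hence (`s2 > 0`) `c3 = 0` and
`s² = 1`, so `c4 = c5 = 0`. Then the adjugate entry `(0,1)`, which is (`t4_off`)
`c5 (1 - c0²) + c1 c3 + c2 c4 + c0 (c2 c3 + c1 c4) = 0`, contradicting `TT_facts` (`0 < adj (ec 5) (ed 5)`).
* `L17'`: there is `σ` with `es σ 0 = i`, `es σ 1 = j` (`decide`: adjacent edges are those of different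
classes `cl`); the map `l ↦ fun m => l (es σ m)` is injective and maps the set into the set of `L17`
(with `a' m = a (es σ m)`), `Nm_es`, `al_es`.
-/

open Real Set Pool.Agent.Helper1.Tet

namespace Pool.Agent.Helper22.FF

private theorem finite_trig (a0 a1 b1 a2 b2 : ℝ)
    (h : ¬ (a0 = 0 ∧ a1 = 0 ∧ b1 = 0 ∧ a2 = 0 ∧ b2 = 0)) :
    {x : ℝ | x ∈ Ioo 0 π ∧ a0 + a1 * cos x + b1 * sin x + a2 * cos (2 * x) +
      b2 * sin (2 * x) = 0}.Finite := by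
  let P : Polynomial ℂ := Polynomial.C (a2 - b2 * Complex.I) * Polynomial.X ^ 4 +
    Polynomial.C (a1 - b1 * Complex.I) * Polynomial.X ^ 3 +
    Polynomial.C (2 * a0 : ℂ) * Polynomial.X ^ 2 +
    Polynomial.C (a1 + b1 * Complex.I) * Polynomial.X + Polynomial.C (a2 + b2 * Complex.I)
  have hP : P ≠ 0 := by
    intro hP
    apply h
    have k2 : P.coeff 2 = 2 * a0 := by
      simp only [P, Polynomial.coeff_add, Polynomial.coeff_C_mul, Polynomial.coeff_X_pow,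
        Polynomial.coeff_X, Polynomial.coeff_C]
      norm_num
    have k1 : P.coeff 1 = a1 + b1 * Complex.I := by
      simp only [P, Polynomial.coeff_add, Polynomial.coeff_C_mul, Polynomial.coeff_X_pow,
        Polynomial.coeff_X, Polynomial.coeff_C]
      norm_num
    have k0 : P.coeff 0 = a2 + b2 * Complex.I := by
      simp [P]
    rw [hP, Polynomial.coeff_zero] at k0 k1 k2
    have r2 := congrArg Complex.re k2
    have r1 := congrArg Complex.re k1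
    have i1 := congrArg Complex.im k1
    have r0 := congrArg Complex.re k0
    have i0 := congrArg Complex.im k0
    simp at r2 r1 i1 r0 i0
    exact ⟨r2.symm ▸ rfl, r1.symm ▸ rfl, i1.symm ▸ rfl, r0.symm ▸ rfl, i0.symm ▸ rfl⟩
  refine Set.Finite.of_finite_image (f := fun t : ℝ => Complex.exp (t * Complex.I)) ?_
    (exp_injOn.mono fun x hx => hx.1)
  refine (P.roots.toFinset.finite_toSet).subset ?_
  rintro _ ⟨x, ⟨hx, hx2⟩, rfl⟩
  simp only [Finset.mem_coe, Multiset.mem_toFinset]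
  rw [Polynomial.mem_roots hP, Polynomial.IsRoot.def]
  set Z : ℂ := Complex.exp (x * Complex.I) with hZ
  have hZ0 : Z ≠ 0 := Complex.exp_ne_zero _
  have hc := cos_exp x
  have hs := sin_exp x
  have hc2 := cos_exp (2 * x)
  have hs2 := sin_exp (2 * x)
  have hZ2 : Complex.exp (((2 * x : ℝ) : ℂ) * Complex.I) = Z ^ 2 := by
    rw [hZ, ← Complex.exp_nat_mul]
    congr 1
    push_cast
    ring
  rw [hZ2] at hc2 hs2
  rw [← hZ] at hc hs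
  have h3 : ((a0 + a1 * cos x + b1 * sin x + a2 * cos (2 * x) + b2 * sin (2 * x) : ℝ) : ℂ) = 0 := by
    rw [hx2]
    simp
  have h4 : (a0 : ℂ) + a1 * (cos x : ℝ) + b1 * (sin x : ℝ) + a2 * (cos (2 * x) : ℝ) +
      b2 * (sin (2 * x) : ℝ) = 0 := by
    rw [← h3]
    push_cast
    ring
  rw [hc, hs, hc2, hs2] at h4
  have hI : Complex.I ≠ 0 := Complex.I_ne_zero
  have hI2 : Complex.I ^ 2 = -1 := Complex.I_sq
  have h5 : P.eval Z = 2 * Z ^ 2 * ((a0 : ℂ) + a1 * ((Z + Z⁻¹) / 2) +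
      b1 * ((Z - Z⁻¹) / (2 * Complex.I)) + a2 * ((Z ^ 2 + (Z ^ 2)⁻¹) / 2) +
      b2 * ((Z ^ 2 - (Z ^ 2)⁻¹) / (2 * Complex.I))) := by
    have e1 : (Z - Z⁻¹) / (2 * Complex.I) = -(Complex.I * (Z - Z⁻¹) / 2) := by
      field_simp
      rw [hI2]
      ring
    have e2 : (Z ^ 2 - (Z ^ 2)⁻¹) / (2 * Complex.I) = -(Complex.I * (Z ^ 2 - (Z ^ 2)⁻¹) / 2) := by
      field_simp
      rw [hI2]
      ring
    rw [e1, e2]
    simp only [P, Polynomial.eval_add, Polynomial.eval_mul, Polynomial.eval_C,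
      Polynomial.eval_pow, Polynomial.eval_X]
    field_simp
    ring
  rw [h5, h4, mul_zero]

theorem L0 (a : Fin 6 → ℝ) : {l | l ∈ Nm ∧ ∀ j, al l j = a j}.Finite := by
  refine Set.Subsingleton.finite ?_
  rintro l ⟨h1, h2⟩ l' ⟨h3, h4⟩
  exact al_injOn h1 h3 (funext fun j => by rw [h2, h4])

private theorem dd_trig (u v p q c2 c3 c4 c5 : ℝ) (hv : v ^ 2 + u ^ 2 = 1)
    (hq : q ^ 2 + p ^ 2 = 1)
    (hD : 1 - (u ^ 2 + (p * u + q * v) ^ 2 + c2 ^ 2 + c3 ^ 2 + c4 ^ 2 + c5 ^ 2)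
      + (u ^ 2 * c5 ^ 2 + (p * u + q * v) ^ 2 * c4 ^ 2 + c2 ^ 2 * c3 ^ 2)
      - 2 * (c2 * c4 * c5 + (p * u + q * v) * c3 * c5 + u * c3 * c4 + u * (p * u + q * v) * c2)
      - 2 * (u * c2 * c3 * c5 + u * (p * u + q * v) * c4 * c5 + (p * u + q * v) * c2 * c3 * c4)
        = 0) :
    (1 - c2 ^ 2 - c3 ^ 2 - c4 ^ 2 - c5 ^ 2 - 2 * c2 * c4 * c5 + c2 ^ 2 * c3 ^ 2 -
        ((1 - c4 ^ 2) + (1 - c5 ^ 2)) / 2 - (c2 + c4 * c5) * p) +
      (-2 * c3 * (c4 + c2 * c5) + -2 * c3 * (c5 + c2 * c4) * p) * u +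
      (-2 * c3 * (c5 + c2 * c4) * q) * v +
      (-((1 - c5 ^ 2) / 2) - (1 - c4 ^ 2) / 2 * (2 * p ^ 2 - 1) - (c2 + c4 * c5) * p) *
        (2 * u ^ 2 - 1) +
      (-((1 - c4 ^ 2) / 2) * (2 * q * p) - (c2 + c4 * c5) * q) * (2 * v * u) = 0 := by
  linear_combination hD + (1 - c4 ^ 2) * (1 - p ^ 2) * hv + (1 - c4 ^ 2) * v ^ 2 * hq

private theorem coeff_nz (p q c2 c3 c4 c5 s2 s4 s5 : ℝ) (hs2 : 0 < s2) (hs4 : 0 < s4)
    (q2 : s2 ^ 2 + c2 ^ 2 = 1) (q4 : s4 ^ 2 + c4 ^ 2 = 1) (q5 : s5 ^ 2 + c5 ^ 2 = 1)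
    (hq : q ^ 2 + p ^ 2 = 1)
    (hΔ : 0 < 1 - c2 ^ 2 - c4 ^ 2 - c5 ^ 2 - 2 * c2 * c4 * c5)
    (z1 : 1 - c2 ^ 2 - c3 ^ 2 - c4 ^ 2 - c5 ^ 2 - 2 * c2 * c4 * c5 + c2 ^ 2 * c3 ^ 2 -
        ((1 - c4 ^ 2) + (1 - c5 ^ 2)) / 2 - (c2 + c4 * c5) * p = 0)
    (z4 : -((1 - c5 ^ 2) / 2) - (1 - c4 ^ 2) / 2 * (2 * p ^ 2 - 1) - (c2 + c4 * c5) * p = 0)
    (z5 : -((1 - c4 ^ 2) / 2) * (2 * q * p) - (c2 + c4 * c5) * q = 0) :
    c3 = 0 ∧ c4 = 0 ∧ c5 = 0 := by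
  obtain ⟨m, hm⟩ : ∃ m, m = c2 + c4 * c5 := ⟨_, rfl⟩
  have h4 : 1 - c4 ^ 2 = s4 ^ 2 := by linarith
  have h5 : 1 - c5 ^ 2 = s5 ^ 2 := by linarith
  have h2 : 1 - c2 ^ 2 = s2 ^ 2 := by linarith
  have hΔ2 : 1 - c2 ^ 2 - c4 ^ 2 - c5 ^ 2 - 2 * c2 * c4 * c5 = s4 ^ 2 * s5 ^ 2 - m ^ 2 := by
    rw [← h4, ← h5, hm]
    ring
  rw [hΔ2] at hΔ
  rw [h4, h5, ← hm] at z1 z4
  rw [h4, ← hm] at z5
  have z5' : q * (s4 ^ 2 * p + m) = 0 := by linear_combination -z5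
  have z4' : s5 ^ 2 - s4 ^ 2 + 2 * p * (s4 ^ 2 * p + m) = 0 := by linear_combination (-2) * z4
  have hF0'' : 1 - c2 ^ 2 - c3 ^ 2 - c4 ^ 2 - c5 ^ 2 - 2 * c2 * c4 * c5 + c2 ^ 2 * c3 ^ 2 =
      s4 ^ 2 * s5 ^ 2 - m ^ 2 - c3 ^ 2 * s2 ^ 2 := by
    rw [← hΔ2, ← h2]
    ring
  rw [hF0''] at z1
  by_cases hsκ : q = 0
  · exfalso
    have hc2 : p ^ 2 = 1 := by rw [hsκ] at hq; linarith
    have h6 : s5 ^ 2 + s4 ^ 2 = -(2 * m * p) := by
      linear_combination z4' - 2 * s4 ^ 2 * hc2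
    have h7 : 4 * m ^ 2 = (s5 ^ 2 + s4 ^ 2) ^ 2 := by
      rw [h6]
      linear_combination (-4) * m ^ 2 * hc2
    nlinarith [sq_nonneg (s5 ^ 2 - s4 ^ 2)]
  · have hm2 : m = -(s4 ^ 2 * p) := by
      have := (mul_eq_zero.mp z5').resolve_left hsκ
      linarith
    have hs54 : s5 ^ 2 = s4 ^ 2 := by
      have : s4 ^ 2 * p + m = 0 := by linarith
      rw [this] at z4'
      linarith
    have hkey : c3 ^ 2 * s2 ^ 2 + s4 ^ 2 * (1 - s4 ^ 2) * q ^ 2 = 0 := by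
      rw [hs54, hm2] at z1
      have : q ^ 2 = 1 - p ^ 2 := by linarith
      rw [this]
      linear_combination (-1 : ℝ) * z1
    have h8 : 0 ≤ 1 - s4 ^ 2 := by nlinarith [sq_nonneg c4]
    have h9 : 0 ≤ c3 ^ 2 * s2 ^ 2 := by positivity
    have h10 : 0 ≤ s4 ^ 2 * (1 - s4 ^ 2) * q ^ 2 := by positivity
    have h11 : c3 ^ 2 * s2 ^ 2 = 0 := by linarith
    have h12 : s4 ^ 2 * (1 - s4 ^ 2) * q ^ 2 = 0 := by linarith
    have h13 : c3 = 0 := by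
      rcases mul_eq_zero.mp h11 with h | h
      · exact (pow_eq_zero_iff two_ne_zero).mp h
      · exact absurd ((pow_eq_zero_iff two_ne_zero).mp h) hs2.ne'
    have h14 : s4 ^ 2 = 1 := by
      rcases mul_eq_zero.mp h12 with h | h
      · rcases mul_eq_zero.mp h with h | h
        · exact absurd ((pow_eq_zero_iff two_ne_zero).mp h) hs4.ne'
        · linarith
      · exact absurd ((pow_eq_zero_iff two_ne_zero).mp h) hsκ
    have h15 : c4 = 0 := by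
      have : c4 ^ 2 = 0 := by linarith
      exact (pow_eq_zero_iff two_ne_zero).mp this
    have h16 : c5 = 0 := by
      have : c5 ^ 2 = 0 := by linarith
      exact (pow_eq_zero_iff two_ne_zero).mp this
    exact ⟨h13, h15, h16⟩

/-- two adjacent edges with constant sum of the angles, the other four angles constant -/
theorem L17 (κ : ℝ) (a : Fin 6 → ℝ) :
    {l | l ∈ Nm ∧ al l 0 + al l 1 = κ ∧ ∀ j, j ≠ 0 → j ≠ 1 → al l j = a j}.Finite := by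
  by_cases hne : {l | l ∈ Nm ∧ al l 0 + al l 1 = κ ∧
      ∀ j, j ≠ 0 → j ≠ 1 → al l j = a j}.Nonempty
  swap
  · rw [Set.not_nonempty_iff_eq_empty.mp hne]
    exact Set.finite_empty
  obtain ⟨c2, hc2⟩ : ∃ c, c = cos (a 2) := ⟨_, rfl⟩
  obtain ⟨c3, hc3⟩ : ∃ c, c = cos (a 3) := ⟨_, rfl⟩
  obtain ⟨c4, hc4⟩ : ∃ c, c = cos (a 4) := ⟨_, rfl⟩
  obtain ⟨c5, hc5⟩ : ∃ c, c = cos (a 5) := ⟨_, rfl⟩
  have hfin := finite_trig
    (1 - c2 ^ 2 - c3 ^ 2 - c4 ^ 2 - c5 ^ 2 - 2 * c2 * c4 * c5 + c2 ^ 2 * c3 ^ 2 -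
        ((1 - c4 ^ 2) + (1 - c5 ^ 2)) / 2 - (c2 + c4 * c5) * cos κ)
    (-2 * c3 * (c4 + c2 * c5) + -2 * c3 * (c5 + c2 * c4) * cos κ)
    (-2 * c3 * (c5 + c2 * c4) * sin κ)
    (-((1 - c5 ^ 2) / 2) - (1 - c4 ^ 2) / 2 * (2 * cos κ ^ 2 - 1) - (c2 + c4 * c5) * cos κ)
    (-((1 - c4 ^ 2) / 2) * (2 * sin κ * cos κ) - (c2 + c4 * c5) * sin κ) (by
    rintro ⟨z1, -, -, z4, z5⟩
    obtain ⟨l, ⟨hT, -⟩, hκ, ha⟩ := hne
    obtain ⟨-, -, -, -, hang, -, hd1, hd2, -⟩ := TT_facts hT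
    have e2 := ha 2 (by decide) (by decide)
    have e3 := ha 3 (by decide) (by decide)
    have e4 := ha 4 (by decide) (by decide)
    have e5 := ha 5 (by decide) (by decide)
    have s2 : 0 < sin (a 2) := by
      rw [← e2]; exact sin_pos_of_mem_Ioo (hang 2)
    have s4 : 0 < sin (a 4) := by
      rw [← e4]; exact sin_pos_of_mem_Ioo (hang 4)
    have hΔ := hd1 3
    rw [(t4_adj (al l)).2.2.2, e2, e4, e5, ← hc2, ← hc4, ← hc5] at hΔ
    obtain ⟨k3, k4, k5⟩ := coeff_nz (cos κ) (sin κ) c2 c3 c4 c5 (sin (a 2)) (sin (a 4))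
      (sin (a 5)) s2 s4 (by rw [hc2]; exact sin_sq_add_cos_sq _)
      (by rw [hc4]; exact sin_sq_add_cos_sq _) (by rw [hc5]; exact sin_sq_add_cos_sq _)
      (sin_sq_add_cos_sq _) hΔ z1 z4 z5
    have h17 : 0 < (GG (al l)).adjugate 0 1 := hd2 5
    obtain ⟨-, -, -, -, -, o5⟩ := t4_off (al l)
    rw [o5, e2, e3, e4, e5, ← hc2, ← hc3, ← hc4, ← hc5, k3, k4, k5] at h17
    simp at h17)
  refine Set.Finite.of_finite_image (f := fun l => al l 0) (hfin.subset ?_) ?_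
  · rintro _ ⟨l, ⟨⟨hT, -⟩, hκ, ha⟩, rfl⟩
    obtain ⟨-, -, -, -, hang, -, -, -, -⟩ := TT_facts hT
    refine ⟨hang 0, ?_⟩
    have e1 : al l 1 = κ - al l 0 := by linarith
    have e2 := ha 2 (by decide) (by decide)
    have e3 := ha 3 (by decide) (by decide)
    have e4 := ha 4 (by decide) (by decide)
    have e5 := ha 5 (by decide) (by decide)
    have hD := DD_eq_zero hT
    unfold DD at hD
    simp only [e1, e2, e3, e4, e5, ← hc2, ← hc3, ← hc4, ← hc5] at hD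
    rw [cos_sub] at hD
    change _ + _ * cos (al l 0) + _ * sin (al l 0) + _ * cos (2 * al l 0) +
      _ * sin (2 * al l 0) = 0
    rw [cos_two_mul, sin_two_mul]
    exact dd_trig (cos (al l 0)) (sin (al l 0)) (cos κ) (sin κ) c2 c3 c4 c5
      (sin_sq_add_cos_sq _) (sin_sq_add_cos_sq _) hD
  · rintro l ⟨h1, h2, h3⟩ l' ⟨h4, h5, h6⟩ h7
    refine al_injOn h1 h4 (funext fun j => ?_)
    have h7' : al l 0 = al l' 0 := h7
    by_cases hj0 : j = 0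
    · rw [hj0, h7']
    by_cases hj1 : j = 1
    · rw [hj1]; linarith
    rw [h3 j hj0 hj1, h6 j hj0 hj1]

/-- the same for any two edges `i j` with a common vertex -/
theorem L17' (i j : Fin 6) (hij : i ≠ j) (hc : cl i ≠ cl j) (κ : ℝ) (a : Fin 6 → ℝ) :
    {l | l ∈ Nm ∧ al l i + al l j = κ ∧ ∀ k, k ≠ i → k ≠ j → al l k = a k}.Finite := by
  obtain ⟨σ, hi, hj⟩ : ∃ σ : Equiv.Perm (Fin 4), es σ 0 = i ∧ es σ 1 = j := by
    revert i j
    decide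
  refine Set.Finite.of_finite_image (f := fun (l : Fin 6 → ℝ) (m : Fin 6) => l (es σ m))
    ((L17 κ (fun m => a (es σ m))).subset ?_) ?_
  · rintro _ ⟨l, ⟨h1, h2, h3⟩, rfl⟩
    refine ⟨Nm_es σ h1, ?_, fun m h4 h5 => ?_⟩
    · rw [al_es, al_es, hi, hj]
      exact h2
    · rw [al_es]
      exact h3 _ (fun h => h4 ((es_bijective σ).1 (h.trans hi.symm)))
        (fun h => h5 ((es_bijective σ).1 (h.trans hj.symm)))
  · intro l _ l' _ h
    funext k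
    obtain ⟨m, rfl⟩ := (es_bijective σ).2 k
    exact congrFun h m

/-- two opposite edges -/
theorem L18 (κ : ℝ) (a : Fin 6 → ℝ) :
    {l | l ∈ Nm ∧ al l 2 + al l 3 = κ ∧ ∀ j, j ≠ 2 → j ≠ 3 → al l j = a j}.Finite := by
  set K : ℂ := Complex.exp (κ * Complex.I) with hK
  have hK0 : K ≠ 0 := Complex.exp_ne_zero _
  let c : Fin 6 → ℂ := fun j => (cos (a j) : ℝ)
  let A : Polynomial ℂ := Polynomial.C (1 / 2) * (Polynomial.X ^ 2 + 1)
  let B : Polynomial ℂ := Polynomial.C (1 / 2) * (Polynomial.C K +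
    Polynomial.C K⁻¹ * Polynomial.X ^ 2)
  let P : Polynomial ℂ := A ^ 2 * B ^ 2 - Polynomial.X ^ 2 * A ^ 2 - Polynomial.X ^ 2 * B ^ 2 -
    Polynomial.C (2 * (c 4 * c 5 + c 0 * c 1)) * Polynomial.X ^ 3 * A -
    Polynomial.C (2 * (c 1 * c 5 + c 0 * c 4)) * Polynomial.X ^ 3 * B -
    Polynomial.C (2 * (c 0 * c 5 + c 1 * c 4)) * Polynomial.X ^ 2 * (A * B) +
    Polynomial.C (1 - (c 0 ^ 2 + c 1 ^ 2 + c 4 ^ 2 + c 5 ^ 2) + (c 0 ^ 2 * c 5 ^ 2 +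
      c 1 ^ 2 * c 4 ^ 2) - 2 * (c 0 * c 1 * c 4 * c 5)) * Polynomial.X ^ 4
  have hP : P ≠ 0 := by
    intro h
    have h1 : P.eval 0 = K ^ 2 / 16 := by
      simp [P, A, B]
      ring
    rw [h, Polynomial.eval_zero] at h1
    have : K ^ 2 ≠ 0 := pow_ne_zero 2 hK0
    apply this
    linear_combination (-16 : ℂ) * h1
  refine Set.Finite.of_finite_image (f := fun l => Complex.exp (al l 2 * Complex.I))
    ((P.roots.toFinset.finite_toSet).subset ?_) ?_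
  · rintro _ ⟨l, ⟨⟨hT, -⟩, hκ, ha⟩, rfl⟩
    simp only [Finset.mem_coe, Multiset.mem_toFinset]
    rw [Polynomial.mem_roots hP, Polynomial.IsRoot.def]
    set Z : ℂ := Complex.exp (al l 2 * Complex.I) with hZ
    have hZ0 : Z ≠ 0 := Complex.exp_ne_zero _
    have e3 : al l 3 = κ - al l 2 := by linarith
    have hE3 : Complex.exp (((al l 3 : ℝ) : ℂ) * Complex.I) = K * Z⁻¹ := by
      rw [e3, hK, hZ, ← Complex.exp_neg, ← Complex.exp_add]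
      congr 1
      push_cast
      ring
    have hc2 := cos_exp (al l 2)
    have hc3 := cos_exp (al l 3)
    rw [hE3] at hc3
    rw [← hZ] at hc2
    have hD := DD_eq_zero_complex hT
    unfold DD at hD
    have e0 := ha 0 (by decide) (by decide)
    have e1 := ha 1 (by decide) (by decide)
    have e4 := ha 4 (by decide) (by decide)
    have e5 := ha 5 (by decide) (by decide)
    simp only [e0, e1, e4, e5, hc2, hc3] at hD
    have h5 : P.eval Z = Z ^ 4 * (1 - (c 0 ^ 2 + c 1 ^ 2 + ((Z + Z⁻¹) / 2) ^ 2 +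
        ((K * Z⁻¹ + (K * Z⁻¹)⁻¹) / 2) ^ 2 + c 4 ^ 2 + c 5 ^ 2) + (c 0 ^ 2 * c 5 ^ 2 +
        c 1 ^ 2 * c 4 ^ 2 + ((Z + Z⁻¹) / 2) ^ 2 * ((K * Z⁻¹ + (K * Z⁻¹)⁻¹) / 2) ^ 2) -
        2 * ((Z + Z⁻¹) / 2 * c 4 * c 5 + c 1 * ((K * Z⁻¹ + (K * Z⁻¹)⁻¹) / 2) * c 5 +
          c 0 * ((K * Z⁻¹ + (K * Z⁻¹)⁻¹) / 2) * c 4 + c 0 * c 1 * ((Z + Z⁻¹) / 2)) -
        2 * (c 0 * ((Z + Z⁻¹) / 2) * ((K * Z⁻¹ + (K * Z⁻¹)⁻¹) / 2) * c 5 +
          c 0 * c 1 * c 4 * c 5 +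
          c 1 * ((Z + Z⁻¹) / 2) * ((K * Z⁻¹ + (K * Z⁻¹)⁻¹) / 2) * c 4)) := by
      simp only [P, A, B, Polynomial.eval_add, Polynomial.eval_sub, Polynomial.eval_mul,
        Polynomial.eval_C, Polynomial.eval_pow, Polynomial.eval_X, Polynomial.eval_one]
      field_simp
      ring
    rw [h5, hD, mul_zero]
  · rintro l ⟨h1, h2, h3⟩ l' ⟨h4, h5, h6⟩ h7
    obtain ⟨-, -, -, -, hang, -, -, -, -⟩ := TT_facts h1.1
    obtain ⟨-, -, -, -, hang', -, -, -, -⟩ := TT_facts h4.1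
    have h7' : al l 2 = al l' 2 := exp_injOn (hang 2) (hang' 2) h7
    refine al_injOn h1 h4 (funext fun j => ?_)
    by_cases hj0 : j = 2
    · rw [hj0, h7']
    by_cases hj1 : j = 3
    · rw [hj1]; linarith
    rw [h3 j hj0 hj1, h6 j hj0 hj1]

end Pool.Agent.Helper22.FF
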