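import Pool.Agent.Helper22.FF.Basic
import Pool.Agent.Helper22.FF.Place

/-!
FF-08 Eight.  `01 = 02`, `03 = 13`, `12 = 23`, the sums of the angles at these pairs constant.

PROOF. `A = l₀² = l₁²`, `B = l₂² = l₄²`, `C = l₃² = l₅²`. `D 3 = C (4A - C)`, `D 2 = A (4B - A)`, `D 0 = B (4C - B)`,
`D 1 =: d > 0`. `W 0 + W 1 = C (2A + B - C)`, `W 2 + W 4 = A (2B + C - A)`, `W 3 + W 5 = B (2C + A - B)`. With
`u = 4A - C`, `v = 4B - A`, `w = 4C - B` (positive), `p = 2A + B - C`, `q = 2B + C - A`, `r = 2C + A - B` the lemmas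
`sin_sum01, sin_sum24, sin_sum35` become (dividing by positive factors)
 `sin²κ u² v d = 16 Gr p²`, `sin²lam v² w d = 16 Gr q²`, `sin²μ w² u d = 16 Gr r²`.
And `9p = 5u + 2v - w`, `9q = 5v + 2w - u`, `9r = 5w + 2u - v`; `(u, v, w)` determines `(A, B, C)`.
Case 1: `sin κ, sin lam, sin μ ≠ 0`. Divide: `sin²κ u² q² = sin²lam v w p²`, `sin²lam v² r² = sin²μ w u q²`. With
`x = √(u/w)`, `y = √(v/w)` (so `w = 1` after scaling; `p, q, r` divided by `w`), taking roots: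
 `a x² q = ε y p`, `b y² r = ε' x q` with `ε, ε' ∈ {1, -1}`, `a = |sin κ / sin lam|`, `b = |sin lam / sin μ|`,
 `9p = 5x² + 2y² - 1`, `9q = 5y² + 2 - x²`, `9r = 5 + 2x² - y²`.
This is `eight_finite` below (for each of the four sign choices). Its proof: suppose infinitely many `(x, y)`; one of
`x, y` takes infinitely many values, take the place `P` (`exists_pl`) on an infinite subset where it is
injective. If `x⁻¹ → 0` and `y/x → τ`: divide the first equation by `x⁴`: `a (5τ² - 1) = 0`; the second by `x⁴`: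
`b τ² (2 - τ²) = 0`: contradiction (`5τ² = 1` and `τ = 0` or `τ² = 2`; characteristic zero). Otherwise `y⁻¹ → 0` and
`x/y → 0` (either `y/x` has no limit, or `x` has a limit and `y` has none), divide the second by `y⁴`: `-b = 0`.
Case 2: `sin κ = 0`: then `p = 0`, `C = 2A + B`. If also `sin lam = 0` then `q = 0`: `C = A - 2B`, so `A = -3B`, impossible. So
`sin lam ≠ 0` and with `t = A/B`, `B = 1`, `C = 2t + 1`: `sin²lam (4 - t)² (4C - 1) d = 16 Gr q²`, a polynomial equation in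
`t`; at `t = 4`: `C = 9`, left side `0`, `16 Gr = d · D2 / B - W2²/B = -14² = -196` (`W_sq_add 2`: `W2² + 16 B Gr = D1 D2`,
`D2 = 0`, `W2 = -2BC + 3AB + AC - A² = 14`), `q = 2 + 9 - 4 = 7`: right side `≠ 0`. So finitely many `t`.
Cases 3, 4: `sin lam = 0` and `sin μ = 0` are the same after the cyclic exchange `A → B → C → A` (`κ → lam → μ → κ`):
`sin lam = 0`: `q = 0`, `A = 2B + C`, use the third equation; `sin μ = 0`: `r = 0`, `B = 2C + A`, use the first.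
Finally `finite_of_ratio`.
-/

open Real Set Pool.Agent.Helper1.Tet

namespace Pool.Agent.Helper22.FF

namespace EightAux

/-- change of the function and of the limit -/
private theorem lim_congr {ι : Type} (P : Pl ι) {f g : ι → ℂ} {a b : P.k} (h : P.Lim f a)
    (hf : ∀ i, f i = g i) (hab : a = b) : P.Lim g b := by
  have h1 : f = g := funext hf
  rw [← h1, ← hab]
  exact h

/-- numerals -/
private theorem lim_nat {ι : Type} (P : Pl ι) (n : ℕ) : P.Lim (fun _ => (n : ℂ)) (n : P.k) :=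
  lim_congr P (P.const (n : ℂ)) (fun _ => rfl) (map_natCast P.j n)

/-- one variable: cubic equations -/
private theorem cubic_fin (c0 c1 c2 c3 : ℝ) (h : c3 ≠ 0) :
    {y : ℝ | c3 * y ^ 3 + c2 * y ^ 2 + c1 * y + c0 = 0}.Finite := by
  have hp : (Polynomial.C c3 * Polynomial.X ^ 3 + Polynomial.C c2 * Polynomial.X ^ 2 +
      Polynomial.C c1 * Polynomial.X + Polynomial.C c0 : Polynomial ℝ) ≠ 0 := by
    intro h0
    have h1 := congrArg (fun p : Polynomial ℝ => p.coeff 3) h0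
    simp [Polynomial.coeff_X_pow] at h1
    exact h h1
  refine (Polynomial.finite_setOfPred_isRoot hp).subset ?_
  intro y hy
  have hy' : c3 * y ^ 3 + c2 * y ^ 2 + c1 * y + c0 = 0 := hy
  show Polynomial.IsRoot _ y
  simpa [Polynomial.IsRoot] using hy'

/-- the two quartics have no common points at infinity -/
private theorem no_inf {ι : Type} [Infinite ι] (x y : ι → ℂ) (hx : Function.Injective x)
    (hx0 : ∀ i, x i ≠ 0) (hy0 : ∀ i, y i ≠ 0) (a b : ℂ) (ha : a ≠ 0) (hb : b ≠ 0)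
    (e1 : ∀ i, a * x i ^ 2 * (5 * y i ^ 2 + 2 - x i ^ 2) = y i * (5 * x i ^ 2 + 2 * y i ^ 2 - 1))
    (e2 : ∀ i, b * y i ^ 2 * (5 + 2 * x i ^ 2 - y i ^ 2) = x i * (5 * y i ^ 2 + 2 - x i ^ 2)) :
    False := by
  obtain ⟨P, hP⟩ := exists_pl x hx hx0
  have hcz := P.charZero
  have l5 : P.Lim (fun _ => (5 : ℂ)) 5 := lim_nat P 5
  have l2 : P.Lim (fun _ => (2 : ℂ)) 2 := lim_nat P 2
  have l1 : P.Lim (fun _ => (1 : ℂ)) 1 := lim_congr P (lim_nat P 1) (fun _ => by simp) (by simp)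
  have hja : P.j a ≠ 0 := by
    rw [Ne, map_eq_zero]
    exact ha
  have hjb : P.j b ≠ 0 := by
    rw [Ne, map_eq_zero]
    exact hb
  rcases P.dich (fun i => y i / x i) (fun i => div_ne_zero (hy0 i) (hx0 i)) with ⟨τ, hτ⟩ | hτ
  · have a1 := P.mul (P.const a) (P.sub (P.add (P.mul l5 (P.pow hτ 2)) (P.mul l2 (P.pow hP 2))) l1)
    have a2 := P.mul hτ (P.sub (P.add (P.mul l5 hP) (P.mul l2 (P.mul (P.pow hτ 2) hP))) (P.pow hP 3))
    have a3 := P.uniq (lim_congr P a1 (g := fun i => y i / x i *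
        (5 * (x i)⁻¹ + 2 * ((y i / x i) ^ 2 * (x i)⁻¹) - (x i)⁻¹ ^ 3)) (fun i => by
      have h1 := hx0 i
      have h2 := e1 i
      field_simp
      linear_combination h2) rfl) a2
    have b1 := P.mul (P.const b) (P.mul (P.pow hτ 2) (P.sub (P.add (P.mul l5 (P.pow hP 2)) l2) (P.pow hτ 2)))
    have b2 := P.sub (P.add (P.mul l5 (P.mul (P.pow hτ 2) hP)) (P.mul l2 (P.pow hP 3))) hP
    have b3 := P.uniq (lim_congr P b1 (g := fun i => 5 * ((y i / x i) ^ 2 * (x i)⁻¹) +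
        2 * (x i)⁻¹ ^ 3 - (x i)⁻¹) (fun i => by
      have h1 := hx0 i
      have h2 := e2 i
      field_simp
      linear_combination h2) rfl) b2
    have a4 : 5 * τ ^ 2 - 1 = 0 := by
      have h : P.j a * (5 * τ ^ 2 - 1) = 0 := by linear_combination a3
      exact (mul_eq_zero.1 h).resolve_left hja
    have b4 : τ ^ 2 * (2 - τ ^ 2) = 0 := by
      have h : P.j b * (τ ^ 2 * (2 - τ ^ 2)) = 0 := by linear_combination b3
      exact (mul_eq_zero.1 h).resolve_left hjb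
    have h9 : (9 : P.k) = 0 := by linear_combination 25 * b4 - (9 - 5 * τ ^ 2) * a4
    exact absurd h9 (by norm_num)
  · have hτ' : P.Lim (fun i => x i / y i) 0 := lim_congr P hτ (fun i => inv_div _ _) rfl
    have hyi : P.Lim (fun i => (y i)⁻¹) 0 := lim_congr P (P.mul hτ' hP) (fun i => by
      have h1 := hx0 i
      field_simp) (by simp)
    have b1 := P.mul (P.const b) (P.sub (P.add (P.mul l5 (P.pow hyi 2)) (P.mul l2 (P.pow hτ' 2))) l1)
    have b2 := P.mul hτ' (P.sub (P.add (P.mul l5 hyi) (P.mul l2 (P.pow hyi 3))) (P.mul (P.pow hτ' 2) hyi))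
    have b3 := P.uniq (lim_congr P b1 (g := fun i => x i / y i *
        (5 * (y i)⁻¹ + 2 * (y i)⁻¹ ^ 3 - (x i / y i) ^ 2 * (y i)⁻¹)) (fun i => by
      have h1 := hy0 i
      have h2 := e2 i
      field_simp
      linear_combination h2) rfl) b2
    exact hjb (by linear_combination -b3)

end EightAux

open EightAux

theorem eight_finite (a b : ℝ) (ha : a ≠ 0) (hb : b ≠ 0) :
    {z : ℝ × ℝ | 0 < z.1 ∧ 0 < z.2 ∧
      a * z.1 ^ 2 * (5 * z.2 ^ 2 + 2 - z.1 ^ 2) = z.2 * (5 * z.1 ^ 2 + 2 * z.2 ^ 2 - 1) ∧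
      b * z.2 ^ 2 * (5 + 2 * z.1 ^ 2 - z.2 ^ 2) = z.1 * (5 * z.2 ^ 2 + 2 - z.1 ^ 2)}.Finite := by
  by_contra hinf
  rcases exists_inf_const_or_inj hinf (fun z : ℝ × ℝ => z.1) with ⟨v, hv⟩ | ⟨S', hS, hSi, hinj⟩
  · refine hv (((cubic_fin (a * v ^ 2 * (2 - v ^ 2)) (1 - 5 * v ^ 2) (5 * a * v ^ 2) (-2)
      (by norm_num)).image fun y => (v, y)).subset ?_)
    rintro ⟨x, y⟩ ⟨⟨-, -, h1, -⟩, h2⟩
    simp only at h1 h2
    subst h2
    refine ⟨y, ?_, rfl⟩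
    show _ = _
    linear_combination h1
  · have : Infinite S' := hSi.to_subtype
    refine no_inf (ι := S') (fun i => ((i.1.1 : ℝ) : ℂ)) (fun i => ((i.1.2 : ℝ) : ℂ)) ?_ ?_ ?_ (a : ℂ) (b : ℂ)
      (by exact_mod_cast ha) (by exact_mod_cast hb) ?_ ?_
    · intro i j hij
      have h1 : i.1.1 = j.1.1 := Complex.ofReal_injective hij
      exact Subtype.ext (hinj i.2 j.2 h1)
    · intro i
      have := (hS i.2).1
      exact_mod_cast this.ne'
    · intro i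
      have := (hS i.2).2.1
      exact_mod_cast this.ne'
    · intro i
      have := (hS i.2).2.2.1
      exact_mod_cast this
    · intro i
      have := (hS i.2).2.2.2
      exact_mod_cast this

namespace EightAux

/-- the algebraic facts about the tetrahedra of this type; `A B C` are the squared lengths -/
private structure Fc (A B C k m n : ℝ) : Prop where
  hA : 0 < A
  hB : 0 < B
  hC : 0 < C
  hu : 0 < 4 * A - C
  hv : 0 < 4 * B - A
  hw : 0 < 4 * C - B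
  hd : 0 < 2 * (A * B + B * C + C * A) - A ^ 2 - B ^ 2 - C ^ 2
  hg : 0 < 5 * A * B * C - A * B ^ 2 - B * C ^ 2 - C * A ^ 2
  e1 : k ^ 2 * (4 * A - C) ^ 2 * (4 * B - A) * (2 * (A * B + B * C + C * A) - A ^ 2 - B ^ 2 - C ^ 2) =
    4 * (5 * A * B * C - A * B ^ 2 - B * C ^ 2 - C * A ^ 2) * (2 * A + B - C) ^ 2
  e2 : m ^ 2 * (4 * B - A) ^ 2 * (4 * C - B) * (2 * (A * B + B * C + C * A) - A ^ 2 - B ^ 2 - C ^ 2) =
    4 * (5 * A * B * C - A * B ^ 2 - B * C ^ 2 - C * A ^ 2) * (2 * B + C - A) ^ 2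
  e3 : n ^ 2 * (4 * C - B) ^ 2 * (4 * A - C) * (2 * (A * B + B * C + C * A) - A ^ 2 - B ^ 2 - C ^ 2) =
    4 * (5 * A * B * C - A * B ^ 2 - B * C ^ 2 - C * A ^ 2) * (2 * C + A - B) ^ 2

/-- cyclic symmetry -/
private theorem Fc.rot {A B C k m n : ℝ} (h : Fc A B C k m n) : Fc B C A m n k := by
  obtain ⟨hA, hB, hC, hu, hv, hw, hd, hg, e1, e2, e3⟩ := h
  exact ⟨hB, hC, hA, hv, hw, hu, by linarith, by linarith, by linear_combination e2,
    by linear_combination e3, by linear_combination e1⟩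

private theorem fc {l : Fin 6 → ℝ} (hl : l ∈ TT) (h1 : l 1 = l 0) (h4 : l 4 = l 2) (h5 : l 5 = l 3) :
    Fc (l 0 ^ 2) (l 2 ^ 2) (l 3 ^ 2) (sin (al l 0 + al l 1)) (sin (al l 2 + al l 4))
      (sin (al l 3 + al l 5)) := by
  obtain ⟨hp, hD, -⟩ := TT_facts hl
  have hG : 0 < Gr l := hl.2
  have hA : 0 < l 0 ^ 2 := pow_pos (hp 0) 2
  have hB : 0 < l 2 ^ 2 := pow_pos (hp 2) 2
  have hC : 0 < l 3 ^ 2 := pow_pos (hp 3) 2
  have d3 : D l 3 = l 3 ^ 2 * (4 * l 0 ^ 2 - l 3 ^ 2) := by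
    simp [D, heron, h1]
    ring
  have d2 : D l 2 = l 0 ^ 2 * (4 * l 2 ^ 2 - l 0 ^ 2) := by
    simp [D, heron, h4]
    ring
  have d0 : D l 0 = l 2 ^ 2 * (4 * l 3 ^ 2 - l 2 ^ 2) := by
    simp [D, heron, h4, h5]
    ring
  have d1 : D l 1 = 2 * (l 0 ^ 2 * l 2 ^ 2 + l 2 ^ 2 * l 3 ^ 2 + l 3 ^ 2 * l 0 ^ 2) - (l 0 ^ 2) ^ 2 -
      (l 2 ^ 2) ^ 2 - (l 3 ^ 2) ^ 2 := by
    simp [D, heron, h1, h5]
    ring
  have g : 4 * Gr l = 5 * l 0 ^ 2 * l 2 ^ 2 * l 3 ^ 2 - l 0 ^ 2 * (l 2 ^ 2) ^ 2 - l 2 ^ 2 * (l 3 ^ 2) ^ 2 -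
      l 3 ^ 2 * (l 0 ^ 2) ^ 2 := by
    simp only [Gr, h1, h4, h5]
    ring
  have w01 : W l 0 + W l 1 = l 3 ^ 2 * (2 * l 0 ^ 2 + l 2 ^ 2 - l 3 ^ 2) := by
    simp only [W, wform, ea, eb, ec, ed, ix]
    simp [h1, h4, h5]
    ring
  have w24 : W l 2 + W l 4 = l 0 ^ 2 * (2 * l 2 ^ 2 + l 3 ^ 2 - l 0 ^ 2) := by
    simp only [W, wform, ea, eb, ec, ed, ix]
    simp [h1, h4, h5]
    ring
  have w35 : W l 3 + W l 5 = l 2 ^ 2 * (2 * l 3 ^ 2 + l 0 ^ 2 - l 2 ^ 2) := by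
    simp only [W, wform, ea, eb, ec, ed, ix]
    simp [h1, h4, h5]
    ring
  have q0 := hD 0
  have q1 := hD 1
  have q2 := hD 2
  have q3 := hD 3
  rw [d0] at q0
  rw [d1] at q1
  rw [d2] at q2
  rw [d3] at q3
  have s1 := sin_sum01 hl h1
  have s2 := sin_sum24 hl h4
  have s3 := sin_sum35 hl h5
  rw [w01, d1, d2, d3] at s1
  rw [w24, d1, d2, d0] at s2
  rw [w35, d1, d0, d3] at s3
  generalize sin (al l 0 + al l 1) = k at s1 ⊢
  generalize sin (al l 2 + al l 4) = m at s2 ⊢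
  generalize sin (al l 3 + al l 5) = n at s3 ⊢
  generalize l 0 ^ 2 = A at *
  generalize l 2 ^ 2 = B at *
  generalize l 3 ^ 2 = C at *
  refine ⟨hA, hB, hC, pos_of_mul_pos_right q3 hC.le, pos_of_mul_pos_right q2 hA.le,
    pos_of_mul_pos_right q0 hB.le, q1, by linarith, ?_, ?_, ?_⟩
  · have h : C ^ 2 * A * (k ^ 2 * (4 * A - C) ^ 2 * (4 * B - A) *
        (2 * (A * B + B * C + C * A) - A ^ 2 - B ^ 2 - C ^ 2)) = C ^ 2 * A *
        (4 * (5 * A * B * C - A * B ^ 2 - B * C ^ 2 - C * A ^ 2) * (2 * A + B - C) ^ 2) := by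
      rw [← g]
      linear_combination s1
    exact mul_left_cancel₀ (by positivity) h
  · have h : A ^ 2 * B * (m ^ 2 * (4 * B - A) ^ 2 * (4 * C - B) *
        (2 * (A * B + B * C + C * A) - A ^ 2 - B ^ 2 - C ^ 2)) = A ^ 2 * B *
        (4 * (5 * A * B * C - A * B ^ 2 - B * C ^ 2 - C * A ^ 2) * (2 * B + C - A) ^ 2) := by
      rw [← g]
      linear_combination s2
    exact mul_left_cancel₀ (by positivity) h
  · have h : B ^ 2 * C * (n ^ 2 * (4 * C - B) ^ 2 * (4 * A - C) *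
        (2 * (A * B + B * C + C * A) - A ^ 2 - B ^ 2 - C ^ 2)) = B ^ 2 * C *
        (4 * (5 * A * B * C - A * B ^ 2 - B * C ^ 2 - C * A ^ 2) * (2 * C + A - B) ^ 2) := by
      rw [← g]
      linear_combination s3
    exact mul_left_cancel₀ (by positivity) h

/-- the polynomial of the degenerate cases -/
private theorem deg_fin (s : ℝ) : {t : ℝ | s ^ 2 * (4 - t) ^ 2 * (8 * t + 3) * (t * (4 - t)) =
    4 * (5 * t ^ 2 - 2 * t ^ 3 - 1) * (t + 3) ^ 2}.Finite := by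
  have hp : (Polynomial.C (s ^ 2) * (4 - Polynomial.X) ^ 2 * (8 * Polynomial.X + 3) *
      (Polynomial.X * (4 - Polynomial.X)) -
      4 * (5 * Polynomial.X ^ 2 - 2 * Polynomial.X ^ 3 - 1) * (Polynomial.X + 3) ^ 2 : Polynomial ℝ) ≠ 0 := by
    intro h0
    have h1 := congrArg (fun p : Polynomial ℝ => p.eval 0) h0
    simp at h1
  refine (Polynomial.finite_setOfPred_isRoot hp).subset ?_
  intro t ht
  have ht' : s ^ 2 * (4 - t) ^ 2 * (8 * t + 3) * (t * (4 - t)) =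
    4 * (5 * t ^ 2 - 2 * t ^ 3 - 1) * (t + 3) ^ 2 := ht
  show Polynomial.IsRoot _ t
  simp [Polynomial.IsRoot, ht']

/-- the first degenerate case: the ratio of the squared lengths -/
private theorem Fc.deg {A B C m n : ℝ} (h : Fc A B C 0 m n) :
    C / B = 2 * (A / B) + 1 ∧ m ^ 2 * (4 - A / B) ^ 2 * (8 * (A / B) + 3) * (A / B * (4 - A / B)) =
    4 * (5 * (A / B) ^ 2 - 2 * (A / B) ^ 3 - 1) * (A / B + 3) ^ 2 := by
  obtain ⟨hA, hB, hC, hu, hv, hw, hd, hg, e1, e2, e3⟩ := h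
  have hp : 2 * A + B - C = 0 := by
    have h : 4 * (5 * A * B * C - A * B ^ 2 - B * C ^ 2 - C * A ^ 2) * (2 * A + B - C) ^ 2 = 0 := by
      linear_combination -e1
    have h' := (mul_eq_zero.1 h).resolve_left (by positivity)
    exact pow_eq_zero_iff (two_ne_zero) |>.1 h'
  have hC' : C = 2 * A + B := by linarith
  subst hC'
  refine ⟨by field_simp, ?_⟩
  field_simp
  linear_combination e2

/-- the generic case -/
private theorem Fc.gen {A B C k m n : ℝ} (h : Fc A B C k m n) (hm : m ≠ 0) (hn : n ≠ 0) :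
    ∃ e e' : Bool,
      (if e then k / m else -(k / m)) * √((4 * A - C) / (4 * C - B)) ^ 2 *
        (5 * √((4 * B - A) / (4 * C - B)) ^ 2 + 2 - √((4 * A - C) / (4 * C - B)) ^ 2) =
        √((4 * B - A) / (4 * C - B)) *
        (5 * √((4 * A - C) / (4 * C - B)) ^ 2 + 2 * √((4 * B - A) / (4 * C - B)) ^ 2 - 1) ∧
      (if e' then m / n else -(m / n)) * √((4 * B - A) / (4 * C - B)) ^ 2 *
        (5 + 2 * √((4 * A - C) / (4 * C - B)) ^ 2 - √((4 * B - A) / (4 * C - B)) ^ 2) =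
        √((4 * A - C) / (4 * C - B)) *
        (5 * √((4 * B - A) / (4 * C - B)) ^ 2 + 2 - √((4 * A - C) / (4 * C - B)) ^ 2) := by
  obtain ⟨hA, hB, hC, hu, hv, hw, hd, hg, e1, e2, e3⟩ := h
  have x2 : √((4 * A - C) / (4 * C - B)) ^ 2 = (4 * A - C) / (4 * C - B) := sq_sqrt (div_pos hu hw).le
  have y2 : √((4 * B - A) / (4 * C - B)) ^ 2 = (4 * B - A) / (4 * C - B) := sq_sqrt (div_pos hv hw).le
  generalize √((4 * A - C) / (4 * C - B)) = x at *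
  generalize √((4 * B - A) / (4 * C - B)) = y at *
  have f1 : (k * (4 * A - C) * (2 * B + C - A)) ^ 2 = m ^ 2 * ((4 * B - A) * (4 * C - B)) * (2 * A + B - C) ^ 2 := by
    have h : ((4 * B - A) * (2 * (A * B + B * C + C * A) - A ^ 2 - B ^ 2 - C ^ 2) *
        (4 * (5 * A * B * C - A * B ^ 2 - B * C ^ 2 - C * A ^ 2))) * (k * (4 * A - C) * (2 * B + C - A)) ^ 2 =
        ((4 * B - A) * (2 * (A * B + B * C + C * A) - A ^ 2 - B ^ 2 - C ^ 2) *
        (4 * (5 * A * B * C - A * B ^ 2 - B * C ^ 2 - C * A ^ 2))) *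
        (m ^ 2 * ((4 * B - A) * (4 * C - B)) * (2 * A + B - C) ^ 2) := by
      linear_combination (4 * (5 * A * B * C - A * B ^ 2 - B * C ^ 2 - C * A ^ 2)) * (2 * B + C - A) ^ 2 * e1 -
        (4 * (5 * A * B * C - A * B ^ 2 - B * C ^ 2 - C * A ^ 2)) * (2 * A + B - C) ^ 2 * e2
    exact mul_left_cancel₀ (by positivity) h
  have f2 : (m * (4 * B - A) * (2 * C + A - B)) ^ 2 = n ^ 2 * ((4 * C - B) * (4 * A - C)) * (2 * B + C - A) ^ 2 := by
    have h : ((4 * C - B) * (2 * (A * B + B * C + C * A) - A ^ 2 - B ^ 2 - C ^ 2) *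
        (4 * (5 * A * B * C - A * B ^ 2 - B * C ^ 2 - C * A ^ 2))) * (m * (4 * B - A) * (2 * C + A - B)) ^ 2 =
        ((4 * C - B) * (2 * (A * B + B * C + C * A) - A ^ 2 - B ^ 2 - C ^ 2) *
        (4 * (5 * A * B * C - A * B ^ 2 - B * C ^ 2 - C * A ^ 2))) *
        (n ^ 2 * ((4 * C - B) * (4 * A - C)) * (2 * B + C - A) ^ 2) := by
      linear_combination (4 * (5 * A * B * C - A * B ^ 2 - B * C ^ 2 - C * A ^ 2)) * (2 * C + A - B) ^ 2 * e2 -
        (4 * (5 * A * B * C - A * B ^ 2 - B * C ^ 2 - C * A ^ 2)) * (2 * B + C - A) ^ 2 * e3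
    exact mul_left_cancel₀ (by positivity) h
  have g1 : (k * x ^ 2 * (5 * y ^ 2 + 2 - x ^ 2)) ^ 2 = (m * (y * (5 * x ^ 2 + 2 * y ^ 2 - 1))) ^ 2 := by
    have h : (m * (y * (5 * x ^ 2 + 2 * y ^ 2 - 1))) ^ 2 = m ^ 2 * (y ^ 2 * (5 * x ^ 2 + 2 * y ^ 2 - 1) ^ 2) := by ring
    rw [h, x2, y2]
    field_simp
    linear_combination 81 * f1
  have g2 : (m * y ^ 2 * (5 + 2 * x ^ 2 - y ^ 2)) ^ 2 = (n * (x * (5 * y ^ 2 + 2 - x ^ 2))) ^ 2 := by
    have h : (n * (x * (5 * y ^ 2 + 2 - x ^ 2))) ^ 2 = n ^ 2 * (x ^ 2 * (5 * y ^ 2 + 2 - x ^ 2) ^ 2) := by ring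
    rw [h, x2, y2]
    field_simp
    linear_combination 81 * f2
  have c1 : ∃ e : Bool, (if e then k / m else -(k / m)) * x ^ 2 * (5 * y ^ 2 + 2 - x ^ 2) =
      y * (5 * x ^ 2 + 2 * y ^ 2 - 1) := by
    rcases sq_eq_sq_iff_eq_or_eq_neg.1 g1 with h | h
    · refine ⟨true, ?_⟩
      simp only [if_true]
      field_simp
      linear_combination h
    · refine ⟨false, ?_⟩
      simp only [Bool.false_eq_true, if_false]
      field_simp
      linear_combination -h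
  have c2 : ∃ e : Bool, (if e then m / n else -(m / n)) * y ^ 2 * (5 + 2 * x ^ 2 - y ^ 2) =
      x * (5 * y ^ 2 + 2 - x ^ 2) := by
    rcases sq_eq_sq_iff_eq_or_eq_neg.1 g2 with h | h
    · refine ⟨true, ?_⟩
      simp only [if_true]
      field_simp
      linear_combination h
    · refine ⟨false, ?_⟩
      simp only [Bool.false_eq_true, if_false]
      field_simp
      linear_combination -h
  obtain ⟨e, he⟩ := c1
  obtain ⟨e', he'⟩ := c2
  exact ⟨e, e', he, he'⟩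

end EightAux

theorem L8 (κ lam μ : ℝ) : {l | l ∈ Nm ∧ l 1 = l 0 ∧ l 4 = l 2 ∧ l 5 = l 3 ∧
    al l 0 + al l 1 = κ ∧ al l 2 + al l 4 = lam ∧ al l 3 + al l 5 = μ}.Finite := by
  have hF : ∀ l ∈ {l | l ∈ Nm ∧ l 1 = l 0 ∧ l 4 = l 2 ∧ l 5 = l 3 ∧
      al l 0 + al l 1 = κ ∧ al l 2 + al l 4 = lam ∧ al l 3 + al l 5 = μ},
      Fc (l 0 ^ 2) (l 2 ^ 2) (l 3 ^ 2) (sin κ) (sin lam) (sin μ) := by
    rintro l ⟨h0, h1, h4, h5, rfl, rfl, rfl⟩
    exact fc h0.1 h1 h4 h5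
  by_cases hκ : sin κ = 0
  · refine finite_of_ratio (fun l hl => hl.1) 2 (((deg_fin (sin lam)).image
      (fun t => ![t, t, 1, 2 * t + 1, 1, 2 * t + 1])).subset ?_)
    rintro _ ⟨l, hl, rfl⟩
    have h := hF l hl
    have hB := h.hB
    rw [hκ] at h
    obtain ⟨h2, h3⟩ := h.deg
    obtain ⟨-, h1, h4, h5, -⟩ := hl
    refine ⟨l 0 ^ 2 / l 2 ^ 2, h3, ?_⟩
    funext i
    fin_cases i
    · rfl
    · simp [h1]
    · simp [div_self hB.ne']
    · simp [h2]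
    · simp [h4, div_self hB.ne']
    · simp [h5, h2]
  by_cases hl : sin lam = 0
  · refine finite_of_ratio (fun l hl => hl.1) 3 (((deg_fin (sin μ)).image
      (fun t => ![2 * t + 1, 2 * t + 1, t, 1, t, 1])).subset ?_)
    rintro _ ⟨l, hl', rfl⟩
    have h := (hF l hl').rot
    have hB := h.hB
    rw [hl] at h
    obtain ⟨h2, h3⟩ := h.deg
    obtain ⟨-, h1, h4, h5, -⟩ := hl'
    refine ⟨l 2 ^ 2 / l 3 ^ 2, h3, ?_⟩
    funext i
    fin_cases i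
    · simp [h2]
    · simp [h1, h2]
    · rfl
    · simp [div_self hB.ne']
    · simp [h4]
    · simp [h5, div_self hB.ne']
  by_cases hm : sin μ = 0
  · refine finite_of_ratio (fun l hl => hl.1) 0 (((deg_fin (sin κ)).image
      (fun t => ![1, 1, 2 * t + 1, t, 2 * t + 1, t])).subset ?_)
    rintro _ ⟨l, hl', rfl⟩
    have h := (hF l hl').rot.rot
    have hB := h.hB
    rw [hm] at h
    obtain ⟨h2, h3⟩ := h.deg
    obtain ⟨-, h1, h4, h5, -⟩ := hl'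
    refine ⟨l 3 ^ 2 / l 0 ^ 2, h3, ?_⟩
    funext i
    fin_cases i
    · simp [div_self hB.ne']
    · simp [h1, div_self hB.ne']
    · simp [h2]
    · rfl
    · simp [h4, h2]
    · simp [h5]
  · have hT : (⋃ e : Bool × Bool, {z : ℝ × ℝ | 0 < z.1 ∧ 0 < z.2 ∧
        (if e.1 then sin κ / sin lam else -(sin κ / sin lam)) * z.1 ^ 2 * (5 * z.2 ^ 2 + 2 - z.1 ^ 2) =
          z.2 * (5 * z.1 ^ 2 + 2 * z.2 ^ 2 - 1) ∧
        (if e.2 then sin lam / sin μ else -(sin lam / sin μ)) * z.2 ^ 2 * (5 + 2 * z.1 ^ 2 - z.2 ^ 2) =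
          z.1 * (5 * z.2 ^ 2 + 2 - z.1 ^ 2)}).Finite := by
      refine Set.finite_iUnion fun e => eight_finite _ _ ?_ ?_
      · split_ifs
        · exact div_ne_zero hκ hl
        · exact neg_ne_zero.2 (div_ne_zero hκ hl)
      · split_ifs
        · exact div_ne_zero hl hm
        · exact neg_ne_zero.2 (div_ne_zero hl hm)
    refine finite_of_ratio (fun l hl => hl.1) 3 ((hT.image (fun z : ℝ × ℝ =>
      ![(16 * z.1 ^ 2 + 4 + z.2 ^ 2) / (16 + 4 * z.2 ^ 2 + z.1 ^ 2),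
        (16 * z.1 ^ 2 + 4 + z.2 ^ 2) / (16 + 4 * z.2 ^ 2 + z.1 ^ 2),
        (16 * z.2 ^ 2 + 4 * z.1 ^ 2 + 1) / (16 + 4 * z.2 ^ 2 + z.1 ^ 2), 1,
        (16 * z.2 ^ 2 + 4 * z.1 ^ 2 + 1) / (16 + 4 * z.2 ^ 2 + z.1 ^ 2), 1])).subset ?_)
    rintro _ ⟨l, hl', rfl⟩
    have h := hF l hl'
    obtain ⟨e, e', h2, h3⟩ := h.gen hl hm
    obtain ⟨hA, hB, hC, hu, hv, hw, -⟩ := h
    obtain ⟨-, h1, h4, h5, -⟩ := hl'
    have x2 : √((4 * l 0 ^ 2 - l 3 ^ 2) / (4 * l 3 ^ 2 - l 2 ^ 2)) ^ 2 =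
      (4 * l 0 ^ 2 - l 3 ^ 2) / (4 * l 3 ^ 2 - l 2 ^ 2) := sq_sqrt (div_pos hu hw).le
    have y2 : √((4 * l 2 ^ 2 - l 0 ^ 2) / (4 * l 3 ^ 2 - l 2 ^ 2)) ^ 2 =
      (4 * l 2 ^ 2 - l 0 ^ 2) / (4 * l 3 ^ 2 - l 2 ^ 2) := sq_sqrt (div_pos hv hw).le
    have hden : 16 + 4 * ((4 * l 2 ^ 2 - l 0 ^ 2) / (4 * l 3 ^ 2 - l 2 ^ 2)) +
        (4 * l 0 ^ 2 - l 3 ^ 2) / (4 * l 3 ^ 2 - l 2 ^ 2) = 63 * l 3 ^ 2 / (4 * l 3 ^ 2 - l 2 ^ 2) := by
      field_simp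
      ring
    have r1 : (16 * ((4 * l 0 ^ 2 - l 3 ^ 2) / (4 * l 3 ^ 2 - l 2 ^ 2)) + 4 +
        (4 * l 2 ^ 2 - l 0 ^ 2) / (4 * l 3 ^ 2 - l 2 ^ 2)) /
        (16 + 4 * ((4 * l 2 ^ 2 - l 0 ^ 2) / (4 * l 3 ^ 2 - l 2 ^ 2)) +
        (4 * l 0 ^ 2 - l 3 ^ 2) / (4 * l 3 ^ 2 - l 2 ^ 2)) = l 0 ^ 2 / l 3 ^ 2 := by
      rw [hden]
      field_simp
      ring
    have r2 : (16 * ((4 * l 2 ^ 2 - l 0 ^ 2) / (4 * l 3 ^ 2 - l 2 ^ 2)) +
        4 * ((4 * l 0 ^ 2 - l 3 ^ 2) / (4 * l 3 ^ 2 - l 2 ^ 2)) + 1) /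
        (16 + 4 * ((4 * l 2 ^ 2 - l 0 ^ 2) / (4 * l 3 ^ 2 - l 2 ^ 2)) +
        (4 * l 0 ^ 2 - l 3 ^ 2) / (4 * l 3 ^ 2 - l 2 ^ 2)) = l 2 ^ 2 / l 3 ^ 2 := by
      rw [hden]
      field_simp
      ring
    refine ⟨(√((4 * l 0 ^ 2 - l 3 ^ 2) / (4 * l 3 ^ 2 - l 2 ^ 2)),
      √((4 * l 2 ^ 2 - l 0 ^ 2) / (4 * l 3 ^ 2 - l 2 ^ 2))), Set.mem_iUnion.2 ⟨(e, e'), sqrt_pos.2 (div_pos hu hw),
      sqrt_pos.2 (div_pos hv hw), h2, h3⟩, ?_⟩
    simp only [x2, y2, r1, r2]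
    funext i
    fin_cases i
    · rfl
    · simp [h1]
    · rfl
    · simp [div_self hC.ne']
    · simp [h4]
    · simp [h5, div_self hC.ne']

end Pool.Agent.Helper22.FF
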