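import Pool.Agent.Helper22.FF.Basic
import Pool.Agent.Helper22.FF.Place

/-!
FF-07 Five.  `01 = 02`, `03 = 12 = 13`, the angle at `23` and the sum of the angles at `01, 02` constant.

PROOF. `A = l₀² = l₁²`, `B = l₂² = l₃² = l₄²`, `F = l₅²`, `H(x,y,z) = 2xy+2yz+2zx-x²-y²-z²`. Then
`D 3 = B (4A - B)`, `D 2 = A (4B - A)`, `D 1 = H(A, B, F)`, `D 0 = F (4B - F)`, `W 5 = F (3B - A - F)`,
`W 0 + W 1 = B (2A + B - F)` (all `ring`). From `cos_sq_al 5`, `sin_sq_al 5`, `sin_sum01`, dividing by positive factors: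
 (G1) `cos²γ · D1 · (4B - F) = F (3B - A - F)²`,   `sin²γ (4B - F) D1 = 16 Gr`,
 `sin²κ (4A - B)² (4B - A) D1 = 16 Gr (2A + B - F)²`, hence
 (G) `sin²κ (4A - B)² (4B - A) = sin²γ (4B - F) (2A + B - F)²`.
Case `sin κ = 0`: `F = 2A + B` (`4B - F > 0`, `sin γ > 0`), and (G1) becomes, with `t = A/B`,
`cos²γ H(t, 1, 2t+1) (3 - 2t) = (2t + 1)(2 - 3t)²`; at `t = 3/2` the left side is `0` and the right side is
`4 · (5/2)² ≠ 0`, so it is a nonzero polynomial equation and there are finitely many `t`.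
Case `sin κ ≠ 0`: put `u = 4B - F > 0`, `x = A/u`, `y = B/u` (`F/u = 4y - 1`), so
 (G) `sin²κ (4x - y)² (4y - x) = sin²γ (2x - 3y + 1)²`,
 (G1) `cos²γ H(x, y, 4y - 1) = (4y - 1)(1 - x - y)²`.
Suppose infinitely many `(x, y)`, positive. Then `x` or `y` takes infinitely many values; take an infinite
subset on which it is injective, and the place `P` of `exists_pl`. Let `x⁻¹ → 0` (the case that `x` has no
limit) and `y/x → τ`: dividing (G) by `x³`: `sin²κ (4 - τ)² (4τ - 1) = 0`; dividing (G1) by `x³`: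
`0 = 4τ (1 + τ)²`. So `τ ∈ {4, 1/4}` and `τ ∈ {0, -1}`, a contradiction (characteristic zero). If `y/x` has no limit then
`x/y → 0` and `y⁻¹ → 0` (product of `x⁻¹` and `x/y`), dividing (G) by `y³`: `sin²κ · 1 · 4 = 0`. If `x` has a limit then `y`
has none, `y⁻¹ → 0`, `x/y → 0`, and again dividing (G) by `y³` gives `4 sin²κ = 0`. So `{(x, y)}` is finite, and the
ratios `l_i² / l_0²` are functions of `(x, y)`: `finite_of_ratio`.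
-/

open Real Set Pool.Agent.Helper1.Tet

namespace Pool.Agent.Helper22.FF

/-- `x / y → 0` and `1 / y → 0` is impossible -/
private theorem Five_aux1 {ι : Type} (P : Pl ι) (a b : ℂ) (ha : a ≠ 0) (x y : ι → ℂ)
    (hy : ∀ i, y i ≠ 0)
    (h : ∀ i, a * (4 * x i - y i) ^ 2 * (4 * y i - x i) = b * (2 * x i - 3 * y i + 1) ^ 2)
    (hr : P.Lim (fun i => (y i)⁻¹) 0) (hw : P.Lim (fun i => x i / y i) 0) : False := by
  have hc := P.charZero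
  have h1 : P.Lim (fun i => a * (4 * (x i / y i) - 1) ^ 2 * (4 - x i / y i))
      (P.j a * (P.j 4 * 0 - P.j 1) ^ 2 * (P.j 4 - 0)) :=
    P.mul (P.mul (P.const a) (P.pow (P.sub (P.mul (P.const 4) hw) (P.const 1)) 2))
      (P.sub (P.const 4) hw)
  have h2 : P.Lim (fun i => b * (2 * (x i / y i) - 3 + (y i)⁻¹) ^ 2 * (y i)⁻¹)
      (P.j b * (P.j 2 * 0 - P.j 3 + 0) ^ 2 * 0) :=
    P.mul (P.mul (P.const b) (P.pow (P.add (P.sub (P.mul (P.const 2) hw) (P.const 3)) hr) 2)) hr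
  have h3 : (fun i => a * (4 * (x i / y i) - 1) ^ 2 * (4 - x i / y i)) =
      fun i => b * (2 * (x i / y i) - 3 + (y i)⁻¹) ^ 2 * (y i)⁻¹ := by
    funext i
    have h4 := h i
    have h5 := hy i
    have h6 : a * (4 * (x i / y i) - 1) ^ 2 * (4 - x i / y i) =
        a * (4 * x i - y i) ^ 2 * (4 * y i - x i) / y i ^ 3 := by
      field_simp
    have h7 : b * (2 * (x i / y i) - 3 + (y i)⁻¹) ^ 2 * (y i)⁻¹ =
        b * (2 * x i - 3 * y i + 1) ^ 2 / y i ^ 3 := by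
      field_simp
    rw [h6, h7, h4]
  rw [h3] at h1
  have h4 := P.uniq h1 h2
  have hja : P.j a ≠ 0 := fun h => ha ((map_eq_zero P.j).1 h)
  rw [mul_zero, mul_zero, map_one, map_ofNat, zero_sub, sub_zero, neg_one_sq, mul_one] at h4
  exact mul_ne_zero hja (by norm_num) h4

/-- `1 / x → 0` and `y / x → τ` is impossible -/
private theorem Five_aux2 {ι : Type} (P : Pl ι) (a b c : ℂ) (ha : a ≠ 0) (x y : ι → ℂ)
    (hx : ∀ i, x i ≠ 0)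
    (h : ∀ i, a * (4 * x i - y i) ^ 2 * (4 * y i - x i) = b * (2 * x i - 3 * y i + 1) ^ 2)
    (h' : ∀ i, c * (2 * x i * y i + 2 * y i * (4 * y i - 1) + 2 * x i * (4 * y i - 1) - x i ^ 2
      - y i ^ 2 - (4 * y i - 1) ^ 2) = (4 * y i - 1) * (1 - x i - y i) ^ 2)
    (hr : P.Lim (fun i => (x i)⁻¹) 0) (τ : P.k) (hw : P.Lim (fun i => y i / x i) τ) : False := by
  have hc := P.charZero
  have h1 : P.Lim (fun i => a * (4 - y i / x i) ^ 2 * (4 * (y i / x i) - 1))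
      (P.j a * (P.j 4 - τ) ^ 2 * (P.j 4 * τ - P.j 1)) :=
    P.mul (P.mul (P.const a) (P.pow (P.sub (P.const 4) hw) 2))
      (P.sub (P.mul (P.const 4) hw) (P.const 1))
  have h2 : P.Lim (fun i => b * (2 - 3 * (y i / x i) + (x i)⁻¹) ^ 2 * (x i)⁻¹)
      (P.j b * (P.j 2 - P.j 3 * τ + 0) ^ 2 * 0) :=
    P.mul (P.mul (P.const b) (P.pow (P.add (P.sub (P.const 2) (P.mul (P.const 3) hw)) hr) 2)) hr
  have h3 : (fun i => a * (4 - y i / x i) ^ 2 * (4 * (y i / x i) - 1)) =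
      fun i => b * (2 - 3 * (y i / x i) + (x i)⁻¹) ^ 2 * (x i)⁻¹ := by
    funext i
    have h4 := h i
    have h5 := hx i
    have h6 : a * (4 - y i / x i) ^ 2 * (4 * (y i / x i) - 1) =
        a * (4 * x i - y i) ^ 2 * (4 * y i - x i) / x i ^ 3 := by
      field_simp
    have h7 : b * (2 - 3 * (y i / x i) + (x i)⁻¹) ^ 2 * (x i)⁻¹ =
        b * (2 * x i - 3 * y i + 1) ^ 2 / x i ^ 3 := by
      field_simp
    rw [h6, h7, h4]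
  rw [h3] at h1
  have h4 := P.uniq h1 h2
  have hja : P.j a ≠ 0 := fun h => ha ((map_eq_zero P.j).1 h)
  have k1 : P.Lim (fun i => c * (2 * (y i / x i) + 2 * (y i / x i) * (4 * (y i / x i) - (x i)⁻¹)
      + 2 * (4 * (y i / x i) - (x i)⁻¹) - 1 - (y i / x i) ^ 2 - (4 * (y i / x i) - (x i)⁻¹) ^ 2)
      * (x i)⁻¹)
      (P.j c * (P.j 2 * τ + P.j 2 * τ * (P.j 4 * τ - 0) + P.j 2 * (P.j 4 * τ - 0) - P.j 1
        - τ ^ 2 - (P.j 4 * τ - 0) ^ 2) * 0) := by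
    have hF := P.sub (P.mul (P.const 4) hw) hr
    exact P.mul (P.mul (P.const c) (P.sub (P.sub (P.sub (P.add (P.add (P.mul (P.const 2) hw)
      (P.mul (P.mul (P.const 2) hw) hF)) (P.mul (P.const 2) hF)) (P.const 1)) (P.pow hw 2))
      (P.pow hF 2))) hr
  have k2 : P.Lim (fun i => (4 * (y i / x i) - (x i)⁻¹) * ((x i)⁻¹ - 1 - y i / x i) ^ 2)
      ((P.j 4 * τ - 0) * (0 - P.j 1 - τ) ^ 2) := by
    have hF := P.sub (P.mul (P.const 4) hw) hr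
    exact P.mul hF (P.pow (P.sub (P.sub hr (P.const 1)) hw) 2)
  have k3 : (fun i => c * (2 * (y i / x i) + 2 * (y i / x i) * (4 * (y i / x i) - (x i)⁻¹)
      + 2 * (4 * (y i / x i) - (x i)⁻¹) - 1 - (y i / x i) ^ 2 - (4 * (y i / x i) - (x i)⁻¹) ^ 2)
      * (x i)⁻¹) = fun i => (4 * (y i / x i) - (x i)⁻¹) * ((x i)⁻¹ - 1 - y i / x i) ^ 2 := by
    funext i
    have h4 := h' i
    have h5 := hx i
    have h6 : c * (2 * (y i / x i) + 2 * (y i / x i) * (4 * (y i / x i) - (x i)⁻¹)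
        + 2 * (4 * (y i / x i) - (x i)⁻¹) - 1 - (y i / x i) ^ 2 - (4 * (y i / x i) - (x i)⁻¹) ^ 2)
        * (x i)⁻¹ = c * (2 * x i * y i + 2 * y i * (4 * y i - 1) + 2 * x i * (4 * y i - 1)
        - x i ^ 2 - y i ^ 2 - (4 * y i - 1) ^ 2) / x i ^ 3 := by
      field_simp
    have h7 : (4 * (y i / x i) - (x i)⁻¹) * ((x i)⁻¹ - 1 - y i / x i) ^ 2 =
        (4 * y i - 1) * (1 - x i - y i) ^ 2 / x i ^ 3 := by
      field_simp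
    rw [h6, h7, h4]
  rw [k3] at k1
  have k4 := P.uniq k1 k2
  simp only [mul_zero, sub_zero, zero_sub, map_one, map_ofNat] at k4 h4
  have k5 : τ * (1 + τ) ^ 2 = 0 := by
    have : (4 : P.k) * (τ * (1 + τ) ^ 2) = 0 := by linear_combination -k4
    exact (mul_eq_zero.1 this).resolve_left (by norm_num)
  have k6 : (4 - τ) ^ 2 * (4 * τ - 1) = 0 := by
    have : P.j a * ((4 - τ) ^ 2 * (4 * τ - 1)) = 0 := by linear_combination h4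
    exact (mul_eq_zero.1 this).resolve_left hja
  rcases mul_eq_zero.1 k5 with k7 | k7
  · rw [k7] at k6
    norm_num at k6
  · have k8 : τ = -1 := by linear_combination pow_eq_zero_iff (two_ne_zero) |>.1 k7
    rw [k8] at k6
    norm_num at k6

/-- the two plane curves have finitely many common points with positive coordinates -/
theorem five_finite (a b : ℝ) (c : ℝ) (ha : a ≠ 0) :
    {z : ℝ × ℝ | 0 < z.1 ∧ 0 < z.2 ∧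
      a * (4 * z.1 - z.2) ^ 2 * (4 * z.2 - z.1) = b * (2 * z.1 - 3 * z.2 + 1) ^ 2 ∧
      c * (2 * z.1 * z.2 + 2 * z.2 * (4 * z.2 - 1) + 2 * z.1 * (4 * z.2 - 1) - z.1 ^ 2 - z.2 ^ 2
        - (4 * z.2 - 1) ^ 2) = (4 * z.2 - 1) * (1 - z.1 - z.2) ^ 2}.Finite := by
  by_contra hinf
  have hinf' : Set.Infinite {z : ℝ × ℝ | 0 < z.1 ∧ 0 < z.2 ∧
      a * (4 * z.1 - z.2) ^ 2 * (4 * z.2 - z.1) = b * (2 * z.1 - 3 * z.2 + 1) ^ 2 ∧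
      c * (2 * z.1 * z.2 + 2 * z.2 * (4 * z.2 - 1) + 2 * z.1 * (4 * z.2 - 1) - z.1 ^ 2 - z.2 ^ 2
        - (4 * z.2 - 1) ^ 2) = (4 * z.2 - 1) * (1 - z.1 - z.2) ^ 2} := hinf
  have haC : (a : ℂ) ≠ 0 := by exact_mod_cast ha
  rcases exists_inf_const_or_inj hinf' Prod.fst with ⟨v, hv⟩ | ⟨S', hS', hS'i, hinj⟩
  · have := hv.to_subtype
    have hy0 : ∀ i : {x | x ∈ {z : ℝ × ℝ | 0 < z.1 ∧ 0 < z.2 ∧
      a * (4 * z.1 - z.2) ^ 2 * (4 * z.2 - z.1) = b * (2 * z.1 - 3 * z.2 + 1) ^ 2 ∧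
      c * (2 * z.1 * z.2 + 2 * z.2 * (4 * z.2 - 1) + 2 * z.1 * (4 * z.2 - 1) - z.1 ^ 2 - z.2 ^ 2
        - (4 * z.2 - 1) ^ 2) = (4 * z.2 - 1) * (1 - z.1 - z.2) ^ 2} ∧ x.1 = v},
        ((i.1.2 : ℝ) : ℂ) ≠ 0 := fun i => by exact_mod_cast i.2.1.2.1.ne'
    obtain ⟨P, hP⟩ := exists_pl (fun i : {x | x ∈ {z : ℝ × ℝ | 0 < z.1 ∧ 0 < z.2 ∧
      a * (4 * z.1 - z.2) ^ 2 * (4 * z.2 - z.1) = b * (2 * z.1 - 3 * z.2 + 1) ^ 2 ∧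
      c * (2 * z.1 * z.2 + 2 * z.2 * (4 * z.2 - 1) + 2 * z.1 * (4 * z.2 - 1) - z.1 ^ 2 - z.2 ^ 2
        - (4 * z.2 - 1) ^ 2) = (4 * z.2 - 1) * (1 - z.1 - z.2) ^ 2} ∧ x.1 = v} =>
        ((i.1.2 : ℝ) : ℂ)) (fun i j hij => by
          have h1 : i.1.2 = j.1.2 := by
            have h0 : ((i.1.2 : ℝ) : ℂ) = ((j.1.2 : ℝ) : ℂ) := hij
            exact_mod_cast h0
          exact Subtype.ext (Prod.ext (i.2.2.trans j.2.2.symm) h1)) hy0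
    refine Five_aux1 P a b haC (fun _ => (v : ℂ)) _ hy0 (fun i => ?_) hP ?_
    · have h1 := i.2.1.2.2.1
      rw [i.2.2] at h1
      exact_mod_cast h1
    · have h1 := P.mul (P.const (v : ℂ)) hP
      rw [mul_zero] at h1
      exact h1
  · have := hS'i.to_subtype
    have hx0 : ∀ i : S', ((i.1.1 : ℝ) : ℂ) ≠ 0 := fun i => by exact_mod_cast (hS' i.2).1.ne'
    have hy0 : ∀ i : S', ((i.1.2 : ℝ) : ℂ) ≠ 0 := fun i => by exact_mod_cast (hS' i.2).2.1.ne'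
    obtain ⟨P, hP⟩ := exists_pl (fun i : S' => ((i.1.1 : ℝ) : ℂ)) (fun i j hij => by
      have h1 : i.1.1 = j.1.1 := by
        have h0 : ((i.1.1 : ℝ) : ℂ) = ((j.1.1 : ℝ) : ℂ) := hij
        exact_mod_cast h0
      exact Subtype.ext (hinj i.2 j.2 h1)) hx0
    have hG : ∀ i : S', (a : ℂ) * (4 * ((i.1.1 : ℝ) : ℂ) - ((i.1.2 : ℝ) : ℂ)) ^ 2 *
        (4 * ((i.1.2 : ℝ) : ℂ) - ((i.1.1 : ℝ) : ℂ)) =
        b * (2 * ((i.1.1 : ℝ) : ℂ) - 3 * ((i.1.2 : ℝ) : ℂ) + 1) ^ 2 := fun i => by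
      exact_mod_cast (hS' i.2).2.2.1
    have hG1 : ∀ i : S', (c : ℂ) * (2 * ((i.1.1 : ℝ) : ℂ) * ((i.1.2 : ℝ) : ℂ)
        + 2 * ((i.1.2 : ℝ) : ℂ) * (4 * ((i.1.2 : ℝ) : ℂ) - 1)
        + 2 * ((i.1.1 : ℝ) : ℂ) * (4 * ((i.1.2 : ℝ) : ℂ) - 1) - ((i.1.1 : ℝ) : ℂ) ^ 2
        - ((i.1.2 : ℝ) : ℂ) ^ 2 - (4 * ((i.1.2 : ℝ) : ℂ) - 1) ^ 2) =
        (4 * ((i.1.2 : ℝ) : ℂ) - 1) * (1 - ((i.1.1 : ℝ) : ℂ) - ((i.1.2 : ℝ) : ℂ)) ^ 2 := fun i => by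
      exact_mod_cast (hS' i.2).2.2.2
    rcases P.tri (fun i : S' => ((i.1.2 : ℝ) : ℂ) / ((i.1.1 : ℝ) : ℂ))
      (fun i => div_ne_zero (hy0 i) (hx0 i)) with ⟨τ, -, h1, -⟩ | h1 | h1
    · exact Five_aux2 P a b c haC _ _ hx0 hG hG1 hP τ h1
    · exact Five_aux2 P a b c haC _ _ hx0 hG hG1 hP 0 h1
    · simp only [inv_div] at h1
      have h2 := P.mul hP h1
      rw [mul_zero] at h2
      have h3 : (fun i : S' => ((i.1.1 : ℝ) : ℂ)⁻¹ * (((i.1.1 : ℝ) : ℂ) / ((i.1.2 : ℝ) : ℂ))) =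
          fun i => ((i.1.2 : ℝ) : ℂ)⁻¹ := by
        funext i
        have h4 := hx0 i
        have h5 := hy0 i
        field_simp
      rw [h3] at h2
      exact Five_aux1 P a b haC _ _ hy0 hG h2 h1

/-- the case of the sum `2π` or `0` -/
private theorem Five_poly (c : ℝ) :
    {t : ℝ | c * (3 - 2 * t) * (4 * t - t ^ 2) = (2 * t + 1) * (2 - 3 * t) ^ 2}.Finite := by
  obtain ⟨p, hp⟩ : ∃ p : Polynomial ℝ, p = Polynomial.C c * (3 - 2 * Polynomial.X) *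
      (4 * Polynomial.X - Polynomial.X ^ 2) -
      (2 * Polynomial.X + 1) * (2 - 3 * Polynomial.X) ^ 2 := ⟨_, rfl⟩
  have hev : ∀ t : ℝ, p.eval t = c * (3 - 2 * t) * (4 * t - t ^ 2) -
      (2 * t + 1) * (2 - 3 * t) ^ 2 := by
    intro t
    rw [hp]
    simp
  have hp0 : p ≠ 0 := by
    intro h
    have h1 := hev (3 / 2)
    rw [h, Polynomial.eval_zero] at h1
    norm_num at h1
  refine (Polynomial.finite_setOfPred_isRoot hp0).subset ?_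
  intro t ht
  show p.eval t = 0
  rw [hev]
  have h1 : c * (3 - 2 * t) * (4 * t - t ^ 2) = (2 * t + 1) * (2 - 3 * t) ^ 2 := ht
  rw [h1, sub_self]

/-- the two relations between the squares of the lengths -/
private theorem Five_rel {κ γ : ℝ} {l : Fin 6 → ℝ} (hl : l ∈ TT) (h1 : l 1 = l 0)
    (h3 : l 3 = l 2) (h4 : l 4 = l 2) (hκ : al l 0 + al l 1 = κ) (hγ : al l 5 = γ) :
    0 < l 0 ∧ 0 < l 2 ∧ 0 < l 5 ∧ 0 < 4 * l 2 ^ 2 - l 5 ^ 2 ∧ 0 < sin γ ∧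
    cos γ ^ 2 * (2 * l 0 ^ 2 * l 2 ^ 2 + 2 * l 2 ^ 2 * l 5 ^ 2 + 2 * l 0 ^ 2 * l 5 ^ 2
      - l 0 ^ 4 - l 2 ^ 4 - l 5 ^ 4) * (4 * l 2 ^ 2 - l 5 ^ 2) =
      l 5 ^ 2 * (3 * l 2 ^ 2 - l 0 ^ 2 - l 5 ^ 2) ^ 2 ∧
    sin κ ^ 2 * (4 * l 0 ^ 2 - l 2 ^ 2) ^ 2 * (4 * l 2 ^ 2 - l 0 ^ 2) =
      sin γ ^ 2 * (4 * l 2 ^ 2 - l 5 ^ 2) * (2 * l 0 ^ 2 + l 2 ^ 2 - l 5 ^ 2) ^ 2 := by
  obtain ⟨hpos, hD, -, -, hal, -⟩ := TT_facts hl
  have p0 := hpos 0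
  have p2 := hpos 2
  have p5 := hpos 5
  have d0 : D l 0 = l 5 ^ 2 * (4 * l 2 ^ 2 - l 5 ^ 2) := by
    show heron (l 3) (l 4) (l 5) = _
    rw [h3, h4, heron]
    ring
  have d1 : D l 1 = 2 * l 0 ^ 2 * l 2 ^ 2 + 2 * l 2 ^ 2 * l 5 ^ 2 + 2 * l 0 ^ 2 * l 5 ^ 2
      - l 0 ^ 4 - l 2 ^ 4 - l 5 ^ 4 := by
    show heron (l 1) (l 2) (l 5) = _
    rw [h1, heron]
    ring
  have d2 : D l 2 = l 0 ^ 2 * (4 * l 2 ^ 2 - l 0 ^ 2) := by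
    show heron (l 0) (l 2) (l 4) = _
    rw [h4, heron]
    ring
  have d3 : D l 3 = l 2 ^ 2 * (4 * l 0 ^ 2 - l 2 ^ 2) := by
    show heron (l 0) (l 1) (l 3) = _
    rw [h1, h3, heron]
    ring
  have w5 : W l 5 = l 5 ^ 2 * (3 * l 2 ^ 2 - l 0 ^ 2 - l 5 ^ 2) := by
    show wform (l 5) (l 1) (l 3) (l 2) (l 4) (l 0) = _
    rw [h1, h3, h4, wform]
    ring
  have w01 : W l 0 + W l 1 = l 2 ^ 2 * (2 * l 0 ^ 2 + l 2 ^ 2 - l 5 ^ 2) := by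
    show wform (l 0) (l 1) (l 2) (l 3) (l 4) (l 5) + wform (l 1) (l 0) (l 2) (l 3) (l 5) (l 4) = _
    rw [h1, h3, h4, wform, wform]
    ring
  have e1 : cos (al l 5) ^ 2 * (D l 0 * D l 1) = W l 5 ^ 2 := cos_sq_al hl 5
  have e2 : sin (al l 5) ^ 2 * (D l 0 * D l 1) = 16 * l 5 ^ 2 * Gr l := sin_sq_al hl 5
  have e3 := sin_sum01 hl h1
  have hD1 := hD 1
  have hu : 0 < 4 * l 2 ^ 2 - l 5 ^ 2 := by
    have h5 := hD 0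
    rw [d0] at h5
    exact (mul_pos_iff_of_pos_left (by positivity)).1 h5
  rw [hγ, d0, w5] at e1
  rw [hγ, d0] at e2
  rw [hκ, d3, d2, w01] at e3
  have hsγ : 0 < sin γ := by
    rw [← hγ]
    exact sin_pos_of_mem_Ioo (hal 5)
  have q5 : l 5 ^ 2 ≠ 0 := by positivity
  have q0 : l 0 ^ 2 ≠ 0 := by positivity
  have q2 : (l 2 ^ 2) ^ 2 ≠ 0 := by positivity
  have f1 : cos γ ^ 2 * D l 1 * (4 * l 2 ^ 2 - l 5 ^ 2) =
      l 5 ^ 2 * (3 * l 2 ^ 2 - l 0 ^ 2 - l 5 ^ 2) ^ 2 := by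
    apply mul_left_cancel₀ q5
    linear_combination e1
  have f2 : sin γ ^ 2 * ((4 * l 2 ^ 2 - l 5 ^ 2) * D l 1) = 16 * Gr l := by
    apply mul_left_cancel₀ q5
    linear_combination e2
  have f3 : sin κ ^ 2 * (4 * l 0 ^ 2 - l 2 ^ 2) ^ 2 * (4 * l 2 ^ 2 - l 0 ^ 2) * D l 1 =
      16 * Gr l * (2 * l 0 ^ 2 + l 2 ^ 2 - l 5 ^ 2) ^ 2 := by
    apply mul_left_cancel₀ q0
    apply mul_left_cancel₀ q2
    linear_combination e3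
  refine ⟨p0, p2, p5, hu, hsγ, ?_, ?_⟩
  · rw [d1] at f1
    exact f1
  · apply mul_right_cancel₀ hD1.ne'
    rw [f3, ← f2]
    ring

theorem L5 (κ γ : ℝ) : {l | l ∈ Nm ∧ l 1 = l 0 ∧ l 3 = l 2 ∧ l 4 = l 2 ∧
    al l 0 + al l 1 = κ ∧ al l 5 = γ}.Finite := by
  by_cases hs : sin κ = 0
  · refine finite_of_ratio (fun l hl => hl.1) 2 ?_
    refine ((Five_poly (cos γ ^ 2)).image fun t : ℝ => (![t, t, 1, 1, 1, 2 * t + 1] : Fin 6 → ℝ)).subset ?_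
    rintro _ ⟨l, ⟨hN, h1, h3, h4, h5, h6⟩, rfl⟩
    obtain ⟨p0, p2, p5, hu, hsγ, g1, g2⟩ := Five_rel hN.1 h1 h3 h4 h5 h6
    have hF : l 5 ^ 2 = 2 * l 0 ^ 2 + l 2 ^ 2 := by
      rw [hs] at g2
      have h7 : (2 * l 0 ^ 2 + l 2 ^ 2 - l 5 ^ 2) ^ 2 = 0 := by
        apply mul_left_cancel₀ (mul_pos (pow_pos hsγ 2) hu).ne'
        rw [mul_zero, ← g2]
        ring
      have h8 := pow_eq_zero_iff (two_ne_zero) |>.1 h7
      linarith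
    refine ⟨l 0 ^ 2 / l 2 ^ 2, ?_, ?_⟩
    · show cos γ ^ 2 * (3 - 2 * (l 0 ^ 2 / l 2 ^ 2)) * (4 * (l 0 ^ 2 / l 2 ^ 2) -
        (l 0 ^ 2 / l 2 ^ 2) ^ 2) = (2 * (l 0 ^ 2 / l 2 ^ 2) + 1) * (2 - 3 * (l 0 ^ 2 / l 2 ^ 2)) ^ 2
      have h9 : l 5 ^ 4 = (2 * l 0 ^ 2 + l 2 ^ 2) ^ 2 := by rw [← hF]; ring
      rw [h9, hF] at g1
      field_simp
      linear_combination g1
    · funext i
      fin_cases i
      · rfl
      · show l 0 ^ 2 / l 2 ^ 2 = l 1 ^ 2 / l 2 ^ 2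
        rw [h1]
      · show (1 : ℝ) = l 2 ^ 2 / l 2 ^ 2
        rw [div_self (by positivity)]
      · show (1 : ℝ) = l 3 ^ 2 / l 2 ^ 2
        rw [h3, div_self (by positivity)]
      · show (1 : ℝ) = l 4 ^ 2 / l 2 ^ 2
        rw [h4, div_self (by positivity)]
      · show 2 * (l 0 ^ 2 / l 2 ^ 2) + 1 = l 5 ^ 2 / l 2 ^ 2
        rw [hF]
        field_simp
  · refine finite_of_ratio (fun l hl => hl.1) 2 ?_
    refine ((five_finite (sin κ ^ 2) (sin γ ^ 2) (cos γ ^ 2) (pow_ne_zero 2 hs)).image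
      fun z : ℝ × ℝ => (![z.1 / z.2, z.1 / z.2, 1, 1, 1, (4 * z.2 - 1) / z.2] : Fin 6 → ℝ)).subset ?_
    rintro _ ⟨l, ⟨hN, h1, h3, h4, h5, h6⟩, rfl⟩
    obtain ⟨p0, p2, p5, hu, hsγ, g1, g2⟩ := Five_rel hN.1 h1 h3 h4 h5 h6
    refine ⟨(l 0 ^ 2 / (4 * l 2 ^ 2 - l 5 ^ 2), l 2 ^ 2 / (4 * l 2 ^ 2 - l 5 ^ 2)),
      ⟨div_pos (by positivity) hu, div_pos (by positivity) hu, ?_, ?_⟩, ?_⟩
    · have hu' := hu.ne'
      show sin κ ^ 2 * (4 * (l 0 ^ 2 / (4 * l 2 ^ 2 - l 5 ^ 2)) -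
        l 2 ^ 2 / (4 * l 2 ^ 2 - l 5 ^ 2)) ^ 2 * (4 * (l 2 ^ 2 / (4 * l 2 ^ 2 - l 5 ^ 2)) -
        l 0 ^ 2 / (4 * l 2 ^ 2 - l 5 ^ 2)) = sin γ ^ 2 * (2 * (l 0 ^ 2 / (4 * l 2 ^ 2 - l 5 ^ 2)) -
        3 * (l 2 ^ 2 / (4 * l 2 ^ 2 - l 5 ^ 2)) + 1) ^ 2
      obtain ⟨u, hU⟩ : ∃ u, u = 4 * l 2 ^ 2 - l 5 ^ 2 := ⟨_, rfl⟩
      have hF : l 5 ^ 2 = 4 * l 2 ^ 2 - u := by rw [hU]; ring
      rw [← hU] at hu' g2 ⊢
      rw [hF] at g2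
      field_simp
      linear_combination g2
    · have hu' := hu.ne'
      show cos γ ^ 2 * (2 * (l 0 ^ 2 / (4 * l 2 ^ 2 - l 5 ^ 2)) * (l 2 ^ 2 / (4 * l 2 ^ 2 - l 5 ^ 2))
        + 2 * (l 2 ^ 2 / (4 * l 2 ^ 2 - l 5 ^ 2)) * (4 * (l 2 ^ 2 / (4 * l 2 ^ 2 - l 5 ^ 2)) - 1)
        + 2 * (l 0 ^ 2 / (4 * l 2 ^ 2 - l 5 ^ 2)) * (4 * (l 2 ^ 2 / (4 * l 2 ^ 2 - l 5 ^ 2)) - 1)
        - (l 0 ^ 2 / (4 * l 2 ^ 2 - l 5 ^ 2)) ^ 2 - (l 2 ^ 2 / (4 * l 2 ^ 2 - l 5 ^ 2)) ^ 2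
        - (4 * (l 2 ^ 2 / (4 * l 2 ^ 2 - l 5 ^ 2)) - 1) ^ 2) =
        (4 * (l 2 ^ 2 / (4 * l 2 ^ 2 - l 5 ^ 2)) - 1) * (1 - l 0 ^ 2 / (4 * l 2 ^ 2 - l 5 ^ 2) -
        l 2 ^ 2 / (4 * l 2 ^ 2 - l 5 ^ 2)) ^ 2
      obtain ⟨u, hU⟩ : ∃ u, u = 4 * l 2 ^ 2 - l 5 ^ 2 := ⟨_, rfl⟩
      have hF : l 5 ^ 2 = 4 * l 2 ^ 2 - u := by rw [hU]; ring
      have hF4 : l 5 ^ 4 = (4 * l 2 ^ 2 - u) ^ 2 := by rw [← hF]; ring
      rw [← hU] at hu' g1 ⊢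
      rw [hF4, hF] at g1
      field_simp
      linear_combination g1
    · have hu' := hu.ne'
      have hq : l 2 ^ 2 / (4 * l 2 ^ 2 - l 5 ^ 2) ≠ 0 := (div_pos (by positivity) hu).ne'
      have hr : l 0 ^ 2 / (4 * l 2 ^ 2 - l 5 ^ 2) / (l 2 ^ 2 / (4 * l 2 ^ 2 - l 5 ^ 2)) =
          l 0 ^ 2 / l 2 ^ 2 := div_div_div_cancel_right₀ hu' _ _
      funext i
      fin_cases i
      · exact hr
      · show l 0 ^ 2 / (4 * l 2 ^ 2 - l 5 ^ 2) / (l 2 ^ 2 / (4 * l 2 ^ 2 - l 5 ^ 2)) =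
          l 1 ^ 2 / l 2 ^ 2
        rw [h1, hr]
      · show (1 : ℝ) = l 2 ^ 2 / l 2 ^ 2
        rw [div_self (by positivity)]
      · show (1 : ℝ) = l 3 ^ 2 / l 2 ^ 2
        rw [h3, div_self (by positivity)]
      · show (1 : ℝ) = l 4 ^ 2 / l 2 ^ 2
        rw [h4, div_self (by positivity)]
      · show (4 * (l 2 ^ 2 / (4 * l 2 ^ 2 - l 5 ^ 2)) - 1) / (l 2 ^ 2 / (4 * l 2 ^ 2 - l 5 ^ 2)) =
          l 5 ^ 2 / l 2 ^ 2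
        field_simp
        ring

end Pool.Agent.Helper22.FF
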