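import Pool.Agent.Helper22.FF.Basic

/-!
FF-05 Star.  Families with explicit equations between the squared lengths.

Put `A = l 0 ^ 2` and the other squared lengths as named below; all `D l v > 0`, `Gr l > 0`, `H(x,y,z) =
2xy + 2yz + 2zx - x² - y² - z²` (`heron` in squares). Use `cos_sq_al`, `sin_sq_al`, `finite_of_ratio` (with
`j = 0`, ratios to `A`). All identities are `ring` after unfolding `W, wform, D, heron` (`simp`).
* `L10` (`01 = 02 = 03`): `E = l 3 ^ 2, C = l 4 ^ 2, F = l 5 ^ 2` (edges `12, 13, 23`). `D 3 = E (4A - E)`,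
`D 2 = C (4A - C)`, `D 1 = F (4A - F)`, `D 0 = H(E, C, F)`, `W 3 = E (C + F - E)`. `sin_sq_al`:
`sin²α (4A - E) D 0 = 16 Gr`, `sin²β (4A - C) D 0 = 16 Gr`, `sin²γ (4A - F) D 0 = 16 Gr`, so with
`τ = 16 Gr / (A D 0)`, `p = 1/sin²α`, `q = 1/sin²β`, `r = 1/sin²γ`: `E/A = 4 - pτ`, `C/A = 4 - qτ`, `F/A = 4 - rτ`.
`cos_sq_al` for the edge `12`: `cos²α (4 - e) H(e, c, f) = e (c + f - e)²` for the ratios `e, c, f`; as a
polynomial in `τ` it is not zero: at `τ = 0`, `e = c = f = 4`, the left side is `0` and the right side is `64`. So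
finitely many `τ`. (If the set is empty there is nothing to do; so all sines are positive.)
* `L1` (`01 = 02 = 03 = 12`): the set is contained in the set of the same kind with `E = A`:
`sin²β (4A - C) = sin²γ (4A - F)` and `cos²β (4A - C) H(A, C, F) = C (A + F - C)²` (`W 4 = C (A + F - C)`). With
`τ = 4 - F/A`, `ρ = sin²γ / sin²β`: `F/A = 4 - τ`, `C/A = 4 - ρτ`; at `τ = 0` the left side is `0`, the right side
is `4 (1 + 4 - 4)² = 4`.
* `K51` (all equal but `23`): `F = l 5 ^ 2`: `cos γ = (2A - F)/(4A - F)` (`W 5 = F (2A - F)`,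
`D 0 = D 1 = F (4A - F)`), so `F/A` is determined (`cos γ < 1`).
* `K42` (`01 = 02 = 13 = 23`, `03 = 12`): `B = l 2 ^ 2`: `W 2 = B (4A - 3B)`, `D 1 = D 2 = B (4A - B)`,
`cos ρ = (4A - 3B)/(4A - B)`, so `B/A` is determined.
* `K33` (`01 = 02 = 13`, `03 = 12 = 23`): `B = l 2 ^ 2`; `al l 1 = al l 4` because `W 1 = W 4` and the faces agree:
`W 0 = 2A² - 2AB + B²`, `W 1 = W 4 = A (3B - 2A)`, `D 2 = D 3 = B (4A - B)`, `D 0 = D 1 = A (4B - A)`. With `t = 4 l₀ √Gr`: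
`sin κ · √(D2 D3) · (D1 D3) = t (W1² - t²) + 2 W0 W1 t` (`sin (a + 2b) = sin a cos 2b + cos a sin 2b`), so
`sin²κ D2 D3 (D1 D3)² = T (2 W0 W1 + W1² - T)²`, `T = 16 A Gr = D2 D3 - W0²`. As a polynomial in `b = B/A`:
at `b = 4` (`A = 1`): `D2 = D3 = 0`, `T = -100`, `W0 = W1 = 10`, so the left side is `0` and the right side is
`-100 · 400² ≠ 0`. So finitely many `b`.
-/

open Real Set Pool.Agent.Helper1.Tet

namespace Pool.Agent.Helper22.FF

namespace StarAux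

open Polynomial in
theorem fin_of_poly {S : Set (Fin 6 → ℝ)} (hS : S ⊆ Nm) (p : Polynomial ℝ) (x₀ : ℝ)
    (hp : p.eval x₀ ≠ 0) (F : ℝ → Fin 6 → ℝ)
    (h : ∀ l ∈ S, ∃ τ, p.eval τ = 0 ∧ (fun i => l i ^ 2 / l 0 ^ 2) = F τ) : S.Finite := by
  have hp0 : p ≠ 0 := by
    rintro rfl
    simp at hp
  refine finite_of_ratio hS 0 (((Polynomial.finite_setOfPred_isRoot hp0).image F).subset ?_)
  rintro _ ⟨l, hl, rfl⟩
  obtain ⟨τ, h1, h2⟩ := h l hl
  exact ⟨τ, h1, h2.symm⟩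

/-- Heron in squares -/
def Hq {R : Type*} [CommRing R] (x y z : R) : R :=
  2 * x * y + 2 * y * z + 2 * z * x - x ^ 2 - y ^ 2 - z ^ 2

theorem D0 (l : Fin 6 → ℝ) : D l 0 = Hq (l 3 ^ 2) (l 4 ^ 2) (l 5 ^ 2) := by
  simp [D, heron, Hq]; ring
theorem D1 (l : Fin 6 → ℝ) : D l 1 = Hq (l 1 ^ 2) (l 2 ^ 2) (l 5 ^ 2) := by
  simp [D, heron, Hq]; ring
theorem D2 (l : Fin 6 → ℝ) : D l 2 = Hq (l 0 ^ 2) (l 2 ^ 2) (l 4 ^ 2) := by
  simp [D, heron, Hq]; ring
theorem D3 (l : Fin 6 → ℝ) : D l 3 = Hq (l 0 ^ 2) (l 1 ^ 2) (l 3 ^ 2) := by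
  simp [D, heron, Hq]; ring

theorem pos {l : Fin 6 → ℝ} (hl : l ∈ TT) (j : Fin 6) : 0 < l j := (TT_facts hl).1 j
theorem Dpos {l : Fin 6 → ℝ} (hl : l ∈ TT) (v : Fin 4) : 0 < D l v := (TT_facts hl).2.1 v

theorem ratio_eq {A E s DD G : ℝ} (hA : A ≠ 0) (hD : DD ≠ 0) (hs : s ≠ 0)
    (h : s * DD * (4 * A - E) = 16 * G) : E / A = 4 - s⁻¹ * (16 * G / (A * DD)) := by
  rw [← h]; field_simp; ring

theorem ratio_eq' {A C F s u : ℝ} (hA : A ≠ 0) (hs : s ≠ 0)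
    (h : s * (4 * A - C) = u * (4 * A - F)) : C / A = 4 - u / s * (4 - F / A) := by
  have h1 : C = 4 * A - u / s * (4 * A - F) := by
    field_simp
    linear_combination -h
  rw [h1]
  field_simp

end StarAux

open StarAux

theorem L10 (α β γ : ℝ) : {l | l ∈ Nm ∧ l 1 = l 0 ∧ l 2 = l 0 ∧
    al l 3 = α ∧ al l 4 = β ∧ al l 5 = γ}.Finite := by
  set p := (sin α ^ 2)⁻¹ with hpdef
  set q := (sin β ^ 2)⁻¹ with hqdef
  set r := (sin γ ^ 2)⁻¹ with hrdef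
  refine fin_of_poly (fun l h => h.1)
    (Polynomial.C (cos α ^ 2) * (Polynomial.C p * Polynomial.X) *
      Hq (4 - Polynomial.C p * Polynomial.X) (4 - Polynomial.C q * Polynomial.X)
        (4 - Polynomial.C r * Polynomial.X) -
      (4 - Polynomial.C p * Polynomial.X) * ((4 - Polynomial.C q * Polynomial.X) +
        (4 - Polynomial.C r * Polynomial.X) - (4 - Polynomial.C p * Polynomial.X)) ^ 2) 0 ?_
    (fun τ => ![1, 1, 1, 4 - p * τ, 4 - q * τ, 4 - r * τ]) ?_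
  · simp [Hq]
  rintro l ⟨hN, h1, h2, h3, h4, h5⟩
  have hl := hN.1
  have hA : 0 < l 0 ^ 2 := pow_pos (pos hl 0) 2
  have hE : 0 < l 3 ^ 2 := pow_pos (pos hl 3) 2
  have hC : 0 < l 4 ^ 2 := pow_pos (pos hl 4) 2
  have hF : 0 < l 5 ^ 2 := pow_pos (pos hl 5) 2
  have hG : 0 < Gr l := hl.2
  have hD : 0 < D l 0 := Dpos hl 0
  have s3 := sin_sq_al hl 3
  have s4 := sin_sq_al hl 4
  have s5 := sin_sq_al hl 5
  have c3 := cos_sq_al hl 3
  have e3 : D l 3 = l 3 ^ 2 * (4 * l 0 ^ 2 - l 3 ^ 2) := by rw [D3, h1]; simp only [Hq]; ring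
  have e2 : D l 2 = l 4 ^ 2 * (4 * l 0 ^ 2 - l 4 ^ 2) := by rw [D2, h2]; simp only [Hq]; ring
  have e1 : D l 1 = l 5 ^ 2 * (4 * l 0 ^ 2 - l 5 ^ 2) := by rw [D1, h1, h2]; simp only [Hq]; ring
  have w3 : W l 3 = l 3 ^ 2 * (l 4 ^ 2 + l 5 ^ 2 - l 3 ^ 2) := by
    simp [W, wform, ea, eb, ec, ed, ix, h1, h2]; ring
  have x3 : D l (ec 3) * D l (ed 3) = D l 0 * D l 3 := rfl
  have x4 : D l (ec 4) * D l (ed 4) = D l 0 * D l 2 := rfl
  have x5 : D l (ec 5) * D l (ed 5) = D l 0 * D l 1 := rfl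
  rw [x3, e3, h3] at s3
  rw [x4, e2, h4] at s4
  rw [x5, e1, h5] at s5
  rw [x3, e3, h3, w3] at c3
  set A := l 0 ^ 2
  set E := l 3 ^ 2
  set C := l 4 ^ 2
  set F := l 5 ^ 2
  set G := Gr l
  set DD := D l 0 with hDD
  have s3' : sin α ^ 2 * DD * (4 * A - E) = 16 * G := by
    have : E * (sin α ^ 2 * DD * (4 * A - E) - 16 * G) = 0 := by linear_combination s3
    rcases mul_eq_zero.1 this with h | h
    · exact absurd h hE.ne'
    · linarith
  have s4' : sin β ^ 2 * DD * (4 * A - C) = 16 * G := by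
    have : C * (sin β ^ 2 * DD * (4 * A - C) - 16 * G) = 0 := by linear_combination s4
    rcases mul_eq_zero.1 this with h | h
    · exact absurd h hC.ne'
    · linarith
  have s5' : sin γ ^ 2 * DD * (4 * A - F) = 16 * G := by
    have : F * (sin γ ^ 2 * DD * (4 * A - F) - 16 * G) = 0 := by linear_combination s5
    rcases mul_eq_zero.1 this with h | h
    · exact absurd h hF.ne'
    · linarith
  have c3' : cos α ^ 2 * DD * (4 * A - E) = E * (C + F - E) ^ 2 := by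
    have : E * (cos α ^ 2 * DD * (4 * A - E) - E * (C + F - E) ^ 2) = 0 := by
      linear_combination c3
    rcases mul_eq_zero.1 this with h | h
    · exact absurd h hE.ne'
    · linarith
  have n3 : sin α ^ 2 ≠ 0 := by
    intro h; rw [h] at s3'; nlinarith
  have n4 : sin β ^ 2 ≠ 0 := by
    intro h; rw [h] at s4'; nlinarith
  have n5 : sin γ ^ 2 ≠ 0 := by
    intro h; rw [h] at s5'; nlinarith
  have hA' := hA.ne'
  have hD' := hD.ne'
  have r3 : E / A = 4 - p * (16 * G / (A * DD)) := ratio_eq hA' hD' n3 s3'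
  have r4 : C / A = 4 - q * (16 * G / (A * DD)) := ratio_eq hA' hD' n4 s4'
  have r5 : F / A = 4 - r * (16 * G / (A * DD)) := ratio_eq hA' hD' n5 s5'
  refine ⟨16 * G / (A * DD), ?_, ?_⟩
  · have key : cos α ^ 2 * (4 - E / A) * Hq (E / A) (C / A) (F / A) -
        (E / A) * (C / A + F / A - E / A) ^ 2 = 0 := by
      have hH : DD = Hq E C F := by rw [hDD, D0]
      rw [hH] at c3'
      simp only [Hq] at c3' ⊢
      field_simp
      linear_combination c3'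
    rw [r3, r4, r5] at key
    simp only [Hq] at key ⊢
    simp only [Polynomial.eval_sub, Polynomial.eval_mul, Polynomial.eval_add, Polynomial.eval_pow,
      Polynomial.eval_C, Polynomial.eval_X, Polynomial.eval_ofNat]
    linear_combination key
  · funext i
    fin_cases i
    · exact div_self hA'
    · simp [h1, hA', A]
    · simp [h2, hA', A]
    · exact r3
    · exact r4
    · exact r5

theorem L1 (β γ : ℝ) : {l | l ∈ Nm ∧ l 1 = l 0 ∧ l 2 = l 0 ∧ l 3 = l 0 ∧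
    al l 4 = β ∧ al l 5 = γ}.Finite := by
  set ρ := sin γ ^ 2 / sin β ^ 2 with hρ
  refine fin_of_poly (fun l h => h.1)
    (Polynomial.C (cos β ^ 2) * (Polynomial.C ρ * Polynomial.X) *
      Hq 1 (4 - Polynomial.C ρ * Polynomial.X) (4 - Polynomial.X) -
      (4 - Polynomial.C ρ * Polynomial.X) * (1 + (4 - Polynomial.X) -
        (4 - Polynomial.C ρ * Polynomial.X)) ^ 2) 0 ?_
    (fun τ => ![1, 1, 1, 1, 4 - ρ * τ, 4 - τ]) ?_
  · simp [Hq]
  rintro l ⟨hN, h1, h2, h3, h4, h5⟩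
  have hl := hN.1
  have hA : 0 < l 0 ^ 2 := pow_pos (pos hl 0) 2
  have hC : 0 < l 4 ^ 2 := pow_pos (pos hl 4) 2
  have hF : 0 < l 5 ^ 2 := pow_pos (pos hl 5) 2
  have hG : 0 < Gr l := hl.2
  have hD : 0 < D l 0 := Dpos hl 0
  have s4 := sin_sq_al hl 4
  have s5 := sin_sq_al hl 5
  have c4 := cos_sq_al hl 4
  have e2 : D l 2 = l 4 ^ 2 * (4 * l 0 ^ 2 - l 4 ^ 2) := by rw [D2, h2]; simp only [Hq]; ring
  have e1 : D l 1 = l 5 ^ 2 * (4 * l 0 ^ 2 - l 5 ^ 2) := by rw [D1, h1, h2]; simp only [Hq]; ring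
  have w4 : W l 4 = l 4 ^ 2 * (l 0 ^ 2 + l 5 ^ 2 - l 4 ^ 2) := by
    simp [W, wform, ea, eb, ec, ed, ix, h1, h2, h3]; ring
  have x4 : D l (ec 4) * D l (ed 4) = D l 0 * D l 2 := rfl
  have x5 : D l (ec 5) * D l (ed 5) = D l 0 * D l 1 := rfl
  have hH : D l 0 = Hq (l 0 ^ 2) (l 4 ^ 2) (l 5 ^ 2) := by rw [D0, h3]
  rw [x4, e2, h4] at s4
  rw [x5, e1, h5] at s5
  rw [x4, e2, h4, w4] at c4
  set A := l 0 ^ 2
  set C := l 4 ^ 2
  set F := l 5 ^ 2
  set G := Gr l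
  set DD := D l 0 with hDD
  have s4' : sin β ^ 2 * DD * (4 * A - C) = 16 * G := by
    have : C * (sin β ^ 2 * DD * (4 * A - C) - 16 * G) = 0 := by linear_combination s4
    rcases mul_eq_zero.1 this with h | h
    · exact absurd h hC.ne'
    · linarith
  have s5' : sin γ ^ 2 * DD * (4 * A - F) = 16 * G := by
    have : F * (sin γ ^ 2 * DD * (4 * A - F) - 16 * G) = 0 := by linear_combination s5
    rcases mul_eq_zero.1 this with h | h
    · exact absurd h hF.ne'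
    · linarith
  have c4' : cos β ^ 2 * DD * (4 * A - C) = C * (A + F - C) ^ 2 := by
    have : C * (cos β ^ 2 * DD * (4 * A - C) - C * (A + F - C) ^ 2) = 0 := by
      linear_combination c4
    rcases mul_eq_zero.1 this with h | h
    · exact absurd h hC.ne'
    · linarith
  have n4 : sin β ^ 2 ≠ 0 := by
    intro h; rw [h] at s4'; nlinarith
  have hA' := hA.ne'
  have hD' := hD.ne'
  have s45 : sin β ^ 2 * (4 * A - C) = sin γ ^ 2 * (4 * A - F) := by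
    have : DD * (sin β ^ 2 * (4 * A - C) - sin γ ^ 2 * (4 * A - F)) = 0 := by
      linear_combination s4' - s5'
    rcases mul_eq_zero.1 this with h | h
    · exact absurd h hD'
    · linarith
  have r5 : F / A = 4 - (4 - F / A) := by ring
  have r4 : C / A = 4 - ρ * (4 - F / A) := ratio_eq' hA' n4 s45
  refine ⟨4 - F / A, ?_, ?_⟩
  · have key : cos β ^ 2 * (4 - C / A) * Hq 1 (C / A) (F / A) -
        (C / A) * (1 + F / A - C / A) ^ 2 = 0 := by
      rw [hH] at c4'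
      simp only [Hq] at c4' ⊢
      field_simp
      linear_combination c4'
    rw [r4] at key
    simp only [Hq] at key ⊢
    simp only [Polynomial.eval_sub, Polynomial.eval_mul, Polynomial.eval_add, Polynomial.eval_pow,
      Polynomial.eval_C, Polynomial.eval_X, Polynomial.eval_ofNat, Polynomial.eval_one]
    linear_combination key
  · funext i
    fin_cases i
    · exact div_self hA'
    · simp [h1, hA', A]
    · simp [h2, hA', A]
    · simp [h3, hA', A]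
    · exact r4
    · exact r5

theorem K51 (γ : ℝ) : {l | l ∈ Nm ∧ l 1 = l 0 ∧ l 2 = l 0 ∧ l 3 = l 0 ∧ l 4 = l 0 ∧
    al l 5 = γ}.Finite := by
  refine fin_of_poly (fun l h => h.1)
    (Polynomial.C (cos γ ^ 2) * (4 - Polynomial.X) ^ 2 - (2 - Polynomial.X) ^ 2) 4 ?_
    (fun τ => ![1, 1, 1, 1, 1, τ]) ?_
  · simp; norm_num
  rintro l ⟨hN, h1, h2, h3, h4, h5⟩
  have hl := hN.1
  have hA : 0 < l 0 ^ 2 := pow_pos (pos hl 0) 2
  have hF : 0 < l 5 ^ 2 := pow_pos (pos hl 5) 2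
  have c5 := cos_sq_al hl 5
  have e0 : D l 0 = l 5 ^ 2 * (4 * l 0 ^ 2 - l 5 ^ 2) := by rw [D0, h3, h4]; simp only [Hq]; ring
  have e1 : D l 1 = l 5 ^ 2 * (4 * l 0 ^ 2 - l 5 ^ 2) := by rw [D1, h1, h2]; simp only [Hq]; ring
  have w5 : W l 5 = l 5 ^ 2 * (2 * l 0 ^ 2 - l 5 ^ 2) := by
    simp [W, wform, ea, eb, ec, ed, ix, h1, h2, h3, h4]; ring
  have x5 : D l (ec 5) * D l (ed 5) = D l 0 * D l 1 := rfl
  rw [x5, e0, e1, h5, w5] at c5
  set A := l 0 ^ 2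
  set F := l 5 ^ 2
  have c5' : cos γ ^ 2 * (4 * A - F) ^ 2 = (2 * A - F) ^ 2 := by
    have : F ^ 2 * (cos γ ^ 2 * (4 * A - F) ^ 2 - (2 * A - F) ^ 2) = 0 := by
      linear_combination c5
    rcases mul_eq_zero.1 this with h | h
    · exact absurd h (pow_pos hF 2).ne'
    · linarith
  have hA' := hA.ne'
  refine ⟨F / A, ?_, ?_⟩
  · simp only [Polynomial.eval_sub, Polynomial.eval_mul, Polynomial.eval_pow,
      Polynomial.eval_C, Polynomial.eval_X, Polynomial.eval_ofNat]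
    field_simp
    linear_combination c5'
  · funext i
    fin_cases i
    · exact div_self hA'
    · simp [h1, hA', A]
    · simp [h2, hA', A]
    · simp [h3, hA', A]
    · simp [h4, hA', A]
    · rfl

theorem K42 (ρ : ℝ) : {l | l ∈ Nm ∧ l 1 = l 0 ∧ l 4 = l 0 ∧ l 5 = l 0 ∧ l 3 = l 2 ∧
    al l 2 = ρ}.Finite := by
  refine fin_of_poly (fun l h => h.1)
    (Polynomial.C (cos ρ ^ 2) * (4 - Polynomial.X) ^ 2 - (4 - 3 * Polynomial.X) ^ 2) 4 ?_
    (fun τ => ![1, 1, τ, τ, 1, 1]) ?_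
  · simp; norm_num
  rintro l ⟨hN, h1, h4, h5, h3, h2⟩
  have hl := hN.1
  have hA : 0 < l 0 ^ 2 := pow_pos (pos hl 0) 2
  have hB : 0 < l 2 ^ 2 := pow_pos (pos hl 2) 2
  have c2 := cos_sq_al hl 2
  have e1 : D l 1 = l 2 ^ 2 * (4 * l 0 ^ 2 - l 2 ^ 2) := by rw [D1, h1, h5]; simp only [Hq]; ring
  have e2 : D l 2 = l 2 ^ 2 * (4 * l 0 ^ 2 - l 2 ^ 2) := by rw [D2, h4]; simp only [Hq]; ring
  have w2 : W l 2 = l 2 ^ 2 * (4 * l 0 ^ 2 - 3 * l 2 ^ 2) := by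
    simp [W, wform, ea, eb, ec, ed, ix, h1, h3, h4, h5]; ring
  have x2 : D l (ec 2) * D l (ed 2) = D l 1 * D l 2 := rfl
  rw [x2, e1, e2, h2, w2] at c2
  set A := l 0 ^ 2
  set B := l 2 ^ 2
  have c2' : cos ρ ^ 2 * (4 * A - B) ^ 2 = (4 * A - 3 * B) ^ 2 := by
    have : B ^ 2 * (cos ρ ^ 2 * (4 * A - B) ^ 2 - (4 * A - 3 * B) ^ 2) = 0 := by
      linear_combination c2
    rcases mul_eq_zero.1 this with h | h
    · exact absurd h (pow_pos hB 2).ne'
    · linarith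
  have hA' := hA.ne'
  refine ⟨B / A, ?_, ?_⟩
  · simp only [Polynomial.eval_sub, Polynomial.eval_mul, Polynomial.eval_pow,
      Polynomial.eval_C, Polynomial.eval_X, Polynomial.eval_ofNat]
    field_simp
    linear_combination c2'
  · funext i
    fin_cases i
    · exact div_self hA'
    · simp [h1, hA', A]
    · rfl
    · simp [h3, A, B]
    · simp [h4, hA', A]
    · simp [h5, hA', A]

theorem K33 (κ : ℝ) : {l | l ∈ Nm ∧ l 1 = l 0 ∧ l 4 = l 0 ∧ l 3 = l 2 ∧ l 5 = l 2 ∧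
    al l 0 + al l 1 + al l 4 = κ}.Finite := by
  -- in ratios: d = D2 = D3, g = D0 = D1, w0 = W0, w1 = W1
  refine fin_of_poly (fun l h => h.1)
    (Polynomial.C (sin κ ^ 2) * ((Polynomial.X * (4 - Polynomial.X)) ^ 2 *
        ((4 * Polynomial.X - 1) * (Polynomial.X * (4 - Polynomial.X))) ^ 2) -
      ((Polynomial.X * (4 - Polynomial.X)) ^ 2 -
          (2 - 2 * Polynomial.X + Polynomial.X ^ 2) ^ 2) *
        ((3 * Polynomial.X - 2) ^ 2 +
          2 * (2 - 2 * Polynomial.X + Polynomial.X ^ 2) * (3 * Polynomial.X - 2) -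
          ((Polynomial.X * (4 - Polynomial.X)) ^ 2 -
            (2 - 2 * Polynomial.X + Polynomial.X ^ 2) ^ 2)) ^ 2) 4 ?_
    (fun τ => ![1, 1, τ, τ, 1, τ]) ?_
  · simp; norm_num
  rintro l ⟨hN, h1, h4, h3, h5, hκ⟩
  have hl := hN.1
  obtain ⟨hpos, hDpos, hcos, hsin, -⟩ := TT_facts hl
  have hA : 0 < l 0 ^ 2 := pow_pos (hpos 0) 2
  have hB : 0 < l 2 ^ 2 := pow_pos (hpos 2) 2
  have e0 : D l 0 = l 0 ^ 2 * (4 * l 2 ^ 2 - l 0 ^ 2) := by
    rw [D0, h3, h4, h5]; simp only [Hq]; ring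
  have e1 : D l 1 = l 0 ^ 2 * (4 * l 2 ^ 2 - l 0 ^ 2) := by
    rw [D1, h1, h5]; simp only [Hq]; ring
  have e2 : D l 2 = l 2 ^ 2 * (4 * l 0 ^ 2 - l 2 ^ 2) := by rw [D2, h4]; simp only [Hq]; ring
  have e3 : D l 3 = l 2 ^ 2 * (4 * l 0 ^ 2 - l 2 ^ 2) := by
    rw [D3, h1, h3]; simp only [Hq]; ring
  have w0 : W l 0 = 2 * (l 0 ^ 2) ^ 2 - 2 * l 0 ^ 2 * l 2 ^ 2 + (l 2 ^ 2) ^ 2 := by
    simp [W, wform, ea, eb, ec, ed, ix, h1, h3, h4, h5]; ring
  have w1 : W l 1 = l 0 ^ 2 * (3 * l 2 ^ 2 - 2 * l 0 ^ 2) := by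
    simp [W, wform, ea, eb, ec, ed, ix, h1, h3, h4, h5]; ring
  have w4 : W l 4 = l 0 ^ 2 * (3 * l 2 ^ 2 - 2 * l 0 ^ 2) := by
    simp [W, wform, ea, eb, ec, ed, ix, h1, h3, h4, h5]; ring
  have hal : al l 4 = al l 1 := by
    have x1 : al l 1 = arccos (W l 1 / (√(D l 1) * √(D l 3))) := rfl
    have x4 : al l 4 = arccos (W l 4 / (√(D l 0) * √(D l 2))) := rfl
    rw [x1, x4, w1, w4, e0, e1, e2, e3]
  have hsq := W_sq_add l 0
  have y0 : D l (ec 0) * D l (ed 0) = D l 2 * D l 3 := rfl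
  rw [y0] at hsq
  have cc0 : cos (al l 0) = W l 0 / (√(D l 2) * √(D l 3)) := hcos 0
  have ss0 : sin (al l 0) = 4 * l 0 * √(Gr l) / (√(D l 2) * √(D l 3)) := hsin 0
  have cc1 : cos (al l 1) = W l 1 / (√(D l 1) * √(D l 3)) := hcos 1
  have ss1 : sin (al l 1) = 4 * l 1 * √(Gr l) / (√(D l 1) * √(D l 3)) := hsin 1
  have h23 : D l 3 = D l 2 := by rw [e2, e3]
  rw [h1] at ss1
  rw [h23] at cc0 ss0 cc1 ss1 hsq
  have d2 := hDpos 2
  have d1 := hDpos 1
  have q2 : √(D l 2) * √(D l 2) = D l 2 := mul_self_sqrt d2.le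
  have q1 : √(D l 1) * √(D l 1) = D l 1 := mul_self_sqrt d1.le
  have p1 : √(D l 1) ≠ 0 := (sqrt_pos.2 d1).ne'
  have p2 : √(D l 2) ≠ 0 := (sqrt_pos.2 d2).ne'
  have qG : √(Gr l) ^ 2 = Gr l := sq_sqrt hl.2.le
  rw [q2] at cc0 ss0
  set t := 4 * l 0 * √(Gr l) with ht
  have ht2 : t ^ 2 = 16 * l 0 ^ 2 * Gr l := by rw [ht]; rw [mul_pow, mul_pow, qG]; ring
  have ht3 : t ^ 2 = D l 2 ^ 2 - W l 0 ^ 2 := by rw [ht2]; linear_combination hsq
  have hsinκ : sin κ * (D l 2 * (D l 1 * D l 2)) = t * (W l 1 ^ 2 + 2 * W l 0 * W l 1 - t ^ 2) := by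
    have hk : κ = al l 0 + 2 * al l 1 := by rw [← hκ, hal]; ring
    rw [hk, sin_add, cos_two_mul, sin_two_mul]
    have h1' : cos (al l 1) ^ 2 * (D l 1 * D l 2) = W l 1 ^ 2 := by
      rw [cc1, div_pow, mul_pow (√(D l 1)), sq_sqrt d1.le, sq_sqrt d2.le]
      field_simp
    have h2' : sin (al l 1) ^ 2 * (D l 1 * D l 2) = t ^ 2 := by
      rw [ss1, div_pow, mul_pow (√(D l 1)), sq_sqrt d1.le, sq_sqrt d2.le]
      field_simp
    have h3' : sin (al l 1) * cos (al l 1) * (D l 1 * D l 2) = t * W l 1 := by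
      rw [ss1, cc1]
      have : t / (√(D l 1) * √(D l 2)) * (W l 1 / (√(D l 1) * √(D l 2))) * (D l 1 * D l 2) =
          t * W l 1 * ((D l 1 * D l 2) / ((√(D l 1) * √(D l 1)) * (√(D l 2) * √(D l 2)))) := by
        field_simp
      rw [this, q1, q2, div_self (mul_pos d1 d2).ne', mul_one]
    have h4' : cos (al l 0) * D l 2 = W l 0 := by
      rw [cc0]; field_simp
    have h5' : sin (al l 0) * D l 2 = t := by
      rw [ss0]; field_simp
    have hsc := sin_sq_add_cos_sq (al l 1)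
    have h6 : D l 1 * D l 2 = W l 1 ^ 2 + t ^ 2 := by
      linear_combination h1' + h2' - (D l 1 * D l 2) * hsc
    linear_combination (2 * W l 1 ^ 2 - (D l 1 * D l 2)) * h5' + 2 * (sin (al l 0) * D l 2) * h1' +
      2 * W l 1 * t * h4' + 2 * (cos (al l 0) * D l 2) * h3' - t * h6
  have hfin : sin κ ^ 2 * (D l 2 * (D l 1 * D l 2)) ^ 2 =
      (D l 2 ^ 2 - W l 0 ^ 2) * (W l 1 ^ 2 + 2 * W l 0 * W l 1 - (D l 2 ^ 2 - W l 0 ^ 2)) ^ 2 := by
    rw [← ht3, ← mul_pow, hsinκ]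
    ring
  rw [e1, e2, w0, w1] at hfin
  set A := l 0 ^ 2
  set B := l 2 ^ 2
  have hA' := hA.ne'
  refine ⟨B / A, ?_, ?_⟩
  · simp only [Polynomial.eval_sub, Polynomial.eval_mul, Polynomial.eval_add, Polynomial.eval_pow,
      Polynomial.eval_C, Polynomial.eval_X, Polynomial.eval_ofNat, Polynomial.eval_one]
    have hBA : B = (B / A) * A := by field_simp
    generalize B / A = b at hBA
    rw [hBA] at hfin
    have : A ^ 12 * (sin κ ^ 2 * ((b * (4 - b)) ^ 2 * ((4 * b - 1) * (b * (4 - b))) ^ 2) -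
        ((b * (4 - b)) ^ 2 - (2 - 2 * b + b ^ 2) ^ 2) *
          ((3 * b - 2) ^ 2 + 2 * (2 - 2 * b + b ^ 2) * (3 * b - 2) -
            ((b * (4 - b)) ^ 2 - (2 - 2 * b + b ^ 2) ^ 2)) ^ 2) = 0 := by
      linear_combination hfin
    exact (mul_eq_zero.1 this).resolve_left (pow_ne_zero _ hA')
  · funext i
    fin_cases i
    · exact div_self hA'
    · simp [h1, hA', A]
    · rfl
    · simp [h3, A, B]
    · simp [h4, hA', A]
    · simp [h5, A, B]

end Pool.Agent.Helper22.FF
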