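import Pool.Agent.Helper22.FF.Basic
import Pool.Agent.Helper22.FF.Place
import Pool.Agent.Helper22.FF.Alg13

/-!
FF-11 Th13Place.  The place analysis for `S13` when the corner coefficient does not vanish.

PROOF. `ι = S`, `X i = exp (i al l 1)` (injective, `exp_injOn`), `Y i = exp (i al l 4)`, `K = exp (iκ)`, so
`exp (i al l 0) = K (X Y)⁻¹`; place `P` of `exists_pl` for `X`: `X⁻¹ → 0`. Write `c j, s j` for cosine and sine of
`al l j`; `c1 = (X + X⁻¹)/2`, `s1 = (X - X⁻¹)/(2i)`, `c4, s4` with `Y`,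
`c0 = (K (XY)⁻¹ + K⁻¹ X Y)/2`, `s0 = (K (XY)⁻¹ - K⁻¹ X Y)/(2i)`; `c2 = cos β`, `c3 = cos α`, `c5 = cos γ` are constants.
`DD c = 0`, `PP 0 = PP 1 = PP 4` (as `l 0 = l 1 = l 4`). `Pl.tri` for `Y`:
 (i) `Y⁻¹ → 0`: `X⁻² Y⁻² DD → c22/16` (terms: `c1² c4² → 1/16`, `-s5² c0² → -s5² K⁻²/4`, `-2 c0 c1 c4 c5 → -c5 K⁻¹/4`; all
  other terms `→ 0`; note `c0 X⁻¹ Y⁻¹ → K⁻¹/2`). So `c22 = 0`: contradiction.
 (ii) `Y → 0`: `X⁻² Y² DD → 1/16` (only `c1² c4²`; `c0 (XY)⁻¹ = (K (XY)⁻² + K⁻¹)/2`, `(XY)⁻¹` need not have a limit, so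
  write the terms with `c0` directly: `c0² Y² X⁻² = ((K X⁻² + K⁻¹ Y²)/2)²`, `c0 c1 c4 Y² X⁻² = ((K X⁻² + K⁻¹ Y²)/2)(c1 X⁻¹)(c4 Y)`,
  `c0 X⁻¹ Y = (K X⁻² + K⁻¹ Y²)/2 → 0`). Contradiction.
 (iii) `Y → y ≠ 0`, `Y⁻¹ → y⁻¹`. Then `c0 X⁻¹ → K⁻¹ y/2`, `s0 X⁻¹ → -K⁻¹ y/(2i)`, `c1 X⁻¹ → 1/2`, `s1 X⁻¹ → 1/(2i)` and, with
  `C = (y + y⁻¹)/2`, `S = (y - y⁻¹)/(2i)`, `k = K⁻¹ y`:
  `X⁻² DD → -(1/4) (s5² k² + S² + 2 k (c2 + C c5))`;
  `X⁻² (PP 4 - PP 0) → (1/4) (S (-C + k c5) - i k (k s5² + c2 + C c5))`;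
  `X⁻¹ (DD + i (PP 1 - PP 0)) → -(1/2) c3 ((c5 + c2 C) + k (C + c2 c5))`.
  For the last one use the ring identity
  `DD + i (PP 1 - PP 0) = -s4² c1 (c1 - i s1) - s5² c0 (c0 + i s0) - (c2 + c4 c5)(c0 (c1 - i s1) + c1 (c0 + i s0))
    - c3 (c5 + c2 c4)(c1 + (c1 - i s1)) - c3 (c4 + c2 c5)(c0 + (c0 + i s0)) + F0`,
  `F0 = 1 - c2² - c3² - c4² - c5² - 2 c2 c4 c5 + c2² c3²` (here `s4² = 1 - c4²`, `s5² = 1 - c5²`), and `c1 - i s1 = X⁻¹`,
  `c0 + i s0 = K (XY)⁻¹`.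
  So the hypotheses of `alg13` hold in `P.k` (`I = P.j i`, `s2 = P.j (sin β) ≠ 0` as `β = al l 2 ∈ (0, π)`), hence the last
  bracket is not `0` and `c3 = 0`, i.e. `cos α = 0`. If `cos β = 0` then `K⁻¹ = -2 cos γ` (in `P.k`, so in `ℂ`, `P.j` is
  injective), so `1 = |K⁻¹|² = 4 cos²γ`, `K⁻² = 1`, and `c22 = 1 - 4 sin²γ + 8 cos²γ = 0`: contradiction.
-/

open Real Set Pool.Agent.Helper1.Tet

namespace Pool.Agent.Helper22.FF

namespace Th13PlaceAux

theorem eqz {ι : Type} (P : Pl ι) {f : ι → ℂ} {a : P.k} (h : P.Lim f a) (h0 : ∀ i, f i = 0) :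
    a = 0 := by
  have h1 : P.Lim f (P.j 0) := by
    have : f = fun _ => (0 : ℂ) := funext h0
    rw [this]
    exact P.const 0
  rw [P.uniq h h1, map_zero]

theorem limA {ι : Type} (P : Pl ι) (u W c0 c1 c4 : ι → ℂ) (c2 c3 c5 m : ℂ)
    (hu : P.Lim u 0) (hW : P.Lim W 0)
    (h1 : P.Lim (fun i => c1 i * u i) (P.j (1 / 2)))
    (h4 : P.Lim (fun i => c4 i * W i) (P.j (1 / 2)))
    (h0 : P.Lim (fun i => c0 i * u i * W i) (P.j m))
    (hD : ∀ i, DD ![c0 i, c1 i, c2, c3, c4 i, c5] = 0) :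
    1 / 16 - m ^ 2 * (1 - c5 ^ 2) - m * c5 / 2 = 0 := by
  have key : ∀ i, (1 - c2 ^ 2 - c3 ^ 2 - c5 ^ 2 + c2 ^ 2 * c3 ^ 2) * ((u i) ^ 2 * (W i) ^ 2)
      - (c0 i * u i * W i) ^ 2 * (1 - c5 ^ 2) - (c1 i * u i) ^ 2 * (W i) ^ 2
      - (c4 i * W i) ^ 2 * (u i) ^ 2 + (c1 i * u i) ^ 2 * (c4 i * W i) ^ 2
      - (2 * c2 * c5) * ((c4 i * W i) * (W i * (u i) ^ 2))
      - (2 * c3 * c5) * ((c1 i * u i) * (u i * (W i) ^ 2))
      - (2 * c3) * ((c0 i * u i * W i) * (c4 i * W i) * u i)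
      - (2 * c2) * ((c0 i * u i * W i) * (c1 i * u i) * W i)
      - (2 * c2 * c3 * c5) * ((c0 i * u i * W i) * (u i * W i))
      - (2 * c5) * ((c0 i * u i * W i) * (c1 i * u i) * (c4 i * W i))
      - (2 * c2 * c3) * ((c1 i * u i) * (c4 i * W i) * (u i * W i)) = 0 := by
    intro i
    have h := hD i
    simp only [DD, Matrix.cons_val] at h
    linear_combination ((u i) ^ 2 * (W i) ^ 2) * h
  obtain ⟨a, ha, ha'⟩ : ∃ a, P.Lim (fun i =>
      (1 - c2 ^ 2 - c3 ^ 2 - c5 ^ 2 + c2 ^ 2 * c3 ^ 2) * ((u i) ^ 2 * (W i) ^ 2)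
      - (c0 i * u i * W i) ^ 2 * (1 - c5 ^ 2) - (c1 i * u i) ^ 2 * (W i) ^ 2
      - (c4 i * W i) ^ 2 * (u i) ^ 2 + (c1 i * u i) ^ 2 * (c4 i * W i) ^ 2
      - (2 * c2 * c5) * ((c4 i * W i) * (W i * (u i) ^ 2))
      - (2 * c3 * c5) * ((c1 i * u i) * (u i * (W i) ^ 2))
      - (2 * c3) * ((c0 i * u i * W i) * (c4 i * W i) * u i)
      - (2 * c2) * ((c0 i * u i * W i) * (c1 i * u i) * W i)
      - (2 * c2 * c3 * c5) * ((c0 i * u i * W i) * (u i * W i))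
      - (2 * c5) * ((c0 i * u i * W i) * (c1 i * u i) * (c4 i * W i))
      - (2 * c2 * c3) * ((c1 i * u i) * (c4 i * W i) * (u i * W i))) a ∧
      a = P.j (1 / 16 - m ^ 2 * (1 - c5 ^ 2) - m * c5 / 2) := by
    apply Exists.intro
    apply And.intro
    · repeat' first
        | with_reducible assumption
        | with_reducible exact Pl.const _ _
        | with_reducible apply Pl.pow
        | with_reducible apply Pl.neg
        | with_reducible apply Pl.sub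
        | with_reducible apply Pl.add
        | with_reducible apply Pl.mul
    ·
      have hj : P.j (1 / 16 - m ^ 2 * (1 - c5 ^ 2) - m * c5 / 2) =
          - P.j m ^ 2 * P.j (1 - c5 ^ 2) + P.j (1 / 2) ^ 2 * P.j (1 / 2) ^ 2
          - P.j (2 * c5) * (P.j m * P.j (1 / 2) * P.j (1 / 2)) := by
        rw [← map_pow, ← map_pow, ← map_neg, ← map_mul, ← map_mul, ← map_mul, ← map_mul,
          ← map_mul, ← map_add, ← map_sub]
        congr 1
        ring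
      rw [hj]
      ring
  have h5 := eqz P ha key
  rw [ha'] at h5
  exact (map_eq_zero P.j).1 h5

theorem limB {ι : Type} (P : Pl ι) (u c0 c1 c4 s0 s1 s4 b : ι → ℂ) (c2 c3 c5 : ℂ) (C S k : P.k)
    (hu : P.Lim u 0) (hc0 : P.Lim (fun i => c0 i * u i) (k / 2))
    (hs0 : P.Lim (fun i => s0 i * u i) (P.j Complex.I * k / 2))
    (hc1 : P.Lim (fun i => c1 i * u i) (P.j (1 / 2)))
    (hc4 : P.Lim c4 C) (hs4 : P.Lim s4 S) (hb : P.Lim b 0)
    (e1 : ∀ i, c1 i - Complex.I * s1 i = u i) (e0 : ∀ i, c0 i + Complex.I * s0 i = b i)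
    (hD : ∀ i, DD ![c0 i, c1 i, c2, c3, c4 i, c5] = 0)
    (s2 s3 s5 : ℂ)
    (h4 : ∀ i, PP ![c0 i, c1 i, c2, c3, c4 i, c5] ![s0 i, s1 i, s2, s3, s4 i, s5] 4 =
      PP ![c0 i, c1 i, c2, c3, c4 i, c5] ![s0 i, s1 i, s2, s3, s4 i, s5] 0)
    (h1 : ∀ i, PP ![c0 i, c1 i, c2, c3, c4 i, c5] ![s0 i, s1 i, s2, s3, s4 i, s5] 1 =
      PP ![c0 i, c1 i, c2, c3, c4 i, c5] ![s0 i, s1 i, s2, s3, s4 i, s5] 0) :
    (1 - P.j c5 ^ 2) * k ^ 2 + (1 - C ^ 2) + 2 * k * (P.j c2 + C * P.j c5) = 0 ∧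
    S * C - k * P.j c5 * S + P.j Complex.I * k * (k * (1 - P.j c5 ^ 2) + P.j c2 + C * P.j c5) = 0 ∧
    P.j c3 * ((P.j c5 + P.j c2 * C) + k * (C + P.j c2 * P.j c5)) = 0 := by
  have := P.charZero
  have hhalf : P.j (1 / 2) = 1 / 2 := by
    rw [map_div₀, map_one, map_ofNat]
  refine ⟨?_, ?_, ?_⟩
  · have key : ∀ i, (1 - c2 ^ 2 - c3 ^ 2 - c5 ^ 2 + c2 ^ 2 * c3 ^ 2) * (u i) ^ 2
        - (u i) ^ 2 * (c4 i) ^ 2 - (c0 i * u i) ^ 2 * (1 - c5 ^ 2)
        - (c1 i * u i) ^ 2 * (1 - (c4 i) ^ 2)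
        - (2 * c2 * c5) * ((u i) ^ 2 * c4 i) - (2 * c3 * c5) * (u i * (c1 i * u i))
        - (2 * c3) * (u i * (c0 i * u i) * c4 i) - (2 * c2) * ((c0 i * u i) * (c1 i * u i))
        - (2 * c2 * c3 * c5) * (u i * (c0 i * u i))
        - (2 * c5) * ((c0 i * u i) * (c1 i * u i) * c4 i)
        - (2 * c2 * c3) * (u i * (c1 i * u i) * c4 i) = 0 := by
      intro i
      have h := hD i
      simp only [DD, Matrix.cons_val] at h
      linear_combination (u i) ^ 2 * h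
    obtain ⟨a, ha, ha'⟩ : ∃ a, P.Lim (fun i =>
        (1 - c2 ^ 2 - c3 ^ 2 - c5 ^ 2 + c2 ^ 2 * c3 ^ 2) * (u i) ^ 2
        - (u i) ^ 2 * (c4 i) ^ 2 - (c0 i * u i) ^ 2 * (1 - c5 ^ 2)
        - (c1 i * u i) ^ 2 * (1 - (c4 i) ^ 2)
        - (2 * c2 * c5) * ((u i) ^ 2 * c4 i) - (2 * c3 * c5) * (u i * (c1 i * u i))
        - (2 * c3) * (u i * (c0 i * u i) * c4 i) - (2 * c2) * ((c0 i * u i) * (c1 i * u i))
        - (2 * c2 * c3 * c5) * (u i * (c0 i * u i))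
        - (2 * c5) * ((c0 i * u i) * (c1 i * u i) * c4 i)
        - (2 * c2 * c3) * (u i * (c1 i * u i) * c4 i)) a ∧
        a = -(1 / 4) * ((1 - P.j c5 ^ 2) * k ^ 2 + (1 - C ^ 2) +
          2 * k * (P.j c2 + C * P.j c5)) := by
      apply Exists.intro
      apply And.intro
      · repeat' first
          | with_reducible assumption
          | with_reducible exact Pl.const _ _
          | with_reducible apply Pl.pow
          | with_reducible apply Pl.neg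
          | with_reducible apply Pl.sub
          | with_reducible apply Pl.add
          | with_reducible apply Pl.mul
      ·
        simp only [map_sub, map_mul, map_pow, map_one, map_ofNat, hhalf]
        ring
    have h5 := eqz P ha key
    rw [ha'] at h5
    rcases mul_eq_zero.1 h5 with h6 | h6
    · exfalso
      norm_num at h6
    · exact h6
  · have key : ∀ i, s4 i * (c4 i * ((u i) ^ 2 - (c1 i * u i) ^ 2) + (c3 * (u i * (c0 i * u i)))
          + (c2 * c5) * (u i) ^ 2 + (c2 * c3) * (u i * (c1 i * u i))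
          + c5 * ((c1 i * u i) * (c0 i * u i)))
        - (s0 i * u i) * ((1 - c5 ^ 2) * (c0 i * u i) + c2 * (c1 i * u i) + c3 * (u i * c4 i)
          + (c5 * c2 * c3) * u i + c5 * ((c1 i * u i) * c4 i)) = 0 := by
      intro i
      have h := h4 i
      simp only [PP, Matrix.cons_val] at h
      linear_combination (u i) ^ 2 * h
    obtain ⟨a, ha, ha'⟩ : ∃ a, P.Lim (fun i =>
        s4 i * (c4 i * ((u i) ^ 2 - (c1 i * u i) ^ 2) + (c3 * (u i * (c0 i * u i)))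
          + (c2 * c5) * (u i) ^ 2 + (c2 * c3) * (u i * (c1 i * u i))
          + c5 * ((c1 i * u i) * (c0 i * u i)))
        - (s0 i * u i) * ((1 - c5 ^ 2) * (c0 i * u i) + c2 * (c1 i * u i) + c3 * (u i * c4 i)
          + (c5 * c2 * c3) * u i + c5 * ((c1 i * u i) * c4 i))) a ∧
        a = -(1 / 4) * (S * C - k * P.j c5 * S +
          P.j Complex.I * k * (k * (1 - P.j c5 ^ 2) + P.j c2 + C * P.j c5)) := by
      apply Exists.intro
      apply And.intro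
      · repeat' first
          | with_reducible assumption
          | with_reducible exact Pl.const _ _
          | with_reducible apply Pl.pow
          | with_reducible apply Pl.neg
          | with_reducible apply Pl.sub
          | with_reducible apply Pl.add
          | with_reducible apply Pl.mul
      ·
        simp only [map_sub, map_mul, map_pow, map_one, hhalf]
        ring
    have h5 := eqz P ha key
    rw [ha'] at h5
    rcases mul_eq_zero.1 h5 with h6 | h6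
    · exfalso
      norm_num at h6
    · exact h6
  · have key : ∀ i, - (1 - (c4 i) ^ 2) * ((c1 i * u i) * u i)
        - (1 - c5 ^ 2) * ((c0 i * u i) * b i)
        - (c2 + c4 i * c5) * ((c0 i * u i) * u i + (c1 i * u i) * b i)
        - c3 * ((c5 + c2 * c4 i) * (c1 i * u i + u i * u i))
        - c3 * ((c4 i + c2 * c5) * (c0 i * u i + u i * b i))
        + u i * (1 - c2 ^ 2 - c3 ^ 2 - (c4 i) ^ 2 - c5 ^ 2 - (2 * c2 * c5) * c4 i
          + c2 ^ 2 * c3 ^ 2) = 0 := by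
      intro i
      have h := hD i
      have h' := h1 i
      simp only [DD, PP, Matrix.cons_val] at h h'
      have f1 := e1 i
      have f0 := e0 i
      rw [← f0]
      have f2 : (u i : ℂ) * (c1 i - Complex.I * s1 i) = u i * u i := by rw [f1]
      have f3 : c1 i * (c1 i - Complex.I * s1 i) = c1 i * u i := by rw [f1]
      have f4 : c0 i * (c1 i - Complex.I * s1 i) = c0 i * u i := by rw [f1]
      linear_combination (u i) * h + (Complex.I * u i) * h' + (1 - (c4 i) ^ 2) * (u i) * f3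
        + (c2 + c4 i * c5) * (u i) * f4 + c3 * (c5 + c2 * c4 i) * f2
    obtain ⟨a, ha, ha'⟩ : ∃ a, P.Lim (fun i =>
        - (1 - (c4 i) ^ 2) * ((c1 i * u i) * u i)
        - (1 - c5 ^ 2) * ((c0 i * u i) * b i)
        - (c2 + c4 i * c5) * ((c0 i * u i) * u i + (c1 i * u i) * b i)
        - c3 * ((c5 + c2 * c4 i) * (c1 i * u i + u i * u i))
        - c3 * ((c4 i + c2 * c5) * (c0 i * u i + u i * b i))
        + u i * (1 - c2 ^ 2 - c3 ^ 2 - (c4 i) ^ 2 - c5 ^ 2 - (2 * c2 * c5) * c4 i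
          + c2 ^ 2 * c3 ^ 2)) a ∧
        a = -(1 / 2) * (P.j c3 * ((P.j c5 + P.j c2 * C) + k * (C + P.j c2 * P.j c5))) := by
      apply Exists.intro
      apply And.intro
      · repeat' first
          | with_reducible assumption
          | with_reducible exact Pl.const _ _
          | with_reducible apply Pl.pow
          | with_reducible apply Pl.neg
          | with_reducible apply Pl.sub
          | with_reducible apply Pl.add
          | with_reducible apply Pl.mul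
      ·
        simp only [map_sub, map_mul, map_pow, map_one, map_ofNat, hhalf]
        ring
    have h5 := eqz P ha key
    rw [ha'] at h5
    rcases mul_eq_zero.1 h5 with h6 | h6
    · exfalso
      norm_num at h6
    · exact h6

theorem half {ι : Type} (P : Pl ι) {f g : ι → ℂ} (h : ∀ i, f i * g i = 1) (hg : P.Lim g 0) :
    P.Lim (fun i => (f i + g i) / 2 * g i) (P.j (1 / 2)) := by
  have h1 : P.Lim (fun i => (1 / 2 : ℂ) * (1 + g i ^ 2)) (P.j (1 / 2) * (P.j 1 + 0 ^ 2)) :=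
    P.mul (P.const _) (P.add (P.const _) (P.pow hg 2))
  have h2 : (fun i => (f i + g i) / 2 * g i) = fun i => (1 / 2 : ℂ) * (1 + g i ^ 2) := by
    funext i
    linear_combination (1 / 2 : ℂ) * h i
  rw [h2]
  simpa using h1

theorem core {ι : Type} [Infinite ι] (X Y : ι → ℂ) (K c2 s2 c3 s3 c5 s5 : ℂ)
    (hX : Function.Injective X) (hX0 : ∀ i, X i ≠ 0) (hY0 : ∀ i, Y i ≠ 0) (hK : K ≠ 0)
    (c0 s0 c1 s1 c4 s4 : ι → ℂ)
    (dc0 : ∀ i, c0 i = (K * (X i)⁻¹ * (Y i)⁻¹ + (K * (X i)⁻¹ * (Y i)⁻¹)⁻¹) / 2)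
    (ds0 : ∀ i, s0 i = (K * (X i)⁻¹ * (Y i)⁻¹ - (K * (X i)⁻¹ * (Y i)⁻¹)⁻¹) / (2 * Complex.I))
    (dc1 : ∀ i, c1 i = (X i + (X i)⁻¹) / 2)
    (ds1 : ∀ i, s1 i = (X i - (X i)⁻¹) / (2 * Complex.I))
    (dc4 : ∀ i, c4 i = (Y i + (Y i)⁻¹) / 2)
    (ds4 : ∀ i, s4 i = (Y i - (Y i)⁻¹) / (2 * Complex.I))
    (hD : ∀ i, DD ![c0 i, c1 i, c2, c3, c4 i, c5] = 0)
    (h4 : ∀ i, PP ![c0 i, c1 i, c2, c3, c4 i, c5] ![s0 i, s1 i, s2, s3, s4 i, s5] 4 =
      PP ![c0 i, c1 i, c2, c3, c4 i, c5] ![s0 i, s1 i, s2, s3, s4 i, s5] 0)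
    (h1 : ∀ i, PP ![c0 i, c1 i, c2, c3, c4 i, c5] ![s0 i, s1 i, s2, s3, s4 i, s5] 1 =
      PP ![c0 i, c1 i, c2, c3, c4 i, c5] ![s0 i, s1 i, s2, s3, s4 i, s5] 0)
    (q2 : c2 ^ 2 + s2 ^ 2 = 1) (q5 : c5 ^ 2 + s5 ^ 2 = 1) (hs2 : s2 ≠ 0)
    (h22 : 1 - 4 * s5 ^ 2 * K⁻¹ ^ 2 - 4 * c5 * K⁻¹ ≠ 0) :
    c3 = 0 ∧ (c2 = 0 → K⁻¹ = -2 * c5) := by
  obtain ⟨P, hP⟩ := exists_pl X hX hX0
  have := P.charZero
  have hI := Complex.I_ne_zero
  have hI2 : Complex.I ^ 2 = -1 := Complex.I_sq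
  have hc1 : P.Lim (fun i => c1 i * (X i)⁻¹) (P.j (1 / 2)) := by
    have h := half P (fun i => mul_inv_cancel₀ (hX0 i)) hP
    have h2 : (fun i => c1 i * (X i)⁻¹) = fun i => (X i + (X i)⁻¹) / 2 * (X i)⁻¹ :=
      funext fun i => by rw [dc1]
    rw [h2]
    exact h
  rcases P.tri Y hY0 with ⟨y, hy0, hy, hy'⟩ | hy | hy
  · -- a finite nonzero limit
    set k : P.k := (P.j K)⁻¹ * y with hk
    have hjI : P.j Complex.I ^ 2 = -1 := by rw [← map_pow, hI2, map_neg, map_one]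
    have hjI0 : P.j Complex.I ≠ 0 := by
      intro h
      rw [h] at hjI
      norm_num at hjI
    have hjK : P.j K ≠ 0 := by
      intro h
      exact hK ((map_eq_zero P.j).1 h)
    have hc0 : P.Lim (fun i => c0 i * (X i)⁻¹) (k / 2) := by
      have h : P.Lim (fun i => (1 / 2 * K) * ((X i)⁻¹ ^ 2 * (Y i)⁻¹) + (1 / 2 * K⁻¹) * Y i)
          (P.j (1 / 2 * K) * (0 ^ 2 * y⁻¹) + P.j (1 / 2 * K⁻¹) * y) :=
        P.add (P.mul (P.const _) (P.mul (P.pow hP 2) hy')) (P.mul (P.const _) hy)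
      have h2 : (fun i => c0 i * (X i)⁻¹) =
          fun i => (1 / 2 * K) * ((X i)⁻¹ ^ 2 * (Y i)⁻¹) + (1 / 2 * K⁻¹) * Y i := by
        funext i
        have a1 := hX0 i
        have a2 := hY0 i
        rw [dc0]
        field_simp
      rw [h2]
      have h3 : k / 2 = P.j (1 / 2 * K) * (0 ^ 2 * y⁻¹) + P.j (1 / 2 * K⁻¹) * y := by
        rw [hk, map_mul P.j (1 / 2) K⁻¹, map_inv₀, map_div₀, map_one, map_ofNat]
        ring
      rw [h3]
      exact h
    have hs0 : P.Lim (fun i => s0 i * (X i)⁻¹) (P.j Complex.I * k / 2) := by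
      have h : P.Lim (fun i => (-Complex.I / 2 * K) * ((X i)⁻¹ ^ 2 * (Y i)⁻¹)
            + (Complex.I / 2 * K⁻¹) * Y i)
          (P.j (-Complex.I / 2 * K) * (0 ^ 2 * y⁻¹) + P.j (Complex.I / 2 * K⁻¹) * y) :=
        P.add (P.mul (P.const _) (P.mul (P.pow hP 2) hy')) (P.mul (P.const _) hy)
      have h2 : (fun i => s0 i * (X i)⁻¹) = fun i =>
          (-Complex.I / 2 * K) * ((X i)⁻¹ ^ 2 * (Y i)⁻¹) + (Complex.I / 2 * K⁻¹) * Y i := by
        funext i
        have a1 := hX0 i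
        have a2 := hY0 i
        rw [ds0]
        field_simp
        linear_combination (K ^ 2 - Y i ^ 2 * (X i) ^ 2) * hI2
      rw [h2]
      have h3 : P.j Complex.I * k / 2 =
          P.j (-Complex.I / 2 * K) * (0 ^ 2 * y⁻¹) + P.j (Complex.I / 2 * K⁻¹) * y := by
        rw [hk, map_mul P.j (Complex.I / 2), map_inv₀, map_div₀, map_ofNat]
        ring
      rw [h3]
      exact h
    have hc4 : P.Lim c4 ((y + y⁻¹) / 2) := by
      have h : P.Lim (fun i => (1 / 2 : ℂ) * (Y i + (Y i)⁻¹)) (P.j (1 / 2) * (y + y⁻¹)) :=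
        P.mul (P.const _) (P.add hy hy')
      have h2 : c4 = fun i => (1 / 2 : ℂ) * (Y i + (Y i)⁻¹) := by
        funext i
        rw [dc4]
        ring
      rw [h2]
      have h3 : (y + y⁻¹) / 2 = P.j (1 / 2) * (y + y⁻¹) := by
        rw [map_div₀, map_one, map_ofNat]
        ring
      rw [h3]
      exact h
    have hs4 : P.Lim s4 ((y - y⁻¹) / (2 * P.j Complex.I)) := by
      have h : P.Lim (fun i => (-Complex.I / 2) * (Y i - (Y i)⁻¹))
          (P.j (-Complex.I / 2) * (y - y⁻¹)) :=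
        P.mul (P.const _) (P.sub hy hy')
      have h2 : s4 = fun i => (-Complex.I / 2) * (Y i - (Y i)⁻¹) := by
        funext i
        have a2 := hY0 i
        rw [ds4]
        field_simp
        linear_combination (Y i ^ 2 - 1) * hI2
      rw [h2]
      have h3 : (y - y⁻¹) / (2 * P.j Complex.I) = P.j (-Complex.I / 2) * (y - y⁻¹) := by
        rw [map_div₀, map_neg, map_ofNat]
        rw [div_eq_iff (mul_ne_zero two_ne_zero hjI0)]
        linear_combination (y - y⁻¹) * hjI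
      rw [h3]
      exact h
    have hb : P.Lim (fun i => K * (X i)⁻¹ * (Y i)⁻¹) 0 := by
      have h := P.mul (P.mul (P.const K) hP) hy'
      simpa using h
    obtain ⟨r1, r2, r3⟩ := limB P (fun i => (X i)⁻¹) c0 c1 c4 s0 s1 s4
      (fun i => K * (X i)⁻¹ * (Y i)⁻¹) c2 c3 c5 _ _ k hP hc0 hs0 hc1 hc4 hs4 hb
      (fun i => by
        rw [dc1, ds1]
        have a1 := hX0 i
        field_simp
        ring)
      (fun i => by
        rw [dc0, ds0]
        have a1 := hX0 i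
        have a2 := hY0 i
        field_simp
        ring) hD s2 s3 s5 h4 h1
    have p2 : P.j c2 ^ 2 + P.j s2 ^ 2 = 1 := by
      rw [← map_pow, ← map_pow, ← map_add, q2, map_one]
    have p5 : P.j c5 ^ 2 + P.j s5 ^ 2 = 1 := by
      rw [← map_pow, ← map_pow, ← map_add, q5, map_one]
    have e5 : P.j s5 ^ 2 = 1 - P.j c5 ^ 2 := by linear_combination p5
    have eS : ((y - y⁻¹) / (2 * P.j Complex.I)) ^ 2 = 1 - ((y + y⁻¹) / 2) ^ 2 := by
      rw [div_pow, mul_pow, hjI]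
      field_simp
      ring
    obtain ⟨t1, t2⟩ := alg13 (P.j Complex.I) (P.j K) y (P.j c2) (P.j s2) (P.j c5) (P.j s5)
      hjI hjK hy0 p2 p5 (fun h => hs2 ((map_eq_zero P.j).1 h))
      (by rw [eS, e5, ← hk]; exact r1) (by rw [e5, ← hk]; linear_combination r2)
    constructor
    · rcases mul_eq_zero.1 r3 with h | h
      · exact (map_eq_zero P.j).1 h
      · exact absurd h t1
    · intro h
      have h2 := t2 (by rw [h, map_zero])
      apply P.j.injective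
      rw [map_inv₀, h2, map_mul, map_neg, map_ofNat]
  · -- the limit zero
    exfalso
    have hc4 : P.Lim (fun i => c4 i * Y i) (P.j (1 / 2)) := by
      have h := half P (f := fun i => (Y i)⁻¹) (fun i => inv_mul_cancel₀ (hY0 i)) hy
      have h2 : (fun i => c4 i * Y i) = fun i => ((Y i)⁻¹ + Y i) / 2 * Y i :=
        funext fun i => by rw [dc4, add_comm]
      rw [h2]
      exact h
    have hc0 : P.Lim (fun i => c0 i * (X i)⁻¹ * Y i) (P.j 0) := by
      have h : P.Lim (fun i => (1 / 2 * K) * (X i)⁻¹ ^ 2 + (1 / 2 * K⁻¹) * Y i ^ 2)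
          (P.j (1 / 2 * K) * 0 ^ 2 + P.j (1 / 2 * K⁻¹) * 0 ^ 2) :=
        P.add (P.mul (P.const _) (P.pow hP 2)) (P.mul (P.const _) (P.pow hy 2))
      have h2 : (fun i => c0 i * (X i)⁻¹ * Y i) =
          fun i => (1 / 2 * K) * (X i)⁻¹ ^ 2 + (1 / 2 * K⁻¹) * Y i ^ 2 := by
        funext i
        have a1 := hX0 i
        have a2 := hY0 i
        rw [dc0]
        field_simp
      rw [h2]
      simpa using h
    have h := limA P (fun i => (X i)⁻¹) Y c0 c1 c4 c2 c3 c5 0 hP hy hc1 hc4 hc0 hD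
    norm_num at h
  · -- the limit infinity
    exfalso
    have hc4 : P.Lim (fun i => c4 i * (Y i)⁻¹) (P.j (1 / 2)) := by
      have h := half P (fun i => mul_inv_cancel₀ (hY0 i)) hy
      have h2 : (fun i => c4 i * (Y i)⁻¹) = fun i => (Y i + (Y i)⁻¹) / 2 * (Y i)⁻¹ :=
        funext fun i => by rw [dc4]
      rw [h2]
      exact h
    have hc0 : P.Lim (fun i => c0 i * (X i)⁻¹ * (Y i)⁻¹) (P.j (1 / 2 * K⁻¹)) := by
      have h : P.Lim (fun i => (1 / 2 * K) * ((X i)⁻¹ * (Y i)⁻¹) ^ 2 + 1 / 2 * K⁻¹)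
          (P.j (1 / 2 * K) * (0 * 0) ^ 2 + P.j (1 / 2 * K⁻¹)) :=
        P.add (P.mul (P.const _) (P.pow (P.mul hP hy) 2)) (P.const _)
      have h2 : (fun i => c0 i * (X i)⁻¹ * (Y i)⁻¹) =
          fun i => (1 / 2 * K) * ((X i)⁻¹ * (Y i)⁻¹) ^ 2 + 1 / 2 * K⁻¹ := by
        funext i
        have a1 := hX0 i
        have a2 := hY0 i
        rw [dc0]
        field_simp
      rw [h2]
      simpa using h
    have h := limA P (fun i => (X i)⁻¹) (fun i => (Y i)⁻¹) c0 c1 c4 c2 c3 c5 (1 / 2 * K⁻¹)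
      hP hy hc1 hc4 hc0 hD
    apply h22
    linear_combination 16 * h - 4 * K⁻¹ ^ 2 * q5

end Th13PlaceAux

open Th13PlaceAux

theorem L13_place (κ α β γ : ℝ) (h22 : c22 κ γ ≠ 0) (S : Set (Fin 6 → ℝ))
    (hS : S ⊆ S13 κ α β γ) (hinf : S.Infinite) (hinj : Set.InjOn (fun l => al l 1) S) :
    cos α = 0 ∧ cos β ≠ 0 := by
  have : Infinite S := hinf.to_subtype
  have hT : ∀ l : S, (l : Fin 6 → ℝ) ∈ TT := fun l => (hS l.2).1.1
  have hI : ∀ (l : S) (j : Fin 6), al (l : Fin 6 → ℝ) j ∈ Ioo 0 π := fun l j =>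
    (TT_facts (hT l)).2.2.2.2.1 j
  have hX : Function.Injective (fun l : S => Complex.exp (al (l : Fin 6 → ℝ) 1 * Complex.I)) := by
    intro l l' h
    exact Subtype.ext (hinj l.2 l'.2 (exp_injOn (hI l 1) (hI l' 1) h))
  have h0 : ∀ l : S, Complex.exp (al (l : Fin 6 → ℝ) 0 * Complex.I) =
      Complex.exp (κ * Complex.I) * (Complex.exp (al (l : Fin 6 → ℝ) 1 * Complex.I))⁻¹ *
        (Complex.exp (al (l : Fin 6 → ℝ) 4 * Complex.I))⁻¹ := by
    intro l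
    have h1 : al (l : Fin 6 → ℝ) 0 + al l 1 + al l 4 = κ := (hS l.2).2.2.2.1
    rw [← Complex.exp_neg, ← Complex.exp_neg, ← Complex.exp_add, ← Complex.exp_add, ← h1]
    congr 1
    push_cast
    ring
  have hcos : ∀ l : S, (fun j => (cos (al (l : Fin 6 → ℝ) j) : ℂ)) =
      ![(cos (al (l : Fin 6 → ℝ) 0) : ℂ), (cos (al (l : Fin 6 → ℝ) 1) : ℂ), (cos β : ℂ),
        (cos α : ℂ), (cos (al (l : Fin 6 → ℝ) 4) : ℂ), (cos γ : ℂ)] := by
    intro l
    obtain ⟨-, -, -, -, e2, e3, e5⟩ := hS l.2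
    funext j
    fin_cases j
    · rfl
    · rfl
    · exact congrArg (fun t : ℝ => (cos t : ℂ)) e2
    · exact congrArg (fun t : ℝ => (cos t : ℂ)) e3
    · rfl
    · exact congrArg (fun t : ℝ => (cos t : ℂ)) e5
  have hsin : ∀ l : S, (fun j => (sin (al (l : Fin 6 → ℝ) j) : ℂ)) =
      ![(sin (al (l : Fin 6 → ℝ) 0) : ℂ), (sin (al (l : Fin 6 → ℝ) 1) : ℂ), (sin β : ℂ),
        (sin α : ℂ), (sin (al (l : Fin 6 → ℝ) 4) : ℂ), (sin γ : ℂ)] := by
    intro l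
    obtain ⟨-, -, -, -, e2, e3, e5⟩ := hS l.2
    funext j
    fin_cases j
    · rfl
    · rfl
    · exact congrArg (fun t : ℝ => (sin t : ℂ)) e2
    · exact congrArg (fun t : ℝ => (sin t : ℂ)) e3
    · rfl
    · exact congrArg (fun t : ℝ => (sin t : ℂ)) e5
  have hβ : sin β ≠ 0 := by
    obtain ⟨l, hl⟩ := hinf.nonempty
    have h1 := (TT_facts (hS hl).1.1).2.2.2.2.1 2
    have h2 : al l 2 = β := (hS hl).2.2.2.2.1
    rw [h2] at h1
    exact (sin_pos_of_pos_of_lt_pi h1.1 h1.2).ne'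
  have hsq : ∀ t : ℝ, (cos t : ℂ) ^ 2 + (sin t : ℂ) ^ 2 = 1 := by
    intro t
    have := cos_sq_add_sin_sq t
    exact_mod_cast this
  obtain ⟨r1, r2⟩ := core (ι := S) (fun l => Complex.exp (al (l : Fin 6 → ℝ) 1 * Complex.I))
    (fun l => Complex.exp (al (l : Fin 6 → ℝ) 4 * Complex.I)) (Complex.exp (κ * Complex.I))
    (cos β) (sin β) (cos α) (sin α) (cos γ) (sin γ) hX (fun _ => Complex.exp_ne_zero _)
    (fun _ => Complex.exp_ne_zero _) (Complex.exp_ne_zero _)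
    (fun l => (cos (al (l : Fin 6 → ℝ) 0) : ℂ)) (fun l => (sin (al (l : Fin 6 → ℝ) 0) : ℂ))
    (fun l => (cos (al (l : Fin 6 → ℝ) 1) : ℂ)) (fun l => (sin (al (l : Fin 6 → ℝ) 1) : ℂ))
    (fun l => (cos (al (l : Fin 6 → ℝ) 4) : ℂ)) (fun l => (sin (al (l : Fin 6 → ℝ) 4) : ℂ))
    (fun l => by rw [← h0 l]; exact cos_exp _) (fun l => by rw [← h0 l]; exact sin_exp _)
    (fun l => cos_exp _) (fun l => sin_exp _) (fun l => cos_exp _) (fun l => sin_exp _)
    (fun l => by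
      have h := DD_eq_zero_complex (hT l)
      rw [hcos l] at h
      exact h)
    (fun l => by
      have h := PP_eq_complex (hT l) (i := 4) (j := 0) (hS l.2).2.2.1
      rw [hcos l, hsin l] at h
      exact h)
    (fun l => by
      have h := PP_eq_complex (hT l) (i := 1) (j := 0) (hS l.2).2.1
      rw [hcos l, hsin l] at h
      exact h)
    (hsq β) (hsq γ) (by exact_mod_cast hβ) h22
  refine ⟨by exact_mod_cast r1, fun hb => ?_⟩
  have r3 := r2 (by exact_mod_cast hb)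
  have r4 : (2 * cos γ) ^ 2 = 1 := by
    have h1 : ‖(Complex.exp (κ * Complex.I))⁻¹‖ = 1 := by
      rw [norm_inv, Complex.norm_exp_ofReal_mul_I, inv_one]
    rw [r3] at h1
    have h2 : (-2 * (cos γ : ℂ)) = ((-2 * cos γ : ℝ) : ℂ) := by push_cast; ring
    rw [h2, Complex.norm_real, Real.norm_eq_abs] at h1
    have h3 : (-2 * cos γ) ^ 2 = 1 := by rw [← sq_abs, h1, one_pow]
    linarith
  apply h22
  have r5 : (4 : ℂ) * (cos γ : ℂ) ^ 2 = 1 := by
    have : (4 : ℝ) * cos γ ^ 2 = 1 := by linarith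
    exact_mod_cast this
  unfold c22
  rw [r3]
  have r6 := hsq γ
  linear_combination (-4 * (sin γ : ℂ) ^ 2 + 3) * r5 - 4 * r6

end Pool.Agent.Helper22.FF
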