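import Pool.Agent.Helper22.FF.Basic

/-!
FF-12 Th13Two.  `S13` when the corner coefficient vanishes.

PROOF. Write `c2 = cos β`, `c3 = cos α`, `c5 = cos γ`, `x = al l 1`, `y = al l 4`, `al l 0 = κ - x - y`.
(0) `w = exp (-iκ)` satisfies `4 s5² w² + 4 c5 w - 1 = (2(1 + c5) w - 1)(2(1 - c5) w + 1) = 0`, so `w` is real and `|w| = 1`:
`w = 1`, `c5 = -1/2`, or `w = -1`, `c5 = 1/2`. So `sin κ = 0`, `ε := cos κ = ±1`, `c5 = -ε/2` (the set is not empty, so
`γ ∈ (0, π)`, `1 ± c5 > 0`).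
(1) `cos (al l 0) = ε cos (x + y)`, `sin (al l 0) = -ε sin (x + y)`, and (trigonometric identities, with `c5 = -ε/2`,
`ε² = 1`)
 `DD c = (1/8) cos (2(x-y)) - c2 c3 cos (x-y) - ε c2 cos (2x+y) - ε c3 cos (x+2y) - 1/8 - c2² - c3² + c2² c3²`,
 `PP 1 + PP 4 - 2 PP 0 = (3/2) ε (c2 sin (2x+y) + c3 sin (x+2y))`.
(Expand everything in `cos x, sin x, cos y, sin y`, and reduce with `sin² = 1 - cos²`: `nlinarith` is not needed,
`linear_combination`.) So with `v = (x-y)/2`, `m = 3(x+y)/2` (`2x + y = m + v`, `x + 2y = m - v`), `z = cos 2v`,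
`a = z²/4 - c2 c3 z - 1/4 - c2² - c3² + c2² c3²`:
 (R1) `a = ε (c2 cos (m+v) + c3 cos (m-v))`,  (R2) `0 = c2 sin (m+v) + c3 sin (m-v)`.
(2) Adding squares: `a² = c2² + c3² + 2 c2 c3 z`, a polynomial equation for `z` of degree 4 with leading
coefficient `1/16`: finitely many `z`. By `exists_inf_const_or_inj` and injectivity of `cos` on `[0, π]`, `x - y` is
constant on an infinite subset `S'` of `S13` (`z = cos (x-y)`, `|x-y| < π`, so `x - y = ± arccos z`).
(3) On `S'` the number `m` takes infinitely many values (if `x + y` and `x - y` take finitely many values then so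
does the angle vector, contradicting `al_injOn`). (R2) is `(c2 + c3) cos v · sin m + (c2 - c3) sin v · cos m = 0` for
infinitely many `m ∈ (0, 3π)`, so `(c2 + c3) cos v = 0` and `(c2 - c3) sin v = 0` (if `p sin m + q cos m = 0` with
`(p, q) ≠ 0` then `m` is determined modulo `π`). `|v| < π/2`, so `c3 = -c2`. If `c2 = c3` then both are `0`. Otherwise
`sin v = 0`, `v = 0`, `z = 1`, and (R1): `a = ε (c2 + c3) cos m = 0`, `a = -c2² + c2⁴`, so `c2 = 0` (`|c2| < 1`), `c3 = 0`.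
Finally `α, β ∈ (0, π)`, so `α = β = π/2`.
-/

open Real Set Pool.Agent.Helper1.Tet

namespace Pool.Agent.Helper22.FF

namespace Th13TwoAux

theorem step0 {κ γ : ℝ} (h22 : c22 κ γ = 0) (hγ : γ ∈ Ioo 0 π) :
    sin κ = 0 ∧ cos κ ^ 2 = 1 ∧ cos γ = -cos κ / 2 := by
  have hs : 0 < sin γ := sin_pos_of_pos_of_lt_pi hγ.1 hγ.2
  have hsc : sin γ ^ 2 + cos γ ^ 2 = 1 := sin_sq_add_cos_sq γ
  have hc1 : 0 < 1 + cos γ := by nlinarith [neg_one_le_cos γ]
  have hc2 : 0 < 1 - cos γ := by nlinarith [cos_le_one γ]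
  have hκ : sin κ ^ 2 + cos κ ^ 2 = 1 := sin_sq_add_cos_sq κ
  have hw : (Complex.exp (κ * Complex.I))⁻¹ = (cos κ : ℂ) - (sin κ : ℂ) * Complex.I := by
    rw [← Complex.exp_neg, ← neg_mul, Complex.exp_mul_I, Complex.cos_neg, Complex.sin_neg,
      ← Complex.ofReal_cos, ← Complex.ofReal_sin]
    ring
  unfold c22 at h22
  rw [hw] at h22
  have hscC : (sin γ : ℂ) ^ 2 = 1 - (cos γ : ℂ) ^ 2 := by
    have : ((sin γ ^ 2 + cos γ ^ 2 : ℝ) : ℂ) = 1 := by rw [hsc, Complex.ofReal_one]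
    push_cast at this
    push_cast
    linear_combination this
  have hfac : (2 * (1 + (cos γ : ℂ)) * ((cos κ : ℂ) - (sin κ : ℂ) * Complex.I) - 1) *
      (2 * (1 - (cos γ : ℂ)) * ((cos κ : ℂ) - (sin κ : ℂ) * Complex.I) + 1) = 0 := by
    rw [hscC] at h22
    linear_combination -h22
  rcases mul_eq_zero.1 hfac with h | h
  · have hre := congrArg Complex.re h
    have him := congrArg Complex.im h
    simp [-Complex.ofReal_cos, -Complex.ofReal_sin] at hre him
    have h1 : sin κ = 0 := by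
      rcases him with h2 | h2
      · linarith
      · exact h2
    rw [h1] at hκ
    have h2 : cos κ ^ 2 = 1 := by linarith
    have h3 : 0 < cos κ := by
      by_contra h4
      push Not at h4
      nlinarith
    have h4 : cos κ = 1 := by nlinarith
    refine ⟨h1, h2, ?_⟩
    rw [h4] at hre ⊢
    linarith
  · have hre := congrArg Complex.re h
    have him := congrArg Complex.im h
    simp [-Complex.ofReal_cos, -Complex.ofReal_sin] at hre him
    have h1 : sin κ = 0 := by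
      rcases him with h2 | h2
      · linarith
      · exact h2
    rw [h1] at hκ
    have h2 : cos κ ^ 2 = 1 := by linarith
    have h3 : cos κ < 0 := by
      by_contra h4
      push Not at h4
      nlinarith
    have h4 : cos κ = -1 := by nlinarith
    refine ⟨h1, h2, ?_⟩
    rw [h4] at hre ⊢
    linarith

theorem dd_id (X S Y T e b a : ℝ) (hX : S ^ 2 = 1 - X ^ 2) (hY : T ^ 2 = 1 - Y ^ 2)
    (he : e ^ 2 = 1) :
    1 - ((e * (X * Y - S * T)) ^ 2 + X ^ 2 + b ^ 2 + a ^ 2 + Y ^ 2 + (-e / 2) ^ 2)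
    + ((e * (X * Y - S * T)) ^ 2 * (-e / 2) ^ 2 + X ^ 2 * Y ^ 2 + b ^ 2 * a ^ 2)
    - 2 * (b * Y * (-e / 2) + X * a * (-e / 2) + (e * (X * Y - S * T)) * a * Y +
      (e * (X * Y - S * T)) * X * b)
    - 2 * ((e * (X * Y - S * T)) * b * a * (-e / 2) + (e * (X * Y - S * T)) * X * Y * (-e / 2) +
      X * b * a * Y) =
    (2 * (X * Y + S * T) ^ 2 - 1) / 8 - b * a * (X * Y + S * T)
      - e * b * ((X ^ 2 - S ^ 2) * Y - 2 * X * S * T) - e * a * (X * (Y ^ 2 - T ^ 2) - 2 * S * Y * T)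
      - 1 / 8 - b ^ 2 - a ^ 2 + b ^ 2 * a ^ 2 := by
  linear_combination ((-1/4)*T^2 + (-1)*T^2*e^2 + (1/4)*T^2*e^4 + (-1)*Y*b*e) * hX + ((-1/4) + (-1)*X*a*e + (1/4)*X^2 + (1)*X^2*e^2 + (-1/4)*X^2*e^4 + (-1)*e^2 + (1/4)*e^4) * hY + ((-1) + (1/2)*S*T*X*Y + (-1/2)*S*T*X*Y*e^2 + (-1)*S*T*a*b + (1)*X*Y*a*b + (3/4)*X^2 + (-1/2)*X^2*Y^2 + (1/2)*X^2*Y^2*e^2 + (-1/4)*X^2*e^2 + (3/4)*Y^2 + (-1/4)*Y^2*e^2 + (1/4)*e^2) * he

theorem pp_id (X S Y T e b a : ℝ) (hX : S ^ 2 = 1 - X ^ 2) (hY : T ^ 2 = 1 - Y ^ 2)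
    (he : e ^ 2 = 1) :
    S * (X * (1 - Y ^ 2) + (e * (X * Y - S * T)) * b + a * (-e / 2) +
      Y * (b * a + (e * (X * Y - S * T)) * (-e / 2))) +
    T * (Y * (1 - X ^ 2) + (e * (X * Y - S * T)) * a + b * (-e / 2) +
      X * (b * a + (e * (X * Y - S * T)) * (-e / 2))) -
    2 * (-e * (S * Y + X * T) * ((e * (X * Y - S * T)) * (1 - (-e / 2) ^ 2) + X * b + a * Y +
      (-e / 2) * (b * a + X * Y))) =
    3 / 2 * e * (b * (2 * X * S * Y + (X ^ 2 - S ^ 2) * T) +
      a * (S * (Y ^ 2 - T ^ 2) + 2 * X * Y * T)) := by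
  linear_combination ((-3/2)*T*Y*e^2 + (1/2)*T*Y*e^4 + (1/2)*T*b*e) * hX + ((-3/2)*S*X*e^2 + (1/2)*S*X*e^4 + (1/2)*S*a*e) * hY + ((-1)*S*X + (1)*S*X*Y^2 + (-1)*S*X*Y^2*e^2 + (1/2)*S*X*e^2 + (-1)*S*Y*a*b + (-1)*T*X*a*b + (1)*T*X^2*Y + (-1)*T*X^2*Y*e^2 + (-1)*T*Y + (1/2)*T*Y*e^2) * he

theorem rels {κ α β γ : ℝ} (hκ : sin κ = 0) (he : cos κ ^ 2 = 1) (hγ : cos γ = -cos κ / 2)
    {l : Fin 6 → ℝ} (hl : l ∈ S13 κ α β γ) :
    (2 * cos (al l 1 - al l 4) ^ 2 - 1) / 8 - cos β * cos α * cos (al l 1 - al l 4)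
      - cos κ * cos β * cos (2 * al l 1 + al l 4) - cos κ * cos α * cos (al l 1 + 2 * al l 4)
      - 1 / 8 - cos β ^ 2 - cos α ^ 2 + cos β ^ 2 * cos α ^ 2 = 0 ∧
    cos β * sin (2 * al l 1 + al l 4) + cos α * sin (al l 1 + 2 * al l 4) = 0 := by
  obtain ⟨hN, h10, h40, hsum, h2, h3, h5⟩ := hl
  have hT : l ∈ TT := hN.1
  have hD := DD_eq_zero hT
  have hP1 := PP_eq hT h10
  have hP4 := PP_eq hT h40
  have h0 : al l 0 = κ - (al l 1 + al l 4) := by linarith
  have hc0 : cos (al l 0) = cos κ * (cos (al l 1) * cos (al l 4) - sin (al l 1) * sin (al l 4)) := by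
    rw [h0, cos_sub, hκ, zero_mul, add_zero, cos_add]
  have hs0 : sin (al l 0) = -cos κ * (sin (al l 1) * cos (al l 4) + cos (al l 1) * sin (al l 4)) := by
    rw [h0, sin_sub, hκ, zero_mul, zero_sub, sin_add]
    ring
  have hX : sin (al l 1) ^ 2 = 1 - cos (al l 1) ^ 2 := sin_sq _
  have hY : sin (al l 4) ^ 2 = 1 - cos (al l 4) ^ 2 := sin_sq _
  have hcm : cos (al l 1 - al l 4) = cos (al l 1) * cos (al l 4) + sin (al l 1) * sin (al l 4) :=
    cos_sub _ _
  have hc21 : cos (2 * al l 1 + al l 4) = (cos (al l 1) ^ 2 - sin (al l 1) ^ 2) * cos (al l 4) -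
      2 * cos (al l 1) * sin (al l 1) * sin (al l 4) := by
    rw [cos_add, cos_two_mul, sin_two_mul, hX]
    ring
  have hc12 : cos (al l 1 + 2 * al l 4) = cos (al l 1) * (cos (al l 4) ^ 2 - sin (al l 4) ^ 2) -
      2 * sin (al l 1) * cos (al l 4) * sin (al l 4) := by
    rw [cos_add, cos_two_mul, sin_two_mul, hY]
    ring
  have hs21 : sin (2 * al l 1 + al l 4) = 2 * cos (al l 1) * sin (al l 1) * cos (al l 4) +
      (cos (al l 1) ^ 2 - sin (al l 1) ^ 2) * sin (al l 4) := by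
    rw [sin_add, cos_two_mul, sin_two_mul, hX]
    ring
  have hs12 : sin (al l 1 + 2 * al l 4) = sin (al l 1) * (cos (al l 4) ^ 2 - sin (al l 4) ^ 2) +
      2 * cos (al l 1) * cos (al l 4) * sin (al l 4) := by
    rw [sin_add, cos_two_mul, sin_two_mul, hY]
    ring
  constructor
  · have h := dd_id (cos (al l 1)) (sin (al l 1)) (cos (al l 4)) (sin (al l 4)) (cos κ) (cos β)
      (cos α) hX hY he
    simp only [DD] at hD
    rw [hc0, h2, h3, h5, hγ] at hD
    rw [hcm, hc21, hc12, ← h]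
    exact hD
  · have h := pp_id (cos (al l 1)) (sin (al l 1)) (cos (al l 4)) (sin (al l 4)) (cos κ) (cos β)
      (cos α) hX hY he
    simp only [PP, Matrix.cons_val] at hP1 hP4
    rw [hc0, hs0, h2, h3, h5, hγ] at hP1 hP4
    have hne : cos κ ≠ 0 := by
      intro h0
      rw [h0] at he
      norm_num at he
    rw [hs21, hs12]
    have h6 : 3 / 2 * cos κ * (cos β * (2 * cos (al l 1) * sin (al l 1) * cos (al l 4) +
        (cos (al l 1) ^ 2 - sin (al l 1) ^ 2) * sin (al l 4)) +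
        cos α * (sin (al l 1) * (cos (al l 4) ^ 2 - sin (al l 4) ^ 2) +
          2 * cos (al l 1) * cos (al l 4) * sin (al l 4))) = 0 := by
      rw [← h]
      linarith
    rcases mul_eq_zero.1 h6 with h7 | h7
    · exfalso
      rcases mul_eq_zero.1 h7 with h8 | h8
      · norm_num at h8
      · exact hne h8
    · exact h7

/-- finitely many roots -/
theorem finite_roots (k C A B : ℝ) :
    {z : ℝ | (z ^ 2 / 4 - k * z - C) ^ 2 = A + B * z}.Finite := by
  set Q : Polynomial ℝ := Polynomial.X ^ 4 + Polynomial.C (-8 * k) * Polynomial.X ^ 3 +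
    Polynomial.C (16 * k ^ 2 - 8 * C) * Polynomial.X ^ 2 +
    Polynomial.C (32 * k * C - 16 * B) * Polynomial.X + Polynomial.C (16 * C ^ 2 - 16 * A) with hQ
  have hd : Q.natDegree = 4 := by
    rw [hQ]
    compute_degree!
  have hne : Q ≠ 0 := by
    intro h
    rw [h, Polynomial.natDegree_zero] at hd
    exact absurd hd (by norm_num)
  refine (Q.roots.toFinset.finite_toSet).subset fun z hz => ?_
  rw [Finset.mem_coe, Multiset.mem_toFinset, Polynomial.mem_roots hne, Polynomial.IsRoot.def, hQ]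
  simp only [Polynomial.eval_add, Polynomial.eval_mul, Polynomial.eval_pow, Polynomial.eval_X,
    Polynomial.eval_C]
  have h1 : (z ^ 2 / 4 - k * z - C) ^ 2 = A + B * z := hz
  linear_combination 16 * h1

/-- the relation for `cos (x - y)` -/
theorem zrel {κ α β γ : ℝ} (hκ : sin κ = 0) (he : cos κ ^ 2 = 1) (hγ : cos γ = -cos κ / 2)
    {l : Fin 6 → ℝ} (hl : l ∈ S13 κ α β γ) :
    (cos (al l 1 - al l 4) ^ 2 / 4 - cos β * cos α * cos (al l 1 - al l 4) -
      (1 / 4 + cos β ^ 2 + cos α ^ 2 - cos β ^ 2 * cos α ^ 2)) ^ 2 =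
      (cos β ^ 2 + cos α ^ 2) + 2 * cos β * cos α * cos (al l 1 - al l 4) := by
  obtain ⟨h1, h2⟩ := rels hκ he hγ hl
  set p := 2 * al l 1 + al l 4 with hp
  set q := al l 1 + 2 * al l 4 with hq
  have h3 : cos (al l 1 - al l 4) = cos p * cos q + sin p * sin q := by
    rw [← cos_sub, hp, hq]
    congr 1
    ring
  have h4 : cos (al l 1 - al l 4) ^ 2 / 4 - cos β * cos α * cos (al l 1 - al l 4) -
      (1 / 4 + cos β ^ 2 + cos α ^ 2 - cos β ^ 2 * cos α ^ 2) =
      cos κ * (cos β * cos p + cos α * cos q) := by linear_combination h1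
  have h5 : (cos κ * (cos β * cos p + cos α * cos q)) ^ 2 =
      (cos β * cos p + cos α * cos q) ^ 2 + (cos β * sin p + cos α * sin q) ^ 2 := by
    rw [mul_pow, he, h2]
    ring
  rw [h4, h5, h3]
  have hp1 : sin p ^ 2 + cos p ^ 2 = 1 := sin_sq_add_cos_sq p
  have hq1 : sin q ^ 2 + cos q ^ 2 = 1 := sin_sq_add_cos_sq q
  linear_combination cos β ^ 2 * hp1 + cos α ^ 2 * hq1

/-- a set on which a function is injective and takes finitely many values is finite -/
theorem no_inj {X : Type*} {S : Set X} (hS : S.Infinite) {f : X → ℝ} (hf : Set.InjOn f S)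
    {V : Set ℝ} (hV : V.Finite) (hfV : ∀ x ∈ S, f x ∈ V) : False :=
  hS (Set.Finite.of_finite_image (hV.subset (Set.image_subset_iff.2 hfV)) hf)

/-- `sin (m - m0) = 0` has finitely many solutions in an interval -/
theorem finite_sin (m0 : ℝ) : {m : ℝ | |m - m0| < 3 * π ∧ sin (m - m0) = 0}.Finite := by
  refine (Set.Finite.image (fun k : ℤ => m0 + k * π) (Set.finite_Icc (-3 : ℤ) 3)).subset ?_
  rintro m ⟨hm, hs⟩
  obtain ⟨k, hk⟩ := sin_eq_zero_iff.1 hs
  refine ⟨k, ?_, by simp only; linarith⟩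
  rw [← hk, abs_mul, abs_of_pos pi_pos] at hm
  have h1 : |(k : ℝ)| < 3 := lt_of_mul_lt_mul_right hm pi_pos.le
  rw [abs_lt] at h1
  constructor
  · have h2 : (-3 : ℝ) < k := h1.1
    exact_mod_cast h2.le
  · have h2 : (k : ℝ) < 3 := h1.2
    exact_mod_cast h2.le

theorem al_mem {l : Fin 6 → ℝ} (hl : l ∈ TT) (j : Fin 6) : al l j ∈ Ioo 0 π :=
  (TT_facts hl).2.2.2.2.1 j

/-- the angle vector is determined by the sum and the difference -/
theorem inj_aux {κ α β γ v : ℝ} {S : Set (Fin 6 → ℝ)} (hS : S ⊆ S13 κ α β γ)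
    (hv : ∀ l ∈ S, al l 1 - al l 4 = v) : Set.InjOn (fun l => 3 * (al l 1 + al l 4) / 2) S := by
  intro l hl l' hl' h
  simp only at h
  have h1 := hv l hl
  have h2 := hv l' hl'
  obtain ⟨hN, h10, h40, hsum, hl2, hl3, hl5⟩ := hS hl
  obtain ⟨hN', h10', h40', hsum', hl2', hl3', hl5'⟩ := hS hl'
  refine al_injOn hN hN' ?_
  have h3 : al l 1 = al l' 1 := by linarith
  have h4 : al l 4 = al l' 4 := by linarith
  have h5 : al l 0 = al l' 0 := by linarith
  funext j
  fin_cases j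
  · exact h5
  · exact h3
  · exact hl2.trans hl2'.symm
  · exact hl3.trans hl3'.symm
  · exact h4
  · exact hl5.trans hl5'.symm

end Th13TwoAux

theorem L13_case2 (κ α β γ : ℝ) (h22 : c22 κ γ = 0) (hinf : (S13 κ α β γ).Infinite) :
    α = π / 2 ∧ β = π / 2 := by
  obtain ⟨l0, hl0⟩ := hinf.nonempty
  have hα : α ∈ Ioo 0 π := by
    have h := Th13TwoAux.al_mem hl0.1.1 3
    rwa [hl0.2.2.2.2.2.1] at h
  have hβ : β ∈ Ioo 0 π := by
    have h := Th13TwoAux.al_mem hl0.1.1 2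
    rwa [hl0.2.2.2.2.1] at h
  have hγ' : γ ∈ Ioo 0 π := by
    have h := Th13TwoAux.al_mem hl0.1.1 5
    rwa [hl0.2.2.2.2.2.2] at h
  obtain ⟨hκ, he, hγ⟩ := Th13TwoAux.step0 h22 hγ'
  -- it is enough that both cosines vanish
  suffices h : cos β = 0 ∧ cos α = 0 by
    constructor
    · refine injOn_cos ⟨hα.1.le, hα.2.le⟩ ⟨by positivity, by linarith [pi_pos]⟩ ?_
      rw [h.2, cos_pi_div_two]
    · refine injOn_cos ⟨hβ.1.le, hβ.2.le⟩ ⟨by positivity, by linarith [pi_pos]⟩ ?_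
      rw [h.1, cos_pi_div_two]
  -- `cos (x - y)` is constant on an infinite subset
  obtain ⟨z, hz⟩ : ∃ z, {l | l ∈ S13 κ α β γ ∧ cos (al l 1 - al l 4) = z}.Infinite := by
    rcases exists_inf_const_or_inj hinf (fun l => cos (al l 1 - al l 4)) with h | ⟨S', hS', hi, hj⟩
    · exact h
    · exact (Th13TwoAux.no_inj hi hj (Th13TwoAux.finite_roots _ _ _ _) fun l hl =>
        Th13TwoAux.zrel hκ he hγ (hS' hl)).elim
  -- `x - y` is constant on an infinite subset
  obtain ⟨d, hd⟩ : ∃ d, {l | l ∈ {l | l ∈ S13 κ α β γ ∧ cos (al l 1 - al l 4) = z} ∧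
      al l 1 - al l 4 = d}.Infinite := by
    rcases exists_inf_const_or_inj hz (fun l => al l 1 - al l 4) with h | ⟨S', hS', hi, hj⟩
    · exact h
    · refine (Th13TwoAux.no_inj hi hj (V := {arccos z, -arccos z}) (Set.toFinite _)
        fun l hl => ?_).elim
      obtain ⟨hl1, hl2⟩ := hS' hl
      have h1 := Th13TwoAux.al_mem hl1.1.1 1
      have h4 := Th13TwoAux.al_mem hl1.1.1 4
      have h5 : arccos z = |al l 1 - al l 4| := by
        rw [← hl2, ← cos_abs, arccos_cos (abs_nonneg _)]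
        rw [abs_le]
        constructor <;> linarith [h1.1, h1.2, h4.1, h4.2]
      rw [h5]
      rcases abs_choice (al l 1 - al l 4) with h6 | h6
      · left
        exact h6.symm
      · right
        rw [h6, neg_neg]
        rfl
  set S := {l | l ∈ {l | l ∈ S13 κ α β γ ∧ cos (al l 1 - al l 4) = z} ∧ al l 1 - al l 4 = d} with hS
  have hSS : S ⊆ S13 κ α β γ := fun l hl => hl.1.1
  have hSd : ∀ l ∈ S, al l 1 - al l 4 = d := fun l hl => hl.2
  have hinj := Th13TwoAux.inj_aux hSS hSd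
  set v := d / 2 with hv
  have hm1 : ∀ l ∈ S, 2 * al l 1 + al l 4 = 3 * (al l 1 + al l 4) / 2 + v := fun l hl => by
    have := hSd l hl
    rw [hv]
    linarith
  have hm2 : ∀ l ∈ S, al l 1 + 2 * al l 4 = 3 * (al l 1 + al l 4) / 2 - v := fun l hl => by
    have := hSd l hl
    rw [hv]
    linarith
  have hR2 : ∀ l ∈ S, (cos β + cos α) * cos v * sin (3 * (al l 1 + al l 4) / 2) +
      (cos β - cos α) * sin v * cos (3 * (al l 1 + al l 4) / 2) = 0 := by
    intro l hl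
    have h := (Th13TwoAux.rels hκ he hγ (hSS hl)).2
    rw [hm1 l hl, hm2 l hl, sin_add, sin_sub] at h
    linear_combination h
  have hpq : (cos β + cos α) * cos v = 0 ∧ (cos β - cos α) * sin v = 0 := by
    set p := (cos β + cos α) * cos v with hp
    set q := (cos β - cos α) * sin v with hq
    by_contra hne
    obtain ⟨l1, hl1⟩ := hd.nonempty
    refine Th13TwoAux.no_inj hd hinj
      (Th13TwoAux.finite_sin (3 * (al l1 1 + al l1 4) / 2)) fun l hl => ⟨?_, ?_⟩
    · have h1 := Th13TwoAux.al_mem (hSS hl).1.1 1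
      have h4 := Th13TwoAux.al_mem (hSS hl).1.1 4
      have h1' := Th13TwoAux.al_mem (hSS hl1).1.1 1
      have h4' := Th13TwoAux.al_mem (hSS hl1).1.1 4
      rw [abs_lt]
      constructor <;> linarith [h1.1, h1.2, h4.1, h4.2, h1'.1, h1'.2, h4'.1, h4'.2]
    · have h1 := hR2 l hl
      have h2 := hR2 l1 hl1
      rw [sin_sub]
      set m := 3 * (al l 1 + al l 4) / 2 with hm
      set m' := 3 * (al l1 1 + al l1 4) / 2 with hm'
      have h3 : p * (sin m * cos m' - cos m * sin m') = 0 := by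
        linear_combination cos m' * h1 - cos m * h2
      have h4 : q * (sin m * cos m' - cos m * sin m') = 0 := by
        linear_combination sin m * h2 - sin m' * h1
      by_contra h5
      exact hne ⟨(mul_eq_zero.1 h3).resolve_right h5, (mul_eq_zero.1 h4).resolve_right h5⟩
  obtain ⟨l, hl⟩ := hd.nonempty
  have hd1 := Th13TwoAux.al_mem (hSS hl).1.1 1
  have hd4 := Th13TwoAux.al_mem (hSS hl).1.1 4
  have hdl := hSd l hl
  have hvI : v ∈ Ioo (-(π / 2)) (π / 2) := by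
    rw [hv]
    constructor <;> linarith [hd1.1, hd1.2, hd4.1, hd4.2]
  have hcv : 0 < cos v := cos_pos_of_mem_Ioo hvI
  have hsum : cos β + cos α = 0 := (mul_eq_zero.1 hpq.1).resolve_right hcv.ne'
  have hαβ : cos α = -cos β := by linarith
  rcases mul_eq_zero.1 hpq.2 with h | h
  · constructor <;> linarith
  · have hv0 : v = 0 := by
      have hvI' : v ∈ Ioo (-π) π := ⟨by linarith [hvI.1, pi_pos], by linarith [hvI.2, pi_pos]⟩
      exact (sin_eq_zero_iff_of_lt_of_lt hvI'.1 hvI'.2).1 h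
    have hd0 : d = 0 := by
      rw [hv] at hv0
      linarith
    have hR1 := (Th13TwoAux.rels hκ he hγ (hSS hl)).1
    rw [hm1 l hl, hm2 l hl, hdl, hv0, hd0, add_zero, sub_zero, cos_zero, hαβ] at hR1
    have h1 : cos β ^ 2 * (cos β ^ 2 - 1) = 0 := by linear_combination hR1
    have hsβ : 0 < sin β := sin_pos_of_pos_of_lt_pi hβ.1 hβ.2
    have hsc : sin β ^ 2 + cos β ^ 2 = 1 := sin_sq_add_cos_sq β
    rcases mul_eq_zero.1 h1 with h2 | h2
    · have h3 : cos β = 0 := by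
        rwa [sq_eq_zero_iff] at h2
      exact ⟨h3, by rw [hαβ, h3, neg_zero]⟩
    · exfalso
      nlinarith

end Pool.Agent.Helper22.FF
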