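import Pool.Agent.Helper22.FF.Const
import Pool.Agent.Helper22.FF.Th13Place
import Pool.Agent.Helper22.FF.Th13Two

/-!
FF-13 Th13.  `S13` is finite or consists of members of Goldberg's first family.

PROOF. `L13_case1`: suppose `S13 κ α β γ` is infinite. `exists_inf_const_or_inj` with `f = al · 1`: if `al l 1` is
constant on an infinite subset, then `al l 0 + al l 4` is constant and the other angles too: `L17' 0 4` gives a
contradiction. So there is an infinite subset on which `al · 1` is injective and `L13_place` gives `cos β ≠ 0`.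
With `f = al · 4`: if constant on an infinite subset, use `L17' 0 1`. So there is an infinite subset `S'` on which
`al · 4` is injective. Let `σ` be the permutation `(0 1)(2 3)` of the vertices: `es σ` fixes `0` and `5` and exchanges
`1, 4` and `2, 3` (`decide`). The image of `S'` under `l ↦ fun j => l (es σ j)` is an infinite subset of
`S13 κ β α γ` (the parameters `α, β` exchanged; `Nm_es`, `al_es`) on which `al · 1` is injective, so `L13_place` gives
`cos β = 0`: contradiction.
`L13`: if `c22 κ γ ≠ 0`, `L13_case1`. If `c22 = 0` and the set is infinite then `α = β = π/2` (`L13_case2`), so for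
`l` in the set `W 2 = W 3 = 0` (`cos_sq_al`). With `A = l₀² = l₁² = l₄²`, `B = l₂²`, `B' = l₃²`, `F = l₅²`:
`W 2 = B (3A - 2B' - B + F)`, `W 3 = B' (3A - 2B - B' + F)` (ring), so `B = B'` and `F = 3 (B - A)`: `G1 l`.
-/

open Real Set Pool.Agent.Helper1.Tet

namespace Pool.Agent.Helper22.FF

private def sg : Equiv.Perm (Fin 4) := Equiv.swap 0 1 * Equiv.swap 2 3

private lemma es_sg0 : es sg 0 = 0 := by decide
private lemma es_sg1 : es sg 1 = 4 := by decide
private lemma es_sg2 : es sg 2 = 3 := by decide
private lemma es_sg3 : es sg 3 = 2 := by decide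
private lemma es_sg4 : es sg 4 = 1 := by decide
private lemma es_sg5 : es sg 5 = 5 := by decide

theorem L13_case1 (κ α β γ : ℝ) (h22 : c22 κ γ ≠ 0) : (S13 κ α β γ).Finite := by
  by_contra hfin
  have hS : (S13 κ α β γ).Infinite := hfin
  -- first step
  have hb : cos β ≠ 0 := by
    rcases exists_inf_const_or_inj hS (fun l => al l 1) with ⟨v, hv⟩ | ⟨S', hS', hinf, hinj⟩
    · exfalso
      refine hv ((L17' 0 4 (by decide) (by decide) (κ - v) ![0, v, β, α, 0, γ]).subset ?_)
      rintro l ⟨⟨hN, h1, h4, hs, h2, h3, h5⟩, h⟩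
      have h : al l 1 = v := h
      refine ⟨hN, by linarith, ?_⟩
      intro k hk0 hk4
      fin_cases k
      · exact absurd rfl hk0
      · simpa using h
      · simpa using h2
      · simpa using h3
      · exact absurd rfl hk4
      · simpa using h5
    · exact (L13_place κ α β γ h22 S' hS' hinf hinj).2
  rcases exists_inf_const_or_inj hS (fun l => al l 4) with ⟨v, hv⟩ | ⟨S', hS', hinf, hinj⟩
  · refine hv ((L17' 0 1 (by decide) (by decide) (κ - v) ![0, 0, β, α, v, γ]).subset ?_)
    rintro l ⟨⟨hN, h1, h4, hs, h2, h3, h5⟩, h⟩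
    have h : al l 4 = v := h
    refine ⟨hN, by linarith, ?_⟩
    intro k hk0 hk1
    fin_cases k
    · exact absurd rfl hk0
    · exact absurd rfl hk1
    · simpa using h2
    · simpa using h3
    · simpa using h
    · simpa using h5
  · have hmap : Function.Injective (fun (l : Fin 6 → ℝ) (j : Fin 6) => l (es sg j)) := by
      intro l l' h
      funext j
      obtain ⟨i, hi⟩ := (es_bijective sg).2 j
      have := congrFun h i
      simpa [hi] using this
    have hT : ((fun (l : Fin 6 → ℝ) (j : Fin 6) => l (es sg j)) '' S').Infinite :=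
      hinf.image hmap.injOn
    have hsub : ((fun (l : Fin 6 → ℝ) (j : Fin 6) => l (es sg j)) '' S') ⊆ S13 κ β α γ := by
      rintro _ ⟨l, hl, rfl⟩
      obtain ⟨hN, h1, h4, hs, h2, h3, h5⟩ := hS' hl
      refine ⟨Nm_es sg hN, ?_, ?_, ?_, ?_, ?_, ?_⟩
      · simp only [es_sg1, es_sg0]; exact h4
      · simp only [es_sg4, es_sg0]; exact h1
      · simp only [al_es, es_sg0, es_sg1, es_sg4]; linarith
      · simp only [al_es, es_sg2]; exact h3
      · simp only [al_es, es_sg3]; exact h2
      · simp only [al_es, es_sg5]; exact h5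
    have hinjT : Set.InjOn (fun l => al l 1)
        ((fun (l : Fin 6 → ℝ) (j : Fin 6) => l (es sg j)) '' S') := by
      rintro _ ⟨l, hl, rfl⟩ _ ⟨l', hl', rfl⟩ h
      simp only [al_es, es_sg1] at h
      have : l = l' := hinj hl hl' h
      rw [this]
    exact hb (L13_place κ β α γ h22 _ hsub hT hinjT).1

theorem L13 (κ α β γ : ℝ) : (S13 κ α β γ).Finite ∨ ∀ l ∈ S13 κ α β γ, G1 l := by
  by_cases h22 : c22 κ γ = 0
  · by_cases hfin : (S13 κ α β γ).Finite
    · exact Or.inl hfin
    · right
      obtain ⟨ha, hb⟩ := L13_case2 κ α β γ h22 hfin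
      rintro l ⟨⟨hT, -⟩, h1, h4, -, h2, h3, -⟩
      have hpos := (TT_facts hT).1
      have w2 : W l 2 = 0 := by
        have := cos_sq_al hT 2
        rw [h2, hb, cos_pi_div_two] at this
        have h : W l 2 ^ 2 = 0 := by rw [← this]; ring
        exact pow_eq_zero_iff (two_ne_zero) |>.1 h
      have w3 : W l 3 = 0 := by
        have := cos_sq_al hT 3
        rw [h3, ha, cos_pi_div_two] at this
        have h : W l 3 ^ 2 = 0 := by rw [← this]; ring
        exact pow_eq_zero_iff (two_ne_zero) |>.1 h
      have e2 : W l 2 = l 2 ^ 2 * (3 * l 0 ^ 2 - 2 * l 3 ^ 2 - l 2 ^ 2 + l 5 ^ 2) := by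
        simp only [W, wform, ea, eb, ec, ed, ix]
        simp
        rw [h1, h4]
        ring
      have e3 : W l 3 = l 3 ^ 2 * (3 * l 0 ^ 2 - 2 * l 2 ^ 2 - l 3 ^ 2 + l 5 ^ 2) := by
        simp only [W, wform, ea, eb, ec, ed, ix]
        simp
        rw [h1, h4]
        ring
      rw [e2] at w2
      rw [e3] at w3
      have p2 := hpos 2
      have p3 := hpos 3
      have q2 : 3 * l 0 ^ 2 - 2 * l 3 ^ 2 - l 2 ^ 2 + l 5 ^ 2 = 0 := by
        rcases mul_eq_zero.1 w2 with h | h
        · exact absurd h (by positivity)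
        · exact h
      have q3 : 3 * l 0 ^ 2 - 2 * l 2 ^ 2 - l 3 ^ 2 + l 5 ^ 2 = 0 := by
        rcases mul_eq_zero.1 w3 with h | h
        · exact absurd h (by positivity)
        · exact h
      have hsq : l 3 ^ 2 = l 2 ^ 2 := by linarith
      have h32 : l 3 = l 2 := by
        rcases sq_eq_sq_iff_eq_or_eq_neg.1 hsq with h | h
        · exact h
        · linarith
      exact ⟨h1, h4, h32, by linarith⟩
  · exact Or.inl (L13_case1 κ α β γ h22)

end Pool.Agent.Helper22.FF
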