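import Pool.Agent.Helper22.FF.Basic
import Pool.Agent.Helper22.FF.Place

/-!
FF-15 Th14X.  Place analysis for `S14`, second place.

PROOF. `ι = S`, `X i = exp (i al l 0)` (injective), `Y i = exp (i al l 4)`, `K = exp (iκ)`, `K² = -1` (as `cos κ = 0`),
`exp (i al l 1) = K X⁻¹`, `al l 2 = π - al l 4`, so `c2 = -c4`, `s2 = s4`. Place `P` for `X`: `X⁻¹ → 0`. `c0 X⁻¹ → 1/2`,
`c1 X⁻¹ → K⁻¹/2`. `Pl.tri` for `Y`: (i) `Y⁻¹ → 0`: `X⁻² Y⁻² DD → K⁻²/16`, contradiction; (ii) `Y → 0`: `X⁻² Y² DD → K⁻²/16`,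
contradiction (only `c1² c4²` survives in both cases); (iii) `Y → y ≠ 0`: `c4, s4` have limits, `c4² + s4² = 1`, and
 (a) `X⁻² DD → -(1/4) (s5² + K⁻² s4² + 2 K⁻¹ (c2 + c4 c5)) = 0`,
 (c) `X⁻² (PP 4 - PP 2) → (1/4) K⁻¹ (-K⁻¹ s4 c4 + s4 c5 - s2) = 0`.
With `c2 = -c4`, `s2 = s4`, `K⁻² = -1`: (a) `s5² - s4² - 2 K⁻¹ c4 (1 - c5) = 0`, (c) `s4 (K⁻¹ c4 + 1 - c5) = 0`.
If `s4 = 0`: `c4² = 1`, `s5² = 2 K⁻¹ c4 (1 - c5)`, square: `s5⁴ = -4 (1 - c5)²`, impossible for the real numbers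
`s5 = sin γ > 0`, `c5 = cos γ` (transfer from `P.k` to `ℂ` by injectivity of `P.j`). Otherwise `c4 = K (c5 - 1)`,
`c4² = -(1 - c5)²`, `s4² = 1 + (1 - c5)²`, and (a): `s5² - 1 - (1 - c5)² + 2 (1 - c5)² = 0`, i.e. `1 - 2 c5 = 0`.
-/

set_option autoImplicit false

open Real Set Pool.Agent.Helper1.Tet

namespace Pool.Agent.Helper22.FF

private theorem Th14X_congr {ι : Type} (P : Pl ι) {f g : ι → ℂ} {a b : P.k} (h : P.Lim f a)
    (hf : ∀ i, f i = g i) (hab : a = b) : P.Lim g b := by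
  have h1 : f = g := funext hf
  rw [← h1, ← hab]
  exact h

private theorem Th14X_zero {ι : Type} (P : Pl ι) {f : ι → ℂ} {a : P.k} (h : P.Lim f a)
    (hf : ∀ i, f i = 0) : a = 0 := by
  have h1 : P.Lim f (P.j 0) := Th14X_congr P (P.const 0) (fun i => (hf i).symm) rfl
  rw [map_zero] at h1
  exact P.uniq h h1

/-- the case where `c4 v → 1/2` and `v → 0` -/
private theorem Th14X_case {ι : Type} (P : Pl ι) (u v a b d : ι → ℂ) (q : ℂ) (hq : q ^ 2 = -1)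
    (c3 c5 : ℂ) (hu : P.Lim u 0) (hv : P.Lim v 0) (ha : P.Lim a (P.j (1 / 2)))
    (hb : P.Lim b (P.j (q / 2))) (hd : P.Lim d (P.j (1 / 2)))
    (h0 : ∀ i, u i ^ 2 * v i ^ 2 - (a i ^ 2 * v i ^ 2 + b i ^ 2 * v i ^ 2 + u i ^ 2 * d i ^ 2 +
      c3 ^ 2 * (u i ^ 2 * v i ^ 2) + u i ^ 2 * d i ^ 2 + c5 ^ 2 * (u i ^ 2 * v i ^ 2)) +
      (a i ^ 2 * v i ^ 2 * c5 ^ 2 + b i ^ 2 * d i ^ 2 + d i ^ 2 * u i ^ 2 * c3 ^ 2) -
      2 * (-(d i ^ 2 * u i ^ 2) * c5 + b i * u i * v i ^ 2 * (c3 * c5) + a i * d i * u i * v i * c3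
        - a i * b i * d i * v i) -
      2 * (-(a i * d i * u i * v i) * (c3 * c5) + a i * b i * d i * v i * c5
        - b i * d i ^ 2 * u i * c3) = 0) : False := by
  have hlim := P.add (Pl.sub P (Pl.sub P
    (P.add (Pl.sub P (P.mul (Pl.pow P hu 2) (Pl.pow P hv 2))
      (P.add (P.add (P.add (P.add (P.add (P.mul (Pl.pow P ha 2) (Pl.pow P hv 2))
        (P.mul (Pl.pow P hb 2) (Pl.pow P hv 2))) (P.mul (Pl.pow P hu 2) (Pl.pow P hd 2)))
        (P.mul (P.const (c3 ^ 2)) (P.mul (Pl.pow P hu 2) (Pl.pow P hv 2))))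
        (P.mul (Pl.pow P hu 2) (Pl.pow P hd 2)))
        (P.mul (P.const (c5 ^ 2)) (P.mul (Pl.pow P hu 2) (Pl.pow P hv 2)))))
      (P.add (P.add (P.mul (P.mul (Pl.pow P ha 2) (Pl.pow P hv 2)) (P.const (c5 ^ 2)))
        (P.mul (Pl.pow P hb 2) (Pl.pow P hd 2)))
        (P.mul (P.mul (Pl.pow P hd 2) (Pl.pow P hu 2)) (P.const (c3 ^ 2)))))
    (P.mul (P.const 2) (Pl.sub P (P.add (P.add
      (P.mul (Pl.neg P (P.mul (Pl.pow P hd 2) (Pl.pow P hu 2))) (P.const c5))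
      (P.mul (P.mul (P.mul hb hu) (Pl.pow P hv 2)) (P.const (c3 * c5))))
      (P.mul (P.mul (P.mul (P.mul ha hd) hu) hv) (P.const c3)))
      (P.mul (P.mul (P.mul ha hb) hd) hv))))
    (P.mul (P.const 2) (Pl.sub P (P.add
      (P.mul (Pl.neg P (P.mul (P.mul (P.mul ha hd) hu) hv)) (P.const (c3 * c5)))
      (P.mul (P.mul (P.mul (P.mul ha hb) hd) hv) (P.const c5)))
      (P.mul (P.mul (P.mul hb (Pl.pow P hd 2)) hu) (P.const c3))))) (P.const 0)
  have h1 := Th14X_zero P hlim (fun i => by rw [h0 i]; norm_num)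
  have h2 : (P.j ((q / 2) ^ 2 * (1 / 2) ^ 2) : P.k) = 0 := by
    rw [map_mul, map_pow, map_pow]
    rw [map_zero] at h1
    linear_combination h1
  have h3 : ((q / 2) ^ 2 * (1 / 2) ^ 2 : ℂ) = 0 := by
    apply P.j.injective
    rw [h2, map_zero]
  have h4 : (-1 : ℂ) = 0 := by
    linear_combination 16 * h3 - hq
  norm_num at h4

private theorem Th14X_fin (k : Type) [Field k] (j : ℂ →+* k) (q : ℂ) (hq : q ^ 2 = -1) (γ : ℝ)
    (hγ : γ ∈ Ioo 0 π) (C T : k) (hCT : C ^ 2 + T ^ 2 = 1)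
    (ha : j ((cos γ : ℂ)) ^ 2 - C ^ 2 + 2 * j q * C * (1 - j (cos γ : ℂ)) = 0)
    (hc : T * (C - j q * (1 - j (cos γ : ℂ))) = 0) : cos γ = 1 / 2 := by
  have hq2 : (j q) ^ 2 = -1 := by
    rw [← map_pow, hq, map_neg, map_one]
  have hlt : cos γ < 1 := by
    have h1 := Real.strictAntiOn_cos (Set.left_mem_Icc.2 Real.pi_pos.le)
      (Set.mem_Icc.2 ⟨hγ.1.le, hγ.2.le⟩) hγ.1
    rwa [Real.cos_zero] at h1
  rcases mul_eq_zero.1 hc with hT | hC
  · exfalso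
    have hC2 : C ^ 2 = 1 := by
      rw [hT] at hCT
      linear_combination hCT
    have h1 : (1 - j (cos γ : ℂ)) ^ 2 * ((1 + j (cos γ : ℂ)) ^ 2 + 4) = 0 := by
      have h2 : (1 - j (cos γ : ℂ) ^ 2) = 2 * j q * C * (1 - j (cos γ : ℂ)) := by
        linear_combination -ha + (-1 : k) * hC2
      have h3 : (1 - j (cos γ : ℂ) ^ 2) ^ 2 = (2 * j q * C * (1 - j (cos γ : ℂ))) ^ 2 := by
        rw [h2]
      linear_combination h3 + 4 * C ^ 2 * (1 - j (cos γ : ℂ)) ^ 2 * hq2 -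
        4 * (1 - j (cos γ : ℂ)) ^ 2 * hC2
    have h2 : j ((1 - (cos γ : ℂ)) ^ 2 * ((1 + (cos γ : ℂ)) ^ 2 + 4)) = 0 := by
      rw [map_mul, map_pow, map_add, map_pow, map_sub, map_add, map_one, map_ofNat]
      exact h1
    have h3 : (1 - (cos γ : ℂ)) ^ 2 * ((1 + (cos γ : ℂ)) ^ 2 + 4) = 0 := by
      apply j.injective
      rw [h2, map_zero]
    have h4 : (1 - cos γ) ^ 2 * ((1 + cos γ) ^ 2 + 4) = 0 := by
      exact_mod_cast h3
    have h5 : 0 < (1 - cos γ) ^ 2 * ((1 + cos γ) ^ 2 + 4) := by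
      have : 0 < 1 - cos γ := by linarith
      positivity
    linarith
  · have h1 : 2 * j (cos γ : ℂ) - 1 = 0 := by
      have h2 : C = j q * (1 - j (cos γ : ℂ)) := by linear_combination hC
      rw [h2] at ha
      linear_combination ha - (1 - j (cos γ : ℂ)) ^ 2 * hq2
    have h2 : j (2 * (cos γ : ℂ) - 1) = 0 := by
      rw [map_sub, map_mul, map_one, map_ofNat]
      exact h1
    have h3 : 2 * (cos γ : ℂ) - 1 = 0 := by
      apply j.injective
      rw [h2, map_zero]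
    have h4 : 2 * cos γ - 1 = 0 := by
      exact_mod_cast h3
    linarith

private theorem Th14X_main1 {ι : Type} (P : Pl ι) (u a b f : ι → ℂ) (q : ℂ) (hq : q ^ 2 = -1)
    (c3 c5 : ℂ) (C : P.k) (hu : P.Lim u 0) (ha : P.Lim a (P.j (1 / 2)))
    (hb : P.Lim b (P.j (q / 2))) (hf : P.Lim f C)
    (h0 : ∀ i, u i ^ 2 - (a i ^ 2 + b i ^ 2 + u i ^ 2 * f i ^ 2 + c3 ^ 2 * u i ^ 2 +
      u i ^ 2 * f i ^ 2 + c5 ^ 2 * u i ^ 2) +
      (a i ^ 2 * c5 ^ 2 + b i ^ 2 * f i ^ 2 + f i ^ 2 * u i ^ 2 * c3 ^ 2) -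
      2 * (-(f i ^ 2 * u i ^ 2) * c5 + b i * u i * (c3 * c5) + a i * f i * u i * c3
        - a i * b i * f i) -
      2 * (-(a i * f i * u i) * (c3 * c5) + a i * b i * f i * c5
        - b i * f i ^ 2 * u i * c3) = 0) :
    P.j c5 ^ 2 - C ^ 2 + 2 * P.j q * C * (1 - P.j c5) = 0 := by
  have hlim := Pl.sub P (Pl.sub P
    (P.add (Pl.sub P (Pl.pow P hu 2)
      (P.add (P.add (P.add (P.add (P.add (Pl.pow P ha 2)
        (Pl.pow P hb 2)) (P.mul (Pl.pow P hu 2) (Pl.pow P hf 2)))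
        (P.mul (P.const (c3 ^ 2)) (Pl.pow P hu 2)))
        (P.mul (Pl.pow P hu 2) (Pl.pow P hf 2)))
        (P.mul (P.const (c5 ^ 2)) (Pl.pow P hu 2))))
      (P.add (P.add (P.mul (Pl.pow P ha 2) (P.const (c5 ^ 2)))
        (P.mul (Pl.pow P hb 2) (Pl.pow P hf 2)))
        (P.mul (P.mul (Pl.pow P hf 2) (Pl.pow P hu 2)) (P.const (c3 ^ 2)))))
    (P.mul (P.const 2) (Pl.sub P (P.add (P.add
      (P.mul (Pl.neg P (P.mul (Pl.pow P hf 2) (Pl.pow P hu 2))) (P.const c5))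
      (P.mul (P.mul hb hu) (P.const (c3 * c5))))
      (P.mul (P.mul (P.mul ha hf) hu) (P.const c3)))
      (P.mul (P.mul ha hb) hf))))
    (P.mul (P.const 2) (Pl.sub P (P.add
      (P.mul (Pl.neg P (P.mul (P.mul ha hf) hu)) (P.const (c3 * c5)))
      (P.mul (P.mul (P.mul ha hb) hf) (P.const c5)))
      (P.mul (P.mul (P.mul hb (Pl.pow P hf 2)) hu) (P.const c3))))
  have h1 := Th14X_zero P hlim (fun i => h0 i)
  have hq2 : (P.j q) ^ 2 = -1 := by
    rw [← map_pow, hq, map_neg, map_one]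
  have h2 : (2 : P.k) * P.j (1 / 2) = 1 := by
    have h3 : P.j (2 * (1 / 2)) = 1 := by norm_num
    rwa [map_mul, map_ofNat] at h3
  have h3 : P.j (q / 2) = P.j q * P.j (1 / 2) := by
    rw [← map_mul]
    congr 1
    ring
  have h4 : P.j (c5 ^ 2) = P.j c5 ^ 2 := map_pow _ _ _
  have h5 : P.j 2 = 2 := map_ofNat _ _
  rw [h3, h4, h5] at h1
  set e : P.k := P.j (1 / 2) with he
  have h6 : 4 * e ^ 2 = 1 := by linear_combination (2 * e + 1) * h2
  have h7 : 4 * (e ^ 2 * (-1 - P.j q ^ 2 + P.j c5 ^ 2 + P.j q ^ 2 * C ^ 2 + 2 * P.j q * C -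
      2 * P.j q * C * P.j c5)) = 0 := by
    linear_combination 4 * h1
  linear_combination h7 - (-1 - P.j q ^ 2 + P.j c5 ^ 2 + P.j q ^ 2 * C ^ 2 + 2 * P.j q * C -
      2 * P.j q * C * P.j c5) * h6 + (1 - C ^ 2) * hq2

private theorem Th14X_main2 {ι : Type} (P : Pl ι) (u a b f g : ι → ℂ) (q : ℂ) (hq : q ^ 2 = -1)
    (c3 c5 : ℂ) (C T : P.k) (hu : P.Lim u 0) (ha : P.Lim a (P.j (1 / 2)))
    (hb : P.Lim b (P.j (q / 2))) (hf : P.Lim f C) (hg : P.Lim g T)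
    (h0 : ∀ i, g i * (f i * (u i ^ 2 - b i ^ 2) + a i * c3 * u i - f i * c5 * u i ^ 2 +
        (-(b i * f i * c3 * u i) + a i * b i * c5)) -
      g i * (-(f i * (1 - c3 ^ 2) * u i ^ 2) + a i * b i + f i * c5 * u i ^ 2 +
        c3 * (b i * f i * u i + a i * c5 * u i)) = 0) :
    T * (C - P.j q * (1 - P.j c5)) = 0 := by
  have hlim := Pl.sub P
    (P.mul hg (P.add (Pl.sub P (P.add (P.mul hf (Pl.sub P (Pl.pow P hu 2) (Pl.pow P hb 2)))
      (P.mul (P.mul ha (P.const c3)) hu)) (P.mul (P.mul hf (P.const c5)) (Pl.pow P hu 2)))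
      (P.add (Pl.neg P (P.mul (P.mul (P.mul hb hf) (P.const c3)) hu))
        (P.mul (P.mul ha hb) (P.const c5)))))
    (P.mul hg (P.add (P.add (P.add (Pl.neg P (P.mul (P.mul hf (P.const (1 - c3 ^ 2)))
      (Pl.pow P hu 2))) (P.mul ha hb)) (P.mul (P.mul hf (P.const c5)) (Pl.pow P hu 2)))
      (P.mul (P.const c3) (P.add (P.mul (P.mul hb hf) hu) (P.mul (P.mul ha (P.const c5)) hu)))))
  have h1 := Th14X_zero P hlim (fun i => h0 i)
  have hq2 : (P.j q) ^ 2 = -1 := by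
    rw [← map_pow, hq, map_neg, map_one]
  have h2 : (2 : P.k) * P.j (1 / 2) = 1 := by
    have h3 : P.j (2 * (1 / 2)) = 1 := by norm_num
    rwa [map_mul, map_ofNat] at h3
  have h3 : P.j (q / 2) = P.j q * P.j (1 / 2) := by
    rw [← map_mul]
    congr 1
    ring
  rw [h3] at h1
  set e : P.k := P.j (1 / 2) with he
  have h6 : 4 * e ^ 2 = 1 := by linear_combination (2 * e + 1) * h2
  have h7 : 4 * (e ^ 2 * (T * (-(P.j q ^ 2) * C + P.j q * P.j c5 - P.j q))) = 0 := by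
    linear_combination 4 * h1
  linear_combination h7 - (T * (-(P.j q ^ 2) * C + P.j q * P.j c5 - P.j q)) * h6 + T * C * hq2

theorem L14_X (κ α γ : ℝ) (hκ : cos κ = 0) (S : Set (Fin 6 → ℝ)) (hS : S ⊆ S14 κ π α γ)
    (hinf : S.Infinite) (hinj : Set.InjOn (fun l => al l 0) S) : cos γ = 1 / 2 := by
  have : Infinite ↥S := hinf.to_subtype
  have hT : ∀ i : ↥S, i.1 ∈ TT := fun i => (hS i.2).1.1
  have e1 : ∀ i : ↥S, i.1 1 = i.1 0 := fun i => (hS i.2).2.1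
  have e4 : ∀ i : ↥S, i.1 4 = i.1 2 := fun i => (hS i.2).2.2.1
  have a01 : ∀ i : ↥S, al i.1 1 = κ - al i.1 0 := fun i => by
    have := (hS i.2).2.2.2.1; linarith
  have a24 : ∀ i : ↥S, al i.1 2 = π - al i.1 4 := fun i => by
    have := (hS i.2).2.2.2.2.1; linarith
  have a3 : ∀ i : ↥S, al i.1 3 = α := fun i => (hS i.2).2.2.2.2.2.1
  have a5 : ∀ i : ↥S, al i.1 5 = γ := fun i => (hS i.2).2.2.2.2.2.2
  have hmem : ∀ (i : ↥S) (m : Fin 6), al i.1 m ∈ Ioo 0 π := fun i m =>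
    (TT_facts (hT i)).2.2.2.2.1 m
  have hX : Function.Injective (fun i : ↥S => Complex.exp (al i.1 0 * Complex.I)) := by
    intro i i' h
    have h1 := exp_injOn (hmem i 0) (hmem i' 0) h
    exact Subtype.ext (hinj i.2 i'.2 h1)
  obtain ⟨P, hu⟩ := exists_pl _ hX (fun i => Complex.exp_ne_zero _)
  have hq : ((Complex.exp (κ * Complex.I))⁻¹) ^ 2 = -1 := by
    have h1 : Complex.exp (κ * Complex.I) = Complex.I * sin κ := by
      rw [Complex.exp_mul_I]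
      rw [← Complex.ofReal_cos, ← Complex.ofReal_sin, hκ]
      push_cast
      ring
    have h2 : (Complex.exp (κ * Complex.I)) ^ 2 = -1 := by
      rw [h1, mul_pow, Complex.I_sq]
      have h3 : sin κ ^ 2 = 1 := by
        have := Real.sin_sq_add_cos_sq κ
        rw [hκ] at this
        linarith
      have h4 : ((sin κ : ℝ) : ℂ) ^ 2 = 1 := by exact_mod_cast h3
      rw [h4]
      ring
    rw [inv_pow, h2]
    norm_num
  set q : ℂ := (Complex.exp (κ * Complex.I))⁻¹ with hqdef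
  have hq0 : q ≠ 0 := inv_ne_zero (Complex.exp_ne_zero _)
  have hqi : q⁻¹ = -q := by
    have : q * q = -1 := by rw [← hq]; ring
    field_simp
    linear_combination this
  have hexp1 : ∀ i : ↥S, Complex.exp (al i.1 1 * Complex.I) =
      q⁻¹ * (Complex.exp (al i.1 0 * Complex.I))⁻¹ := by
    intro i
    rw [a01 i, hqdef, inv_inv, ← Complex.exp_neg, ← Complex.exp_add]
    congr 1
    push_cast
    ring
  have hX0 : ∀ i : ↥S, Complex.exp (al i.1 0 * Complex.I) ≠ 0 := fun i => Complex.exp_ne_zero _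
  have hY0 : ∀ i : ↥S, Complex.exp (al i.1 4 * Complex.I) ≠ 0 := fun i => Complex.exp_ne_zero _
  have ha : P.Lim (fun i : ↥S => (cos (al i.1 0) : ℂ) * (Complex.exp (al i.1 0 * Complex.I))⁻¹)
      (P.j (1 / 2)) := by
    refine Th14X_congr P (P.mul (P.add (P.const 1) (Pl.pow P hu 2)) (P.const (1 / 2))) ?_ ?_
    · intro i
      rw [cos_exp]
      have := hX0 i
      field_simp
    · rw [map_one]
      ring
  have hb : P.Lim (fun i : ↥S => (cos (al i.1 1) : ℂ) * (Complex.exp (al i.1 0 * Complex.I))⁻¹)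
      (P.j (q / 2)) := by
    refine Th14X_congr P (P.add (P.mul (P.const (q⁻¹ / 2)) (Pl.pow P hu 2))
      (P.const (q / 2))) ?_ ?_
    · intro i
      rw [cos_exp, hexp1 i]
      have := hX0 i
      field_simp
    · ring
  have hc2 : ∀ i : ↥S, (cos (al i.1 2) : ℂ) = -(cos (al i.1 4) : ℂ) := by
    intro i
    rw [a24 i, Real.cos_pi_sub]
    push_cast
    ring
  have hs2 : ∀ i : ↥S, (sin (al i.1 2) : ℂ) = (sin (al i.1 4) : ℂ) := by
    intro i
    rw [a24 i, Real.sin_pi_sub]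
  have hDD : ∀ i : ↥S, DD (fun m => (cos (al i.1 m) : ℂ)) = 0 := fun i =>
    DD_eq_zero_complex (hT i)
  have hPP : ∀ i : ↥S, PP (fun m => (cos (al i.1 m) : ℂ)) (fun m => (sin (al i.1 m) : ℂ)) 4 =
      PP (fun m => (cos (al i.1 m) : ℂ)) (fun m => (sin (al i.1 m) : ℂ)) 2 := fun i =>
    PP_eq_complex (hT i) (e4 i)
  have hγ : γ ∈ Ioo 0 π := by
    obtain ⟨i⟩ : Nonempty ↥S := inferInstance
    rw [← a5 i]
    exact hmem i 5
  rcases Pl.tri P (fun i : ↥S => Complex.exp (al i.1 4 * Complex.I)) hY0 with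
    ⟨y, hy0, hy, hyi⟩ | hy | hy
  · have hC := P.mul (P.add hy hyi) (P.const (1 / 2))
    have hS' := P.mul (Pl.sub P hy hyi) (P.const (1 / (2 * Complex.I)))
    set C : P.k := (y + y⁻¹) * P.j (1 / 2) with hCdef
    set T : P.k := (y - y⁻¹) * P.j (1 / (2 * Complex.I)) with hTdef
    have hC' : P.Lim (fun i : ↥S => (cos (al i.1 4) : ℂ)) C := by
      refine Th14X_congr P hC ?_ rfl
      intro i
      rw [cos_exp]
      ring
    have hT' : P.Lim (fun i : ↥S => (sin (al i.1 4) : ℂ)) T := by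
      refine Th14X_congr P hS' ?_ rfl
      intro i
      rw [sin_exp]
      ring
    have hCT : C ^ 2 + T ^ 2 = 1 := by
      have h1 := P.add (Pl.pow P hC' 2) (Pl.pow P hT' 2)
      have h2 : P.Lim (fun i : ↥S => (cos (al i.1 4) : ℂ) ^ 2 + (sin (al i.1 4) : ℂ) ^ 2)
          (P.j 1) := by
        refine Th14X_congr P (P.const 1) ?_ rfl
        intro i
        have := Real.cos_sq_add_sin_sq (al i.1 4)
        exact_mod_cast this.symm
      rw [map_one] at h2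
      exact P.uniq h1 h2
    have hmain : P.j (cos γ : ℂ) ^ 2 - C ^ 2 + 2 * P.j q * C * (1 - P.j (cos γ : ℂ)) = 0 := by
      refine Th14X_main1 P _ _ _ _ q hq (cos α : ℂ) (cos γ : ℂ) C hu ha hb hC' ?_
      intro i
      have h1 := hDD i
      simp only [DD] at h1
      rw [hc2 i, a3 i, a5 i] at h1
      linear_combination ((Complex.exp (al i.1 0 * Complex.I))⁻¹) ^ 2 * h1
    have hmain2 : T * (C - P.j q * (1 - P.j (cos γ : ℂ))) = 0 := by
      refine Th14X_main2 P _ _ _ _ _ q hq (cos α : ℂ) (cos γ : ℂ) C T hu ha hb hC' hT' ?_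
      intro i
      have h1 : (sin (al i.1 4) : ℂ) * ((cos (al i.1 4) : ℂ) * (1 - (cos (al i.1 1) : ℂ) ^ 2) +
          (cos (al i.1 0) : ℂ) * (cos (al i.1 3) : ℂ) + (cos (al i.1 2) : ℂ) *
          (cos (al i.1 5) : ℂ) + (cos (al i.1 1) : ℂ) * ((cos (al i.1 2) : ℂ) *
          (cos (al i.1 3) : ℂ) + (cos (al i.1 0) : ℂ) * (cos (al i.1 5) : ℂ))) =
        (sin (al i.1 2) : ℂ) * ((cos (al i.1 2) : ℂ) * (1 - (cos (al i.1 3) : ℂ) ^ 2) +
          (cos (al i.1 0) : ℂ) * (cos (al i.1 1) : ℂ) + (cos (al i.1 4) : ℂ) *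
          (cos (al i.1 5) : ℂ) + (cos (al i.1 3) : ℂ) * ((cos (al i.1 1) : ℂ) *
          (cos (al i.1 4) : ℂ) + (cos (al i.1 0) : ℂ) * (cos (al i.1 5) : ℂ))) := hPP i
      rw [hs2 i, hc2 i, a3 i, a5 i] at h1
      linear_combination ((Complex.exp (al i.1 0 * Complex.I))⁻¹) ^ 2 * h1
    exact Th14X_fin P.k P.j q hq γ hγ C T hCT hmain hmain2
  · exfalso
    have hd : P.Lim (fun i : ↥S => (cos (al i.1 4) : ℂ) * Complex.exp (al i.1 4 * Complex.I))
        (P.j (1 / 2)) := by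
      refine Th14X_congr P (P.mul (P.add (P.const 1) (Pl.pow P hy 2)) (P.const (1 / 2))) ?_ ?_
      · intro i
        rw [cos_exp]
        have := hY0 i
        field_simp
        ring
      · rw [map_one]
        ring
    refine Th14X_case P _ _ _ _ _ q hq (cos α : ℂ) (cos γ : ℂ) hu hy ha hb hd ?_
    intro i
    have h1 := hDD i
    simp only [DD] at h1
    rw [hc2 i, a3 i, a5 i] at h1
    linear_combination ((Complex.exp (al i.1 0 * Complex.I))⁻¹) ^ 2 *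
      (Complex.exp (al i.1 4 * Complex.I)) ^ 2 * h1
  · exfalso
    have hd : P.Lim (fun i : ↥S => (cos (al i.1 4) : ℂ) * (Complex.exp (al i.1 4 * Complex.I))⁻¹)
        (P.j (1 / 2)) := by
      refine Th14X_congr P (P.mul (P.add (P.const 1) (Pl.pow P hy 2)) (P.const (1 / 2))) ?_ ?_
      · intro i
        rw [cos_exp]
        have := hY0 i
        field_simp
      · rw [map_one]
        ring
    refine Th14X_case P _ _ _ _ _ q hq (cos α : ℂ) (cos γ : ℂ) hu hy ha hb hd ?_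
    intro i
    have h1 := hDD i
    simp only [DD] at h1
    rw [hc2 i, a3 i, a5 i] at h1
    linear_combination ((Complex.exp (al i.1 0 * Complex.I))⁻¹) ^ 2 *
      ((Complex.exp (al i.1 4 * Complex.I))⁻¹) ^ 2 * h1

end Pool.Agent.Helper22.FF
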