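import Pool.Agent.Helper22.FF.Basic
import Pool.Agent.Helper22.FF.Place

/-!
FF-14 Th14Y.  Place analysis for `S14`, first place.

PROOF. `ι = S`, `Y i = exp (i al l 4)` (injective), `X i = exp (i al l 0)`, `K = exp (iκ)`, `L = exp (i lam)`, so
`exp (i al l 1) = K X⁻¹`, `exp (i al l 2) = L Y⁻¹`. Place `P` of `exists_pl` for `Y`: `Y⁻¹ → 0`. `c j, s j` cosine and sine of
`al l j`; `c3 = cos α`, `s3 = sin α`, `c5 = cos γ` constants. `c4 Y⁻¹ → 1/2`, `c2 Y⁻¹ → L⁻¹/2`, `s4 Y⁻¹ → 1/(2i)`,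
`s2 Y⁻¹ → -L⁻¹/(2i)`. `Pl.tri` for `X`:
 (i) `X⁻¹ → 0`: `X⁻² Y⁻² DD → K⁻²/16` (only `c1² c4²`); contradiction. (ii) `X → 0`: `X² Y⁻² DD → K²/16`; contradiction.
 (iii) `X → x ≠ 0`: `c0, s0, c1, s1` have limits (same names), `c1² + s1² = 1`, `c0 = cos κ · c1 + sin κ · s1`
 (`cos (κ - θ)`). Limits (all equal to `0`):
 (a) `Y⁻² DD → -(1/4) (L⁻² s3² + s1² + 2 L⁻¹ (c5 + c1 c3))`,
 (c) `Y⁻² (PP 0 - PP 1) → (1/4) s1 (c1 - L⁻¹ c3)`   (`PP 0 = PP 1` as `l 1 = l 0`),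
 (b) `Y⁻¹ (DD + i (PP 4 - PP 2)) → -(1/2) c0 ((c3 + c1 c5) + L⁻¹ (c1 + c3 c5))`   (`PP 4 = PP 2` as `l 4 = l 2`); use the ring
 identity `DD + i (PP 4 - PP 2) = -s1² c4 (c4 - i s4) - s3² c2 (c2 + i s2) - (c5 + c1 c3)(c2 (c4 - i s4) + c4 (c2 + i s2))
   - c0 (c3 + c1 c5)(c4 + (c4 - i s4)) - c0 (c1 + c3 c5)(c2 + (c2 + i s2)) + E0`,
 `E0 = 1 - c0² - c1² - c3² - c5² + c0² c5² - 2 c1 c3 c5` (with `s1² = 1 - c1²`, `s3² = 1 - c3²`), and `c4 - i s4 = Y⁻¹`,
 `c2 + i s2 = L Y⁻¹`.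
 Case `s1 ≠ 0`: `c1 = L⁻¹ c3`; `L` times (a): `L⁻¹ s3² + L (1 - L⁻² c3²) + 2 c5 + 2 L⁻¹ c3² = L⁻¹ + L + 2 c5 = 0` in `P.k`, hence in
 `ℂ`: `cos lam = -cos γ`. But `vertex3` says `π - γ < lam < π + γ`, so `cos lam < -cos γ`: contradiction.
 Case `s1 = 0`: `c1 = ε`, `ε² = 1`, (a): `L⁻¹ s3² = -2 (c5 + ε c3)` (in `ℂ`, `ε = ±1`), so `L⁻¹` is real (`s3 > 0`), of absolute
 value `1`, and `lam ∈ (0, 2π)`, so `L = -1`, `lam = π`, `s3² = 2 (c5 + ε c3)`. (b): `c0 (c3 - ε)(1 - c5) = 0`, so `c0 = 0`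
 (`|c3| < 1`, `c5 ≠ 1`), and `c0 = ε cos κ`.
-/

open Real Set Pool.Agent.Helper1.Tet

namespace Pool.Agent.Helper22.FF

private theorem y_congr {ι : Type} (P : Pl ι) {f g : ι → ℂ} {a b : P.k} (h : P.Lim f a)
    (e : ∀ i, g i = f i) (e' : b = a) : P.Lim g b := by
  have h1 : g = f := funext e
  rw [h1, e']
  exact h

private theorem y_inf {ι : Type} (P : Pl ι) (c : ι → Fin 6 → ℂ) (t u : ι → ℂ)
    (A0 A1 B2 B4 C3 C5 : P.k) (ht : P.Lim (fun i => t i) 0) (hu : P.Lim (fun i => u i) 0)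
    (h0 : P.Lim (fun i => u i * c i 0) A0) (h1 : P.Lim (fun i => u i * c i 1) A1)
    (h2 : P.Lim (fun i => t i * c i 2) B2) (h4 : P.Lim (fun i => t i * c i 4) B4)
    (h3 : P.Lim (fun i => c i 3) C3) (h5 : P.Lim (fun i => c i 5) C5)
    (hD : ∀ i, DD (c i) = 0) : A1 * B4 = 0 := by
  have key : P.Lim (fun i => (u i) ^ 2 * (t i) ^ 2
      - ((u i * c i 0) ^ 2 * (t i) ^ 2 + (u i * c i 1) ^ 2 * (t i) ^ 2
        + (t i * c i 2) ^ 2 * (u i) ^ 2 + (u i) ^ 2 * (t i) ^ 2 * (c i 3) ^ 2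
        + (t i * c i 4) ^ 2 * (u i) ^ 2 + (u i) ^ 2 * (t i) ^ 2 * (c i 5) ^ 2)
      + ((u i * c i 0) ^ 2 * (t i) ^ 2 * (c i 5) ^ 2 + (u i * c i 1) ^ 2 * (t i * c i 4) ^ 2
        + (t i * c i 2) ^ 2 * (u i) ^ 2 * (c i 3) ^ 2)
      - 2 * ((t i * c i 2) * (t i * c i 4) * (c i 5) * (u i) ^ 2
        + (u i * c i 1) * (c i 3) * (c i 5) * (u i) * (t i) ^ 2
        + (u i * c i 0) * (c i 3) * (t i * c i 4) * (u i) * (t i)
        + (u i * c i 0) * (u i * c i 1) * (t i * c i 2) * (t i))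
      - 2 * ((u i * c i 0) * (t i * c i 2) * (c i 3) * (c i 5) * (u i) * (t i)
        + (u i * c i 0) * (u i * c i 1) * (t i * c i 4) * (c i 5) * (t i)
        + (u i * c i 1) * (t i * c i 2) * (c i 3) * (t i * c i 4) * (u i)))
      (0 ^ 2 * 0 ^ 2
      - (A0 ^ 2 * 0 ^ 2 + A1 ^ 2 * 0 ^ 2
        + B2 ^ 2 * 0 ^ 2 + 0 ^ 2 * 0 ^ 2 * C3 ^ 2
        + B4 ^ 2 * 0 ^ 2 + 0 ^ 2 * 0 ^ 2 * C5 ^ 2)
      + (A0 ^ 2 * 0 ^ 2 * C5 ^ 2 + A1 ^ 2 * B4 ^ 2
        + B2 ^ 2 * 0 ^ 2 * C3 ^ 2)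
      - P.j 2 * (B2 * B4 * C5 * 0 ^ 2
        + A1 * C3 * C5 * 0 * 0 ^ 2
        + A0 * C3 * B4 * 0 * 0
        + A0 * A1 * B2 * 0)
      - P.j 2 * (A0 * B2 * C3 * C5 * 0 * 0
        + A0 * A1 * B4 * C5 * 0
        + A1 * B2 * C3 * B4 * 0)) := by
    repeat' first
      | exact h0 | exact h1 | exact h2 | exact h4 | exact h3 | exact h5 | exact hu | exact ht
      | exact P.const 2
      | apply Pl.pow | apply Pl.sub | apply P.add | apply P.mul
  have h0' : P.Lim (fun _ => (0 : ℂ)) (P.j 0) := P.const 0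
  have := P.uniq key (y_congr P h0' (fun i => by
    have h := hD i
    unfold DD at h
    linear_combination (u i) ^ 2 * (t i) ^ 2 * h) rfl)
  rw [map_zero] at this
  have h6 : (A1 * B4) ^ 2 = 0 := by linear_combination this
  exact pow_eq_zero_iff (two_ne_zero) |>.1 h6

private theorem y_a {ι : Type} (P : Pl ι) (c : ι → Fin 6 → ℂ) (t : ι → ℂ)
    (C0 C1 B2 B4 C3 C5 : P.k) (ht : P.Lim (fun i => t i) 0)
    (h0 : P.Lim (fun i => c i 0) C0) (h1 : P.Lim (fun i => c i 1) C1)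
    (h2 : P.Lim (fun i => t i * c i 2) B2) (h4 : P.Lim (fun i => t i * c i 4) B4)
    (h3 : P.Lim (fun i => c i 3) C3) (h5 : P.Lim (fun i => c i 5) C5)
    (hD : ∀ i, DD (c i) = 0) :
    B2 ^ 2 + B4 ^ 2 - C1 ^ 2 * B4 ^ 2 - B2 ^ 2 * C3 ^ 2 + 2 * B2 * B4 * C5
      + 2 * C1 * B2 * C3 * B4 = 0 := by
  have key : P.Lim (fun i => (t i) ^ 2
      - ((c i 0) ^ 2 * (t i) ^ 2 + (c i 1) ^ 2 * (t i) ^ 2
        + (t i * c i 2) ^ 2 + (t i) ^ 2 * (c i 3) ^ 2
        + (t i * c i 4) ^ 2 + (t i) ^ 2 * (c i 5) ^ 2)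
      + ((c i 0) ^ 2 * (t i) ^ 2 * (c i 5) ^ 2 + (c i 1) ^ 2 * (t i * c i 4) ^ 2
        + (t i * c i 2) ^ 2 * (c i 3) ^ 2)
      - 2 * ((t i * c i 2) * (t i * c i 4) * (c i 5)
        + (c i 1) * (c i 3) * (c i 5) * (t i) ^ 2
        + (c i 0) * (c i 3) * (t i * c i 4) * (t i)
        + (c i 0) * (c i 1) * (t i * c i 2) * (t i))
      - 2 * ((c i 0) * (t i * c i 2) * (c i 3) * (c i 5) * (t i)
        + (c i 0) * (c i 1) * (t i * c i 4) * (c i 5) * (t i)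
        + (c i 1) * (t i * c i 2) * (c i 3) * (t i * c i 4)))
      (0 ^ 2
      - (C0 ^ 2 * 0 ^ 2 + C1 ^ 2 * 0 ^ 2
        + B2 ^ 2 + 0 ^ 2 * C3 ^ 2
        + B4 ^ 2 + 0 ^ 2 * C5 ^ 2)
      + (C0 ^ 2 * 0 ^ 2 * C5 ^ 2 + C1 ^ 2 * B4 ^ 2
        + B2 ^ 2 * C3 ^ 2)
      - P.j 2 * (B2 * B4 * C5
        + C1 * C3 * C5 * 0 ^ 2
        + C0 * C3 * B4 * 0
        + C0 * C1 * B2 * 0)
      - P.j 2 * (C0 * B2 * C3 * C5 * 0
        + C0 * C1 * B4 * C5 * 0
        + C1 * B2 * C3 * B4)) := by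
    repeat' first
      | exact h0 | exact h1 | exact h2 | exact h4 | exact h3 | exact h5 | exact ht
      | exact P.const 2
      | apply Pl.pow | apply Pl.sub | apply P.add | apply P.mul
  have h0' : P.Lim (fun _ => (0 : ℂ)) (P.j 0) := P.const 0
  have := P.uniq key (y_congr P h0' (fun i => by
    have h := hD i
    unfold DD at h
    linear_combination (t i) ^ 2 * h) rfl)
  rw [map_zero, map_ofNat] at this
  linear_combination - this

private theorem y_c {ι : Type} (P : Pl ι) (c s : ι → Fin 6 → ℂ) (t : ι → ℂ)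
    (C0 C1 S0 S1 B2 B4 C3 C5 : P.k) (ht : P.Lim (fun i => t i) 0)
    (h0 : P.Lim (fun i => c i 0) C0) (h1 : P.Lim (fun i => c i 1) C1)
    (g0 : P.Lim (fun i => s i 0) S0) (g1 : P.Lim (fun i => s i 1) S1)
    (h2 : P.Lim (fun i => t i * c i 2) B2) (h4 : P.Lim (fun i => t i * c i 4) B4)
    (h3 : P.Lim (fun i => c i 3) C3) (h5 : P.Lim (fun i => c i 5) C5)
    (hP : ∀ i, PP (c i) (s i) 0 = PP (c i) (s i) 1) :
    S1 * (C1 * B4 ^ 2 - B4 * B2 * C3) = 0 := by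
  have key : P.Lim (fun i =>
      s i 0 * (c i 0 * ((t i) ^ 2 - (t i) ^ 2 * (c i 5) ^ 2) + (t i) * c i 1 * (t i * c i 2)
        + (t i) * c i 3 * (t i * c i 4)
        + (t i) * c i 5 * ((t i * c i 2) * c i 3 + c i 1 * (t i * c i 4)))
      - s i 1 * (c i 1 * ((t i) ^ 2 - (t i * c i 4) ^ 2) + (t i) * c i 0 * (t i * c i 2)
        + (t i) ^ 2 * c i 3 * c i 5
        + (t i * c i 4) * ((t i * c i 2) * c i 3 + t i * c i 0 * c i 5)))
      (S0 * (C0 * (0 ^ 2 - 0 ^ 2 * C5 ^ 2) + 0 * C1 * B2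
        + 0 * C3 * B4
        + 0 * C5 * (B2 * C3 + C1 * B4))
      - S1 * (C1 * (0 ^ 2 - B4 ^ 2) + 0 * C0 * B2
        + 0 ^ 2 * C3 * C5
        + B4 * (B2 * C3 + 0 * C0 * C5))) := by
    repeat' first
      | exact h0 | exact h1 | exact g0 | exact g1 | exact h2 | exact h4 | exact h3 | exact h5
      | exact ht
      | apply Pl.pow | apply Pl.sub | apply P.add | apply P.mul
  have h0' : P.Lim (fun _ => (0 : ℂ)) (P.j 0) := P.const 0
  have := P.uniq key (y_congr P h0' (fun i => by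
    have h := hP i
    simp only [PP, Matrix.cons_val_zero, Matrix.cons_val_one] at h
    linear_combination (t i) ^ 2 * h) rfl)
  rw [map_zero] at this
  linear_combination this

private theorem y_b {ι : Type} (P : Pl ι) (c s : ι → Fin 6 → ℂ) (t : ι → ℂ) (L : ℂ)
    (C0 C1 B2 B4 C3 C5 : P.k) (ht : P.Lim (fun i => t i) 0)
    (h0 : P.Lim (fun i => c i 0) C0) (h1 : P.Lim (fun i => c i 1) C1)
    (h2 : P.Lim (fun i => t i * c i 2) B2) (h4 : P.Lim (fun i => t i * c i 4) B4)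
    (h3 : P.Lim (fun i => c i 3) C3) (h5 : P.Lim (fun i => c i 5) C5)
    (e4 : ∀ i, c i 4 - Complex.I * s i 4 = t i) (e2 : ∀ i, c i 2 + Complex.I * s i 2 = L * t i)
    (hD : ∀ i, DD (c i) = 0) (hP : ∀ i, PP (c i) (s i) 4 = PP (c i) (s i) 2) :
    C0 * ((C3 + C1 * C5) * B4 + (C1 + C3 * C5) * B2) = 0 := by
  have key : P.Lim (fun i =>
      (0 : ℂ) - (1 - (c i 1) ^ 2) * (t i * c i 4) * t i
        - (1 - (c i 3) ^ 2) * (t i * c i 2) * (L * t i)
        - (c i 5 + c i 1 * c i 3) * ((t i * c i 2) * t i + (t i * c i 4) * (L * t i))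
        - c i 0 * (c i 3 + c i 1 * c i 5) * (t i * c i 4 + t i * t i)
        - c i 0 * (c i 1 + c i 3 * c i 5) * (t i * c i 2 + t i * (L * t i))
        + t i * (1 - (c i 0) ^ 2 - (c i 1) ^ 2 - (c i 3) ^ 2 - (c i 5) ^ 2
          + (c i 0) ^ 2 * (c i 5) ^ 2 - 2 * c i 1 * c i 3 * c i 5))
      (P.j 0 - (P.j 1 - C1 ^ 2) * B4 * 0
        - (P.j 1 - C3 ^ 2) * B2 * (P.j L * 0)
        - (C5 + C1 * C3) * (B2 * 0 + B4 * (P.j L * 0))
        - C0 * (C3 + C1 * C5) * (B4 + 0 * 0)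
        - C0 * (C1 + C3 * C5) * (B2 + 0 * (P.j L * 0))
        + 0 * (P.j 1 - C0 ^ 2 - C1 ^ 2 - C3 ^ 2 - C5 ^ 2
          + C0 ^ 2 * C5 ^ 2 - P.j 2 * C1 * C3 * C5)) := by
    repeat' first
      | exact h0 | exact h1 | exact h2 | exact h4 | exact h3 | exact h5
      | exact ht | exact P.const 0 | exact P.const 1 | exact P.const 2 | exact P.const L
      | apply Pl.pow | apply Pl.sub | apply P.add | apply P.mul
  have h0' : P.Lim (fun _ => (0 : ℂ)) (P.j 0) := P.const 0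
  have := P.uniq key (y_congr P h0' (fun i => by
    have hd := hD i
    have hp := hP i
    have f4 := e4 i
    have f2 := e2 i
    have p4 : PP (c i) (s i) 4 = s i 4 * (c i 4 * (1 - c i 1 ^ 2) + c i 0 * c i 3
      + c i 2 * c i 5 + c i 1 * (c i 2 * c i 3 + c i 0 * c i 5)) := rfl
    have p2 : PP (c i) (s i) 2 = s i 2 * (c i 2 * (1 - c i 3 ^ 2) + c i 0 * c i 1
      + c i 4 * c i 5 + c i 3 * (c i 1 * c i 4 + c i 0 * c i 5)) := rfl
    rw [p4, p2] at hp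
    unfold DD at hd
    have hb : (0 : ℂ) - (1 - (c i 1) ^ 2) * c i 4 * (c i 4 - Complex.I * s i 4)
        - (1 - (c i 3) ^ 2) * c i 2 * (c i 2 + Complex.I * s i 2)
        - (c i 5 + c i 1 * c i 3) * (c i 2 * (c i 4 - Complex.I * s i 4)
          + c i 4 * (c i 2 + Complex.I * s i 2))
        - c i 0 * (c i 3 + c i 1 * c i 5) * (c i 4 + (c i 4 - Complex.I * s i 4))
        - c i 0 * (c i 1 + c i 3 * c i 5) * (c i 2 + (c i 2 + Complex.I * s i 2))
        + (1 - (c i 0) ^ 2 - (c i 1) ^ 2 - (c i 3) ^ 2 - (c i 5) ^ 2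
          + (c i 0) ^ 2 * (c i 5) ^ 2 - 2 * c i 1 * c i 3 * c i 5) = 0 := by
      linear_combination hd + Complex.I * hp
    rw [f4, f2] at hb
    linear_combination t i * hb) rfl)
  rw [map_zero, map_one] at this
  linear_combination - this

theorem L14_Y (κ lam α γ : ℝ) (S : Set (Fin 6 → ℝ)) (hS : S ⊆ S14 κ lam α γ) (hinf : S.Infinite)
    (hinj : Set.InjOn (fun l => al l 4) S) : lam = π ∧ cos κ = 0 ∧
      ∃ ε : ℝ, ε ^ 2 = 1 ∧ sin α ^ 2 = 2 * (cos γ + ε * cos α) := by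
  classical
  have hInf : Infinite S := hinf.to_subtype
  have hTT : ∀ i : S, i.1 ∈ TT := fun i => (hS i.2).1.1
  have hIoo : ∀ (i : S) (j : Fin 6), al i.1 j ∈ Ioo 0 π := by
    intro i j
    exact (TT_facts (hTT i)).2.2.2.2.1 j
  obtain ⟨K, hK⟩ : ∃ K : ℂ, K = Complex.exp ((κ : ℝ) * Complex.I) := ⟨_, rfl⟩
  obtain ⟨L, hL⟩ : ∃ L : ℂ, L = Complex.exp ((lam : ℝ) * Complex.I) := ⟨_, rfl⟩
  have hK0 : K ≠ 0 := by rw [hK]; exact Complex.exp_ne_zero _
  have hL0 : L ≠ 0 := by rw [hL]; exact Complex.exp_ne_zero _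
  obtain ⟨Y, hY⟩ : ∃ Y : S → ℂ, ∀ i, Y i = Complex.exp ((al i.1 4 : ℝ) * Complex.I) :=
    ⟨_, fun i => rfl⟩
  obtain ⟨X, hX⟩ : ∃ X : S → ℂ, ∀ i, X i = Complex.exp ((al i.1 0 : ℝ) * Complex.I) :=
    ⟨_, fun i => rfl⟩
  obtain ⟨c, hc⟩ : ∃ c : S → Fin 6 → ℂ, ∀ i, c i = fun j => (cos (al i.1 j) : ℂ) :=
    ⟨_, fun i => rfl⟩
  obtain ⟨s, hs⟩ : ∃ s : S → Fin 6 → ℂ, ∀ i, s i = fun j => (sin (al i.1 j) : ℂ) :=
    ⟨_, fun i => rfl⟩
  have hY0 : ∀ i, Y i ≠ 0 := fun i => by rw [hY]; exact Complex.exp_ne_zero _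
  have hX0 : ∀ i, X i ≠ 0 := fun i => by rw [hX]; exact Complex.exp_ne_zero _
  have hI := Complex.I_ne_zero
  have hc4 : ∀ i, c i 4 = (Y i + (Y i)⁻¹) / 2 := fun i => by rw [hc, hY]; exact cos_exp _
  have hs4 : ∀ i, s i 4 = (Y i - (Y i)⁻¹) / (2 * Complex.I) := fun i => by
    rw [hs, hY]; exact sin_exp _
  have hc0 : ∀ i, c i 0 = (X i + (X i)⁻¹) / 2 := fun i => by rw [hc, hX]; exact cos_exp _
  have hs0 : ∀ i, s i 0 = (X i - (X i)⁻¹) / (2 * Complex.I) := fun i => by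
    rw [hs, hX]; exact sin_exp _
  have hE2 : ∀ i : S, Complex.exp ((al i.1 2 : ℝ) * Complex.I) = L * (Y i)⁻¹ := by
    intro i
    have h : al i.1 2 = lam - al i.1 4 := by have := (hS i.2).2.2.2.2.1; linarith
    rw [h, hL, hY]
    push_cast
    rw [sub_mul, Complex.exp_sub, div_eq_mul_inv]
  have hE1 : ∀ i : S, Complex.exp ((al i.1 1 : ℝ) * Complex.I) = K * (X i)⁻¹ := by
    intro i
    have h : al i.1 1 = κ - al i.1 0 := by have := (hS i.2).2.2.2.1; linarith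
    rw [h, hK, hX]
    push_cast
    rw [sub_mul, Complex.exp_sub, div_eq_mul_inv]
  have hc2 : ∀ i, c i 2 = (L * (Y i)⁻¹ + L⁻¹ * Y i) / 2 := fun i => by
    have h := cos_exp (al i.1 2)
    rw [hE2] at h
    rw [hc]
    refine h.trans ?_
    rw [mul_inv, inv_inv]
  have hs2 : ∀ i, s i 2 = (L * (Y i)⁻¹ - L⁻¹ * Y i) / (2 * Complex.I) := fun i => by
    have h := sin_exp (al i.1 2)
    rw [hE2] at h
    rw [hs]
    refine h.trans ?_
    rw [mul_inv, inv_inv]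
  have hc1 : ∀ i, c i 1 = (K * (X i)⁻¹ + K⁻¹ * X i) / 2 := fun i => by
    have h := cos_exp (al i.1 1)
    rw [hE1] at h
    rw [hc]
    refine h.trans ?_
    rw [mul_inv, inv_inv]
  have hs1 : ∀ i, s i 1 = (K * (X i)⁻¹ - K⁻¹ * X i) / (2 * Complex.I) := fun i => by
    have h := sin_exp (al i.1 1)
    rw [hE1] at h
    rw [hs]
    refine h.trans ?_
    rw [mul_inv, inv_inv]
  have hc3 : ∀ i, c i 3 = (cos α : ℂ) := fun i => by
    have h := (hS i.2).2.2.2.2.2.1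
    rw [hc]
    simp only [h]
  have hc5 : ∀ i, c i 5 = (cos γ : ℂ) := fun i => by
    have h := (hS i.2).2.2.2.2.2.2
    rw [hc]
    simp only [h]
  have hinjY : Function.Injective Y := by
    intro i i' h
    rw [hY, hY] at h
    exact Subtype.ext (hinj i.2 i'.2 (exp_injOn (hIoo i 4) (hIoo i' 4) h))
  obtain ⟨P, ht⟩ := exists_pl Y hinjY hY0
  have l4 : P.Lim (fun i => (Y i)⁻¹ * c i 4) ((P.j 1 + 0 ^ 2) * P.j (1 / 2)) := by
    refine y_congr P (f := fun i => (1 + (Y i)⁻¹ ^ 2) * (1 / 2)) ?_ (fun i => ?_) rfl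
    · exact P.mul (P.add (P.const 1) (Pl.pow P ht 2)) (P.const _)
    · rw [hc4]
      have := hY0 i
      field_simp
  have l2 : P.Lim (fun i => (Y i)⁻¹ * c i 2) ((P.j L * 0 ^ 2 + P.j L⁻¹) * P.j (1 / 2)) := by
    refine y_congr P (f := fun i => (L * (Y i)⁻¹ ^ 2 + L⁻¹) * (1 / 2)) ?_ (fun i => ?_) rfl
    · exact P.mul (P.add (P.mul (P.const L) (Pl.pow P ht 2)) (P.const _)) (P.const _)
    · rw [hc2]
      have := hY0 i
      field_simp
  have l3 : P.Lim (fun i => c i 3) (P.j (cos α)) :=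
    y_congr P (P.const _) hc3 rfl
  have l5 : P.Lim (fun i => c i 5) (P.j (cos γ)) :=
    y_congr P (P.const _) hc5 rfl
  have hD : ∀ i, DD (c i) = 0 := fun i => by rw [hc]; exact DD_eq_zero_complex (hTT i)
  have hP01 : ∀ i, PP (c i) (s i) 0 = PP (c i) (s i) 1 := fun i => by
    rw [hc, hs]; exact PP_eq_complex (hTT i) (hS i.2).2.1.symm
  have hP42 : ∀ i, PP (c i) (s i) 4 = PP (c i) (s i) 2 := fun i => by
    rw [hc, hs]; exact PP_eq_complex (hTT i) (hS i.2).2.2.1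
  have jn : ∀ z : ℂ, z ≠ 0 → P.j z ≠ 0 := fun z hz => (map_ne_zero P.j).2 hz
  have hh : P.j (1 / 2) ≠ 0 := jn _ (by norm_num)
  rcases P.tri X hX0 with ⟨x, hx0, hx, hx'⟩ | hx | hx
  · -- X → x
    obtain ⟨C0, m0⟩ : ∃ C0 : P.k, P.Lim (fun i => c i 0) C0 :=
      ⟨(x + x⁻¹) * P.j (1 / 2), y_congr P (f := fun i => (X i + (X i)⁻¹) * (1 / 2))
        (P.mul (P.add hx hx') (P.const _)) (fun i => by rw [hc0]; ring) rfl⟩
    obtain ⟨S0, n0⟩ : ∃ S0 : P.k, P.Lim (fun i => s i 0) S0 :=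
      ⟨(x - x⁻¹) * P.j (1 / (2 * Complex.I)),
        y_congr P (f := fun i => (X i - (X i)⁻¹) * (1 / (2 * Complex.I)))
        (P.mul (Pl.sub P hx hx') (P.const _)) (fun i => by rw [hs0]; ring) rfl⟩
    obtain ⟨C1, m1⟩ : ∃ C1 : P.k, P.Lim (fun i => c i 1) C1 :=
      ⟨(P.j K * x⁻¹ + P.j K⁻¹ * x) * P.j (1 / 2),
        y_congr P (f := fun i => (K * (X i)⁻¹ + K⁻¹ * X i) * (1 / 2))
        (P.mul (P.add (P.mul (P.const _) hx') (P.mul (P.const _) hx)) (P.const _))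
        (fun i => by rw [hc1]; ring) rfl⟩
    obtain ⟨S1, n1⟩ : ∃ S1 : P.k, P.Lim (fun i => s i 1) S1 :=
      ⟨(P.j K * x⁻¹ - P.j K⁻¹ * x) * P.j (1 / (2 * Complex.I)),
        y_congr P (f := fun i => (K * (X i)⁻¹ - K⁻¹ * X i) * (1 / (2 * Complex.I)))
        (P.mul (Pl.sub P (P.mul (P.const _) hx') (P.mul (P.const _) hx)) (P.const _))
        (fun i => by rw [hs1]; ring) rfl⟩
    have ea := y_a P c (fun i => (Y i)⁻¹) _ _ _ _ _ _ ht m0 m1 l2 l4 l3 l5 hD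
    have ec := y_c P c s (fun i => (Y i)⁻¹) _ _ _ _ _ _ _ _ ht m0 m1 n0 n1 l2 l4 l3 l5 hP01
    have eb := y_b P c s (fun i => (Y i)⁻¹) L _ _ _ _ _ _ ht m0 m1 l2 l4 l3 l5
      (fun i => by
        rw [hc4, hs4]
        have := hY0 i
        field_simp
        ring)
      (fun i => by
        rw [hc2, hs2]
        have := hY0 i
        field_simp
        ring) hD hP42
    have e1 : C1 ^ 2 + S1 ^ 2 = 1 := by
      have h1 := P.add (Pl.pow P m1 2) (Pl.pow P n1 2)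
      have h2 := P.uniq h1 (y_congr P (P.const 1) (fun i => by
        rw [hc, hs]
        simp only
        exact_mod_cast congrArg (fun r : ℝ => (r : ℂ)) (Real.cos_sq_add_sin_sq (al i.1 1))) rfl)
      rw [h2, map_one]
    have e0 : C0 = P.j (cos κ) * C1 + P.j (sin κ) * S1 := by
      have h1 := P.add (P.mul (P.const (cos κ : ℂ)) m1) (P.mul (P.const (sin κ : ℂ)) n1)
      refine P.uniq m0 (y_congr P h1 (fun i => ?_) rfl)
      have h : al i.1 0 = κ - al i.1 1 := by have := (hS i.2).2.2.2.1; linarith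
      rw [hc, hs]
      simp only
      rw [h, Real.cos_sub]
      push_cast
      ring
    have h2h : 2 * P.j (1 / 2) = 1 := by
      rw [← map_ofNat P.j 2, ← map_mul]
      norm_num
    obtain ⟨H, hH⟩ : ∃ H : P.k, H = P.j (1 / 2) := ⟨_, rfl⟩
    rw [← hH] at h2h ea ec eb
    rw [map_one] at ea ec eb
    have h4 : H ^ 2 * 4 = 1 := by linear_combination (2 * H + 1) * h2h
    have ea' : P.j L⁻¹ ^ 2 + 1 - C1 ^ 2 - P.j L⁻¹ ^ 2 * P.j (cos α) ^ 2
        + 2 * P.j L⁻¹ * P.j (cos γ) + 2 * C1 * P.j L⁻¹ * P.j (cos α) = 0 := by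
      linear_combination 4 * ea - (P.j L⁻¹ ^ 2 + 1 - C1 ^ 2 - P.j L⁻¹ ^ 2 * P.j (cos α) ^ 2
        + 2 * P.j L⁻¹ * P.j (cos γ) + 2 * C1 * P.j L⁻¹ * P.j (cos α)) * h4
    have ec' : S1 * (C1 - P.j L⁻¹ * P.j (cos α)) = 0 := by
      linear_combination 4 * ec - S1 * (C1 - P.j L⁻¹ * P.j (cos α)) * h4
    have eb' : C0 * ((P.j (cos α) + C1 * P.j (cos γ))
        + (C1 + P.j (cos α) * P.j (cos γ)) * P.j L⁻¹) = 0 := by
      linear_combination 2 * eb - C0 * ((P.j (cos α) + C1 * P.j (cos γ))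
        + (C1 + P.j (cos α) * P.j (cos γ)) * P.j L⁻¹) * h2h
    -- real facts
    obtain ⟨i0⟩ : Nonempty S := inferInstance
    have hγ : al i0.1 5 = γ := (hS i0.2).2.2.2.2.2.2
    have hα : al i0.1 3 = α := (hS i0.2).2.2.2.2.2.1
    have hlam : al i0.1 2 + al i0.1 4 = lam := (hS i0.2).2.2.2.2.1
    have hγ1 := hIoo i0 5
    have hα1 := hIoo i0 3
    have hv := vertex3 (hTT i0)
    rw [hγ] at hγ1 hv
    rw [hα] at hα1
    rw [hlam] at hv
    have hcosL : ∀ r : ℝ, L ^ 2 + 1 + 2 * L * (r : ℂ) = 0 → cos lam = - r := by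
      intro r hr
      have h1 := cos_exp lam
      rw [← hL] at h1
      have h2 : ((cos lam : ℝ) : ℂ) = ((-r : ℝ) : ℂ) := by
        rw [h1]
        push_cast
        field_simp
        linear_combination hr
      exact_mod_cast h2
    have hne : cos lam ≠ - cos γ := by
      intro h
      have h1 : cos (lam - π) = cos γ := by rw [Real.cos_sub_pi, h]; ring
      have h2 : |lam - π| < γ := by rw [abs_lt]; constructor <;> linarith [hv.1, hv.2]
      have h3 := Real.cos_lt_cos_of_nonneg_of_le_pi (abs_nonneg (lam - π)) hγ1.2.le h2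
      rw [Real.cos_abs, h1] at h3
      exact lt_irrefl _ h3
    rcases mul_eq_zero.1 ec' with hS1 | hC1
    · -- S1 = 0
      rw [hS1] at e1 e0
      obtain ⟨ε, hε, hCε⟩ : ∃ ε : ℝ, ε ^ 2 = 1 ∧ C1 = P.j (ε : ℂ) := by
        have h1 : (C1 - 1) * (C1 + 1) = 0 := by linear_combination e1
        rcases mul_eq_zero.1 h1 with h | h
        · exact ⟨1, by norm_num, by rw [Complex.ofReal_one, map_one]; linear_combination h⟩
        · exact ⟨-1, by norm_num, by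
            rw [Complex.ofReal_neg, Complex.ofReal_one, map_neg, map_one]
            linear_combination h⟩
      have hεC : (ε : ℂ) ^ 2 = 1 := by exact_mod_cast hε
      have h2 : P.j (L⁻¹ ^ 2 * (1 - (cos α : ℂ) ^ 2)
          + 2 * L⁻¹ * ((cos γ : ℂ) + (ε : ℂ) * (cos α : ℂ))) = 0 := by
        rw [map_add, map_mul, map_mul, map_mul, map_add, map_mul, map_sub, map_pow, map_pow,
          map_one, map_ofNat, ← hCε]
        linear_combination ea' + e1
      have h3 := (map_eq_zero P.j).1 h2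
      have h4 : ((sin α ^ 2 : ℝ) : ℂ) + ((2 * (cos γ + ε * cos α) : ℝ) : ℂ) * L = 0 := by
        have h5 : ((sin α ^ 2 : ℝ) : ℂ) = 1 - (cos α : ℂ) ^ 2 := by
          rw [Real.sin_sq]; push_cast; ring
        rw [h5]
        field_simp at h3
        push_cast at h3 ⊢
        linear_combination h3
      rw [hL] at h4
      have hre := congrArg Complex.re h4
      have him := congrArg Complex.im h4
      rw [Complex.add_re, Complex.ofReal_re, Complex.re_ofReal_mul,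
        Complex.exp_ofReal_mul_I_re, Complex.zero_re] at hre
      rw [Complex.add_im, Complex.ofReal_im, Complex.im_ofReal_mul,
        Complex.exp_ofReal_mul_I_im, Complex.zero_im, zero_add] at him
      have hsα : 0 < sin α := Real.sin_pos_of_mem_Ioo hα1
      have hsl : sin lam = 0 := by
        rcases mul_eq_zero.1 him with h | h
        · exfalso
          rw [h, zero_mul, add_zero] at hre
          exact absurd hre (pow_pos hsα 2).ne'
        · exact h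
      have hlpi : lam = π := by
        obtain ⟨n, hn⟩ := Real.sin_eq_zero_iff.1 hsl
        have hpi := Real.pi_pos
        have a1 := hIoo i0 2
        have a2 := hIoo i0 4
        have b1 : 0 < lam := by linarith [a1.1, a2.1]
        have b2 : lam < 2 * π := by linarith [a1.2, a2.2]
        have n1 : (0 : ℝ) < n := by
          by_contra hcon
          have : (n : ℝ) * π ≤ 0 := mul_nonpos_of_nonpos_of_nonneg (not_lt.1 hcon) hpi.le
          linarith
        have n2 : (n : ℝ) < 2 := by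
          by_contra hcon
          have : 2 * π ≤ (n : ℝ) * π := mul_le_mul_of_nonneg_right (not_lt.1 hcon) hpi.le
          linarith
        have n3 : n = 1 := by
          have h1 : 0 < n := by exact_mod_cast n1
          have h2 : n < 2 := by exact_mod_cast n2
          omega
        rw [← hn, n3]
        push_cast
        ring
      have hL1 : L = -1 := by rw [hL, hlpi]; exact Complex.exp_pi_mul_I
      refine ⟨hlpi, ?_, ε, hε, ?_⟩
      · rw [hL1, hCε] at eb'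
        have h6 : C0 * (P.j ((cos α : ℂ) - ε) * P.j (1 - (cos γ : ℂ))) = 0 := by
          rw [map_sub, map_sub, map_one]
          have h7 : P.j ((-1 : ℂ)⁻¹) = -1 := by
            rw [inv_neg, inv_one, map_neg, map_one]
          rw [h7] at eb'
          linear_combination eb'
        have hcα : ((cos α : ℂ) - ε) ≠ 0 := by
          intro h
          have h8 : cos α = ε := by
            have : (cos α : ℂ) = ε := by linear_combination h
            exact_mod_cast this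
          have h9 : sin α ^ 2 = 0 := by rw [Real.sin_sq, h8, hε]; ring
          exact absurd h9 (pow_pos hsα 2).ne'
        have hcγ : (1 - (cos γ : ℂ)) ≠ 0 := by
          intro h
          have h8 : cos γ = 1 := by
            have : (cos γ : ℂ) = 1 := by linear_combination -h
            exact_mod_cast this
          have h9 : sin γ ^ 2 = 0 := by rw [Real.sin_sq, h8]; ring
          exact absurd h9 (pow_pos (Real.sin_pos_of_mem_Ioo hγ1) 2).ne'
        have hC00 : C0 = 0 := by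
          rcases mul_eq_zero.1 h6 with h | h
          · exact h
          · exact absurd h (mul_ne_zero (jn _ hcα) (jn _ hcγ))
        rw [hC00, hCε, mul_zero, add_zero, ← map_mul] at e0
        have h7 := (map_eq_zero P.j).1 e0.symm
        have h8 : (ε : ℂ) ≠ 0 := by
          intro h
          rw [h] at hεC
          norm_num at hεC
        rcases mul_eq_zero.1 h7 with h | h
        · exact_mod_cast h
        · exact absurd h h8
      · rw [hlpi, Real.cos_pi] at hre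
        linarith
    · exfalso
      have h1 : C1 = P.j L⁻¹ * P.j (cos α) := by linear_combination hC1
      rw [h1] at ea'
      have h2 : P.j (L⁻¹ ^ 2 + 1 + 2 * L⁻¹ * (cos γ : ℂ)) = 0 := by
        rw [map_add, map_add, map_mul, map_mul, map_pow, map_one, map_ofNat]
        linear_combination ea'
      have h3 := (map_eq_zero P.j).1 h2
      apply hne
      apply hcosL
      field_simp at h3
      linear_combination h3
  · -- X → 0
    exfalso
    have m0 : P.Lim (fun i => X i * c i 0) ((0 ^ 2 + P.j 1) * P.j (1 / 2)) := by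
      refine y_congr P (f := fun i => ((X i) ^ 2 + 1) * (1 / 2)) ?_ (fun i => ?_) rfl
      · exact P.mul (P.add (Pl.pow P hx 2) (P.const 1)) (P.const _)
      · rw [hc0]
        have := hX0 i
        field_simp
    have m1 : P.Lim (fun i => X i * c i 1) ((P.j K + P.j K⁻¹ * 0 ^ 2) * P.j (1 / 2)) := by
      refine y_congr P (f := fun i => (K + K⁻¹ * (X i) ^ 2) * (1 / 2)) ?_ (fun i => ?_) rfl
      · exact P.mul (P.add (P.const K) (P.mul (P.const _) (Pl.pow P hx 2))) (P.const _)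
      · rw [hc1]
        have := hX0 i
        field_simp
    have h := y_inf P c (fun i => (Y i)⁻¹) X _ _ _ _ _ _ ht hx m0 m1 l2 l4 l3 l5 hD
    rw [map_one] at h
    have hj := jn K hK0
    have h1 : (P.j K * P.j (1 / 2)) * P.j (1 / 2) = 0 := by linear_combination h
    exact mul_ne_zero (mul_ne_zero hj hh) hh h1
  · exfalso
    have m0 : P.Lim (fun i => (X i)⁻¹ * c i 0) ((P.j 1 + 0 ^ 2) * P.j (1 / 2)) := by
      refine y_congr P (f := fun i => (1 + (X i)⁻¹ ^ 2) * (1 / 2)) ?_ (fun i => ?_) rfl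
      · exact P.mul (P.add (P.const 1) (Pl.pow P hx 2)) (P.const _)
      · rw [hc0]
        have := hX0 i
        field_simp
    have m1 : P.Lim (fun i => (X i)⁻¹ * c i 1) ((P.j K * 0 ^ 2 + P.j K⁻¹) * P.j (1 / 2)) := by
      refine y_congr P (f := fun i => (K * (X i)⁻¹ ^ 2 + K⁻¹) * (1 / 2)) ?_ (fun i => ?_) rfl
      · exact P.mul (P.add (P.mul (P.const _) (Pl.pow P hx 2)) (P.const _)) (P.const _)
      · rw [hc1]
        have := hX0 i
        field_simp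
    have h := y_inf P c (fun i => (Y i)⁻¹) (fun i => (X i)⁻¹) _ _ _ _ _ _ ht hx m0 m1 l2 l4 l3 l5 hD
    rw [map_one] at h
    have hj := jn K⁻¹ (inv_ne_zero hK0)
    have h1 : (P.j K⁻¹ * P.j (1 / 2)) * P.j (1 / 2) = 0 := by linear_combination h
    exact mul_ne_zero (mul_ne_zero hj hh) hh h1

end Pool.Agent.Helper22.FF
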