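import Pool.Agent.Helper22.FF.Const
import Pool.Agent.Helper22.FF.Th14Y
import Pool.Agent.Helper22.FF.Th14X

/-!
FF-16 Th14.  `S14` is finite or consists of members of Goldberg's third family.

PROOF. Suppose `S14 κ lam α γ` is infinite. `exists_inf_const_or_inj` with `f = al · 4`: if constant on an infinite
subset then `al l 2` is constant too and `L17` (pair `0, 1`) gives a contradiction; so `L14_Y` applies to an infinite
subset: `lam = π`, `cos κ = 0`, `sin²α = 2 (cos γ + ε cos α)`. With `f = al · 0`: if constant on an infinite subset then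
`al l 1` too, and `L17' 2 4` gives a contradiction; so `L14_X` applies: `cos γ = 1/2`. Hence `1 - cos²α = 1 + 2 ε cos α`,
`cos α (cos α + 2ε) = 0`, `cos α = 0`. So for all `l` in the set: `W 3 = 0` (`cos_sq_al 3`) and, as `sin (al 2 + al 4) = 0`,
`W 2 + W 4 = 0` (`sin_sum24`). With `A = l₀² = l₁²`, `B = l₂² = l₄²`, `C = l₃²`, `F = l₅²`:
`W 3 = C (2A - B - C + F)`, `W 2 + W 4 = A (2B + 2F - A - C)` (ring), so `F = 3 (A - B)`, `C = 5A - 4B`: `G3 l`.
-/

open Real Set Pool.Agent.Helper1.Tet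

namespace Pool.Agent.Helper22.FF

namespace Th14Aux

theorem W3 (l : Fin 6 → ℝ) (h1 : l 1 = l 0) (h4 : l 4 = l 2) :
    W l 3 = l 3 ^ 2 * (2 * l 0 ^ 2 - l 2 ^ 2 - l 3 ^ 2 + l 5 ^ 2) := by
  have h : W l 3 = wform (l 3) (l 0) (l 4) (l 1) (l 5) (l 2) := rfl
  rw [h, wform, h1, h4]
  ring

theorem W24 (l : Fin 6 → ℝ) (h1 : l 1 = l 0) (h4 : l 4 = l 2) :
    W l 2 + W l 4 = l 0 ^ 2 * (2 * l 2 ^ 2 + 2 * l 5 ^ 2 - l 0 ^ 2 - l 3 ^ 2) := by
  have h : W l 2 = wform (l 2) (l 0) (l 1) (l 4) (l 5) (l 3) := rfl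
  have h' : W l 4 = wform (l 4) (l 0) (l 3) (l 2) (l 5) (l 1) := rfl
  rw [h, h', wform, wform, h1, h4]
  ring

theorem const4 (κ lam α γ v : ℝ) : {l | l ∈ S14 κ lam α γ ∧ al l 4 = v}.Finite := by
  refine (L17 κ ![0, 0, lam - v, α, v, γ]).subset ?_
  rintro l ⟨⟨h1, h2, h3, h4, h5, h6, h7⟩, h8⟩
  refine ⟨h1, h4, ?_⟩
  have h9 : al l 2 = lam - v := by linarith
  intro j hj0 hj1
  fin_cases j
  · exact absurd rfl hj0
  · exact absurd rfl hj1
  · exact h9
  · exact h6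
  · exact h8
  · exact h7

theorem const0 (κ lam α γ v : ℝ) : {l | l ∈ S14 κ lam α γ ∧ al l 0 = v}.Finite := by
  refine (L17' 2 4 (by decide) (by decide) lam ![v, κ - v, 0, α, 0, γ]).subset ?_
  rintro l ⟨⟨h1, h2, h3, h4, h5, h6, h7⟩, h8⟩
  refine ⟨h1, h5, ?_⟩
  have h9 : al l 1 = κ - v := by linarith
  intro j hj0 hj1
  fin_cases j
  · exact h8
  · exact h9
  · exact absurd rfl hj0
  · exact h6
  · exact absurd rfl hj1
  · exact h7

end Th14Aux

theorem L14 (κ lam α γ : ℝ) : (S14 κ lam α γ).Finite ∨ ∀ l ∈ S14 κ lam α γ, G3 l := by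
  by_cases hfin : (S14 κ lam α γ).Finite
  · exact Or.inl hfin
  right
  have hinf : (S14 κ lam α γ).Infinite := hfin
  obtain ⟨hlam, hκ, ε, hε, hs⟩ : lam = π ∧ cos κ = 0 ∧
      ∃ ε : ℝ, ε ^ 2 = 1 ∧ sin α ^ 2 = 2 * (cos γ + ε * cos α) := by
    rcases exists_inf_const_or_inj hinf (fun l => al l 4) with ⟨v, hv⟩ | ⟨S', h1, h2, h3⟩
    · exact absurd (Th14Aux.const4 κ lam α γ v) hv
    · exact L14_Y κ lam α γ S' h1 h2 h3
  subst hlam
  have hγ : cos γ = 1 / 2 := by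
    rcases exists_inf_const_or_inj hinf (fun l => al l 0) with ⟨v, hv⟩ | ⟨S', h1, h2, h3⟩
    · exact absurd (Th14Aux.const0 κ π α γ v) hv
    · exact L14_X κ α γ hκ S' h1 h2 h3
  have hα : cos α = 0 := by
    have h1 : sin α ^ 2 = 1 - cos α ^ 2 := Real.sin_sq α
    rw [h1, hγ] at hs
    have h2 : cos α * (cos α + 2 * ε) = 0 := by linarith
    rcases mul_eq_zero.1 h2 with h3 | h3
    · exact h3
    · exfalso
      have h4 : cos α = -(2 * ε) := by linarith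
      have h5 : cos α ^ 2 = 4 := by
        rw [h4]
        linear_combination 4 * hε
      have h6 := Real.cos_sq_le_one α
      linarith
  rintro l ⟨h1, h2, h3, h4, h5, h6, h7⟩
  have hT : l ∈ TT := h1.1
  obtain ⟨hpos, -⟩ := TT_facts hT
  have hG : 0 < Gr l := hT.2
  have w3 : W l 3 = 0 := by
    have h8 := cos_sq_al hT 3
    rw [h6, hα] at h8
    have h9 : W l 3 ^ 2 = 0 := by linarith
    exact pow_eq_zero_iff (two_ne_zero) |>.1 h9
  have w24 : W l 2 + W l 4 = 0 := by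
    have h8 := sin_sum24 hT h3
    rw [h5, Real.sin_pi] at h8
    have h9 : 16 * l 2 ^ 2 * Gr l * (W l 2 + W l 4) ^ 2 = 0 := by linarith
    have h10 : 16 * l 2 ^ 2 * Gr l ≠ 0 := by
      have := hpos 2
      positivity
    have h11 := (mul_eq_zero.1 h9).resolve_left h10
    exact pow_eq_zero_iff (two_ne_zero) |>.1 h11
  rw [Th14Aux.W3 l h2 h3] at w3
  rw [Th14Aux.W24 l h2 h3] at w24
  have p3 : l 3 ^ 2 ≠ 0 := pow_ne_zero 2 (hpos 3).ne'
  have p0 : l 0 ^ 2 ≠ 0 := pow_ne_zero 2 (hpos 0).ne'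
  have e3 := (mul_eq_zero.1 w3).resolve_left p3
  have e0 := (mul_eq_zero.1 w24).resolve_left p0
  exact ⟨h2, h3, by linarith, by linarith⟩

end Pool.Agent.Helper22.FF
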