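import Pool.Agent.Helper22.FF.Basic
import Pool.Agent.Helper22.FF.Place
import Pool.Agent.Helper22.FF.Const

/-!
FF-09 Twelve.  `01 = 02`, `03 = 12`, sums of the angles at these pairs constant, the angles at `13, 23`
constant.

PROOF. `twelve_abs` (abstract, one place `P`, functions `X, Y : ι → ℂ` nowhere zero with `X⁻¹ → 0`, `Y⁻¹ → 0`; the
cosines are `c0 = (X + X⁻¹)/2`, `c1 = (K X⁻¹ + K⁻¹ X)/2`, `s0 = (X - X⁻¹)/(2i)`, `s1 = (K X⁻¹ - K⁻¹ X)/(2i)`,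
`c2 = (Y + Y⁻¹)/2`, `c3 = (L Y⁻¹ + L⁻¹ Y)/2`, `c4, c5` constants). Note `c0 X⁻¹ → 1/2`, `c1 X⁻¹ → K⁻¹/2`, `c2 Y⁻¹ → 1/2`,
`c3 Y⁻¹ → L⁻¹/2`, `s0 X⁻¹ → 1/(2i)`, `s1 X⁻¹ → -K⁻¹/(2i)`. Let `R = X² (Y⁻¹)³`. By `Pl.dich` `R → ρ` or `R⁻¹ → 0`.
 (a) `R → ρ`. Then `X² Y⁻⁴ = R Y⁻¹ → 0`, so `X Y⁻² → 0` (its square tends to `0`; use `Pl.tri`), and
  `X Y⁻³ = R X⁻¹ → 0`. Multiply `DD c = 0` by `Y⁻⁴`: only `c2² c3²` (limit `L⁻²/16`) and `-2 c0 c1 c2` (limit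
  `-K⁻¹ ρ/4`) survive: `c0², c1², c0 c1 c4 c5 ~ X²`, `c0 c3 c4, c1 c3 c5 ~ XY`, `c0 c2 c3 c5, c1 c2 c3 c4 ~ XY²`,
  `c2², c3² ~ Y²`, `c2 c4 c5 ~ Y`. So `L⁻²/16 = K⁻¹ ρ/4`. Multiply `PP 0 - PP 1 = 0` by `Y⁻⁴`: only
  `s0 c1 c2 - s1 c0 c2` survives, limit `K⁻¹ ρ/(4i)`. So `ρ = 0` and `L⁻² = 0`, a contradiction.
 (b) `R⁻¹ = Y³ X⁻² → 0`. Then `(Y X⁻¹)² = R⁻¹ Y⁻¹ → 0`, so `Y X⁻¹ → 0`. Multiply `DD c = 0` by `X⁻² Y⁻¹`: only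
  `-2 c0 c1 c2` survives, limit `-K⁻¹/4 ≠ 0`: a contradiction.
`L12`: if the set `S` is infinite: by `exists_inf_const_or_inj` with `f = al · 2`: if `al l 2` is constant on an
infinite subset then `al l 3` too and `L17` gives a contradiction. Otherwise take an infinite subset `S'` on
which `al · 2` is injective, `ι = S'`, `Y i = exp (i al l 2)` (injective by `exp_injOn`), `X i = exp (i al l 0)`,
`K = exp (iκ)`, `L = exp (i lam)`, the place `P` of `exists_pl` for `Y`, and `DD_eq_zero_complex`,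
`PP_eq_complex` (`l 1 = l 0`), `cos_exp`, `sin_exp`. By `Pl.tri` for `X`: if `X → a ≠ 0`: multiply `DD = 0` by `Y⁻⁴`, limit
`L⁻²/16 ≠ 0`. If `X⁻¹ → 0`: `twelve_abs`. If `X → 0`: `twelve_abs` for `X' = X⁻¹`, `K' = K⁻¹` (then
`c0 = (X' + X'⁻¹)/2`, `c1 = (K' X'⁻¹ + K'⁻¹ X')/2`, and `s0, s1` change sign, so `PP 0 - PP 1` changes sign).
-/

open Real Set Pool.Agent.Helper1.Tet

namespace Pool.Agent.Helper22.FF

namespace TwelveAux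

/-- the ring of pairs (function, limit) -/
def tS {ι : Type} (P : Pl ι) : Subring ((ι → ℂ) × P.k) where
  carrier := {p | P.Lim p.1 p.2}
  mul_mem' := fun {a b} ha hb => P.mul (f := a.1) (g := b.1) ha hb
  one_mem' := by
    have h := P.const 1
    rw [map_one] at h
    exact h
  add_mem' := fun {a b} ha hb => P.add (f := a.1) (g := b.1) ha hb
  zero_mem' := by
    have h := P.const 0
    rw [map_zero] at h
    exact h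
  neg_mem' := fun {a} ha => P.neg (f := a.1) ha

/-- the value at `i` -/
def ev {ι : Type} (P : Pl ι) (i : ι) : tS P →+* ℂ :=
  (Pi.evalRingHom (fun _ : ι => ℂ) i).comp ((RingHom.fst (ι → ℂ) P.k).comp (tS P).subtype)

/-- the limit -/
def lm {ι : Type} (P : Pl ι) : tS P →+* P.k :=
  (RingHom.snd (ι → ℂ) P.k).comp (tS P).subtype

/-- an element from a limit relation -/
def mk {ι : Type} (P : Pl ι) {f : ι → ℂ} {a : P.k} (h : P.Lim f a) : tS P := ⟨(f, a), h⟩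

theorem ev_mk {ι : Type} (P : Pl ι) {f : ι → ℂ} {a : P.k} (h : P.Lim f a) (i : ι) :
    ev P i (mk P h) = f i := rfl

theorem lm_mk {ι : Type} (P : Pl ι) {f : ι → ℂ} {a : P.k} (h : P.Lim f a) :
    lm P (mk P h) = a := rfl

theorem lm_eq_zero {ι : Type} (P : Pl ι) (z : tS P) (h : ∀ i, ev P i z = 0) : lm P z = 0 := by
  have h1 : P.Lim z.1.1 z.1.2 := z.2
  have h2 : z.1.1 = fun _ => (0 : ℂ) := funext h
  have h3 := P.const 0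
  rw [map_zero] at h3
  rw [h2] at h1
  exact P.uniq h1 h3

/-- if the square tends to zero then so does the function -/
theorem lim_of_sq {ι : Type} (P : Pl ι) {f : ι → ℂ} (hf : ∀ i, f i ≠ 0)
    (h : P.Lim (fun i => f i ^ 2) 0) : P.Lim f 0 := by
  rcases P.tri f hf with ⟨a, ha, h1, -⟩ | h1 | h1
  · exact absurd (P.uniq (P.pow h1 2) h) (pow_ne_zero 2 ha)
  · exact h1
  · exfalso
    have h2 := P.mul h (P.pow h1 2)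
    have h3 : (fun i => f i ^ 2 * (f i)⁻¹ ^ 2) = fun _ => (1 : ℂ) := by
      funext i
      have := hf i
      field_simp
    rw [h3] at h2
    have h4 := P.uniq h2 (P.const 1)
    rw [map_one, zero_mul] at h4
    exact zero_ne_one h4

/-- `DD Y⁻⁴` -/
theorem idA (c : Fin 6 → ℂ) (X Y p0 p1 p2 p3 R a b : ℂ) (hX : X ≠ 0) (hY : Y ≠ 0)
    (h0 : p0 = c 0 * X⁻¹) (h1 : p1 = c 1 * X⁻¹) (h2 : p2 = c 2 * Y⁻¹) (h3 : p3 = c 3 * Y⁻¹)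
    (hR : R = X ^ 2 * Y⁻¹ ^ 3) (ha : a = X * Y⁻¹ ^ 2) (hb : b = X * Y⁻¹ ^ 3) :
    Y⁻¹ ^ 4 - (p0 ^ 2 + p1 ^ 2) * (R * Y⁻¹) - (p2 ^ 2 + p3 ^ 2) * Y⁻¹ ^ 2
        - (c 4 ^ 2 + c 5 ^ 2) * Y⁻¹ ^ 4
        + (p0 ^ 2 * c 5 ^ 2 + p1 ^ 2 * c 4 ^ 2) * (R * Y⁻¹) + p2 ^ 2 * p3 ^ 2
        - 2 * (p2 * Y⁻¹ ^ 3 * c 4 * c 5 + p1 * p3 * b * c 5 + p0 * p3 * b * c 4 + p0 * p1 * p2 * R)
        - 2 * (p0 * p2 * p3 * a * c 5 + p0 * p1 * (R * Y⁻¹) * c 4 * c 5 + p1 * p2 * p3 * a * c 4)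
      = DD c * Y⁻¹ ^ 4 := by
  subst h0 h1 h2 h3 hR ha hb
  unfold DD
  field_simp
  ring

/-- `(PP 0 - PP 1) Y⁻⁴` -/
theorem idB (c s : Fin 6 → ℂ) (X Y p0 p1 p2 p3 q0 q1 R a b : ℂ) (hX : X ≠ 0) (hY : Y ≠ 0)
    (h0 : p0 = c 0 * X⁻¹) (h1 : p1 = c 1 * X⁻¹) (h2 : p2 = c 2 * Y⁻¹) (h3 : p3 = c 3 * Y⁻¹)
    (h4 : q0 = s 0 * X⁻¹) (h5 : q1 = s 1 * X⁻¹)
    (hR : R = X ^ 2 * Y⁻¹ ^ 3) (ha : a = X * Y⁻¹ ^ 2) (hb : b = X * Y⁻¹ ^ 3) :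
    q0 * (p0 * (1 - c 5 ^ 2) * (R * Y⁻¹) + p1 * p2 * R + p3 * c 4 * b
        + c 5 * (p2 * p3 * a + p1 * c 4 * (R * Y⁻¹)))
      - q1 * (p1 * (1 - c 4 ^ 2) * (R * Y⁻¹) + p0 * p2 * R + p3 * c 5 * b
        + c 4 * (p2 * p3 * a + p0 * c 5 * (R * Y⁻¹)))
      = (PP c s 0 - PP c s 1) * Y⁻¹ ^ 4 := by
  subst h0 h1 h2 h3 h4 h5 hR ha hb
  have e0 : PP c s 0 =
    s 0 * (c 0 * (1 - c 5 ^ 2) + c 1 * c 2 + c 3 * c 4 + c 5 * (c 2 * c 3 + c 1 * c 4)) := rfl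
  have e1 : PP c s 1 =
    s 1 * (c 1 * (1 - c 4 ^ 2) + c 0 * c 2 + c 3 * c 5 + c 4 * (c 2 * c 3 + c 0 * c 5)) := rfl
  rw [e0, e1]
  field_simp

/-- `DD X⁻² Y⁻¹` -/
theorem idC (c : Fin 6 → ℂ) (X Y p0 p1 p2 p3 R w : ℂ) (hX : X ≠ 0) (hY : Y ≠ 0)
    (h0 : p0 = c 0 * X⁻¹) (h1 : p1 = c 1 * X⁻¹) (h2 : p2 = c 2 * Y⁻¹) (h3 : p3 = c 3 * Y⁻¹)
    (hR : R = (X ^ 2 * Y⁻¹ ^ 3)⁻¹) (hw : w = Y * X⁻¹) :
    X⁻¹ ^ 2 * Y⁻¹ - (p0 ^ 2 * Y⁻¹ + p1 ^ 2 * Y⁻¹ + p2 ^ 2 * w * X⁻¹ + p3 ^ 2 * w * X⁻¹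
        + (c 4 ^ 2 + c 5 ^ 2) * (X⁻¹ ^ 2 * Y⁻¹))
      + (p0 ^ 2 * c 5 ^ 2 * Y⁻¹ + p1 ^ 2 * c 4 ^ 2 * Y⁻¹ + p2 ^ 2 * p3 ^ 2 * R)
      - 2 * (p2 * c 4 * c 5 * X⁻¹ ^ 2 + p1 * p3 * c 5 * X⁻¹ + p0 * p3 * c 4 * X⁻¹ + p0 * p1 * p2)
      - 2 * (p0 * p2 * p3 * c 5 * w + p0 * p1 * c 4 * c 5 * Y⁻¹ + p1 * p2 * p3 * c 4 * w)
      = DD c * (X⁻¹ ^ 2 * Y⁻¹) := by
  subst h0 h1 h2 h3 hR hw
  unfold DD
  field_simp
  ring

/-- `DD Y⁻⁴`, without division by `X` -/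
theorem idD (c : Fin 6 → ℂ) (Y p2 p3 : ℂ) (hY : Y ≠ 0)
    (h2 : p2 = c 2 * Y⁻¹) (h3 : p3 = c 3 * Y⁻¹) :
    Y⁻¹ ^ 4 - (c 0 ^ 2 + c 1 ^ 2) * Y⁻¹ ^ 4 - (p2 ^ 2 + p3 ^ 2) * Y⁻¹ ^ 2
        - (c 4 ^ 2 + c 5 ^ 2) * Y⁻¹ ^ 4
        + (c 0 ^ 2 * c 5 ^ 2 + c 1 ^ 2 * c 4 ^ 2) * Y⁻¹ ^ 4 + p2 ^ 2 * p3 ^ 2
        - 2 * (p2 * Y⁻¹ ^ 3 * c 4 * c 5 + c 1 * p3 * Y⁻¹ ^ 3 * c 5 + c 0 * p3 * Y⁻¹ ^ 3 * c 4
          + c 0 * c 1 * p2 * Y⁻¹ ^ 3)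
        - 2 * (c 0 * p2 * p3 * Y⁻¹ ^ 2 * c 5 + c 0 * c 1 * Y⁻¹ ^ 4 * c 4 * c 5
          + c 1 * p2 * p3 * Y⁻¹ ^ 2 * c 4)
      = DD c * Y⁻¹ ^ 4 := by
  subst h2 h3
  unfold DD
  field_simp
  ring

/-- `c Z⁻¹` for `c = (Z + Z⁻¹) / 2` -/
theorem idp (Z : ℂ) (hZ : Z ≠ 0) : 1 / 2 * (1 + Z⁻¹ ^ 2) = (Z + Z⁻¹) / 2 * Z⁻¹ := by
  field_simp

theorem idp' (K Z : ℂ) (hZ : Z ≠ 0) :
    1 / 2 * (K * Z⁻¹ ^ 2 + K⁻¹) = (K * Z⁻¹ + K⁻¹ * Z) / 2 * Z⁻¹ := by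
  field_simp

theorem idq (Z : ℂ) (hZ : Z ≠ 0) :
    1 / (2 * Complex.I) * (1 - Z⁻¹ ^ 2) = (Z - Z⁻¹) / (2 * Complex.I) * Z⁻¹ := by
  have := Complex.I_ne_zero
  field_simp

theorem idq' (K Z : ℂ) (hZ : Z ≠ 0) :
    1 / (2 * Complex.I) * (K * Z⁻¹ ^ 2 - K⁻¹) = (K * Z⁻¹ - K⁻¹ * Z) / (2 * Complex.I) * Z⁻¹ := by
  have := Complex.I_ne_zero
  field_simp

end TwelveAux

open TwelveAux

theorem twelve_abs {ι : Type} [Nonempty ι] (P : Pl ι) (X Y : ι → ℂ) (K L c4 c5 : ℂ) (hK : K ≠ 0)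
    (hL : L ≠ 0) (hX0 : ∀ i, X i ≠ 0) (hY0 : ∀ i, Y i ≠ 0)
    (hX : P.Lim (fun i => (X i)⁻¹) 0) (hY : P.Lim (fun i => (Y i)⁻¹) 0)
    (c s : ι → Fin 6 → ℂ)
    (h0 : ∀ i, c i 0 = (X i + (X i)⁻¹) / 2) (h1 : ∀ i, c i 1 = (K * (X i)⁻¹ + K⁻¹ * X i) / 2)
    (h2 : ∀ i, c i 2 = (Y i + (Y i)⁻¹) / 2) (h3 : ∀ i, c i 3 = (L * (Y i)⁻¹ + L⁻¹ * Y i) / 2)
    (h4 : ∀ i, c i 4 = c4) (h5 : ∀ i, c i 5 = c5)
    (hs0 : ∀ i, s i 0 = (X i - (X i)⁻¹) / (2 * Complex.I))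
    (hs1 : ∀ i, s i 1 = (K * (X i)⁻¹ - K⁻¹ * X i) / (2 * Complex.I))
    (hD : ∀ i, DD (c i) = 0) (hP : ∀ i, PP (c i) (s i) 0 = PP (c i) (s i) 1) : False := by
  have hI := Complex.I_ne_zero
  have h2ne : (2 : P.k) ≠ 0 := by
    have h := P.j.injective.ne (two_ne_zero : (2 : ℂ) ≠ 0)
    rwa [map_ofNat, map_zero] at h
  obtain ⟨h, hh, hhne⟩ : ∃ h : P.k, P.Lim (fun _ => (1 / 2 : ℂ)) h ∧ h ≠ 0 :=
    ⟨_, P.const _, (map_ne_zero P.j).2 (by norm_num)⟩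
  obtain ⟨t, ht, htne⟩ : ∃ t : P.k, P.Lim (fun _ => (1 / (2 * Complex.I) : ℂ)) t ∧ t ≠ 0 :=
    ⟨_, P.const _, (map_ne_zero P.j).2 (by simp)⟩
  obtain ⟨k', hk', hk'ne⟩ : ∃ k' : P.k, P.Lim (fun _ => K⁻¹) k' ∧ k' ≠ 0 :=
    ⟨_, P.const _, (map_ne_zero P.j).2 (inv_ne_zero hK)⟩
  obtain ⟨l', hl', hl'ne⟩ : ∃ l' : P.k, P.Lim (fun _ => L⁻¹) l' ∧ l' ≠ 0 :=
    ⟨_, P.const _, (map_ne_zero P.j).2 (inv_ne_zero hL)⟩
  set x := mk P hX with hx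
  set y := mk P hY with hy
  set H := mk P hh with hH
  set T := mk P ht with hT
  set k0 := mk P (P.const K) with hk0
  set k1 := mk P hk' with hk1
  set l0 := mk P (P.const L) with hl0
  set l1 := mk P hl' with hl1
  set d4 := mk P (P.const c4) with hd4
  set d5 := mk P (P.const c5) with hd5
  have ex : ∀ i, ev P i x = (X i)⁻¹ := fun i => rfl
  have ey : ∀ i, ev P i y = (Y i)⁻¹ := fun i => rfl
  have eH : ∀ i, ev P i H = 1 / 2 := fun i => rfl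
  have eT : ∀ i, ev P i T = 1 / (2 * Complex.I) := fun i => rfl
  have ek0 : ∀ i, ev P i k0 = K := fun i => rfl
  have ek1 : ∀ i, ev P i k1 = K⁻¹ := fun i => rfl
  have el0 : ∀ i, ev P i l0 = L := fun i => rfl
  have el1 : ∀ i, ev P i l1 = L⁻¹ := fun i => rfl
  have ed4 : ∀ i, ev P i d4 = c i 4 := fun i => (h4 i).symm
  have ed5 : ∀ i, ev P i d5 = c i 5 := fun i => (h5 i).symm
  have mx : lm P x = 0 := rfl
  have my : lm P y = 0 := rfl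
  have mH : lm P H = h := rfl
  have mT : lm P T = t := rfl
  have mk1 : lm P k1 = k' := rfl
  have ml1 : lm P l1 = l' := rfl
  obtain ⟨p0, hp0⟩ : ∃ p : tS P, p = H * (1 + x ^ 2) := ⟨_, rfl⟩
  obtain ⟨p1, hp1⟩ : ∃ p : tS P, p = H * (k0 * x ^ 2 + k1) := ⟨_, rfl⟩
  obtain ⟨p2, hp2⟩ : ∃ p : tS P, p = H * (1 + y ^ 2) := ⟨_, rfl⟩
  obtain ⟨p3, hp3⟩ : ∃ p : tS P, p = H * (l0 * y ^ 2 + l1) := ⟨_, rfl⟩
  obtain ⟨q0, hq0⟩ : ∃ p : tS P, p = T * (1 - x ^ 2) := ⟨_, rfl⟩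
  obtain ⟨q1, hq1⟩ : ∃ p : tS P, p = T * (k0 * x ^ 2 - k1) := ⟨_, rfl⟩
  have ep0 : ∀ i, ev P i p0 = c i 0 * (X i)⁻¹ := fun i => by
    rw [hp0, map_mul, map_add, map_one, map_pow, ex, eH, h0, idp _ (hX0 i)]
  have ep1 : ∀ i, ev P i p1 = c i 1 * (X i)⁻¹ := fun i => by
    rw [hp1, map_mul, map_add, map_mul, map_pow, ex, eH, ek0, ek1, h1, idp' _ _ (hX0 i)]
  have ep2 : ∀ i, ev P i p2 = c i 2 * (Y i)⁻¹ := fun i => by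
    rw [hp2, map_mul, map_add, map_one, map_pow, ey, eH, h2, idp _ (hY0 i)]
  have ep3 : ∀ i, ev P i p3 = c i 3 * (Y i)⁻¹ := fun i => by
    rw [hp3, map_mul, map_add, map_mul, map_pow, ey, eH, el0, el1, h3, idp' _ _ (hY0 i)]
  have eq0 : ∀ i, ev P i q0 = s i 0 * (X i)⁻¹ := fun i => by
    rw [hq0, map_mul, map_sub, map_one, map_pow, ex, eT, hs0, idq _ (hX0 i)]
  have eq1 : ∀ i, ev P i q1 = s i 1 * (X i)⁻¹ := fun i => by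
    rw [hq1, map_mul, map_sub, map_mul, map_pow, ex, eT, ek0, ek1, hs1, idq' _ _ (hX0 i)]
  have mp0 : lm P p0 = h := by
    rw [hp0, map_mul, map_add, map_one, map_pow, mx, mH]
    ring
  have mp1 : lm P p1 = h * k' := by
    rw [hp1, map_mul, map_add, map_mul, map_pow, mx, mH, mk1]
    ring
  have mp2 : lm P p2 = h := by
    rw [hp2, map_mul, map_add, map_one, map_pow, my, mH]
    ring
  have mp3 : lm P p3 = h * l' := by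
    rw [hp3, map_mul, map_add, map_mul, map_pow, my, mH, ml1]
    ring
  have mq0 : lm P q0 = t := by
    rw [hq0, map_mul, map_sub, map_one, map_pow, mx, mT]
    ring
  have mq1 : lm P q1 = -(t * k') := by
    rw [hq1, map_mul, map_sub, map_mul, map_pow, mx, mT, mk1]
    ring
  clear_value x y H T k0 k1 l0 l1 d4 d5
  rcases P.dich (fun i => X i ^ 2 * (Y i)⁻¹ ^ 3) (fun i => mul_ne_zero (pow_ne_zero 2 (hX0 i))
    (pow_ne_zero 3 (inv_ne_zero (hY0 i)))) with ⟨ρ, hρ⟩ | hR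
  · -- case (a)
    have ha : P.Lim (fun i => X i * (Y i)⁻¹ ^ 2) 0 := by
      refine lim_of_sq P (fun i => mul_ne_zero (hX0 i) (pow_ne_zero 2 (inv_ne_zero (hY0 i)))) ?_
      have h6 := P.mul hρ hY
      rw [mul_zero] at h6
      have h7 : (fun i => (X i * (Y i)⁻¹ ^ 2) ^ 2) =
          fun i => X i ^ 2 * (Y i)⁻¹ ^ 3 * (Y i)⁻¹ := by
        funext i
        ring
      rw [h7]
      exact h6
    have hb : P.Lim (fun i => X i * (Y i)⁻¹ ^ 3) 0 := by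
      have h6 := P.mul hρ hX
      rw [mul_zero] at h6
      have h7 : (fun i => X i * (Y i)⁻¹ ^ 3) =
          fun i => X i ^ 2 * (Y i)⁻¹ ^ 3 * (X i)⁻¹ := by
        funext i
        have := hX0 i
        field_simp
      rw [h7]
      exact h6
    obtain ⟨R, eR, mR⟩ : ∃ R : tS P, (∀ i, ev P i R = X i ^ 2 * (Y i)⁻¹ ^ 3) ∧ lm P R = ρ :=
      ⟨mk P hρ, fun i => rfl, rfl⟩
    obtain ⟨a, ea, ma⟩ : ∃ a : tS P, (∀ i, ev P i a = X i * (Y i)⁻¹ ^ 2) ∧ lm P a = 0 :=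
      ⟨mk P ha, fun i => rfl, rfl⟩
    obtain ⟨b, eb, mb⟩ : ∃ b : tS P, (∀ i, ev P i b = X i * (Y i)⁻¹ ^ 3) ∧ lm P b = 0 :=
      ⟨mk P hb, fun i => rfl, rfl⟩
    have E1 := lm_eq_zero P (y ^ 4 - (p0 ^ 2 + p1 ^ 2) * (R * y) - (p2 ^ 2 + p3 ^ 2) * y ^ 2
        - (d4 ^ 2 + d5 ^ 2) * y ^ 4
        + (p0 ^ 2 * d5 ^ 2 + p1 ^ 2 * d4 ^ 2) * (R * y) + p2 ^ 2 * p3 ^ 2
        - 2 * (p2 * y ^ 3 * d4 * d5 + p1 * p3 * b * d5 + p0 * p3 * b * d4 + p0 * p1 * p2 * R)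
        - 2 * (p0 * p2 * p3 * a * d5 + p0 * p1 * (R * y) * d4 * d5 + p1 * p2 * p3 * a * d4))
      (fun i => by
        have h6 := idA (c i) (X i) (Y i) _ _ _ _ _ _ _ (hX0 i) (hY0 i) (ep0 i) (ep1 i) (ep2 i)
          (ep3 i) (eR i) (ea i) (eb i)
        rw [hD i, zero_mul] at h6
        simp only [map_add, map_sub, map_mul, map_pow, map_ofNat, ey, ed4, ed5]
        exact h6)
    simp only [map_add, map_sub, map_mul, map_pow, map_ofNat, my, mp0, mp1, mp2, mp3, mR, ma, mb]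
      at E1
    have E2 := lm_eq_zero P (q0 * (p0 * (1 - d5 ^ 2) * (R * y) + p1 * p2 * R + p3 * d4 * b
        + d5 * (p2 * p3 * a + p1 * d4 * (R * y)))
      - q1 * (p1 * (1 - d4 ^ 2) * (R * y) + p0 * p2 * R + p3 * d5 * b
        + d4 * (p2 * p3 * a + p0 * d5 * (R * y))))
      (fun i => by
        have h6 := idB (c i) (s i) (X i) (Y i) _ _ _ _ _ _ _ _ _ (hX0 i) (hY0 i) (ep0 i) (ep1 i)
          (ep2 i) (ep3 i) (eq0 i) (eq1 i) (eR i) (ea i) (eb i)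
        rw [hP i, sub_self, zero_mul] at h6
        simp only [map_add, map_sub, map_mul, map_pow, map_one, ey, ed4, ed5]
        exact h6)
    simp only [map_add, map_sub, map_mul, map_pow, map_one, my, mp0, mp1, mp2, mp3, mq0, mq1, mR,
      ma, mb] at E2
    have h8 : 2 * (t * k' * h * h) * ρ = 0 := by
      linear_combination E2
    have h9 : ρ = 0 := by
      rcases mul_eq_zero.1 h8 with h10 | h10
      · exact absurd h10 (mul_ne_zero h2ne (mul_ne_zero (mul_ne_zero (mul_ne_zero htne hk'ne)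
          hhne) hhne))
      · exact h10
    have h10 : h ^ 2 * (h * l') ^ 2 = 0 := by
      rw [h9] at E1
      linear_combination E1
    exact absurd h10 (mul_ne_zero (pow_ne_zero 2 hhne) (pow_ne_zero 2 (mul_ne_zero hhne hl'ne)))
  · -- case (b)
    have hw : P.Lim (fun i => Y i * (X i)⁻¹) 0 := by
      refine lim_of_sq P (fun i => mul_ne_zero (hY0 i) (inv_ne_zero (hX0 i))) ?_
      have h6 := P.mul hR hY
      rw [mul_zero] at h6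
      have h7 : (fun i => (Y i * (X i)⁻¹) ^ 2) =
          fun i => (X i ^ 2 * (Y i)⁻¹ ^ 3)⁻¹ * (Y i)⁻¹ := by
        funext i
        have := hX0 i
        have := hY0 i
        field_simp
      rw [h7]
      exact h6
    obtain ⟨R, eR, mR⟩ : ∃ R : tS P, (∀ i, ev P i R = (X i ^ 2 * (Y i)⁻¹ ^ 3)⁻¹) ∧ lm P R = 0 :=
      ⟨mk P hR, fun i => rfl, rfl⟩
    obtain ⟨w, ew, mw⟩ : ∃ w : tS P, (∀ i, ev P i w = Y i * (X i)⁻¹) ∧ lm P w = 0 :=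
      ⟨mk P hw, fun i => rfl, rfl⟩
    have E1 := lm_eq_zero P (x ^ 2 * y - (p0 ^ 2 * y + p1 ^ 2 * y + p2 ^ 2 * w * x
        + p3 ^ 2 * w * x + (d4 ^ 2 + d5 ^ 2) * (x ^ 2 * y))
      + (p0 ^ 2 * d5 ^ 2 * y + p1 ^ 2 * d4 ^ 2 * y + p2 ^ 2 * p3 ^ 2 * R)
      - 2 * (p2 * d4 * d5 * x ^ 2 + p1 * p3 * d5 * x + p0 * p3 * d4 * x + p0 * p1 * p2)
      - 2 * (p0 * p2 * p3 * d5 * w + p0 * p1 * d4 * d5 * y + p1 * p2 * p3 * d4 * w))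
      (fun i => by
        have h6 := idC (c i) (X i) (Y i) _ _ _ _ _ _ (hX0 i) (hY0 i) (ep0 i) (ep1 i) (ep2 i)
          (ep3 i) (eR i) (ew i)
        rw [hD i, zero_mul] at h6
        simp only [map_add, map_sub, map_mul, map_pow, map_ofNat, ex, ey, ed4, ed5]
        exact h6)
    simp only [map_add, map_sub, map_mul, map_pow, map_ofNat, mx, my, mp0, mp1, mp2, mp3, mR, mw]
      at E1
    have h10 : 2 * (h * (h * k') * h) = 0 := by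
      linear_combination -E1
    exact absurd h10 (mul_ne_zero h2ne (mul_ne_zero (mul_ne_zero hhne (mul_ne_zero hhne hk'ne))
      hhne))

namespace TwelveAux

/-- the case that `X` has a limit -/
theorem twelve_fin {ι : Type} [Nonempty ι] (P : Pl ι) (X Y : ι → ℂ) (K L c4 c5 : ℂ)
    (hL : L ≠ 0) (hY0 : ∀ i, Y i ≠ 0) {a a' : P.k}
    (hX : P.Lim X a) (hX' : P.Lim (fun i => (X i)⁻¹) a') (hY : P.Lim (fun i => (Y i)⁻¹) 0)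
    (c : ι → Fin 6 → ℂ)
    (h0 : ∀ i, c i 0 = (X i + (X i)⁻¹) / 2) (h1 : ∀ i, c i 1 = (K * (X i)⁻¹ + K⁻¹ * X i) / 2)
    (h2 : ∀ i, c i 2 = (Y i + (Y i)⁻¹) / 2) (h3 : ∀ i, c i 3 = (L * (Y i)⁻¹ + L⁻¹ * Y i) / 2)
    (h4 : ∀ i, c i 4 = c4) (h5 : ∀ i, c i 5 = c5)
    (hD : ∀ i, DD (c i) = 0) : False := by
  obtain ⟨h, hh, hhne⟩ : ∃ h : P.k, P.Lim (fun _ => (1 / 2 : ℂ)) h ∧ h ≠ 0 :=
    ⟨_, P.const _, (map_ne_zero P.j).2 (by norm_num)⟩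
  obtain ⟨l', hl', hl'ne⟩ : ∃ l' : P.k, P.Lim (fun _ => L⁻¹) l' ∧ l' ≠ 0 :=
    ⟨_, P.const _, (map_ne_zero P.j).2 (inv_ne_zero hL)⟩
  obtain ⟨y, ey, my⟩ : ∃ z : tS P, (∀ i, ev P i z = (Y i)⁻¹) ∧ lm P z = 0 :=
    ⟨mk P hY, fun i => rfl, rfl⟩
  obtain ⟨x, ex⟩ : ∃ z : tS P, ∀ i, ev P i z = X i := ⟨mk P hX, fun i => rfl⟩
  obtain ⟨x', ex'⟩ : ∃ z : tS P, ∀ i, ev P i z = (X i)⁻¹ := ⟨mk P hX', fun i => rfl⟩
  obtain ⟨H, eH, mH⟩ : ∃ z : tS P, (∀ i, ev P i z = 1 / 2) ∧ lm P z = h :=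
    ⟨mk P hh, fun i => rfl, rfl⟩
  obtain ⟨k0, ek0⟩ : ∃ z : tS P, ∀ i, ev P i z = K := ⟨mk P (P.const K), fun i => rfl⟩
  obtain ⟨k1, ek1⟩ : ∃ z : tS P, ∀ i, ev P i z = K⁻¹ := ⟨mk P (P.const K⁻¹), fun i => rfl⟩
  obtain ⟨l0, el0⟩ : ∃ z : tS P, ∀ i, ev P i z = L := ⟨mk P (P.const L), fun i => rfl⟩
  obtain ⟨l1, el1, ml1⟩ : ∃ z : tS P, (∀ i, ev P i z = L⁻¹) ∧ lm P z = l' :=
    ⟨mk P hl', fun i => rfl, rfl⟩
  obtain ⟨d4, ed4⟩ : ∃ z : tS P, ∀ i, ev P i z = c i 4 :=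
    ⟨mk P (P.const c4), fun i => (h4 i).symm⟩
  obtain ⟨d5, ed5⟩ : ∃ z : tS P, ∀ i, ev P i z = c i 5 :=
    ⟨mk P (P.const c5), fun i => (h5 i).symm⟩
  obtain ⟨p2, hp2⟩ : ∃ p : tS P, p = H * (1 + y ^ 2) := ⟨_, rfl⟩
  obtain ⟨p3, hp3⟩ : ∃ p : tS P, p = H * (l0 * y ^ 2 + l1) := ⟨_, rfl⟩
  have ep2 : ∀ i, ev P i p2 = c i 2 * (Y i)⁻¹ := fun i => by
    rw [hp2, map_mul, map_add, map_one, map_pow, ey, eH, h2, idp _ (hY0 i)]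
  have ep3 : ∀ i, ev P i p3 = c i 3 * (Y i)⁻¹ := fun i => by
    rw [hp3, map_mul, map_add, map_mul, map_pow, ey, eH, el0, el1, h3, idp' _ _ (hY0 i)]
  have mp2 : lm P p2 = h := by
    rw [hp2, map_mul, map_add, map_one, map_pow, my, mH]
    ring
  have mp3 : lm P p3 = h * l' := by
    rw [hp3, map_mul, map_add, map_mul, map_pow, my, mH, ml1]
    ring
  obtain ⟨d0, ed0⟩ : ∃ z : tS P, ∀ i, ev P i z = c i 0 := ⟨H * (x + x'), fun i => by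
    rw [map_mul, map_add, ex, ex', eH, h0]
    ring⟩
  obtain ⟨d1, ed1⟩ : ∃ z : tS P, ∀ i, ev P i z = c i 1 := ⟨H * (k0 * x' + k1 * x), fun i => by
    rw [map_mul, map_add, map_mul, map_mul, ex, ex', eH, ek0, ek1, h1]
    ring⟩
  have E1 := lm_eq_zero P (y ^ 4 - (d0 ^ 2 + d1 ^ 2) * y ^ 4 - (p2 ^ 2 + p3 ^ 2) * y ^ 2
        - (d4 ^ 2 + d5 ^ 2) * y ^ 4
        + (d0 ^ 2 * d5 ^ 2 + d1 ^ 2 * d4 ^ 2) * y ^ 4 + p2 ^ 2 * p3 ^ 2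
        - 2 * (p2 * y ^ 3 * d4 * d5 + d1 * p3 * y ^ 3 * d5 + d0 * p3 * y ^ 3 * d4
          + d0 * d1 * p2 * y ^ 3)
        - 2 * (d0 * p2 * p3 * y ^ 2 * d5 + d0 * d1 * y ^ 4 * d4 * d5 + d1 * p2 * p3 * y ^ 2 * d4))
      (fun i => by
        have h6 := idD (c i) (Y i) _ _ (hY0 i) (ep2 i) (ep3 i)
        rw [hD i, zero_mul] at h6
        simp only [map_add, map_sub, map_mul, map_pow, map_ofNat, ey, ed0, ed1, ed4, ed5]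
        exact h6)
  simp only [map_add, map_sub, map_mul, map_pow, map_ofNat, my, mp2, mp3] at E1
  have h10 : h ^ 2 * (h * l') ^ 2 = 0 := by
    linear_combination E1
  exact absurd h10 (mul_ne_zero (pow_ne_zero 2 hhne) (pow_ne_zero 2 (mul_ne_zero hhne hl'ne)))

theorem PP_neg (c s : Fin 6 → ℂ) : PP c (fun j => -s j) 0 = -PP c s 0 ∧
    PP c (fun j => -s j) 1 = -PP c s 1 :=
  ⟨neg_mul _ _, neg_mul _ _⟩

end TwelveAux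

theorem L12 (κ lam β γ : ℝ) : {l | l ∈ Nm ∧ l 1 = l 0 ∧ l 3 = l 2 ∧
    al l 0 + al l 1 = κ ∧ al l 2 + al l 3 = lam ∧ al l 4 = β ∧ al l 5 = γ}.Finite := by
  by_contra hinf
  rcases exists_inf_const_or_inj (S := {l | l ∈ Nm ∧ l 1 = l 0 ∧ l 3 = l 2 ∧
    al l 0 + al l 1 = κ ∧ al l 2 + al l 3 = lam ∧ al l 4 = β ∧ al l 5 = γ}) hinf
    (fun l => al l 2) with ⟨v, hv⟩ | ⟨S', hS', hi, hinj⟩
  · refine hv ((L17 κ ![0, 0, v, lam - v, β, γ]).subset ?_)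
    rintro l ⟨⟨hN, -, -, hk, hl, h4, h5⟩, h2⟩
    have h2' : al l 2 = v := h2
    refine ⟨hN, hk, fun j h0 h1 => ?_⟩
    fin_cases j
    · exact absurd rfl h0
    · exact absurd rfl h1
    · exact h2
    · show al l 3 = lam - v
      linarith
    · exact h4
    · exact h5
  · have : Infinite S' := Set.infinite_coe_iff.2 hi
    have hmem : ∀ l : S', (l : Fin 6 → ℝ) ∈ TT := fun l => (hS' l.2).1.1
    have hIoo : ∀ (l : S') (j : Fin 6), al l j ∈ Ioo 0 π := fun l => (TT_facts (hmem l)).2.2.2.2.1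
    obtain ⟨Y, hYd⟩ : ∃ Y : S' → ℂ, ∀ l, Y l = Complex.exp (al l 2 * Complex.I) :=
      ⟨_, fun _ => rfl⟩
    obtain ⟨X, hXd⟩ : ∃ X : S' → ℂ, ∀ l, X l = Complex.exp (al l 0 * Complex.I) :=
      ⟨_, fun _ => rfl⟩
    have hY0 : ∀ l, Y l ≠ 0 := fun l => by
      rw [hYd]
      exact Complex.exp_ne_zero _
    have hX0 : ∀ l, X l ≠ 0 := fun l => by
      rw [hXd]
      exact Complex.exp_ne_zero _
    have hYi : Function.Injective Y := by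
      intro l l' h
      rw [hYd, hYd] at h
      exact Subtype.ext (hinj l.2 l'.2 (exp_injOn (hIoo l 2) (hIoo l' 2) h))
    obtain ⟨P, hP⟩ := exists_pl Y hYi hY0
    obtain ⟨K, hKd⟩ : ∃ K : ℂ, K = Complex.exp (κ * Complex.I) := ⟨_, rfl⟩
    obtain ⟨L, hLd⟩ : ∃ L : ℂ, L = Complex.exp (lam * Complex.I) := ⟨_, rfl⟩
    have hK : K ≠ 0 := by
      rw [hKd]
      exact Complex.exp_ne_zero _
    have hL : L ≠ 0 := by
      rw [hLd]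
      exact Complex.exp_ne_zero _
    have eX : ∀ l : S', Complex.exp (al l 1 * Complex.I) = K * (X l)⁻¹ := by
      intro l
      have h1 : al l 0 + al l 1 = κ := (hS' l.2).2.2.2.1
      rw [hKd, hXd, ← Complex.exp_neg, ← Complex.exp_add, ← h1]
      congr 1
      push_cast
      ring
    have eY : ∀ l : S', Complex.exp (al l 3 * Complex.I) = L * (Y l)⁻¹ := by
      intro l
      have h1 : al l 2 + al l 3 = lam := (hS' l.2).2.2.2.2.1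
      rw [hLd, hYd, ← Complex.exp_neg, ← Complex.exp_add, ← h1]
      congr 1
      push_cast
      ring
    obtain ⟨c, hc⟩ : ∃ c : S' → Fin 6 → ℂ, ∀ l j, c l j = (cos (al l j) : ℂ) :=
      ⟨_, fun _ _ => rfl⟩
    obtain ⟨s, hs⟩ : ∃ s : S' → Fin 6 → ℂ, ∀ l j, s l j = (sin (al l j) : ℂ) :=
      ⟨_, fun _ _ => rfl⟩
    have h0 : ∀ l, c l 0 = (X l + (X l)⁻¹) / 2 := fun l => by rw [hc, cos_exp, hXd]
    have h1 : ∀ l, c l 1 = (K * (X l)⁻¹ + K⁻¹ * X l) / 2 := fun l => by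
      rw [hc, cos_exp, eX, mul_inv, inv_inv]
    have h2 : ∀ l, c l 2 = (Y l + (Y l)⁻¹) / 2 := fun l => by rw [hc, cos_exp, hYd]
    have h3 : ∀ l, c l 3 = (L * (Y l)⁻¹ + L⁻¹ * Y l) / 2 := fun l => by
      rw [hc, cos_exp, eY, mul_inv, inv_inv]
    have h4 : ∀ l, c l 4 = (cos β : ℂ) := fun l => by
      rw [hc, (hS' l.2).2.2.2.2.2.1]
    have h5 : ∀ l, c l 5 = (cos γ : ℂ) := fun l => by
      rw [hc, (hS' l.2).2.2.2.2.2.2]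
    have hs0 : ∀ l, s l 0 = (X l - (X l)⁻¹) / (2 * Complex.I) := fun l => by
      rw [hs, sin_exp, hXd]
    have hs1 : ∀ l, s l 1 = (K * (X l)⁻¹ - K⁻¹ * X l) / (2 * Complex.I) := fun l => by
      rw [hs, sin_exp, eX, mul_inv, inv_inv]
    have hD : ∀ l, DD (c l) = 0 := fun l => by
      have h6 := DD_eq_zero_complex (hmem l)
      have h7 : c l = fun j => (cos (al l j) : ℂ) := funext (hc l)
      rw [h7]
      exact h6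
    have hPP : ∀ l, PP (c l) (s l) 0 = PP (c l) (s l) 1 := fun l => by
      have h6 := PP_eq_complex (hmem l) (i := 0) (j := 1) (hS' l.2).2.1.symm
      have h7 : c l = fun j => (cos (al l j) : ℂ) := funext (hc l)
      have h8 : s l = fun j => (sin (al l j) : ℂ) := funext (hs l)
      rw [h7, h8]
      exact h6
    rcases P.tri X hX0 with ⟨a, -, hXa, hXa'⟩ | hX | hX
    · exact twelve_fin P X Y K L _ _ hL hY0 hXa hXa' hP c h0 h1 h2 h3 h4 h5 hD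
    · refine twelve_abs P (fun l => (X l)⁻¹) Y K⁻¹ L _ _ (inv_ne_zero hK) hL
        (fun l => inv_ne_zero (hX0 l)) hY0 ?_ hP c (fun l j => -s l j) (fun l => ?_) (fun l => ?_)
        h2 h3 h4 h5 (fun l => ?_) (fun l => ?_) hD (fun l => ?_)
      · simpa only [inv_inv] using hX
      · rw [h0, inv_inv, add_comm]
      · rw [h1, inv_inv, inv_inv, add_comm]
      · simp only [hs0, inv_inv]
        ring
      · simp only [hs1, inv_inv]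
        ring
      · rw [(PP_neg (c l) (s l)).1, (PP_neg (c l) (s l)).2, hPP]
    · exact twelve_abs P X Y K L _ _ hK hL hX0 hY0 hX hP c s h0 h1 h2 h3 h4 h5 hs0 hs1 hD hPP

end Pool.Agent.Helper22.FF
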