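import Pool.Agent.Helper22.FF.Const
import Pool.Agent.Helper22.FF.Star
import Pool.Agent.Helper22.FF.Apex
import Pool.Agent.Helper22.FF.Five
import Pool.Agent.Helper22.FF.Eight
import Pool.Agent.Helper22.FF.Twelve
import Pool.Agent.Helper22.FF.Th13
import Pool.Agent.Helper22.FF.Th14

/-!
FF-18 Good.  For each of the 25 types the set `cls t q` is finite up to members of `G1`, `G3`.

PROOF, by cases on `t` (the 25 members of `types`). The hypotheses in `cls` are: equal lengths in the classes, and the sum of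
the angles over each class is the constant `q k`. Symmetries (`al_symm` with a permutation `σ` of the vertices which
preserves the lengths; `es σ` by `decide`/`simp`) give equal angles in some classes, so that the class sum gives a
constant angle. Here `(a b)` are transpositions of the vertices `0..3`, edges `0..5 = 01,02,03,12,13,23`.
 000000: all equal: `finite_of_ratio` (all ratios are 1).
 000001: `K51`.   000011: `(1 2)` gives `al 4 = al 5`, so both constant: `L1`.
 000111: `(1 2)`, `(2 3)` give `al 3 = al 4 = al 5`: `L10`.   001100: `(0 1)(2 3)` gives `al 2 = al 3`: `K42`.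
 001101: `K33` (classes `{0,1,4}`, `{2,3,5}`).
 000012: `L1`.   000112: `(2 3)` gives `al 3 = al 4`: `L10`.
 001012: `(0 1)` gives `al 2 = al 4`: `L11`.   001102: `(0 1)(2 3)` gives `al 2 = al 3`: `L13` (`S13`).
 001112: `L5`.   001122: `(1 2)` gives `al 0 = al 1`, `al 4 = al 5`: `L18`.
 001200: `(1 2)`: `al 0 = al 1`, `al 4 = al 5`; `(0 3)`: `al 0 = al 4`; all angles constant: `L0`.
 001212: `L8`.   012210: `(0 1)(2 3)` and `(0 2)(1 3)`: all angles constant: `L0`.
 000123: `L10`.   001023: `L11`.   001123: `L12`.   001203: `L13` (`S13`).   001213: `L14` (`S14`).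
 001233: `(1 2)`: `al 0 = al 1`, `al 4 = al 5`: `L0`.   012213: `(0 1)(2 3)`: `al 1 = al 4`, `al 2 = al 3`: `L0`.
 001234: `L17`.   012234: `L18`.   012345: `L0`.
In each case `F` is the finite set of the lemma (or `∅` with the second alternative of `L13`, `L14`).
-/

open Real Set Pool.Agent.Helper1.Tet

namespace Pool.Agent.Helper22.FF

private theorem sumc {t : Fin 6 → Fin 6} {q : Fin 6 → ℝ} {l : Fin 6 → ℝ}
    (h : ∀ k, ∑ i with t i = k, al l i = q k) (k : Fin 6) :
    (if t 0 = k then al l 0 else 0) + (if t 1 = k then al l 1 else 0)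
      + (if t 2 = k then al l 2 else 0) + (if t 3 = k then al l 3 else 0)
      + (if t 4 = k then al l 4 else 0) + (if t 5 = k then al l 5 else 0) = q k := by
  rw [← h k, Finset.sum_filter, Fin.sum_univ_six]

private theorem symc {t : Fin 6 → Fin 6} {l : Fin 6 → ℝ} (hE : ∀ i j, t i = t j → l i = l j)
    (σ : Equiv.Perm (Fin 4)) (hσ : ∀ j, t (es σ j) = t j) (i j : Fin 6) (hij : es σ i = j) :
    al l i = al l j := by
  rw [← hij]
  exact (al_symm σ (fun j => hE _ _ (hσ j)) i).symm

/-- the statement for one type -/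
private def GoodT (t : Fin 6 → Fin 6) (q : Fin 6 → ℝ) : Prop :=
  ∃ F : Set (Fin 6 → ℝ), F.Finite ∧ cls t q ⊆ F ∪ {l | G1 l ∨ G3 l}

private theorem good_of {t : Fin 6 → Fin 6} {q : Fin 6 → ℝ} {F : Set (Fin 6 → ℝ)} (hF : F.Finite)
    (h : ∀ l ∈ Nm, (∀ i j, t i = t j → l i = l j) →
      (∀ k, (if t 0 = k then al l 0 else 0) + (if t 1 = k then al l 1 else 0)
      + (if t 2 = k then al l 2 else 0) + (if t 3 = k then al l 3 else 0)
      + (if t 4 = k then al l 4 else 0) + (if t 5 = k then al l 5 else 0) = q k) → l ∈ F) :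
    GoodT t q :=
  ⟨F, hF, fun l hl => Or.inl (h l hl.1 hl.2.1 fun k => sumc hl.2.2 k)⟩

private theorem good_of13 {t : Fin 6 → Fin 6} {q : Fin 6 → ℝ} {κ α β γ : ℝ}
    (h : ∀ l ∈ Nm, (∀ i j, t i = t j → l i = l j) →
      (∀ k, (if t 0 = k then al l 0 else 0) + (if t 1 = k then al l 1 else 0)
      + (if t 2 = k then al l 2 else 0) + (if t 3 = k then al l 3 else 0)
      + (if t 4 = k then al l 4 else 0) + (if t 5 = k then al l 5 else 0) = q k) →
      l ∈ S13 κ α β γ) : GoodT t q := by
  rcases L13 κ α β γ with hf | hg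
  · exact good_of hf h
  · exact ⟨∅, Set.finite_empty, fun l hl =>
      Or.inr (Or.inl (hg l (h l hl.1 hl.2.1 fun k => sumc hl.2.2 k)))⟩

private theorem good_of14 {t : Fin 6 → Fin 6} {q : Fin 6 → ℝ} {κ lam α γ : ℝ}
    (h : ∀ l ∈ Nm, (∀ i j, t i = t j → l i = l j) →
      (∀ k, (if t 0 = k then al l 0 else 0) + (if t 1 = k then al l 1 else 0)
      + (if t 2 = k then al l 2 else 0) + (if t 3 = k then al l 3 else 0)
      + (if t 4 = k then al l 4 else 0) + (if t 5 = k then al l 5 else 0) = q k) →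
      l ∈ S14 κ lam α γ) : GoodT t q := by
  rcases L14 κ lam α γ with hf | hg
  · exact good_of hf h
  · exact ⟨∅, Set.finite_empty, fun l hl =>
      Or.inr (Or.inr (hg l (h l hl.1 hl.2.1 fun k => sumc hl.2.2 k)))⟩

private theorem good_000001 (q : Fin 6 → ℝ) : GoodT ![0,0,0,0,0,1] q := by
  refine good_of (K51 (q 1)) fun l hN hE hS => ?_
  have s1 := hS 1
  simp at s1
  exact ⟨hN, (hE 1 0 rfl), (hE 2 0 rfl), (hE 3 0 rfl), (hE 4 0 rfl), by linarith⟩

private theorem good_000011 (q : Fin 6 → ℝ) : GoodT ![0,0,0,0,1,1] q := by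
  refine good_of (L1 (q 1 / 2) (q 1 / 2)) fun l hN hE hS => ?_
  have y1 := symc hE (Equiv.swap 1 2) (by decide) 4 5 (by decide)
  have s1 := hS 1
  simp at s1
  exact ⟨hN, (hE 1 0 rfl), (hE 2 0 rfl), (hE 3 0 rfl), by linarith, by linarith⟩

private theorem good_000111 (q : Fin 6 → ℝ) : GoodT ![0,0,0,1,1,1] q := by
  refine good_of (L10 (q 1 / 3) (q 1 / 3) (q 1 / 3)) fun l hN hE hS => ?_
  have y1 := symc hE (Equiv.swap 1 2) (by decide) 4 5 (by decide)
  have y2 := symc hE (Equiv.swap 2 3) (by decide) 3 4 (by decide)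
  have s1 := hS 1
  simp at s1
  exact ⟨hN, (hE 1 0 rfl), (hE 2 0 rfl), by linarith, by linarith, by linarith⟩

private theorem good_001100 (q : Fin 6 → ℝ) : GoodT ![0,0,1,1,0,0] q := by
  refine good_of (K42 (q 1 / 2)) fun l hN hE hS => ?_
  have y1 := symc hE (Equiv.swap 0 1 * Equiv.swap 2 3) (by decide) 2 3 (by decide)
  have s1 := hS 1
  simp at s1
  exact ⟨hN, (hE 1 0 rfl), (hE 4 0 rfl), (hE 5 0 rfl), (hE 3 2 rfl), by linarith⟩

private theorem good_001101 (q : Fin 6 → ℝ) : GoodT ![0,0,1,1,0,1] q := by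
  refine good_of (K33 (q 0)) fun l hN hE hS => ?_
  have s0 := hS 0
  simp at s0
  exact ⟨hN, (hE 1 0 rfl), (hE 4 0 rfl), (hE 3 2 rfl), (hE 5 2 rfl), by linarith⟩

private theorem good_000012 (q : Fin 6 → ℝ) : GoodT ![0,0,0,0,1,2] q := by
  refine good_of (L1 (q 1) (q 2)) fun l hN hE hS => ?_
  have s1 := hS 1
  have s2 := hS 2
  simp at s1 s2
  exact ⟨hN, (hE 1 0 rfl), (hE 2 0 rfl), (hE 3 0 rfl), by linarith, by linarith⟩

private theorem good_000112 (q : Fin 6 → ℝ) : GoodT ![0,0,0,1,1,2] q := by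
  refine good_of (L10 (q 1 / 2) (q 1 / 2) (q 2)) fun l hN hE hS => ?_
  have y1 := symc hE (Equiv.swap 2 3) (by decide) 3 4 (by decide)
  have s1 := hS 1
  have s2 := hS 2
  simp at s1 s2
  exact ⟨hN, (hE 1 0 rfl), (hE 2 0 rfl), by linarith, by linarith, by linarith⟩

private theorem good_001012 (q : Fin 6 → ℝ) : GoodT ![0,0,1,0,1,2] q := by
  refine good_of (L11 (q 1 / 2) (q 1 / 2) (q 2)) fun l hN hE hS => ?_
  have y1 := symc hE (Equiv.swap 0 1) (by decide) 2 4 (by decide)
  have s1 := hS 1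
  have s2 := hS 2
  simp at s1 s2
  exact ⟨hN, (hE 1 0 rfl), (hE 3 0 rfl), by linarith, by linarith, by linarith⟩

private theorem good_001102 (q : Fin 6 → ℝ) : GoodT ![0,0,1,1,0,2] q := by
  refine good_of13 (κ := q 0) (α := q 1 / 2) (β := q 1 / 2) (γ := q 2) fun l hN hE hS => ?_
  have y1 := symc hE (Equiv.swap 0 1 * Equiv.swap 2 3) (by decide) 2 3 (by decide)
  have s0 := hS 0
  have s1 := hS 1
  have s2 := hS 2
  simp at s0 s1 s2
  exact ⟨hN, (hE 1 0 rfl), (hE 4 0 rfl), by linarith, by linarith, by linarith, by linarith⟩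

private theorem good_001112 (q : Fin 6 → ℝ) : GoodT ![0,0,1,1,1,2] q := by
  refine good_of (L5 (q 0) (q 2)) fun l hN hE hS => ?_
  have s0 := hS 0
  have s2 := hS 2
  simp at s0 s2
  exact ⟨hN, (hE 1 0 rfl), (hE 3 2 rfl), (hE 4 2 rfl), by linarith, by linarith⟩

private theorem good_001122 (q : Fin 6 → ℝ) : GoodT ![0,0,1,1,2,2] q := by
  refine good_of (L18 (q 1) ![q 0 / 2, q 0 / 2, 0, 0, q 2 / 2, q 2 / 2]) fun l hN hE hS => ?_
  have y1 := symc hE (Equiv.swap 1 2) (by decide) 0 1 (by decide)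
  have y2 := symc hE (Equiv.swap 1 2) (by decide) 4 5 (by decide)
  have s0 := hS 0
  have s1 := hS 1
  have s2 := hS 2
  simp at s0 s1 s2
  refine ⟨hN, by linarith, fun j h2 h3 => ?_⟩
  fin_cases j
  · show al l 0 = _
    simp
    linarith
  · show al l 1 = _
    simp
    linarith
  · exact absurd rfl h2
  · exact absurd rfl h3
  · show al l 4 = _
    simp
    linarith
  · show al l 5 = _
    simp
    linarith

private theorem good_001200 (q : Fin 6 → ℝ) : GoodT ![0,0,1,2,0,0] q := by
  refine good_of (L0 ![q 0 / 4, q 0 / 4, q 1, q 2, q 0 / 4, q 0 / 4]) fun l hN hE hS => ?_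
  have y1 := symc hE (Equiv.swap 1 2) (by decide) 0 1 (by decide)
  have y2 := symc hE (Equiv.swap 1 2) (by decide) 4 5 (by decide)
  have y3 := symc hE (Equiv.swap 0 3) (by decide) 0 4 (by decide)
  have s0 := hS 0
  have s1 := hS 1
  have s2 := hS 2
  simp at s0 s1 s2
  refine ⟨hN, fun j => ?_⟩
  fin_cases j
  · show al l 0 = _
    simp
    linarith
  · show al l 1 = _
    simp
    linarith
  · show al l 2 = _
    simp
    linarith
  · show al l 3 = _
    simp
    linarith
  · show al l 4 = _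
    simp
    linarith
  · show al l 5 = _
    simp
    linarith

private theorem good_001212 (q : Fin 6 → ℝ) : GoodT ![0,0,1,2,1,2] q := by
  refine good_of (L8 (q 0) (q 1) (q 2)) fun l hN hE hS => ?_
  have s0 := hS 0
  have s1 := hS 1
  have s2 := hS 2
  simp at s0 s1 s2
  exact ⟨hN, (hE 1 0 rfl), (hE 4 2 rfl), (hE 5 3 rfl), by linarith, by linarith, by linarith⟩

private theorem good_012210 (q : Fin 6 → ℝ) : GoodT ![0,1,2,2,1,0] q := by
  refine good_of (L0 ![q 0 / 2, q 1 / 2, q 2 / 2, q 2 / 2, q 1 / 2, q 0 / 2]) fun l hN hE hS => ?_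
  have y1 := symc hE (Equiv.swap 0 1 * Equiv.swap 2 3) (by decide) 1 4 (by decide)
  have y2 := symc hE (Equiv.swap 0 1 * Equiv.swap 2 3) (by decide) 2 3 (by decide)
  have y3 := symc hE (Equiv.swap 0 2 * Equiv.swap 1 3) (by decide) 0 5 (by decide)
  have s0 := hS 0
  have s1 := hS 1
  have s2 := hS 2
  simp at s0 s1 s2
  refine ⟨hN, fun j => ?_⟩
  fin_cases j
  · show al l 0 = _
    simp
    linarith
  · show al l 1 = _
    simp
    linarith
  · show al l 2 = _
    simp
    linarith
  · show al l 3 = _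
    simp
    linarith
  · show al l 4 = _
    simp
    linarith
  · show al l 5 = _
    simp
    linarith

private theorem good_000123 (q : Fin 6 → ℝ) : GoodT ![0,0,0,1,2,3] q := by
  refine good_of (L10 (q 1) (q 2) (q 3)) fun l hN hE hS => ?_
  have s1 := hS 1
  have s2 := hS 2
  have s3 := hS 3
  simp at s1 s2 s3
  exact ⟨hN, (hE 1 0 rfl), (hE 2 0 rfl), by linarith, by linarith, by linarith⟩

private theorem good_001023 (q : Fin 6 → ℝ) : GoodT ![0,0,1,0,2,3] q := by
  refine good_of (L11 (q 1) (q 2) (q 3)) fun l hN hE hS => ?_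
  have s1 := hS 1
  have s2 := hS 2
  have s3 := hS 3
  simp at s1 s2 s3
  exact ⟨hN, (hE 1 0 rfl), (hE 3 0 rfl), by linarith, by linarith, by linarith⟩

private theorem good_001123 (q : Fin 6 → ℝ) : GoodT ![0,0,1,1,2,3] q := by
  refine good_of (L12 (q 0) (q 1) (q 2) (q 3)) fun l hN hE hS => ?_
  have s0 := hS 0
  have s1 := hS 1
  have s2 := hS 2
  have s3 := hS 3
  simp at s0 s1 s2 s3
  exact ⟨hN, (hE 1 0 rfl), (hE 3 2 rfl), by linarith, by linarith, by linarith, by linarith⟩

private theorem good_001203 (q : Fin 6 → ℝ) : GoodT ![0,0,1,2,0,3] q := by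
  refine good_of13 (κ := q 0) (α := q 2) (β := q 1) (γ := q 3) fun l hN hE hS => ?_
  have s0 := hS 0
  have s1 := hS 1
  have s2 := hS 2
  have s3 := hS 3
  simp at s0 s1 s2 s3
  exact ⟨hN, (hE 1 0 rfl), (hE 4 0 rfl), by linarith, by linarith, by linarith, by linarith⟩

private theorem good_001213 (q : Fin 6 → ℝ) : GoodT ![0,0,1,2,1,3] q := by
  refine good_of14 (κ := q 0) (lam := q 1) (α := q 2) (γ := q 3) fun l hN hE hS => ?_
  have s0 := hS 0
  have s1 := hS 1
  have s2 := hS 2
  have s3 := hS 3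
  simp at s0 s1 s2 s3
  exact ⟨hN, (hE 1 0 rfl), (hE 4 2 rfl), by linarith, by linarith, by linarith, by linarith⟩

private theorem good_001233 (q : Fin 6 → ℝ) : GoodT ![0,0,1,2,3,3] q := by
  refine good_of (L0 ![q 0 / 2, q 0 / 2, q 1, q 2, q 3 / 2, q 3 / 2]) fun l hN hE hS => ?_
  have y1 := symc hE (Equiv.swap 1 2) (by decide) 0 1 (by decide)
  have y2 := symc hE (Equiv.swap 1 2) (by decide) 4 5 (by decide)
  have s0 := hS 0
  have s1 := hS 1
  have s2 := hS 2
  have s3 := hS 3
  simp at s0 s1 s2 s3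
  refine ⟨hN, fun j => ?_⟩
  fin_cases j
  · show al l 0 = _
    simp
    linarith
  · show al l 1 = _
    simp
    linarith
  · show al l 2 = _
    simp
    linarith
  · show al l 3 = _
    simp
    linarith
  · show al l 4 = _
    simp
    linarith
  · show al l 5 = _
    simp
    linarith

private theorem good_012213 (q : Fin 6 → ℝ) : GoodT ![0,1,2,2,1,3] q := by
  refine good_of (L0 ![q 0, q 1 / 2, q 2 / 2, q 2 / 2, q 1 / 2, q 3]) fun l hN hE hS => ?_
  have y1 := symc hE (Equiv.swap 0 1 * Equiv.swap 2 3) (by decide) 1 4 (by decide)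
  have y2 := symc hE (Equiv.swap 0 1 * Equiv.swap 2 3) (by decide) 2 3 (by decide)
  have s0 := hS 0
  have s1 := hS 1
  have s2 := hS 2
  have s3 := hS 3
  simp at s0 s1 s2 s3
  refine ⟨hN, fun j => ?_⟩
  fin_cases j
  · show al l 0 = _
    simp
    linarith
  · show al l 1 = _
    simp
    linarith
  · show al l 2 = _
    simp
    linarith
  · show al l 3 = _
    simp
    linarith
  · show al l 4 = _
    simp
    linarith
  · show al l 5 = _
    simp
    linarith

private theorem good_001234 (q : Fin 6 → ℝ) : GoodT ![0,0,1,2,3,4] q := by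
  refine good_of (L17 (q 0) ![0, 0, q 1, q 2, q 3, q 4]) fun l hN hE hS => ?_
  have s0 := hS 0
  have s1 := hS 1
  have s2 := hS 2
  have s3 := hS 3
  have s4 := hS 4
  simp at s0 s1 s2 s3 s4
  refine ⟨hN, by linarith, fun j h0 h1 => ?_⟩
  fin_cases j
  · exact absurd rfl h0
  · exact absurd rfl h1
  · show al l 2 = _
    simp
    linarith
  · show al l 3 = _
    simp
    linarith
  · show al l 4 = _
    simp
    linarith
  · show al l 5 = _
    simp
    linarith

private theorem good_012234 (q : Fin 6 → ℝ) : GoodT ![0,1,2,2,3,4] q := by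
  refine good_of (L18 (q 2) ![q 0, q 1, 0, 0, q 3, q 4]) fun l hN hE hS => ?_
  have s0 := hS 0
  have s1 := hS 1
  have s2 := hS 2
  have s3 := hS 3
  have s4 := hS 4
  simp at s0 s1 s2 s3 s4
  refine ⟨hN, by linarith, fun j h2 h3 => ?_⟩
  fin_cases j
  · show al l 0 = _
    simp
    linarith
  · show al l 1 = _
    simp
    linarith
  · exact absurd rfl h2
  · exact absurd rfl h3
  · show al l 4 = _
    simp
    linarith
  · show al l 5 = _
    simp
    linarith

private theorem good_012345 (q : Fin 6 → ℝ) : GoodT ![0,1,2,3,4,5] q := by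
  refine good_of (L0 ![q 0, q 1, q 2, q 3, q 4, q 5]) fun l hN hE hS => ?_
  have s0 := hS 0
  have s1 := hS 1
  have s2 := hS 2
  have s3 := hS 3
  have s4 := hS 4
  have s5 := hS 5
  simp at s0 s1 s2 s3 s4 s5
  refine ⟨hN, fun j => ?_⟩
  fin_cases j
  · show al l 0 = _
    simp
    linarith
  · show al l 1 = _
    simp
    linarith
  · show al l 2 = _
    simp
    linarith
  · show al l 3 = _
    simp
    linarith
  · show al l 4 = _
    simp
    linarith
  · show al l 5 = _
    simp
    linarith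

private theorem good_000000 (q : Fin 6 → ℝ) : GoodT ![0,0,0,0,0,0] q := by
  refine good_of (Set.finite_singleton (fun _ => 1 / 6)) fun l hN hE hS => ?_
  have h : ∀ j, l j = l 0 := fun j => hE j 0 (by fin_cases j <;> rfl)
  have h1 := hN.2
  rw [Fin.sum_univ_six, h 1, h 2, h 3, h 4, h 5] at h1
  refine Set.mem_singleton_iff.2 (funext fun j => ?_)
  rw [h j]
  linarith

theorem types_good (t : Fin 6 → Fin 6) (ht : t ∈ types) (q : Fin 6 → ℝ) :
    ∃ F : Set (Fin 6 → ℝ), F.Finite ∧ cls t q ⊆ F ∪ {l | G1 l ∨ G3 l} := by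
  show GoodT t q
  simp only [types, List.mem_cons, List.not_mem_nil, or_false] at ht
  rcases ht with rfl | rfl | rfl | rfl | rfl | rfl | rfl | rfl | rfl | rfl | rfl | rfl | rfl | rfl | rfl | rfl | rfl | rfl | rfl | rfl | rfl | rfl | rfl | rfl | rfl
  · exact good_000000 q
  · exact good_000001 q
  · exact good_000011 q
  · exact good_000111 q
  · exact good_001100 q
  · exact good_001101 q
  · exact good_000012 q
  · exact good_000112 q
  · exact good_001012 q
  · exact good_001102 q
  · exact good_001112 q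
  · exact good_001122 q
  · exact good_001200 q
  · exact good_001212 q
  · exact good_012210 q
  · exact good_000123 q
  · exact good_001023 q
  · exact good_001123 q
  · exact good_001203 q
  · exact good_001213 q
  · exact good_001233 q
  · exact good_012213 q
  · exact good_001234 q
  · exact good_012234 q
  · exact good_012345 q

end Pool.Agent.Helper22.FF
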