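import Pool.Agent.Helper22.FF.Types
import Pool.Agent.Helper22.FF.Good

/-!
FF-19 Cover.  The condition `EE` leaves only `G1`, `G3` up to a countable set.

PROOF. `EE_cover`: let `l ∈ Nm`, `EE l`. Let `c i` be the least `j` with `l j = l i`, so `c i = c j ↔ l i = l j`. By
`types_complete` there are `t ∈ types` and `σ` with `t i = t j ↔ l (es σ i) = l (es σ j)`. Put `l' j = l (es σ j)`
(`Nm_es`). For every `k` the sum `∑ i with t i = k, al l' i` is `0` if `k` is not a value of `t`, otherwise `k = t j` and it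
is `∑ i with l (es σ i) = l (es σ j), al l (es σ i) = ∑ i with l i = l (es σ j), al l i` (`al_es`, `es_bijective`), a rational
multiple of `π`. So `l' ∈ cls t (fun k => r k * π)` for some `r : Fin 6 → ℚ`. Let `F t r` be the finite set of
`types_good`. Then `C` := the union over `t ∈ types`, `r : Fin 6 → ℚ`, `σ` of the preimages of `F t r` under the injective map
`l ↦ fun j => l (es σ j)`: countable.
`EE_cover_vol`: for `l ∈ TT` with `c √(Gr l) = 1` put `ν l = (∑ l)⁻¹ • l ∈ Nm` (`TT_smul`, `al_smul` of Analytic.lean; `EE` and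
`G1`, `G3` are invariant under scaling by a positive number). `ν` is injective on `{l | l ∈ TT ∧ c √(Gr l) = 1}` as `Gr (t • l) = t⁶ Gr l`.
So the preimage of the countable set is countable.
-/

open Real Set Pool.Agent.Helper1.Tet

namespace Pool.Agent.Helper22.FF

private theorem cover_sum {l : Fin 6 → ℝ} (hE : EE l) (t : Fin 6 → Fin 6) (σ : Equiv.Perm (Fin 4))
    (h : ∀ i j, t i = t j ↔ l (es σ i) = l (es σ j)) (k : Fin 6) :
    ∃ r : ℚ, ∑ i with t i = k, al (fun j => l (es σ j)) i = r * π := by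
  classical
  by_cases hk : ∃ j, t j = k
  · obtain ⟨j, rfl⟩ := hk
    obtain ⟨q, hq⟩ := hE (es σ j)
    refine ⟨q, ?_⟩
    rw [← hq]
    refine Finset.sum_bij (fun i _ => es σ i) ?_ ?_ ?_ ?_
    · intro i hi
      rw [Finset.mem_filter] at hi ⊢
      exact ⟨Finset.mem_univ _, (h i j).1 hi.2⟩
    · intro i _ i' _ he
      exact (es_bijective σ).1 he
    · intro b hb
      obtain ⟨i, rfl⟩ := (es_bijective σ).2 b
      rw [Finset.mem_filter] at hb
      refine ⟨i, ?_, rfl⟩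
      rw [Finset.mem_filter]
      exact ⟨Finset.mem_univ _, (h i j).2 hb.2⟩
    · intro i _
      exact al_es σ l i
  · refine ⟨0, ?_⟩
    rw [Finset.filter_false_of_mem, Finset.sum_empty]
    · simp
    · intro i _ hi
      exact hk ⟨i, hi⟩

private theorem cover_inj (σ : Equiv.Perm (Fin 4)) :
    Function.Injective (fun (l : Fin 6 → ℝ) (j : Fin 6) => l (es σ j)) := by
  intro l l' h
  funext j
  obtain ⟨i, rfl⟩ := (es_bijective σ).2 j
  exact congrFun h i

theorem EE_cover : ∃ C : Set (Fin 6 → ℝ), C.Countable ∧ {l | l ∈ Nm ∧ EE l} ⊆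
    C ∪ {l | ∃ σ : Equiv.Perm (Fin 4), G1 (fun j => l (es σ j)) ∨ G3 (fun j => l (es σ j))} := by
  classical
  have hF : ∀ (t : Fin 6 → Fin 6) (q : Fin 6 → ℝ), ∃ F : Set (Fin 6 → ℝ), F.Finite ∧
      (t ∈ types → cls t q ⊆ F ∪ {l | G1 l ∨ G3 l}) := by
    intro t q
    by_cases ht : t ∈ types
    · obtain ⟨F, h1, h2⟩ := types_good t ht q
      exact ⟨F, h1, fun _ => h2⟩
    · exact ⟨∅, finite_empty, fun h => absurd h ht⟩
  choose F hfin hsub using hF
  refine ⟨⋃ (t : Fin 6 → Fin 6), ⋃ (r : Fin 6 → ℚ), ⋃ (σ : Equiv.Perm (Fin 4)),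
    (fun (l : Fin 6 → ℝ) (j : Fin 6) => l (es σ j)) ⁻¹' F t (fun k => r k * π), ?_, ?_⟩
  · refine countable_iUnion fun t => countable_iUnion fun r => countable_iUnion fun σ => ?_
    exact ((hfin _ _).preimage (cover_inj σ).injOn).countable
  · rintro l ⟨hl, hE⟩
    have hc : ∀ i j, Function.invFun l (l i) = Function.invFun l (l j) ↔ l i = l j := by
      intro i j
      refine ⟨fun h => ?_, fun h => by rw [h]⟩
      have h1 : l (Function.invFun l (l i)) = l i := Function.invFun_eq ⟨i, rfl⟩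
      have h2 : l (Function.invFun l (l j)) = l j := Function.invFun_eq ⟨j, rfl⟩
      rw [← h1, h, h2]
    obtain ⟨t, ht, σ, h⟩ := types_complete fun i => Function.invFun l (l i)
    have h' : ∀ i j, t i = t j ↔ l (es σ i) = l (es σ j) := fun i j => (h i j).trans (hc _ _)
    choose r hr using cover_sum hE t σ h'
    have hm : (fun j => l (es σ j)) ∈ cls t (fun k => r k * π) :=
      ⟨Nm_es σ hl, fun i j hij => (h' i j).1 hij, hr⟩
    rcases hsub t _ ht hm with h1 | h1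
    · left
      rw [mem_iUnion]
      refine ⟨t, ?_⟩
      rw [mem_iUnion]
      refine ⟨r, ?_⟩
      rw [mem_iUnion]
      exact ⟨σ, h1⟩
    · right
      exact ⟨σ, h1⟩

private theorem cover_G1 {t : ℝ} (ht : 0 < t) (l : Fin 6 → ℝ) (h : G1 (t • l)) : G1 l := by
  obtain ⟨h1, h2, h3, h4⟩ := h
  simp only [Pi.smul_apply, smul_eq_mul] at h1 h2 h3 h4
  refine ⟨mul_left_cancel₀ ht.ne' h1, mul_left_cancel₀ ht.ne' h2, mul_left_cancel₀ ht.ne' h3, ?_⟩
  have h5 : t ^ 2 ≠ 0 := by positivity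
  apply mul_left_cancel₀ h5
  linear_combination h4

private theorem cover_G3 {t : ℝ} (ht : 0 < t) (l : Fin 6 → ℝ) (h : G3 (t • l)) : G3 l := by
  obtain ⟨h1, h2, h3, h4⟩ := h
  simp only [Pi.smul_apply, smul_eq_mul] at h1 h2 h3 h4
  have h5 : t ^ 2 ≠ 0 := by positivity
  refine ⟨mul_left_cancel₀ ht.ne' h1, mul_left_cancel₀ ht.ne' h2, ?_, ?_⟩
  · apply mul_left_cancel₀ h5
    linear_combination h3
  · apply mul_left_cancel₀ h5
    linear_combination h4

private theorem cover_EE {t : ℝ} (ht : 0 < t) (l : Fin 6 → ℝ) (h : EE l) : EE (t • l) := by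
  intro j
  obtain ⟨q, hq⟩ := h j
  refine ⟨q, ?_⟩
  rw [← hq, al_smul ht]
  refine Finset.sum_congr ?_ fun _ _ => rfl
  ext i
  simp only [Finset.mem_filter, Finset.mem_univ, true_and, Pi.smul_apply, smul_eq_mul]
  exact ⟨fun h => mul_left_cancel₀ ht.ne' h, fun h => by rw [h]⟩

private theorem cover_pos {l : Fin 6 → ℝ} (hl : l ∈ TT) : 0 < ∑ j, l j :=
  Finset.sum_pos (fun j _ => (TT_facts hl).1 j) ⟨0, Finset.mem_univ _⟩

/-- without normalization: vectors of volume one -/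
theorem EE_cover_vol (c : ℝ) (hc : 0 < c) : ∃ C : Set (Fin 6 → ℝ), C.Countable ∧
    {l | l ∈ TT ∧ c * √(Gr l) = 1 ∧ EE l} ⊆
    C ∪ {l | ∃ σ : Equiv.Perm (Fin 4), G1 (fun j => l (es σ j)) ∨ G3 (fun j => l (es σ j))} := by
  obtain ⟨C, hC, hsub⟩ := EE_cover
  refine ⟨{l | l ∈ TT ∧ c * √(Gr l) = 1 ∧ (∑ j, l j)⁻¹ • l ∈ C}, ?_, ?_⟩
  · refine MapsTo.countable_of_injOn (f := fun l : Fin 6 → ℝ => (∑ j, l j)⁻¹ • l) (t := C)
      (fun l hl => hl.2.2) ?_ hC
    rintro l ⟨hl, hv, -⟩ l' ⟨hl', hv', -⟩ h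
    simp only at h
    have hp := cover_pos hl
    have hp' := cover_pos hl'
    set s := ∑ j, l j with hs
    set s' := ∑ j, l' j with hs'
    have h1 : Gr l = Gr l' := by
      have h2 : √(Gr l) = √(Gr l') := mul_left_cancel₀ hc.ne' (hv.trans hv'.symm)
      exact (sqrt_inj hl.2.le hl'.2.le).1 h2
    have h2 : l = s • (s⁻¹ • l) := by rw [smul_smul, mul_inv_cancel₀ hp.ne', one_smul]
    have h3 : l' = s' • (s⁻¹ • l) := by rw [h, smul_smul, mul_inv_cancel₀ hp'.ne', one_smul]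
    have h4 : s ^ 6 * Gr (s⁻¹ • l) = s' ^ 6 * Gr (s⁻¹ • l) := by
      rw [← Gr_smul, ← Gr_smul, ← h2, ← h3, h1]
    have h5 : Gr (s⁻¹ • l) ≠ 0 := by
      rw [Gr_smul]
      exact mul_ne_zero (pow_ne_zero _ (inv_ne_zero hp.ne')) hl.2.ne'
    have h6 : s = s' := by
      have h7 := mul_right_cancel₀ h5 h4
      exact (pow_left_inj₀ hp.le hp'.le (by norm_num)).1 h7
    rw [h2, h3, h6]
  · rintro l ⟨hl, hv, hE⟩
    have hp := cover_pos hl
    have hi := inv_pos.2 hp
    have hN : (∑ j, l j)⁻¹ • l ∈ Nm := by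
      refine ⟨(TT_smul hi).2 hl, ?_⟩
      simp only [Pi.smul_apply, smul_eq_mul, ← Finset.mul_sum]
      exact inv_mul_cancel₀ hp.ne'
    rcases hsub ⟨hN, cover_EE hi l hE⟩ with h | ⟨σ, h⟩
    · exact Or.inl ⟨hl, hv, h⟩
    · right
      refine ⟨σ, h.imp (fun h1 => cover_G1 hi (fun j => l (es σ j)) h1)
        (fun h1 => cover_G3 hi (fun j => l (es σ j)) h1)⟩

end Pool.Agent.Helper22.FF
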