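import Pool.Agent.Helper1.Tet.TTFacts
import Pool.Agent.Helper1.Tet.Strict
import Pool.Agent.Helper1.Tet.Analytic

/-!
Project FF (problem MP_8ae016_co): all but countably many tetrahedra which tile space face-to-face
lie in the first or the third family of Goldberg.  Common definitions.

Vertices `0,1,2,3 : Fin 4`, edges `0..5 : Fin 6` = `01,02,03,12,13,23` (`ix a b` = index of `ab`).
`l : Fin 6 → ℝ` = edge lengths, `al l j` = dihedral angle at the edge `j`, `TT` = edge vectors of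
nondegenerate tetrahedra, `D l v` = 16 area² of the face opposite to the vertex `v`,
`Gr l` = 36 volume², `W l j` = numerator of the cosine of `al l j` (all from `Helper1.Tet`).
-/

open Real Set

namespace Pool.Agent.Helper22.FF

open Pool.Agent.Helper1.Tet

/-- edge vectors of tetrahedra with total edge length one -/
def Nm : Set (Fin 6 → ℝ) := {l | l ∈ TT ∧ ∑ j, l j = 1}

/-- the action of a permutation of the vertices on the edges -/
def es (σ : Equiv.Perm (Fin 4)) (j : Fin 6) : Fin 6 := ix (σ (ea j)) (σ (eb j))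

/-- Goldberg's first family: `01 = 02 = 13`, `03 = 12`, `23² = 3 (03² - 01²)` -/
def G1 (l : Fin 6 → ℝ) : Prop :=
  l 1 = l 0 ∧ l 4 = l 0 ∧ l 3 = l 2 ∧ l 5 ^ 2 = 3 * (l 2 ^ 2 - l 0 ^ 2)

/-- Goldberg's third family: `01 = 02`, `03 = 13`, `23² = 3 (01² - 03²)`,
`12² = 5 01² - 4 03²` -/
def G3 (l : Fin 6 → ℝ) : Prop :=
  l 1 = l 0 ∧ l 4 = l 2 ∧ l 5 ^ 2 = 3 * (l 0 ^ 2 - l 2 ^ 2) ∧ l 3 ^ 2 = 5 * l 0 ^ 2 - 4 * l 2 ^ 2

/-- An abstract notion of limit for functions `ι → ℂ`, with values in a field `k` containing `ℂ`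
(a place at infinity of an ultrapower of `ℂ`).  Every nowhere zero function has a limit or its
inverse tends to `0`. -/
structure Pl (ι : Type) where
  /-- the residue field -/
  k : Type
  /-- it is a field -/
  fld : Field k
  /-- it contains the complex numbers -/
  j : ℂ →+* k
  /-- the limit relation -/
  Lim : (ι → ℂ) → k → Prop
  const : ∀ c : ℂ, Lim (fun _ => c) (j c)
  add : ∀ {f g : ι → ℂ} {a b : k}, Lim f a → Lim g b → Lim (fun i => f i + g i) (a + b)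
  mul : ∀ {f g : ι → ℂ} {a b : k}, Lim f a → Lim g b → Lim (fun i => f i * g i) (a * b)
  uniq : ∀ {f : ι → ℂ} {a b : k}, Lim f a → Lim f b → a = b
  dich : ∀ f : ι → ℂ, (∀ i, f i ≠ 0) → (∃ a, Lim f a) ∨ Lim (fun i => (f i)⁻¹) 0

attribute [instance] Pl.fld

/-- the Gram determinant `det GG` as a polynomial in the cosines of the dihedral angles -/
def DD {R : Type*} [CommRing R] (c : Fin 6 → R) : R :=
  1 - (c 0 ^ 2 + c 1 ^ 2 + c 2 ^ 2 + c 3 ^ 2 + c 4 ^ 2 + c 5 ^ 2)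
    + (c 0 ^ 2 * c 5 ^ 2 + c 1 ^ 2 * c 4 ^ 2 + c 2 ^ 2 * c 3 ^ 2)
    - 2 * (c 2 * c 4 * c 5 + c 1 * c 3 * c 5 + c 0 * c 3 * c 4 + c 0 * c 1 * c 2)
    - 2 * (c 0 * c 2 * c 3 * c 5 + c 0 * c 1 * c 4 * c 5 + c 1 * c 2 * c 3 * c 4)

/-- `Phi` as a polynomial in the cosines and sines of the dihedral angles; for the angles of a
tetrahedron it is proportional to the vector of edge lengths -/
def PP {R : Type*} [CommRing R] (c s : Fin 6 → R) : Fin 6 → R :=
  ![s 0 * (c 0 * (1 - c 5 ^ 2) + c 1 * c 2 + c 3 * c 4 + c 5 * (c 2 * c 3 + c 1 * c 4)),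
    s 1 * (c 1 * (1 - c 4 ^ 2) + c 0 * c 2 + c 3 * c 5 + c 4 * (c 2 * c 3 + c 0 * c 5)),
    s 2 * (c 2 * (1 - c 3 ^ 2) + c 0 * c 1 + c 4 * c 5 + c 3 * (c 1 * c 4 + c 0 * c 5)),
    s 3 * (c 3 * (1 - c 2 ^ 2) + c 0 * c 4 + c 1 * c 5 + c 2 * (c 1 * c 4 + c 0 * c 5)),
    s 4 * (c 4 * (1 - c 1 ^ 2) + c 0 * c 3 + c 2 * c 5 + c 1 * (c 2 * c 3 + c 0 * c 5)),
    s 5 * (c 5 * (1 - c 0 ^ 2) + c 1 * c 3 + c 2 * c 4 + c 0 * (c 2 * c 3 + c 1 * c 4))]

/-- the condition E: for every edge length the sum of the dihedral angles at the edges of this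
length is a rational multiple of `π` -/
def EE (l : Fin 6 → ℝ) : Prop := ∀ j, ∃ q : ℚ, ∑ i with l i = l j, al l i = q * π

/-- The tetrahedron with vertices `p` tiles space face-to-face: there is a family of tetrahedra,
each the image of `p` under an isometry, which cover space, have disjoint interiors, and any two
of them meet in the convex hull of their common vertices. -/
def TilesFF (p : Fin 4 → E3) : Prop :=
  ∃ F : Set (Fin 4 → E3), (∀ q ∈ F, ∃ g : E3 ≃ᵢ E3, q = g ∘ p) ∧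
    (⋃ q ∈ F, convexHull ℝ (range q)) = univ ∧
    ∀ q ∈ F, ∀ q' ∈ F, q ≠ q' →
      Disjoint (interior (convexHull ℝ (range q))) (interior (convexHull ℝ (range q'))) ∧
      convexHull ℝ (range q) ∩ convexHull ℝ (range q') = convexHull ℝ (range q ∩ range q')

/-- the vertices of the path simplex `(n, σ)` of the integer lattice:
`n, n + e_σ0, n + e_σ0 + e_σ1, n + e_σ0 + e_σ1 + e_σ2` -/
def kv (n : Fin 3 → ℤ) (σ : Equiv.Perm (Fin 3)) (a : Fin 4) : Fin 3 → ℝ :=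
  fun i => n i + if (σ.symm i : ℕ) < (a : ℕ) then 1 else 0

/-- the hat function of the triangulation by the path simplices -/
noncomputable def hat (z : Fin 3 → ℝ) : ℝ :=
  max 0 (1 + min 0 (min (z 0) (min (z 1) (z 2))) - max 0 (max (z 0) (max (z 1) (z 2))))

/-- the sets of the lemma L13 -/
def S13 (κ α β γ : ℝ) : Set (Fin 6 → ℝ) := {l | l ∈ Nm ∧ l 1 = l 0 ∧ l 4 = l 0 ∧
    al l 0 + al l 1 + al l 4 = κ ∧ al l 2 = β ∧ al l 3 = α ∧ al l 5 = γ}

/-- the coefficient of `DD` at the corner, for the lemma L13 -/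
noncomputable def c22 (κ γ : ℝ) : ℂ :=
  1 - 4 * (sin γ : ℂ) ^ 2 * (Complex.exp (κ * Complex.I))⁻¹ ^ 2
    - 4 * (cos γ : ℂ) * (Complex.exp (κ * Complex.I))⁻¹

/-- the sets of the lemma L14 -/
def S14 (κ lam α γ : ℝ) : Set (Fin 6 → ℝ) := {l | l ∈ Nm ∧ l 1 = l 0 ∧ l 4 = l 2 ∧
    al l 0 + al l 1 = κ ∧ al l 2 + al l 4 = lam ∧ al l 3 = α ∧ al l 5 = γ}

/-- the 25 partitions of the edges up to relabelling of the vertices -/
def types : List (Fin 6 → Fin 6) :=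
  [![0,0,0,0,0,0],
   ![0,0,0,0,0,1], ![0,0,0,0,1,1], ![0,0,0,1,1,1], ![0,0,1,1,0,0], ![0,0,1,1,0,1],
   ![0,0,0,0,1,2], ![0,0,0,1,1,2], ![0,0,1,0,1,2], ![0,0,1,1,0,2], ![0,0,1,1,1,2],
   ![0,0,1,1,2,2], ![0,0,1,2,0,0], ![0,0,1,2,1,2], ![0,1,2,2,1,0],
   ![0,0,0,1,2,3], ![0,0,1,0,2,3], ![0,0,1,1,2,3], ![0,0,1,2,0,3], ![0,0,1,2,1,3],
   ![0,0,1,2,3,3], ![0,1,2,2,1,3],
   ![0,0,1,2,3,4], ![0,1,2,2,3,4], ![0,1,2,3,4,5]]

/-- normalized tetrahedra with equal edges in the classes of `t`, and given sums of the angles -/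
def cls (t : Fin 6 → Fin 6) (q : Fin 6 → ℝ) : Set (Fin 6 → ℝ) :=
  {l | l ∈ Nm ∧ (∀ i j, t i = t j → l i = l j) ∧ ∀ k, ∑ i with t i = k, al l i = q k}

end Pool.Agent.Helper22.FF
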