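import Pool.Agent.Helper22.FF.Defs

/-!
FF-23 Isom.  Congruence of tetrahedra, and a criterion for face-to-face families.

PROOF. `exists_isometry`: `u i = p i.succ - p 0` and `v i = q i.succ - q 0` (`i : Fin 3`) have the same inner products
(polarization: `2⟪u,v⟫ = |u|² + |v|² - |u-v|²`), `u` is a basis of `E3` (affine independence, `finrank = 3`), so is `v` (same Gram
determinant, or: the linear map `A` with `A u i = v i` is norm preserving, hence injective, hence bijective).
`‖A x‖ = ‖x‖` by expanding in the basis. `g x = A (x - p 0) + q 0`.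
`TilesFF_perm`: take the family `{q ∘ σ⁻¹ | q ∈ F}`; the ranges are the same. `TilesFF_congr`: if `p' = g₀ ∘ p` for an isometry
`g₀`, the family for `p` works for `p'` (`q = g ∘ p = (g ∘ g₀⁻¹) ∘ p'`).
`ff_of_weights`: let `x ∈ hull i ∩ hull i'`: `x = ∑ w a • P i a = ∑ w' a • P i' a` (`w a ≥ 0`, sum 1;
`convexHull_range_eq_exists_affineCombination` or `mem_convexHull_range...`/`Finset.centerMass`). If `w a > 0` then
`Wt x (P i a) = w a ≠ 0`, so by the second part of `hw i' w'` with `v = P i a` (and `¬ ∀ i'', v ∉ range (P i'')`) `P i a ∈ range (P i')`.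
So `x` is a convex combination of points of `range (P i) ∩ range (P i')`. The other inclusion is `convexHull_mono`.
Interiors: if `x` is in both interiors then all barycentric coordinates `w a`, `w' a` are positive (interior of a simplex,
`AffineBasis.interior_convexHull` or: the boundary points with a zero coordinate are not interior), so
`range (P i) ⊆ range (P i')` and conversely, `i = i'` by `hinj`.
-/

open Real Set Pool.Agent.Helper1.Tet

namespace Pool.Agent.Helper22.FF

/-- two quadruples with the same mutual distances are congruent -/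
theorem exists_isometry (p q : Fin 4 → E3) (hp : AffineIndependent ℝ p)
    (h : ∀ a b, dist (p a) (p b) = dist (q a) (q b)) : ∃ g : E3 ≃ᵢ E3, q = g ∘ p := by
  classical
  have hli : LinearIndependent ℝ (fun i : Fin 3 => p i.succ - p 0) := by
    have h1 := (affineIndependent_iff_linearIndependent_vsub ℝ p 0).1 hp
    exact h1.comp (fun i : Fin 3 => (⟨i.succ, Fin.succ_ne_zero i⟩ : {x : Fin 4 // x ≠ 0}))
      (by intro i j hij; simpa using hij)
  have hcard : Fintype.card (Fin 3) = Module.finrank ℝ E3 := by simp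
  obtain ⟨B, hB⟩ : ∃ B : Module.Basis (Fin 3) ℝ E3, ∀ i : Fin 3, B i = p i.succ - p 0 :=
    ⟨basisOfLinearIndependentOfCardEqFinrank hli hcard, fun i => by simp⟩
  obtain ⟨A, hA⟩ : ∃ A : E3 →ₗ[ℝ] E3, ∀ i : Fin 3, A (p i.succ - p 0) = q i.succ - q 0 :=
    ⟨B.constr ℝ (fun i : Fin 3 => q i.succ - q 0), fun i => by rw [← hB, Module.Basis.constr_basis]⟩
  have hin : ∀ i j : Fin 3, inner ℝ (p i.succ - p 0) (p j.succ - p 0) =
      inner ℝ (q i.succ - q 0) (q j.succ - q 0) := by
    intro i j
    have e1 := norm_sub_sq_real (p i.succ - p 0) (p j.succ - p 0)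
    have e2 := norm_sub_sq_real (q i.succ - q 0) (q j.succ - q 0)
    rw [sub_sub_sub_cancel_right, ← dist_eq_norm, ← dist_eq_norm, ← dist_eq_norm] at e1 e2
    rw [h, h, h] at e1
    linarith
  have hnorm : ∀ x, ‖A x‖ = ‖x‖ := by
    intro x
    have hx : x = ∑ i, B.repr x i • (p i.succ - p 0) := by
      conv_lhs => rw [← B.sum_repr x]
      simp only [hB]
    have hAx : A x = ∑ i, B.repr x i • (q i.succ - q 0) := by
      conv_lhs => rw [hx, map_sum]
      simp only [map_smul, hA]
    have h1 : inner ℝ (A x) (A x) = inner ℝ x x := by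
      conv_rhs => rw [hx]
      rw [hAx]
      simp only [sum_inner, inner_sum, inner_smul_left, inner_smul_right, hin]
    rw [real_inner_self_eq_norm_sq, real_inner_self_eq_norm_sq] at h1
    exact (pow_left_inj₀ (norm_nonneg _) (norm_nonneg _) two_ne_zero).1 h1
  let L : E3 →ₗᵢ[ℝ] E3 := ⟨A, hnorm⟩
  refine ⟨((IsometryEquiv.subRight (p 0)).trans
    (L.toLinearIsometryEquiv rfl).toIsometryEquiv).trans (IsometryEquiv.addRight (q 0)), ?_⟩
  funext a
  show q a = A (p a - p 0) + q 0
  refine Fin.cases ?_ (fun i => ?_) a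
  · rw [sub_self, map_zero, zero_add]
  · rw [hA, sub_add_cancel]

theorem TilesFF_perm (σ : Equiv.Perm (Fin 4)) (p : Fin 4 → E3) (h : TilesFF (p ∘ σ)) :
    TilesFF p := by
  obtain ⟨F, h1, h2, h3⟩ := h
  have hr : ∀ q : Fin 4 → E3, range (q ∘ σ.symm) = range q :=
    fun q => σ.symm.surjective.range_comp q
  refine ⟨(fun q => q ∘ σ.symm) '' F, ?_, ?_, ?_⟩
  · rintro _ ⟨q, hq, rfl⟩
    obtain ⟨g, hg⟩ := h1 q hq
    refine ⟨g, ?_⟩
    funext a
    simp [hg]
  · rw [← h2, Set.biUnion_image]
    simp only [hr]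
  · rintro _ ⟨q, hq, rfl⟩ _ ⟨q', hq', rfl⟩ hne
    have hne' : q ≠ q' := fun h => hne (by rw [h])
    simpa only [hr] using h3 q hq q' hq' hne'

theorem TilesFF_congr (p q : Fin 4 → E3) (hp : AffineIndependent ℝ p)
    (h : ∀ a b, dist (p a) (p b) = dist (q a) (q b)) (hT : TilesFF p) : TilesFF q := by
  obtain ⟨g, hg⟩ := exists_isometry p q hp h
  obtain ⟨F, h1, h2, h3⟩ := hT
  refine ⟨F, fun r hr => ?_, h2, h3⟩
  obtain ⟨g', hg'⟩ := h1 r hr
  refine ⟨g.symm.trans g', ?_⟩
  rw [hg', hg]
  funext a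
  simp

/-- a general criterion for face-to-face families: weights of the vertices which depend only on the
point -/
theorem ff_of_weights {ι : Type*} (P : ι → Fin 4 → E3) (hP : ∀ i, AffineIndependent ℝ (P i))
    (Wt : E3 → E3 → ℝ)
    (hw : ∀ i (w : Fin 4 → ℝ), (∀ a, 0 ≤ w a) → ∑ a, w a = 1 →
      (∀ a, Wt (∑ b, w b • P i b) (P i a) = w a) ∧
      ∀ v, v ∉ range (P i) → Wt (∑ b, w b • P i b) v = 0 ∨ ∀ i', v ∉ range (P i'))
    (hinj : ∀ i i', range (P i) = range (P i') → i = i') :
    (∀ i i', i ≠ i' → Disjoint (interior (convexHull ℝ (range (P i))))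
      (interior (convexHull ℝ (range (P i'))))) ∧
    ∀ i i', convexHull ℝ (range (P i)) ∩ convexHull ℝ (range (P i')) =
      convexHull ℝ (range (P i) ∩ range (P i')) := by
  classical
  have hrep : ∀ i x, x ∈ convexHull ℝ (range (P i)) → ∃ w : Fin 4 → ℝ, (∀ a, 0 ≤ w a) ∧
      ∑ a, w a = 1 ∧ x = ∑ a, w a • P i a ∧
      (x ∈ interior (convexHull ℝ (range (P i))) → ∀ a, 0 < w a) := by
    intro i x hx
    have htop : affineSpan ℝ (range (P i)) = ⊤ := by
      rw [(hP i).affineSpan_eq_top_iff_card_eq_finrank_add_one]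
      simp
    let b : AffineBasis (Fin 4) ℝ E3 := ⟨P i, hP i, htop⟩
    have hb : (b : Fin 4 → E3) = P i := rfl
    have h1 : x ∈ convexHull ℝ (range b) := hx
    rw [b.convexHull_eq_nonneg_coord] at h1
    refine ⟨fun a => b.coord a x, h1, b.sum_coord_apply_eq_one x,
      (b.linear_combination_coord_eq_self x).symm, fun h2 => ?_⟩
    have h3 : x ∈ interior (convexHull ℝ (range b)) := h2
    rw [b.interior_convexHull] at h3
    exact h3
  have hmem : ∀ i i' (w w' : Fin 4 → ℝ), (∀ a, 0 ≤ w a) → ∑ a, w a = 1 → (∀ a, 0 ≤ w' a) →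
      ∑ a, w' a = 1 → ∑ a, w a • P i a = ∑ a, w' a • P i' a → ∀ a, 0 < w a →
      P i a ∈ range (P i') := by
    intro i i' w w' h1 h2 h3 h4 h5 a ha
    by_contra hcon
    rcases (hw i' w' h3 h4).2 (P i a) hcon with h6 | h6
    · rw [← h5, (hw i w h1 h2).1 a] at h6
      exact ha.ne' h6
    · exact h6 i (mem_range_self a)
  constructor
  · intro i i' hii
    rw [Set.disjoint_left]
    intro x hx hx'
    obtain ⟨w, w1, w2, w3, w4⟩ := hrep i x (interior_subset hx)
    obtain ⟨w', v1, v2, v3, v4⟩ := hrep i' x (interior_subset hx')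
    apply hii
    apply hinj
    apply Set.Subset.antisymm
    · rintro _ ⟨a, rfl⟩
      exact hmem i i' w w' w1 w2 v1 v2 (w3.symm.trans v3) a (w4 hx a)
    · rintro _ ⟨a, rfl⟩
      exact hmem i' i w' w v1 v2 w1 w2 (v3.symm.trans w3) a (v4 hx' a)
  · intro i i'
    apply Set.Subset.antisymm
    · rintro x ⟨hx, hx'⟩
      obtain ⟨w, w1, w2, w3, -⟩ := hrep i x hx
      obtain ⟨w', v1, v2, v3, -⟩ := hrep i' x hx'
      have h1 : ∀ a, 0 < w a → P i a ∈ range (P i) ∩ range (P i') := fun a ha =>
        ⟨mem_range_self a, hmem i i' w w' w1 w2 v1 v2 (w3.symm.trans v3) a ha⟩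
      have h2 : ∑ a ∈ Finset.univ.filter (fun a => 0 < w a), w a = 1 := by
        rw [← w2]
        apply Finset.sum_filter_of_ne
        intro a _ ha
        exact lt_of_le_of_ne (w1 a) (Ne.symm ha)
      have h3 : ∑ a ∈ Finset.univ.filter (fun a => 0 < w a), w a • P i a = x := by
        rw [w3]
        apply Finset.sum_filter_of_ne
        intro a _ ha
        refine lt_of_le_of_ne (w1 a) (fun h0 => ha ?_)
        rw [← h0, zero_smul]
      rw [← h3]
      exact (convex_convexHull ℝ _).sum_mem (fun a _ => w1 a) h2 fun a ha =>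
        subset_convexHull ℝ _ (h1 a (Finset.mem_filter.1 ha).2)
    · exact Set.subset_inter (convexHull_mono Set.inter_subset_left)
        (convexHull_mono Set.inter_subset_right)

end Pool.Agent.Helper22.FF
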