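import Pool.Agent.Helper22.FF.Kuhn
import Pool.Agent.Helper22.FF.Isom

/-!
FF-25 Tile3.  Goldberg's third family tiles face-to-face.

PROOF. `half_path_tiles`: `Φ x = ∑ i, x i • w i`. Each path simplex `v0 v1 v2 v3` (`v a = kv n σ a`, `v3 = v0 + (1,1,1)`) is cut into
`v0 v1 v2 N` and `v3 v2 v1 N`, `N = (v0 + v3)/2 = n + (1/2, 1/2, 1/2)`. Family indexed by `(n, σ, b)`, `b : Bool`,
`P (n, σ, false) = Φ ∘ ![v0, v1, v2, N]`, `P (n, σ, true) = Φ ∘ ![v3, v2, v1, N]`. The mutual distances agree with those of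
`![0, w 0, w 0 + w 1, (1/2) (w 0 + w 1 + w 2)]` (Gram matrix with `⟪w i, w i⟫ = A`, `⟪w i, w j⟫ = B`), so all are congruent
(`exists_isometry`). Covering: `x = ∑ λ a v a` (`kuhn_cover`); if `λ 0 ≥ λ 3` then
`x = (λ 0 - λ 3) v0 + λ 1 v1 + λ 2 v2 + 2 λ 3 N`, otherwise `x = (λ 3 - λ 0) v3 + λ 2 v2 + λ 1 v1 + 2 λ 0 N`.
Face-to-face: `ff_of_weights` with, for `x, v` in coordinates (`Φ⁻¹`), `e = (1,1,1)`, and `h m = hat (x - m)`:
`Wt x v = h v - min (h v) (h (v + e)) - min (h v) (h (v - e))` if `v` is an integer point, and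
`Wt x v = 2 min (h (v - e/2)) (h (v + e/2))` otherwise. If `x = α v0 + λ1 v1 + λ2 v2 + ν N` (weights `≥ 0`, sum 1) then
`x = (α + ν/2) v0 + λ1 v1 + λ2 v2 + (ν/2) v3` and `kuhn_weights` gives `h v0 = α + ν/2`, `h v1 = λ1`, `h v2 = λ2`, `h v3 = ν/2`, and `h = 0` at
all other integer points, in particular at `v0 - e`, `v3 + e`, `v1 ± e`, `v2 ± e`. So `Wt x v0 = α`, `Wt x v1 = λ1`, `Wt x v2 = λ2`,
`Wt x v3 = 0`, `Wt x N = ν`, `Wt x v = 0` for all other vertices `v` (for `v = m + e/2`, `m` integer, `min (h m) (h (m + e)) ≠ 0`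
only if both are vertices of the path simplex, so `m = v0`). Similarly for the other half. Injectivity: the
non-integer vertex is `n + e/2`, so `n = n'`; the vertices `v1, v2` together with `v0` or `v3` determine `σ` and `b`
(`v0` or `v3` is the integer vertex with all coordinates of `v - n` equal; then `v1` is the one with coordinate sum `1`).
`G3_tilesFF`: `G3 (len p)`: `A = |01|² = |02|²`, `B = |03|² = |13|²`, `|23|² = 3(A - B)`, `|12|² = 5A - 4B`. Put `w 0 = p 0 - p 2`,
`w 1 = p 1 - p 0`, `w 2 = 2 p 3 - p 2 - p 1`. Then `p 3 - p 2 = (w 0 + w 1 + w 2)/2`, `|w 2|² = 2|32|² + 2|31|² - |12|² = A` (parallelogram law),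
and all inner products `⟪w i, w j⟫` (`i ≠ j`) are equal to `(|12|² - 2A)/2 = (3A - 4B)/2`: `|w 0 + w 1|² = |p 1 - p 2|² = 5A - 4B`;
`|w 1 + w 2|² = |2 p 3 - p 2 - p 0|² = 2|p3-p2|² + 2|p3-p0|² - |p2-p0|² = 6A - 6B + 2B - A = 5A - 4B`; and
`|w 0 + w 1 + w 2|² = 4·3(A - B)` gives the third. `TilesFF_congr`, `TilesFF_perm`.
-/

open Real Set Pool.Agent.Helper1.Tet
open scoped RealInnerProductSpace

namespace Pool.Agent.Helper22.FF


namespace Tile3Aux

/-- integer points -/
def IsI (c : Fin 3 → ℝ) : Prop := ∃ m : Fin 3 → ℤ, c = fun i => (m i : ℝ)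

/-- the weight at `c` -/
noncomputable def hh (y c : Fin 3 → ℝ) : ℝ := hat (fun i => y i - c i)

open Classical in
/-- the weights of the halves -/
noncomputable def WC (y c : Fin 3 → ℝ) : ℝ :=
  if IsI c then
    hh y c - min (hh y c) (hh y (fun i => c i + 1)) - min (hh y c) (hh y (fun i => c i - 1))
  else 2 * min (hh y (fun i => c i - 1 / 2)) (hh y (fun i => c i + 1 / 2))

/-- vertices (coordinates) of the half simplices -/
noncomputable def C (n : Fin 3 → ℤ) (σ : Equiv.Perm (Fin 3)) (b : Bool) : Fin 4 → Fin 3 → ℝ :=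
  if b = true then ![kv n σ 3, kv n σ 2, kv n σ 1, fun i => n i + 1 / 2]
  else ![kv n σ 0, kv n σ 1, kv n σ 2, fun i => n i + 1 / 2]

lemma hh_nonneg (y c : Fin 3 → ℝ) : 0 ≤ hh y c := le_max_left _ _

lemma kv_zero (n : Fin 3 → ℤ) (σ : Equiv.Perm (Fin 3)) : kv n σ 0 = fun i => (n i : ℝ) := by
  funext i
  simp [kv]

lemma kv_three (n : Fin 3 → ℤ) (σ : Equiv.Perm (Fin 3)) : kv n σ 3 = fun i => (n i : ℝ) + 1 := by
  funext i
  have h : ((σ.symm i : Fin 3) : ℕ) < ((3 : Fin 4) : ℕ) := (σ.symm i).2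
  simp only [kv, if_pos h]

lemma kv_ge (n : Fin 3 → ℤ) (σ : Equiv.Perm (Fin 3)) (a : Fin 4) (i : Fin 3) :
    (n i : ℝ) ≤ kv n σ a i := by
  unfold kv
  split_ifs <;> linarith

lemma kv_le (n : Fin 3 → ℤ) (σ : Equiv.Perm (Fin 3)) (a : Fin 4) (i : Fin 3) :
    kv n σ a i ≤ (n i : ℝ) + 1 := by
  unfold kv
  split_ifs <;> linarith

lemma kv_top (n : Fin 3 → ℤ) (σ : Equiv.Perm (Fin 3)) (a : Fin 4) (ha : a ≠ 0) :
    kv n σ a (σ 0) = (n (σ 0) : ℝ) + 1 := by
  have h : (((σ.symm (σ 0)) : Fin 3) : ℕ) < (a : ℕ) := by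
    rw [Equiv.symm_apply_apply]
    have : (a : ℕ) ≠ 0 := fun h => ha (Fin.ext h)
    simpa using Nat.pos_of_ne_zero this
  simp only [kv, if_pos h]

lemma kv_bot (n : Fin 3 → ℤ) (σ : Equiv.Perm (Fin 3)) (a : Fin 4) (ha : a ≠ 3) :
    kv n σ a (σ 2) = (n (σ 2) : ℝ) := by
  have h : ¬ (((σ.symm (σ 2)) : Fin 3) : ℕ) < (a : ℕ) := by
    rw [Equiv.symm_apply_apply]
    have h1 : (a : ℕ) ≠ 3 := fun h => ha (Fin.ext h)
    have h2 := a.2
    have h3 : ((2 : Fin 3) : ℕ) = 2 := rfl
    omega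
  simp only [kv, if_neg h, add_zero]

section main

variable {n : Fin 3 → ℤ} {σ : Equiv.Perm (Fin 3)} {ω : Fin 4 → ℝ} {y : Fin 3 → ℝ}

lemma hh_kv (hω : ∀ a, 0 ≤ ω a) (hs : ∑ a, ω a = 1) (hy : y = fun i => ∑ b, ω b * kv n σ b i)
    (a : Fin 4) : hh y (kv n σ a) = ω a := by
  subst hy
  exact (kuhn_weights n σ ω hω hs).1 a

lemma hh_int (hω : ∀ a, 0 ≤ ω a) (hs : ∑ a, ω a = 1) (hy : y = fun i => ∑ b, ω b * kv n σ b i)
    (c : Fin 3 → ℝ) (hc : IsI c) (h : ∀ a, c ≠ kv n σ a) : hh y c = 0 := by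
  subst hy
  obtain ⟨m, rfl⟩ := hc
  exact (kuhn_weights n σ ω hω hs).2 m h

lemma isI_add {c : Fin 3 → ℝ} (h : IsI c) : IsI (fun i => c i + 1) := by
  obtain ⟨m, rfl⟩ := h
  exact ⟨fun i => m i + 1, by funext i; push_cast; ring⟩

lemma isI_sub {c : Fin 3 → ℝ} (h : IsI c) : IsI (fun i => c i - 1) := by
  obtain ⟨m, rfl⟩ := h
  exact ⟨fun i => m i - 1, by funext i; push_cast; ring⟩

lemma isI_kv (n : Fin 3 → ℤ) (σ : Equiv.Perm (Fin 3)) (a : Fin 4) : IsI (kv n σ a) :=
  kv_int n σ a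

lemma not_isI_half (m : Fin 3 → ℤ) : ¬ IsI (fun i => (m i : ℝ) + 1 / 2) := by
  rintro ⟨k, hk⟩
  have h := congrFun hk 0
  have h2 : (2 * k 0 : ℤ) = 2 * m 0 + 1 := by
    have : (2 : ℝ) * (k 0 : ℝ) = 2 * (m 0 : ℝ) + 1 := by linarith
    exact_mod_cast this
  omega

lemma add_out (a : Fin 4) (ha : a ≠ 0) (a' : Fin 4) : (fun i => kv n σ a i + 1) ≠ kv n σ a' := by
  intro h
  have h1 := congrFun h (σ 0)
  rw [kv_top n σ a ha] at h1
  have := kv_le n σ a' (σ 0)
  linarith

lemma sub_out (a : Fin 4) (ha : a ≠ 3) (a' : Fin 4) : (fun i => kv n σ a i - 1) ≠ kv n σ a' := by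
  intro h
  have h1 := congrFun h (σ 2)
  rw [kv_bot n σ a ha] at h1
  have := kv_ge n σ a' (σ 2)
  linarith

lemma WC_1 (hω : ∀ a, 0 ≤ ω a) (hs : ∑ a, ω a = 1) (hy : y = fun i => ∑ b, ω b * kv n σ b i)
    (a : Fin 4) (h0 : a ≠ 0) (h3 : a ≠ 3) : WC y (kv n σ a) = ω a := by
  rw [WC, if_pos (isI_kv n σ a), hh_kv hω hs hy a,
    hh_int hω hs hy _ (isI_add (isI_kv n σ a)) (add_out a h0),
    hh_int hω hs hy _ (isI_sub (isI_kv n σ a)) (sub_out a h3), min_eq_right (hω a)]
  ring

lemma WC_0 (hω : ∀ a, 0 ≤ ω a) (hs : ∑ a, ω a = 1) (hy : y = fun i => ∑ b, ω b * kv n σ b i) :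
    WC y (kv n σ 0) = ω 0 - min (ω 0) (ω 3) := by
  have h1 : (fun i => kv n σ 0 i + 1) = kv n σ 3 := by rw [kv_zero, kv_three]
  rw [WC, if_pos (isI_kv n σ 0), hh_kv hω hs hy 0, h1, hh_kv hω hs hy 3,
    hh_int hω hs hy _ (isI_sub (isI_kv n σ 0)) (sub_out 0 (by decide)), min_eq_right (hω 0)]
  ring

lemma WC_3 (hω : ∀ a, 0 ≤ ω a) (hs : ∑ a, ω a = 1) (hy : y = fun i => ∑ b, ω b * kv n σ b i) :
    WC y (kv n σ 3) = ω 3 - min (ω 3) (ω 0) := by
  have h1 : (fun i => kv n σ 3 i - 1) = kv n σ 0 := by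
    rw [kv_zero, kv_three]
    funext i
    simp
  rw [WC, if_pos (isI_kv n σ 3), hh_kv hω hs hy 3, h1, hh_kv hω hs hy 0,
    hh_int hω hs hy _ (isI_add (isI_kv n σ 3)) (add_out 3 (by decide)), min_eq_right (hω 3)]
  ring

lemma WC_N (hω : ∀ a, 0 ≤ ω a) (hs : ∑ a, ω a = 1) (hy : y = fun i => ∑ b, ω b * kv n σ b i) :
    WC y (fun i => (n i : ℝ) + 1 / 2) = 2 * min (ω 0) (ω 3) := by
  have h1 : (fun i => (n i : ℝ) + 1 / 2 - 1 / 2) = kv n σ 0 := by
    rw [kv_zero]
    funext i
    ring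
  have h2 : (fun i => (n i : ℝ) + 1 / 2 + 1 / 2) = kv n σ 3 := by
    rw [kv_three]
    funext i
    ring
  rw [WC, if_neg (not_isI_half n), h1, h2, hh_kv hω hs hy 0, hh_kv hω hs hy 3]

lemma WC_int (hω : ∀ a, 0 ≤ ω a) (hs : ∑ a, ω a = 1) (hy : y = fun i => ∑ b, ω b * kv n σ b i)
    (c : Fin 3 → ℝ) (hc : IsI c) (h : ∀ a, c ≠ kv n σ a) : WC y c = 0 := by
  rw [WC, if_pos hc, hh_int hω hs hy c hc h, min_eq_left (hh_nonneg _ _),
    min_eq_left (hh_nonneg _ _)]
  ring

lemma WC_half (hω : ∀ a, 0 ≤ ω a) (hs : ∑ a, ω a = 1) (hy : y = fun i => ∑ b, ω b * kv n σ b i)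
    (m : Fin 3 → ℤ) (hm : m ≠ n) : WC y (fun i => (m i : ℝ) + 1 / 2) = 0 := by
  rw [WC, if_neg (not_isI_half m)]
  have h1 : (fun i => (m i : ℝ) + 1 / 2 - 1 / 2) = fun i => (m i : ℝ) := by
    funext i
    ring
  have h2 : (fun i => (m i : ℝ) + 1 / 2 + 1 / 2) = fun i => (m i : ℝ) + 1 := by
    funext i
    ring
  rw [h1, h2]
  have hI : IsI (fun i => (m i : ℝ)) := ⟨m, rfl⟩
  by_cases hA : ∀ a, (fun i => (m i : ℝ)) ≠ kv n σ a
  · rw [hh_int hω hs hy _ hI hA, min_eq_left (hh_nonneg _ _), mul_zero]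
  · push Not at hA
    obtain ⟨a, ha⟩ := hA
    have h0 : a ≠ 0 := by
      rintro rfl
      apply hm
      rw [kv_zero] at ha
      funext i
      have := congrFun ha i
      exact_mod_cast this
    have h3 : ∀ a', (fun i => (m i : ℝ) + 1) ≠ kv n σ a' := by
      intro a' h
      refine add_out (n := n) (σ := σ) a h0 a' ?_
      rw [← h, ← ha]
    rw [hh_int hω hs hy _ (isI_add hI) h3, min_eq_right (hh_nonneg _ _), mul_zero]

end main

lemma C_weights (n : Fin 3 → ℤ) (σ : Equiv.Perm (Fin 3)) (b : Bool) (w : Fin 4 → ℝ)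
    (hw : ∀ a, 0 ≤ w a) (hs : ∑ a, w a = 1) :
    (∀ a, WC (fun i => ∑ a, w a * C n σ b a i) (C n σ b a) = w a) ∧
    ∀ c, c ∉ range (C n σ b) → WC (fun i => ∑ a, w a * C n σ b a i) c = 0 ∨
      ∀ n' σ' b', c ∉ range (C n' σ' b') := by
  have hs' := hs
  rw [Fin.sum_univ_four] at hs'
  have w0 := hw 0
  have w1 := hw 1
  have w2 := hw 2
  have w3 := hw 3
  have key : ∃ ω : Fin 4 → ℝ, (∀ a, 0 ≤ ω a) ∧ ∑ a, ω a = 1 ∧
      (fun i => ∑ a, w a * C n σ b a i) = (fun i => ∑ b, ω b * kv n σ b i) ∧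
      ω = if b = true then ![w 3 / 2, w 2, w 1, w 0 + w 3 / 2]
        else ![w 0 + w 3 / 2, w 1, w 2, w 3 / 2] := by
    refine ⟨_, ?_, ?_, ?_, rfl⟩
    · cases b <;> intro a <;> fin_cases a <;> simp <;> linarith
    · cases b <;> simp [Fin.sum_univ_four] <;> linarith
    · funext i
      cases b <;> simp [Fin.sum_univ_four, C, kv_zero, kv_three] <;> ring
  obtain ⟨ω, hω, hωs, hy, hω'⟩ := key
  rw [hy]
  have hy' : (fun i => ∑ b, ω b * kv n σ b i) = fun i => ∑ b, ω b * kv n σ b i := rfl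
  have g1 := WC_1 hω hωs hy' 1 (by decide) (by decide)
  have g2 := WC_1 hω hωs hy' 2 (by decide) (by decide)
  have g0 := WC_0 hω hωs hy'
  have g3 := WC_3 hω hωs hy'
  have gN := WC_N hω hωs hy'
  refine ⟨?_, ?_⟩
  · cases b
    · simp only [Bool.false_eq_true, if_false] at hω'
      have e0 : ω 0 = w 0 + w 3 / 2 := by rw [hω']; rfl
      have e1 : ω 1 = w 1 := by rw [hω']; rfl
      have e2 : ω 2 = w 2 := by rw [hω']; rfl
      have e3 : ω 3 = w 3 / 2 := by rw [hω']; rfl
      rw [e0, e3, min_eq_right (by linarith)] at g0 gN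
      intro a
      fin_cases a
      · refine g0.trans ?_
        show w 0 + w 3 / 2 - w 3 / 2 = w 0
        ring
      · exact g1.trans e1
      · exact g2.trans e2
      · refine gN.trans ?_
        show 2 * (w 3 / 2) = w 3
        ring
    · simp only [if_true] at hω'
      have e0 : ω 0 = w 3 / 2 := by rw [hω']; rfl
      have e1 : ω 1 = w 2 := by rw [hω']; rfl
      have e2 : ω 2 = w 1 := by rw [hω']; rfl
      have e3 : ω 3 = w 0 + w 3 / 2 := by rw [hω']; rfl
      rw [e0, e3, min_eq_right (by linarith)] at g3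
      rw [e0, e3, min_eq_left (by linarith)] at gN
      intro a
      fin_cases a
      · refine g3.trans ?_
        show w 0 + w 3 / 2 - w 3 / 2 = w 0
        ring
      · exact g2.trans e2
      · exact g1.trans e1
      · refine gN.trans ?_
        show 2 * (w 3 / 2) = w 3
        ring
  · intro c hc
    by_cases hI : IsI c
    · left
      by_cases hA : ∀ a, c ≠ kv n σ a
      · exact WC_int hω hωs hy' c hI hA
      · push Not at hA
        obtain ⟨a, rfl⟩ := hA
        cases b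
        · simp only [Bool.false_eq_true, if_false] at hω'
          have e0 : ω 0 = w 0 + w 3 / 2 := by rw [hω']; rfl
          have e3 : ω 3 = w 3 / 2 := by rw [hω']; rfl
          have ha : a = 3 := by
            by_contra h
            apply hc
            fin_cases a
            · exact ⟨0, rfl⟩
            · exact ⟨1, rfl⟩
            · exact ⟨2, rfl⟩
            · exact absurd rfl h
          subst ha
          rw [g3, e0, e3, min_eq_left (by linarith), sub_self]
        · simp only [if_true] at hω'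
          have e0 : ω 0 = w 3 / 2 := by rw [hω']; rfl
          have e3 : ω 3 = w 0 + w 3 / 2 := by rw [hω']; rfl
          have ha : a = 0 := by
            by_contra h
            apply hc
            fin_cases a
            · exact absurd rfl h
            · exact ⟨2, rfl⟩
            · exact ⟨1, rfl⟩
            · exact ⟨0, rfl⟩
          subst ha
          rw [g0, e0, e3, min_eq_left (by linarith), sub_self]
    · by_cases hH : ∃ m : Fin 3 → ℤ, c = fun i => (m i : ℝ) + 1 / 2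
      · left
        obtain ⟨m, rfl⟩ := hH
        refine WC_half hω hωs hy' m ?_
        rintro rfl
        apply hc
        cases b
        · exact ⟨3, rfl⟩
        · exact ⟨3, rfl⟩
      · right
        rintro n' σ' b' ⟨a, rfl⟩
        cases b'
        · fin_cases a
          · exact hI (isI_kv n' σ' 0)
          · exact hI (isI_kv n' σ' 1)
          · exact hI (isI_kv n' σ' 2)
          · exact hH ⟨n', rfl⟩
        · fin_cases a
          · exact hI (isI_kv n' σ' 3)
          · exact hI (isI_kv n' σ' 2)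
          · exact hI (isI_kv n' σ' 1)
          · exact hH ⟨n', rfl⟩

lemma C_half_mem {n : Fin 3 → ℤ} {σ : Equiv.Perm (Fin 3)} {b : Bool} {m : Fin 3 → ℤ}
    (h : (fun i => (m i : ℝ) + 1 / 2) ∈ range (C n σ b)) : m = n := by
  obtain ⟨a, ha⟩ := h
  have key : (fun i => (n i : ℝ) + 1 / 2) = fun i => (m i : ℝ) + 1 / 2 := by
    cases b
    · fin_cases a
      · exact absurd (by rw [← ha]; exact isI_kv n σ 0) (not_isI_half m)
      · exact absurd (by rw [← ha]; exact isI_kv n σ 1) (not_isI_half m)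
      · exact absurd (by rw [← ha]; exact isI_kv n σ 2) (not_isI_half m)
      · exact ha
    · fin_cases a
      · exact absurd (by rw [← ha]; exact isI_kv n σ 3) (not_isI_half m)
      · exact absurd (by rw [← ha]; exact isI_kv n σ 2) (not_isI_half m)
      · exact absurd (by rw [← ha]; exact isI_kv n σ 1) (not_isI_half m)
      · exact ha
  funext i
  have := congrFun key i
  have h2 : (m i : ℝ) = n i := by linarith
  exact_mod_cast h2

lemma kv_ne_zero_of {n : Fin 3 → ℤ} {σ : Equiv.Perm (Fin 3)} {a : Fin 4} (ha : a ≠ 0) :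
    kv n σ a ≠ fun i => (n i : ℝ) := by
  intro h
  have h1 := congrFun h (σ 0)
  rw [kv_top n σ a ha] at h1
  linarith

lemma kv_ne_three_of {n : Fin 3 → ℤ} {σ : Equiv.Perm (Fin 3)} {a : Fin 4} (ha : a ≠ 3) :
    kv n σ a ≠ fun i => (n i : ℝ) + 1 := by
  intro h
  have h1 := congrFun h (σ 2)
  rw [kv_bot n σ a ha] at h1
  linarith

lemma zero_mem (n : Fin 3 → ℤ) (σ : Equiv.Perm (Fin 3)) (b : Bool) :
    (fun i => (n i : ℝ)) ∈ range (C n σ b) ↔ b = false := by
  constructor
  · rintro ⟨a, ha⟩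
    cases b
    · rfl
    · exfalso
      fin_cases a
      · exact kv_ne_zero_of (n := n) (σ := σ) (a := 3) (by decide) ha
      · exact kv_ne_zero_of (n := n) (σ := σ) (a := 2) (by decide) ha
      · exact kv_ne_zero_of (n := n) (σ := σ) (a := 1) (by decide) ha
      · exact not_isI_half n ⟨n, ha⟩
  · rintro rfl
    exact ⟨0, kv_zero n σ⟩

lemma range_kv (n : Fin 3 → ℤ) (σ : Equiv.Perm (Fin 3)) (b : Bool) :
    range (kv n σ) = {c | c ∈ range (C n σ b) ∧ IsI c} ∪
      {fun i => (n i : ℝ), fun i => (n i : ℝ) + 1} := by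
  ext c
  constructor
  · rintro ⟨a, rfl⟩
    by_cases h0 : a = 0
    · subst h0
      right
      left
      exact kv_zero n σ
    by_cases h3 : a = 3
    · subst h3
      right
      right
      exact kv_three n σ
    · left
      refine ⟨?_, isI_kv n σ a⟩
      cases b
      · fin_cases a
        · exact absurd rfl h0
        · exact ⟨1, rfl⟩
        · exact ⟨2, rfl⟩
        · exact absurd rfl h3
      · fin_cases a
        · exact absurd rfl h0
        · exact ⟨2, rfl⟩
        · exact ⟨1, rfl⟩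
        · exact absurd rfl h3
  · rintro (⟨⟨a, rfl⟩, hI⟩ | rfl | rfl)
    · cases b
      · fin_cases a
        · exact ⟨0, rfl⟩
        · exact ⟨1, rfl⟩
        · exact ⟨2, rfl⟩
        · exact absurd hI (not_isI_half n)
      · fin_cases a
        · exact ⟨3, rfl⟩
        · exact ⟨2, rfl⟩
        · exact ⟨1, rfl⟩
        · exact absurd hI (not_isI_half n)
    · exact ⟨0, kv_zero n σ⟩
    · exact ⟨3, kv_three n σ⟩

lemma C_inj {n n' : Fin 3 → ℤ} {σ σ' : Equiv.Perm (Fin 3)} {b b' : Bool}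
    (h : range (C n σ b) = range (C n' σ' b')) : n = n' ∧ σ = σ' ∧ b = b' := by
  have h1 : n = n' := by
    refine C_half_mem (n := n') (σ := σ') (b := b') ?_
    rw [← h]
    cases b
    · exact ⟨3, rfl⟩
    · exact ⟨3, rfl⟩
  subst h1
  have h2 : b = b' := by
    have e1 := zero_mem n σ b
    have e2 := zero_mem n σ' b'
    rw [h] at e1
    have e3 := e1.symm.trans e2
    cases b <;> cases b' <;> simp_all
  subst h2
  have h3 : range (kv n σ) = range (kv n σ') := by
    rw [range_kv n σ b, range_kv n σ' b, h]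
  exact ⟨rfl, (kv_inj n n σ σ' h3).2, rfl⟩

/-- the quadratic form -/
def Q (A B : ℝ) (y : Fin 3 → ℝ) : ℝ := (A - B) * ∑ i, y i ^ 2 + B * (∑ i, y i) ^ 2

lemma Q_perm (A B : ℝ) (y : Fin 3 → ℝ) (σ : Equiv.Perm (Fin 3)) :
    Q A B (fun i => y (σ i)) = Q A B y := by
  unfold Q
  rw [Equiv.sum_comp σ y, Equiv.sum_comp σ (fun i => y i ^ 2)]

/-- the standard half simplex -/
noncomputable def C0 : Fin 4 → Fin 3 → ℝ :=
  ![![0, 0, 0], ![1, 0, 0], ![1, 1, 0], ![1 / 2, 1 / 2, 1 / 2]]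

lemma Q_C (A B : ℝ) (n : Fin 3 → ℤ) (σ : Equiv.Perm (Fin 3)) (b : Bool) (a a' : Fin 4) :
    Q A B (C n σ b a - C n σ b a') = Q A B (C0 a - C0 a') := by
  cases b
  · have h : ∀ a, C n σ false a = fun i => n i + C0 a (σ.symm i) := by
      intro a
      funext i
      obtain ⟨j, rfl⟩ := σ.surjective i
      rw [Equiv.symm_apply_apply]
      fin_cases a <;> fin_cases j <;> simp [C, C0, kv]
    have h2 : C n σ false a - C n σ false a' = fun i => (C0 a - C0 a') (σ.symm i) := by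
      rw [h, h]
      funext i
      simp
    rw [h2, Q_perm]
  · have h : ∀ a, C n σ true a = fun i => n i + (1 - C0 a (Fin.rev (σ.symm i))) := by
      intro a
      funext i
      obtain ⟨j, rfl⟩ := σ.surjective i
      rw [Equiv.symm_apply_apply]
      fin_cases a <;> fin_cases j <;> simp [C, C0, kv, Fin.rev] <;> norm_num
    have h2 : C n σ true a - C n σ true a' =
        fun i => (fun j => -(C0 a - C0 a') (Fin.revPerm j)) (σ.symm i) := by
      rw [h, h]
      funext i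
      simp
    rw [h2, Q_perm A B (fun j => -(C0 a - C0 a') (Fin.revPerm j)) σ.symm,
      Q_perm A B (fun j => -(C0 a - C0 a') j) Fin.revPerm]
    simp [Q, Fin.sum_univ_three]
    ring

section phi

variable (w : Fin 3 → E3) (hw : LinearIndependent ℝ w)

/-- the coordinates -/
noncomputable def Phi : (Fin 3 → ℝ) ≃ₗ[ℝ] E3 :=
  (basisOfLinearIndependentOfCardEqFinrank hw (by simp)).equivFun.symm

lemma Phi_apply (x : Fin 3 → ℝ) : Phi w hw x = ∑ i, x i • w i := by
  simp [Phi, Module.Basis.equivFun_symm_apply]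

lemma norm_Phi (A B : ℝ) (hA : ∀ i, ⟪w i, w i⟫ = A) (hB : ∀ i j, i ≠ j → ⟪w i, w j⟫ = B)
    (x : Fin 3 → ℝ) : ‖Phi w hw x‖ ^ 2 = Q A B x := by
  rw [Phi_apply, ← real_inner_self_eq_norm_sq]
  simp only [Fin.sum_univ_three, inner_add_left, inner_add_right, inner_smul_left,
    inner_smul_right, hA, hB 0 1 (by decide), hB 0 2 (by decide), hB 1 2 (by decide),
    hB 1 0 (by decide), hB 2 0 (by decide), hB 2 1 (by decide), Q]
  simp
  ring

end phi

end Tile3Aux

open Tile3Aux

theorem half_path_tiles (w : Fin 3 → E3) (hw : LinearIndependent ℝ w) (A B : ℝ)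
    (hA : ∀ i, ⟪w i, w i⟫ = A) (hB : ∀ i j, i ≠ j → ⟪w i, w j⟫ = B) :
    TilesFF ![0, w 0, w 0 + w 1, (1 / 2 : ℝ) • (w 0 + w 1 + w 2)] := by
  set p : Fin 4 → E3 := ![0, w 0, w 0 + w 1, (1 / 2 : ℝ) • (w 0 + w 1 + w 2)] with hp
  have hpC : ∀ a, p a = Phi w hw (C0 a) := by
    intro a
    rw [Phi_apply]
    fin_cases a <;> simp [hp, C0, Fin.sum_univ_three, smul_add]
  have hpi : AffineIndependent ℝ p := by
    rw [affineIndependent_iff_linearIndependent_vsub ℝ p 0]
    rw [Fintype.linearIndependent_iff] at hw ⊢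
    intro g hg
    let e : {x : Fin 4 // x ≠ 0} ≃ Fin 3 :=
      { toFun := fun x => x.1.pred x.2
        invFun := fun j => ⟨j.succ, Fin.succ_ne_zero j⟩
        left_inv := fun x => by simp
        right_inv := fun j => by simp }
    have hg' : ∑ j : Fin 3, g (e.symm j) • (p j.succ - p 0) = 0 := by
      rw [← hg, ← Equiv.sum_comp e]
      refine Finset.sum_congr rfl fun x _ => ?_
      have : (e x).succ = x.1 := by simp [e]
      rw [Equiv.symm_apply_apply, this]
      simp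
    rw [Fin.sum_univ_three] at hg'
    simp only [Fin.succ_zero_eq_one, hp] at hg'
    have h3 := hw ![g (e.symm 0) + g (e.symm 1) + g (e.symm 2) / 2,
      g (e.symm 1) + g (e.symm 2) / 2, g (e.symm 2) / 2] (by
        rw [← hg']
        simp [Fin.sum_univ_three]
        module)
    have a2 := h3 2
    have a1 := h3 1
    have a0 := h3 0
    simp at a2 a1 a0
    have b2 : g (e.symm 2) = 0 := a2
    have b1 : g (e.symm 1) = 0 := by rw [b2] at a1; simpa using a1
    have b0 : g (e.symm 0) = 0 := by rw [b2, b1] at a0; simpa using a0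
    intro i
    obtain ⟨j, rfl⟩ := e.symm.surjective i
    fin_cases j
    · exact b0
    · exact b1
    · exact b2
  let P : (Fin 3 → ℤ) × Equiv.Perm (Fin 3) × Bool → Fin 4 → E3 := fun i a =>
    Phi w hw (C i.1 i.2.1 i.2.2 a)
  have hdist : ∀ x y : Fin 3 → ℝ, dist (Phi w hw x) (Phi w hw y) = √(Q A B (x - y)) := by
    intro x y
    rw [dist_eq_norm, ← map_sub, ← norm_Phi w hw A B hA hB, Real.sqrt_sq (norm_nonneg _)]
  have hcong : ∀ i, ∃ g : E3 ≃ᵢ E3, P i = g ∘ p := by
    intro i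
    refine exists_isometry p (P i) hpi ?_
    intro a b
    rw [hpC, hpC, hdist]
    show _ = dist (Phi w hw _) (Phi w hw _)
    rw [hdist, Q_C]
  have hPi : ∀ i, AffineIndependent ℝ (P i) := by
    intro i
    obtain ⟨g, hg⟩ := hcong i
    rw [hg]
    exact hpi.map' (g.toRealAffineIsometryEquiv.toAffineEquiv : E3 →ᵃ[ℝ] E3) g.injective
  have hmain := ff_of_weights P hPi (fun x v => WC ((Phi w hw).symm x) ((Phi w hw).symm v)) ?_ ?_
  · refine ⟨range P, ?_, ?_, ?_⟩
    · rintro q ⟨i, rfl⟩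
      exact hcong i
    · rw [eq_univ_iff_forall]
      intro x
      obtain ⟨n, σ, lam, hl, hls, hx⟩ := kuhn_cover ((Phi w hw).symm x)
      have hls' := hls
      rw [Fin.sum_univ_four] at hls'
      have l0 := hl 0
      have l1 := hl 1
      have l2 := hl 2
      have l3 := hl 3
      have key : ∃ (b : Bool) (u : Fin 4 → ℝ), (∀ a, 0 ≤ u a) ∧ ∑ a, u a = 1 ∧
          (Phi w hw).symm x = ∑ a, u a • C n σ b a := by
        rcases le_total (lam 3) (lam 0) with h | h
        · refine ⟨false, ![lam 0 - lam 3, lam 1, lam 2, 2 * lam 3], ?_, ?_, ?_⟩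
          · intro a
            fin_cases a <;> simp <;> linarith
          · simp [Fin.sum_univ_four]
            linarith
          · funext i
            rw [hx i]
            simp [Fin.sum_univ_four, C, kv_zero, kv_three]
            ring
        · refine ⟨true, ![lam 3 - lam 0, lam 2, lam 1, 2 * lam 0], ?_, ?_, ?_⟩
          · intro a
            fin_cases a <;> simp <;> linarith
          · simp [Fin.sum_univ_four]
            linarith
          · funext i
            rw [hx i]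
            simp [Fin.sum_univ_four, C, kv_zero, kv_three]
            ring
      obtain ⟨b, u, hu, hus, hxu⟩ := key
      have hx2 : x = ∑ a, u a • P (n, σ, b) a := by
        have h1 : x = Phi w hw ((Phi w hw).symm x) := by simp
        rw [h1, hxu, map_sum]
        simp only [map_smul]
        rfl
      rw [mem_iUnion₂]
      refine ⟨P (n, σ, b), ⟨_, rfl⟩, ?_⟩
      rw [hx2]
      exact (convex_convexHull ℝ _).sum_mem (fun a _ => hu a) hus
        (fun a _ => subset_convexHull ℝ _ ⟨a, rfl⟩)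
    · rintro q ⟨i, rfl⟩ q' ⟨i', rfl⟩ hne
      refine ⟨hmain.1 i i' ?_, hmain.2 i i'⟩
      rintro rfl
      exact hne rfl
  · rintro ⟨n, σ, b⟩ u hu hus
    have hy : (Phi w hw).symm (∑ a, u a • P (n, σ, b) a) = fun i => ∑ a, u a * C n σ b a i := by
      rw [map_sum]
      simp only [map_smul]
      funext i
      simp [P]
    obtain ⟨h1, h2⟩ := C_weights n σ b u hu hus
    refine ⟨?_, ?_⟩
    · intro a
      show WC ((Phi w hw).symm (∑ a, u a • P (n, σ, b) a)) ((Phi w hw).symm (P (n, σ, b) a)) = _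
      rw [hy]
      have : (Phi w hw).symm (P (n, σ, b) a) = C n σ b a := by simp [P]
      rw [this]
      exact h1 a
    · intro v hv
      show WC ((Phi w hw).symm (∑ a, u a • P (n, σ, b) a)) ((Phi w hw).symm v) = _ ∨ _
      rw [hy]
      have hv' : (Phi w hw).symm v ∉ range (C n σ b) := by
        rintro ⟨a, ha⟩
        apply hv
        exact ⟨a, by simp [P, ha]⟩
      rcases h2 _ hv' with h | h
      · exact Or.inl h
      · right
        rintro ⟨n', σ', b'⟩ ⟨a, ha⟩
        exact h n' σ' b' ⟨a, by rw [← ha]; simp [P]⟩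
  · rintro ⟨n, σ, b⟩ ⟨n', σ', b'⟩ hr
    have h1 : range (C n σ b) = range (C n' σ' b') := by
      have e : ∀ i : (Fin 3 → ℤ) × Equiv.Perm (Fin 3) × Bool,
          range (P i) = (Phi w hw) '' range (C i.1 i.2.1 i.2.2) := by
        intro i
        rw [← range_comp]
        rfl
      rw [e, e] at hr
      exact (Phi w hw).injective.image_injective hr
    obtain ⟨rfl, rfl, rfl⟩ := C_inj h1
    rfl

private lemma pol (x y : E3) (X Y Z : ℝ) (hx : ⟪x, x⟫ = X) (hy : ⟪y, y⟫ = Y)
    (hxy : ⟪x - y, x - y⟫ = Z) : ⟪x, y⟫ = (X + Y - Z) / 2 := by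
  rw [inner_sub_left, inner_sub_right, inner_sub_right, hx, hy, real_inner_comm x y] at hxy
  linarith

theorem G3_tilesFF (p : Fin 4 → E3) (hp : AffineIndependent ℝ p) (h : G3 (len p)) :
    TilesFF p := by
  obtain ⟨h1, h2, h3, h4⟩ := h
  have d01 : len p 0 = dist (p 0) (p 1) := rfl
  have d02 : len p 1 = dist (p 0) (p 2) := rfl
  have d03 : len p 2 = dist (p 0) (p 3) := rfl
  have d12 : len p 3 = dist (p 1) (p 2) := rfl
  have d13 : len p 4 = dist (p 1) (p 3) := rfl
  have d23 : len p 5 = dist (p 2) (p 3) := rfl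
  set A := len p 0 ^ 2 with hA
  set B := len p 2 ^ 2 with hB
  set a : E3 := p 0 - p 2 with ha
  set b : E3 := p 1 - p 2 with hb
  set c : E3 := p 3 - p 2 with hc
  have iaa : ⟪a, a⟫ = A := by
    rw [real_inner_self_eq_norm_sq, ha, ← dist_eq_norm, ← d02, h1]
  have ibb : ⟪b, b⟫ = 5 * A - 4 * B := by
    rw [real_inner_self_eq_norm_sq, hb, ← dist_eq_norm, ← d12, h4]
  have icc : ⟪c, c⟫ = 3 * (A - B) := by
    rw [real_inner_self_eq_norm_sq, hc, ← dist_eq_norm, dist_comm, ← d23, h3]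
  have iab : ⟪b, a⟫ = (5 * A - 4 * B) / 2 := by
    have h5 : ⟪b - a, b - a⟫ = A := by
      have e : b - a = p 1 - p 0 := by simp [ha, hb]
      rw [e, real_inner_self_eq_norm_sq, ← dist_eq_norm, dist_comm, ← d01]
    rw [pol b a _ _ _ ibb iaa h5]
    ring
  have iac : ⟪c, a⟫ = (2 * A - 4 * B + A + A) / 2 := by
    have h5 : ⟪c - a, c - a⟫ = B := by
      have e : c - a = p 3 - p 0 := by simp [ha, hc]
      rw [e, real_inner_self_eq_norm_sq, ← dist_eq_norm, dist_comm, ← d03]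
    rw [pol c a _ _ _ icc iaa h5]
    ring
  have ibc : ⟪c, b⟫ = (8 * A - 8 * B) / 2 := by
    have h5 : ⟪c - b, c - b⟫ = B := by
      have e : c - b = p 3 - p 1 := by simp [hb, hc]
      rw [e, real_inner_self_eq_norm_sq, ← dist_eq_norm, dist_comm, ← d13, h2]
    rw [pol c b _ _ _ icc ibb h5]
    ring
  have iab' : ⟪a, b⟫ = (5 * A - 4 * B) / 2 := by rw [real_inner_comm]; exact iab
  have iac' : ⟪a, c⟫ = (2 * A - 4 * B + A + A) / 2 := by rw [real_inner_comm]; exact iac
  have ibc' : ⟪b, c⟫ = (8 * A - 8 * B) / 2 := by rw [real_inner_comm]; exact ibc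
  let w : Fin 3 → E3 := ![a, b - a, (2 : ℝ) • c - b]
  have hwi : ∀ i, ⟪w i, w i⟫ = A := by
    intro i
    fin_cases i
    · exact iaa
    · show ⟪b - a, b - a⟫ = A
      simp only [inner_sub_left, inner_sub_right, iaa, iab, iab', ibb]
      ring
    · show ⟪(2 : ℝ) • c - b, (2 : ℝ) • c - b⟫ = A
      simp only [inner_sub_left, inner_sub_right, inner_smul_left, inner_smul_right, icc, ibb,
        ibc, ibc']
      simp
      ring
  have w01 : ⟪a, b - a⟫ = (3 * A - 4 * B) / 2 := by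
    simp only [inner_sub_right, iaa, iab']
    ring
  have w02 : ⟪a, (2 : ℝ) • c - b⟫ = (3 * A - 4 * B) / 2 := by
    simp only [inner_sub_right, inner_smul_right, iab', iac']
    ring
  have w12 : ⟪b - a, (2 : ℝ) • c - b⟫ = (3 * A - 4 * B) / 2 := by
    simp only [inner_sub_left, inner_sub_right, inner_smul_right, iab', iac', ibb, ibc']
    ring
  have hwij : ∀ i j, i ≠ j → ⟪w i, w j⟫ = (3 * A - 4 * B) / 2 := by
    intro i j hij
    fin_cases i <;> fin_cases j
    · exact absurd rfl hij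
    · exact w01
    · exact w02
    · exact (real_inner_comm _ _).trans w01
    · exact absurd rfl hij
    · exact w12
    · exact (real_inner_comm _ _).trans w02
    · exact (real_inner_comm _ _).trans w12
    · exact absurd rfl hij
  have hwl : LinearIndependent ℝ w := by
    rw [affineIndependent_iff_linearIndependent_vsub ℝ p 2] at hp
    have hp' : LinearIndependent ℝ ![a, b, c] := by
      have e := hp.comp (![⟨0, by decide⟩, ⟨1, by decide⟩, ⟨3, by decide⟩] :
        Fin 3 → {x : Fin 4 // x ≠ 2}) (by decide)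
      have e2 : (fun i : {x : Fin 4 // x ≠ 2} => p ↑i -ᵥ p 2) ∘
          (![⟨0, by decide⟩, ⟨1, by decide⟩, ⟨3, by decide⟩] :
            Fin 3 → {x : Fin 4 // x ≠ 2}) = ![a, b, c] := by
        funext i
        fin_cases i <;> rfl
      rw [← e2]
      exact e
    rw [Fintype.linearIndependent_iff] at hp' ⊢
    intro g hg
    have h6 := hp' ![g 0 - g 1, g 1 - g 2, 2 * g 2] (by
      rw [← hg]
      simp [Fin.sum_univ_three, w]
      module)
    have k2 := h6 2
    have k1 := h6 1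
    have k0 := h6 0
    simp at k2 k1 k0
    have m1 : g 1 = 0 := by linarith
    have m0 : g 0 = 0 := by linarith
    intro i
    fin_cases i
    · exact m0
    · exact m1
    · exact k2
  have hT := half_path_tiles w hwl A _ hwi hwij
  have hab : w 0 + w 1 = b := by
    show a + (b - a) = b
    abel
  have habc : (1 / 2 : ℝ) • (w 0 + w 1 + w 2) = c := by
    rw [hab]
    show (1 / 2 : ℝ) • (b + ((2 : ℝ) • c - b)) = c
    module
  have hw0 : w 0 = a := rfl
  rw [habc, hab, hw0] at hT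
  have hdec : AffineIndependent ℝ ![0, a, b, c] := by
    have h7 : AffineIndependent ℝ (p ∘ ![2, 0, 1, 3]) :=
      hp.comp_embedding ⟨![2, 0, 1, 3], by decide⟩
    have h8 := h7.map' (AffineEquiv.constVAdd ℝ E3 (-p 2) : E3 →ᵃ[ℝ] E3)
      (AffineEquiv.injective _)
    convert h8 using 1
    funext i
    fin_cases i
    · simp
    · simp [ha, sub_eq_neg_add]
    · simp [hb, sub_eq_neg_add]
    · simp [hc, sub_eq_neg_add]
  let σ : Equiv.Perm (Fin 4) :=
    { toFun := ![2, 0, 1, 3], invFun := ![1, 2, 0, 3], left_inv := by decide,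
      right_inv := by decide }
  refine TilesFF_perm σ p (TilesFF_congr _ _ hdec ?_ hT)
  have hq : ∀ i, (![0, a, b, c] : Fin 4 → E3) i = p (σ i) - p 2 := by
    intro i
    fin_cases i
    · simp [σ]
    · rfl
    · rfl
    · rfl
  intro i j
  rw [hq, hq]
  simp

end Pool.Agent.Helper22.FF
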