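import Pool.Agent.Helper22.FF.Tile1
import Pool.Agent.Helper22.FF.Tile3
import Pool.Agent.Helper22.FF.Relabel
import Pool.Agent.Helper1.Tet.Dual
import Pool.Agent.Helper1.Tet.Lower
import Pool.Agent.Helper1.Tet.Goldberg

/-!
FF-26 Gold.  The families in coordinates.
-/

open Real Set Pool.Agent.Helper1.Tet

namespace Pool.Agent.Helper22.FF

/-- four consecutive points of the lattice curve on a triangular prism -/
noncomputable def gold1 (h : ℝ) : Fin 4 → E3 :=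
  ![!₂[1, 0, 0], !₂[-1 / 2, √3 / 2, h], !₂[-1 / 2, -√3 / 2, 2 * h], !₂[1, 0, 3 * h]]

/-- one half of it -/
noncomputable def gold3 (h : ℝ) : Fin 4 → E3 :=
  ![!₂[1, 0, 0], !₂[-1 / 2, √3 / 2, h], !₂[-1 / 2, -√3 / 2, 2 * h], !₂[1, 0, 3 / 2 * h]]

/-- similarity of labelled quadruples up to relabelling -/
def Sim (p q : Fin 4 → E3) : Prop :=
  ∃ σ : Equiv.Perm (Fin 4), ∃ t : ℝ, 0 < t ∧ ∀ a b, dist (p (σ a)) (p (σ b)) = t * dist (q a) (q b)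

namespace GoldAux

lemma dist_sq (u v : E3) : dist u v ^ 2 = (u 0 - v 0) ^ 2 + (u 1 - v 1) ^ 2 + (u 2 - v 2) ^ 2 := by
  rw [EuclideanSpace.dist_eq, Real.sq_sqrt (Finset.sum_nonneg fun i _ => sq_nonneg _),
    Fin.sum_univ_three]
  simp [Real.dist_eq, sq_abs]

/-- the permutation `(2,0,1,3)` -/
def τ : Equiv.Perm (Fin 4) :=
  { toFun := ![2, 0, 1, 3]
    invFun := ![1, 2, 0, 3]
    left_inv := by decide
    right_inv := by decide }

lemma s3 : √3 ^ 2 = (3 : ℝ) := Real.sq_sqrt (by norm_num)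

lemma g1_01 (h : ℝ) : dist (gold1 h 0) (gold1 h 1) ^ 2 = 3 + h ^ 2 := by
  rw [dist_sq]; simp [gold1]; nlinarith [s3]
lemma g1_12 (h : ℝ) : dist (gold1 h 1) (gold1 h 2) ^ 2 = 3 + h ^ 2 := by
  rw [dist_sq]; simp [gold1]; nlinarith [s3]
lemma g1_23 (h : ℝ) : dist (gold1 h 2) (gold1 h 3) ^ 2 = 3 + h ^ 2 := by
  rw [dist_sq]; simp [gold1]; nlinarith [s3]
lemma g1_02 (h : ℝ) : dist (gold1 h 0) (gold1 h 2) ^ 2 = 3 + 4 * h ^ 2 := by
  rw [dist_sq]; simp [gold1]; nlinarith [s3]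
lemma g1_13 (h : ℝ) : dist (gold1 h 1) (gold1 h 3) ^ 2 = 3 + 4 * h ^ 2 := by
  rw [dist_sq]; simp [gold1]; nlinarith [s3]
lemma g1_03 (h : ℝ) : dist (gold1 h 0) (gold1 h 3) ^ 2 = 9 * h ^ 2 := by
  rw [dist_sq]; simp [gold1]; ring

lemma g3_01 (h : ℝ) : dist (gold3 h 0) (gold3 h 1) ^ 2 = 3 + h ^ 2 := by
  rw [dist_sq]; simp [gold3]; nlinarith [s3]
lemma g3_12 (h : ℝ) : dist (gold3 h 1) (gold3 h 2) ^ 2 = 3 + h ^ 2 := by
  rw [dist_sq]; simp [gold3]; nlinarith [s3]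
lemma g3_02 (h : ℝ) : dist (gold3 h 0) (gold3 h 2) ^ 2 = 3 + 4 * h ^ 2 := by
  rw [dist_sq]; simp [gold3]; nlinarith [s3]
lemma g3_03 (h : ℝ) : dist (gold3 h 0) (gold3 h 3) ^ 2 = 9 / 4 * h ^ 2 := by
  rw [dist_sq]; simp [gold3]; ring
lemma g3_13 (h : ℝ) : dist (gold3 h 1) (gold3 h 3) ^ 2 = 3 + h ^ 2 / 4 := by
  rw [dist_sq]; simp [gold3]; nlinarith [s3]
lemma g3_23 (h : ℝ) : dist (gold3 h 2) (gold3 h 3) ^ 2 = 3 + h ^ 2 / 4 := by
  rw [dist_sq]; simp [gold3]; nlinarith [s3]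

lemma eq_of_sq {x t y : ℝ} (hx : 0 ≤ x) (ht : 0 ≤ t) (hy : 0 ≤ y) (h : x ^ 2 = t ^ 2 * y ^ 2) :
    x = t * y := by
  have h1 : x ^ 2 = (t * y) ^ 2 := by rw [h]; ring
  exact (pow_left_inj₀ hx (mul_nonneg ht hy) two_ne_zero).1 h1

/-- from the six squared distances to similarity -/
lemma sim_of_sq (p q : Fin 4 → E3) (σ : Equiv.Perm (Fin 4)) (t : ℝ) (ht : 0 < t)
    (h01 : dist (p (σ 0)) (p (σ 1)) ^ 2 = t ^ 2 * dist (q 0) (q 1) ^ 2)
    (h02 : dist (p (σ 0)) (p (σ 2)) ^ 2 = t ^ 2 * dist (q 0) (q 2) ^ 2)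
    (h03 : dist (p (σ 0)) (p (σ 3)) ^ 2 = t ^ 2 * dist (q 0) (q 3) ^ 2)
    (h12 : dist (p (σ 1)) (p (σ 2)) ^ 2 = t ^ 2 * dist (q 1) (q 2) ^ 2)
    (h13 : dist (p (σ 1)) (p (σ 3)) ^ 2 = t ^ 2 * dist (q 1) (q 3) ^ 2)
    (h23 : dist (p (σ 2)) (p (σ 3)) ^ 2 = t ^ 2 * dist (q 2) (q 3) ^ 2) : Sim p q := by
  refine ⟨σ, t, ht, ?_⟩
  have e01 := eq_of_sq dist_nonneg ht.le dist_nonneg h01
  have e02 := eq_of_sq dist_nonneg ht.le dist_nonneg h02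
  have e03 := eq_of_sq dist_nonneg ht.le dist_nonneg h03
  have e12 := eq_of_sq dist_nonneg ht.le dist_nonneg h12
  have e13 := eq_of_sq dist_nonneg ht.le dist_nonneg h13
  have e23 := eq_of_sq dist_nonneg ht.le dist_nonneg h23
  intro a b
  fin_cases a <;> fin_cases b
  · simp
  · exact e01
  · exact e02
  · exact e03
  · rw [dist_comm, dist_comm (q _)]; exact e01
  · simp
  · exact e12
  · exact e13
  · rw [dist_comm, dist_comm (q _)]; exact e02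
  · rw [dist_comm, dist_comm (q _)]; exact e12
  · simp
  · exact e23
  · rw [dist_comm, dist_comm (q _)]; exact e03
  · rw [dist_comm, dist_comm (q _)]; exact e13
  · rw [dist_comm, dist_comm (q _)]; exact e23
  · simp

end GoldAux

open GoldAux

theorem sim_gold1_of_G1 (p : Fin 4 → E3) (hp : AffineIndependent ℝ p) (hG : G1 (len p)) :
    ∃ h : ℝ, 0 < h ∧ Sim p (gold1 h) := by
  have hT := len_mem_TT p hp
  obtain ⟨hpos, hD, -⟩ := TT_facts hT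
  obtain ⟨h1, h4, h3, h5⟩ := hG
  set A := len p 0 ^ 2 with hA
  set B := len p 2 ^ 2 with hB
  have hD3 : 0 < B * (4 * A - B) := by
    have := hD 3
    have e : D (len p) 3 = B * (4 * A - B) := by
      simp only [D, heron]
      simp only [Matrix.cons_val]
      rw [h1, h3, hA, hB]
      ring
    rwa [e] at this
  have hB0 : 0 < B := by rw [hB]; exact pow_pos (hpos 2) 2
  have h4A : 0 < 4 * A - B := by
    by_contra hcon
    push Not at hcon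
    nlinarith
  have hBA : 0 < B - A := by
    have := pow_pos (hpos 5) 2
    rw [h5] at this
    linarith
  have hq : 0 < 3 * (B - A) / (4 * A - B) := by positivity
  refine ⟨√(3 * (B - A) / (4 * A - B)), Real.sqrt_pos.2 hq, ?_⟩
  set h := √(3 * (B - A) / (4 * A - B)) with hh
  have hh2 : h ^ 2 = 3 * (B - A) / (4 * A - B) := Real.sq_sqrt hq.le
  have ht : 0 < (4 * A - B) / 9 := by positivity
  have ht2 : √((4 * A - B) / 9) ^ 2 = (4 * A - B) / 9 := Real.sq_sqrt ht.le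
  have l0 : dist (p 0) (p 1) ^ 2 = A := rfl
  have l1 : dist (p 0) (p 2) ^ 2 = A := by
    have : len p 1 ^ 2 = A := by rw [h1]
    exact this
  have l2 : dist (p 0) (p 3) ^ 2 = B := rfl
  have l3 : dist (p 1) (p 2) ^ 2 = B := by
    have : len p 3 ^ 2 = B := by rw [h3]
    exact this
  have l4 : dist (p 1) (p 3) ^ 2 = A := by
    have : len p 4 ^ 2 = A := by rw [h4]
    exact this
  have l5 : dist (p 2) (p 3) ^ 2 = 3 * (B - A) := h5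
  have k1 : √((4 * A - B) / 9) ^ 2 * (3 + h ^ 2) = A := by
    rw [ht2, hh2]; field_simp; ring
  have k2 : √((4 * A - B) / 9) ^ 2 * (3 + 4 * h ^ 2) = B := by
    rw [ht2, hh2]; field_simp; ring
  have k3 : √((4 * A - B) / 9) ^ 2 * (9 * h ^ 2) = 3 * (B - A) := by
    rw [ht2, hh2]; field_simp
  apply sim_of_sq p (gold1 h) τ (√((4 * A - B) / 9)) (Real.sqrt_pos.2 ht)
  · rw [g1_01, k1]; show dist (p 2) (p 0) ^ 2 = A; rw [dist_comm, l1]
  · rw [g1_02, k2]; show dist (p 2) (p 1) ^ 2 = B; rw [dist_comm, l3]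
  · rw [g1_03, k3]; exact l5
  · rw [g1_12, k1]; exact l0
  · rw [g1_13, k2]; exact l2
  · rw [g1_23, k1]; exact l4

theorem sim_gold3_of_G3 (p : Fin 4 → E3) (hp : AffineIndependent ℝ p) (hG : G3 (len p)) :
    ∃ h : ℝ, 0 < h ∧ Sim p (gold3 h) := by
  have hT := len_mem_TT p hp
  obtain ⟨hpos, hD, -⟩ := TT_facts hT
  obtain ⟨h1, h4, h5, h3⟩ := hG
  set A := len p 0 ^ 2 with hA
  set B := len p 2 ^ 2 with hB
  have hD2 : 0 < A * (4 * B - A) := by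
    have := hD 2
    have e : D (len p) 2 = A * (4 * B - A) := by
      simp only [D, heron]
      simp only [Matrix.cons_val]
      rw [h4, hA, hB]
      ring
    rwa [e] at this
  have hA0 : 0 < A := by rw [hA]; exact pow_pos (hpos 0) 2
  have h4B : 0 < 4 * B - A := by
    by_contra hcon
    push Not at hcon
    nlinarith
  have hAB : 0 < A - B := by
    have := pow_pos (hpos 5) 2
    rw [h5] at this
    linarith
  have hq : 0 < 12 * (A - B) / (4 * B - A) := by positivity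
  refine ⟨√(12 * (A - B) / (4 * B - A)), Real.sqrt_pos.2 hq, ?_⟩
  set h := √(12 * (A - B) / (4 * B - A)) with hh
  have hh2 : h ^ 2 = 12 * (A - B) / (4 * B - A) := Real.sq_sqrt hq.le
  have ht : 0 < (4 * B - A) / 9 := by positivity
  have ht2 : √((4 * B - A) / 9) ^ 2 = (4 * B - A) / 9 := Real.sq_sqrt ht.le
  have l0 : dist (p 0) (p 1) ^ 2 = A := rfl
  have l1 : dist (p 0) (p 2) ^ 2 = A := by
    have : len p 1 ^ 2 = A := by rw [h1]
    exact this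
  have l2 : dist (p 0) (p 3) ^ 2 = B := rfl
  have l3 : dist (p 1) (p 2) ^ 2 = 5 * A - 4 * B := h3
  have l4 : dist (p 1) (p 3) ^ 2 = B := by
    have : len p 4 ^ 2 = B := by rw [h4]
    exact this
  have l5 : dist (p 2) (p 3) ^ 2 = 3 * (A - B) := h5
  have k1 : √((4 * B - A) / 9) ^ 2 * (3 + h ^ 2) = A := by
    rw [ht2, hh2]; field_simp; ring
  have k2 : √((4 * B - A) / 9) ^ 2 * (3 + 4 * h ^ 2) = 5 * A - 4 * B := by
    rw [ht2, hh2]; field_simp; ring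
  have k3 : √((4 * B - A) / 9) ^ 2 * (9 / 4 * h ^ 2) = 3 * (A - B) := by
    rw [ht2, hh2]; field_simp; ring
  have k4 : √((4 * B - A) / 9) ^ 2 * (3 + h ^ 2 / 4) = B := by
    rw [ht2, hh2]; field_simp; ring
  apply sim_of_sq p (gold3 h) τ (√((4 * B - A) / 9)) (Real.sqrt_pos.2 ht)
  · rw [g3_01, k1]; show dist (p 2) (p 0) ^ 2 = A; rw [dist_comm, l1]
  · rw [g3_02, k2]; show dist (p 2) (p 1) ^ 2 = 5 * A - 4 * B; rw [dist_comm, l3]
  · rw [g3_03, k3]; exact l5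
  · rw [g3_12, k1]; exact l0
  · rw [g3_13, k4]; exact l2
  · rw [g3_23, k4]; exact l4

/-- the edge lengths of a relabelled tetrahedron -/
theorem len_perm (p : Fin 4 → E3) (σ : Equiv.Perm (Fin 4)) :
    len (p ∘ σ) = fun j => len p (es σ j) := by
  funext j
  have h1 : σ (ea j) ≠ σ (eb j) := by
    intro h
    have : ea j = eb j := σ.injective h
    revert this
    fin_cases j <;> decide
  show dist (p (σ (ea j))) (p (σ (eb j))) = len p (ix (σ (ea j)) (σ (eb j)))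
  rw [t1_len_ix p _ _ h1]

theorem Sim.perm {p q : Fin 4 → E3} (σ : Equiv.Perm (Fin 4)) (h : Sim (p ∘ σ) q) : Sim p q := by
  obtain ⟨ρ, t, ht, hab⟩ := h
  exact ⟨ρ.trans σ, t, ht, fun a b => hab a b⟩

theorem gold1_indep (h : ℝ) (hh : 0 < h) : AffineIndependent ℝ (gold1 h) := gold_indep h hh

theorem gold3_indep (h : ℝ) (hh : 0 < h) : AffineIndependent ℝ (gold3 h) := by
  rw [affineIndependent_iff_of_fintype]
  intro w hw hs
  rw [Finset.weightedVSub_eq_linear_combination (hw := hw)] at hs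
  rw [Fin.sum_univ_four] at hw hs
  have h0 := congrArg (fun v : E3 => v 0) hs
  have h1 := congrArg (fun v : E3 => v 1) hs
  have h2 := congrArg (fun v : E3 => v 2) hs
  simp [gold3] at h0 h1 h2
  have h3 : (√3 : ℝ) ≠ 0 := by positivity
  have e1 : w 1 = w 2 := by
    have : (w 1 - w 2) * (√3 / 2) = 0 := by linear_combination h1
    rcases mul_eq_zero.1 this with h | h
    · linarith
    · exfalso; apply h3; linarith
  have e2 : w 1 + 2 * w 2 + 3 / 2 * w 3 = 0 := by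
    have : (w 1 + 2 * w 2 + 3 / 2 * w 3) * h = 0 := by linear_combination h2
    rcases mul_eq_zero.1 this with h | h
    · exact h
    · exact absurd h hh.ne'
  have e3 : w 1 = 0 := by linarith
  have e4 : w 2 = 0 := by linarith
  have e5 : w 3 = 0 := by linarith
  have e6 : w 0 = 0 := by linarith
  intro i
  fin_cases i <;> assumption

theorem perm_indep {p : Fin 4 → E3} (hp : AffineIndependent ℝ p) (σ : Equiv.Perm (Fin 4)) :
    AffineIndependent ℝ (fun i => p (σ i)) :=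
  hp.comp_embedding σ.toEmbedding

theorem G1_gold1 (h t : ℝ) (ht : 0 < t) : G1 (len fun i => t • gold1 h (τ⁻¹ i)) := by
  have hd : ∀ a b, dist (t • gold1 h (τ⁻¹ a)) (t • gold1 h (τ⁻¹ b)) ^ 2 =
      t ^ 2 * dist (gold1 h (τ⁻¹ a)) (gold1 h (τ⁻¹ b)) ^ 2 := by
    intro a b
    rw [dist_smul₀, Real.norm_of_nonneg ht.le]; ring
  have hsq : ∀ {x y : ℝ}, 0 ≤ x → 0 ≤ y → x ^ 2 = y ^ 2 → x = y := fun hx hy h =>
    (pow_left_inj₀ hx hy two_ne_zero).1 h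
  have i0 : (τ⁻¹ : Equiv.Perm (Fin 4)) 0 = 1 := rfl
  have i1 : (τ⁻¹ : Equiv.Perm (Fin 4)) 1 = 2 := rfl
  have i2 : (τ⁻¹ : Equiv.Perm (Fin 4)) 2 = 0 := rfl
  have i3 : (τ⁻¹ : Equiv.Perm (Fin 4)) 3 = 3 := rfl
  have q0 : (len (fun i => t • gold1 h (τ⁻¹ i)) 0) ^ 2 = t ^ 2 * (3 + h ^ 2) := by
    show dist (t • gold1 h (τ⁻¹ 0)) (t • gold1 h (τ⁻¹ 1)) ^ 2 = _
    rw [hd, i0, i1, g1_12]
  have q1 : (len (fun i => t • gold1 h (τ⁻¹ i)) 1) ^ 2 = t ^ 2 * (3 + h ^ 2) := by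
    show dist (t • gold1 h (τ⁻¹ 0)) (t • gold1 h (τ⁻¹ 2)) ^ 2 = _
    rw [hd, i0, i2, dist_comm, g1_01]
  have q2 : (len (fun i => t • gold1 h (τ⁻¹ i)) 2) ^ 2 = t ^ 2 * (3 + 4 * h ^ 2) := by
    show dist (t • gold1 h (τ⁻¹ 0)) (t • gold1 h (τ⁻¹ 3)) ^ 2 = _
    rw [hd, i0, i3, g1_13]
  have q3 : (len (fun i => t • gold1 h (τ⁻¹ i)) 3) ^ 2 = t ^ 2 * (3 + 4 * h ^ 2) := by
    show dist (t • gold1 h (τ⁻¹ 1)) (t • gold1 h (τ⁻¹ 2)) ^ 2 = _
    rw [hd, i1, i2, dist_comm, g1_02]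
  have q4 : (len (fun i => t • gold1 h (τ⁻¹ i)) 4) ^ 2 = t ^ 2 * (3 + h ^ 2) := by
    show dist (t • gold1 h (τ⁻¹ 1)) (t • gold1 h (τ⁻¹ 3)) ^ 2 = _
    rw [hd, i1, i3, g1_23]
  have q5 : (len (fun i => t • gold1 h (τ⁻¹ i)) 5) ^ 2 = t ^ 2 * (9 * h ^ 2) := by
    show dist (t • gold1 h (τ⁻¹ 2)) (t • gold1 h (τ⁻¹ 3)) ^ 2 = _
    rw [hd, i2, i3, g1_03]
  refine ⟨hsq dist_nonneg dist_nonneg (by rw [q1, q0]), hsq dist_nonneg dist_nonneg
    (by rw [q4, q0]), hsq dist_nonneg dist_nonneg (by rw [q3, q2]), ?_⟩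
  rw [q5, q2, q0]; ring

theorem G3_gold3 (h t : ℝ) (ht : 0 < t) : G3 (len fun i => t • gold3 h (τ⁻¹ i)) := by
  have hd : ∀ a b, dist (t • gold3 h (τ⁻¹ a)) (t • gold3 h (τ⁻¹ b)) ^ 2 =
      t ^ 2 * dist (gold3 h (τ⁻¹ a)) (gold3 h (τ⁻¹ b)) ^ 2 := by
    intro a b
    rw [dist_smul₀, Real.norm_of_nonneg ht.le]; ring
  have hsq : ∀ {x y : ℝ}, 0 ≤ x → 0 ≤ y → x ^ 2 = y ^ 2 → x = y := fun hx hy h =>
    (pow_left_inj₀ hx hy two_ne_zero).1 h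
  have i0 : (τ⁻¹ : Equiv.Perm (Fin 4)) 0 = 1 := rfl
  have i1 : (τ⁻¹ : Equiv.Perm (Fin 4)) 1 = 2 := rfl
  have i2 : (τ⁻¹ : Equiv.Perm (Fin 4)) 2 = 0 := rfl
  have i3 : (τ⁻¹ : Equiv.Perm (Fin 4)) 3 = 3 := rfl
  have q0 : (len (fun i => t • gold3 h (τ⁻¹ i)) 0) ^ 2 = t ^ 2 * (3 + h ^ 2) := by
    show dist (t • gold3 h (τ⁻¹ 0)) (t • gold3 h (τ⁻¹ 1)) ^ 2 = _
    rw [hd, i0, i1, g3_12]
  have q1 : (len (fun i => t • gold3 h (τ⁻¹ i)) 1) ^ 2 = t ^ 2 * (3 + h ^ 2) := by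
    show dist (t • gold3 h (τ⁻¹ 0)) (t • gold3 h (τ⁻¹ 2)) ^ 2 = _
    rw [hd, i0, i2, dist_comm, g3_01]
  have q2 : (len (fun i => t • gold3 h (τ⁻¹ i)) 2) ^ 2 = t ^ 2 * (3 + h ^ 2 / 4) := by
    show dist (t • gold3 h (τ⁻¹ 0)) (t • gold3 h (τ⁻¹ 3)) ^ 2 = _
    rw [hd, i0, i3, g3_13]
  have q3 : (len (fun i => t • gold3 h (τ⁻¹ i)) 3) ^ 2 = t ^ 2 * (3 + 4 * h ^ 2) := by
    show dist (t • gold3 h (τ⁻¹ 1)) (t • gold3 h (τ⁻¹ 2)) ^ 2 = _
    rw [hd, i1, i2, dist_comm, g3_02]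
  have q4 : (len (fun i => t • gold3 h (τ⁻¹ i)) 4) ^ 2 = t ^ 2 * (3 + h ^ 2 / 4) := by
    show dist (t • gold3 h (τ⁻¹ 1)) (t • gold3 h (τ⁻¹ 3)) ^ 2 = _
    rw [hd, i1, i3, g3_23]
  have q5 : (len (fun i => t • gold3 h (τ⁻¹ i)) 5) ^ 2 = t ^ 2 * (9 / 4 * h ^ 2) := by
    show dist (t • gold3 h (τ⁻¹ 2)) (t • gold3 h (τ⁻¹ 3)) ^ 2 = _
    rw [hd, i2, i3, g3_03]
  refine ⟨hsq dist_nonneg dist_nonneg (by rw [q1, q0]), hsq dist_nonneg dist_nonneg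
    (by rw [q4, q2]), ?_, ?_⟩
  · rw [q5, q2, q0]; ring
  · rw [q3, q2, q0]; ring

theorem gold1_tilesFF (p : Fin 4 → E3) (h : ℝ) (hh : 0 < h) (hS : Sim p (gold1 h)) :
    TilesFF p := by
  obtain ⟨σ, t, ht, hab⟩ := hS
  apply TilesFF_perm (τ⁻¹.trans σ) p
  have hind : AffineIndependent ℝ (fun i => t • gold1 h (τ⁻¹ i)) :=
    perm_indep (indep_smul ht (gold1_indep h hh)) τ⁻¹
  refine TilesFF_congr (fun i => t • gold1 h (τ⁻¹ i)) _ hind ?_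
    (G1_tilesFF _ hind (G1_gold1 h t ht))
  intro a b
  show dist (t • gold1 h (τ⁻¹ a)) (t • gold1 h (τ⁻¹ b)) = dist (p (σ (τ⁻¹ a))) (p (σ (τ⁻¹ b)))
  rw [hab, dist_smul₀, Real.norm_of_nonneg ht.le]

theorem gold3_tilesFF (p : Fin 4 → E3) (h : ℝ) (hh : 0 < h) (hS : Sim p (gold3 h)) :
    TilesFF p := by
  obtain ⟨σ, t, ht, hab⟩ := hS
  apply TilesFF_perm (τ⁻¹.trans σ) p
  have hind : AffineIndependent ℝ (fun i => t • gold3 h (τ⁻¹ i)) :=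
    perm_indep (indep_smul ht (gold3_indep h hh)) τ⁻¹
  refine TilesFF_congr (fun i => t • gold3 h (τ⁻¹ i)) _ hind ?_
    (G3_tilesFF _ hind (G3_gold3 h t ht))
  intro a b
  show dist (t • gold3 h (τ⁻¹ a)) (t • gold3 h (τ⁻¹ b)) = dist (p (σ (τ⁻¹ a))) (p (σ (τ⁻¹ b)))
  rw [hab, dist_smul₀, Real.norm_of_nonneg ht.le]

end Pool.Agent.Helper22.FF
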