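import Pool.Agent.Helper22.FF.Defs

/-!
FF-22 Kuhn.  The path simplices of the integer lattice.

PROOF. `kv n σ a` is `n` plus the sum of the first `a` unit vectors in the order `σ 0, σ 1, σ 2`.
`kuhn_weights`: let `y = ∑ w_b kv_b - n`: `y (σ 0) = w1 + w2 + w3`, `y (σ 1) = w2 + w3`, `y (σ 2) = w3`. For `m = kv a` the
coordinates of `z = x - m` are: `y (σ i) - 1 = -(w 0 + ... + w i)` for `i < a` and `y (σ i) = w (i+1) + ... + w 3` for `i ≥ a`, so
`min 0 z = -(w 0 + ... + w (a-1))`, `max 0 z = w (a+1) + ... + w 3`, `hat z = w a`. For `m ∈ ℤ³` not a vertex, put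
`d = m - n`, `z = y - d`. If some `d i ≤ -1` then `z i ≥ 1`, if some `d i ≥ 2` then `z i ≤ -1`, so `hat z = 0`. Otherwise all
`d i ∈ {0, 1}` and `d` is not the indicator of an initial part of `σ 0, σ 1, σ 2`, so there are positions `i < j` with
`d (σ i) = 0`, `d (σ j) = 1`; then `z (σ i) - z (σ j) = y (σ i) - y (σ j) + 1 ≥ 1` and `hat z = 0`. (Cases on `σ` by `fin_cases` or
generically; `max`/`min` by `split_ifs`/`simp [max_def, min_def]`, or work with the inequalities.)
`kuhn_cover`: `n i = ⌊x i⌋`, `σ` sorts the fractional parts `y i` decreasingly (six cases), `w = ![1 - y (σ 0),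
y (σ 0) - y (σ 1), y (σ 1) - y (σ 2), y (σ 2)]`.
`kv_inj`: `n` is the only vertex which is `≤` all others coordinatewise (so `n = n'`), and `a` is the sum of the coordinates of
`kv n σ a - n`, so the vertices agree index by index, hence `σ 0`, `σ 1`, `σ 2`.
`half_cover` etc. for the third family are in FF-25.
-/

open Real Set

namespace Pool.Agent.Helper22.FF

theorem kmin (z : Fin 3 → ℝ) (c : ℝ) : c ≤ min (z 0) (min (z 1) (z 2)) ↔ ∀ i, c ≤ z i := by
  simp [Fin.forall_fin_succ]

theorem kmax (z : Fin 3 → ℝ) (c : ℝ) : max (z 0) (max (z 1) (z 2)) ≤ c ↔ ∀ i, z i ≤ c := by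
  simp [Fin.forall_fin_succ]

theorem hat_perm (z : Fin 3 → ℝ) (τ : Equiv.Perm (Fin 3)) : hat (fun i => z (τ i)) = hat z := by
  have h1 : min (z (τ 0)) (min (z (τ 1)) (z (τ 2))) = min (z 0) (min (z 1) (z 2)) := by
    refine eq_of_forall_le_iff fun c => ?_
    rw [kmin z c, kmin (fun i => z (τ i)) c]
    exact ⟨fun h i => by simpa using h (τ.symm i), fun h i => h (τ i)⟩
  have h2 : max (z (τ 0)) (max (z (τ 1)) (z (τ 2))) = max (z 0) (max (z 1) (z 2)) := by
    refine eq_of_forall_ge_iff fun c => ?_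
    rw [kmax z c, kmax (fun i => z (τ i)) c]
    exact ⟨fun h i => by simpa using h (τ.symm i), fun h i => h (τ i)⟩
  unfold hat
  rw [h1, h2]

theorem hat_zero_of (u : Fin 3 → ℝ) (h : ∃ a b : ℝ, (a = 0 ∨ ∃ i, a = u i) ∧ (b = 0 ∨ ∃ j, b = u j) ∧
    1 ≤ a - b) : hat u = 0 := by
  obtain ⟨a, b, ha, hb, hab⟩ := h
  have h1 : a ≤ max 0 (max (u 0) (max (u 1) (u 2))) := by
    rcases ha with rfl | ⟨i, rfl⟩
    · exact le_max_left _ _
    · exact le_trans ((kmax u _).1 le_rfl i) (le_max_right _ _)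
  have h2 : min 0 (min (u 0) (min (u 1) (u 2))) ≤ b := by
    rcases hb with rfl | ⟨i, rfl⟩
    · exact min_le_left _ _
    · exact le_trans (min_le_right _ _) ((kmin u _).1 le_rfl i)
  unfold hat
  exact max_eq_left (by linarith)

theorem hat_eq_of (u : Fin 3 → ℝ) (p q : ℝ) (hp : p ≤ 0) (hp1 : ∀ i, p ≤ u i)
    (hp2 : p = 0 ∨ ∃ i, u i = p) (hq : 0 ≤ q) (hq1 : ∀ i, u i ≤ q)
    (hq2 : q = 0 ∨ ∃ i, u i = q) : hat u = max 0 (1 + p - q) := by
  have h1 : min 0 (min (u 0) (min (u 1) (u 2))) = p := by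
    refine le_antisymm ?_ (le_min hp ((kmin u p).2 hp1))
    rcases hp2 with rfl | ⟨i, hi⟩
    · exact min_le_left _ _
    · rw [← hi]
      exact le_trans (min_le_right _ _) ((kmin u _).1 le_rfl i)
  have h2 : max 0 (max (u 0) (max (u 1) (u 2))) = q := by
    refine le_antisymm (max_le hq ((kmax u q).2 hq1)) ?_
    rcases hq2 with rfl | ⟨i, hi⟩
    · exact le_max_left _ _
    · rw [← hi]
      exact le_trans ((kmax u _).1 le_rfl i) (le_max_right _ _)
  unfold hat
  rw [h1, h2]

/-- the tail sums of the weights -/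
def tl (w : Fin 4 → ℝ) : Fin 3 → ℝ := ![w 1 + w 2 + w 3, w 2 + w 3, w 3]

theorem sum_kv (n : Fin 3 → ℤ) (σ : Equiv.Perm (Fin 3)) (w : Fin 4 → ℝ) (hs : ∑ a, w a = 1)
    (j : Fin 3) : ∑ b, w b * kv n σ b (σ j) = n (σ j) + tl w j := by
  rw [Fin.sum_univ_four] at hs
  rw [Fin.sum_univ_four]
  unfold kv tl
  fin_cases j
  · simp only [Equiv.symm_apply_apply]
    simp
    linear_combination (n (σ 0) : ℝ) * hs
  · simp only [Equiv.symm_apply_apply]
    simp
    linear_combination (n (σ 1) : ℝ) * hs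
  · simp only [Equiv.symm_apply_apply]
    simp
    linear_combination (n (σ 2) : ℝ) * hs

/-- barycentric coordinates in a path simplex are given by the hat function -/
theorem kuhn_weights (n : Fin 3 → ℤ) (σ : Equiv.Perm (Fin 3)) (w : Fin 4 → ℝ)
    (hw : ∀ a, 0 ≤ w a) (hs : ∑ a, w a = 1) :
    (∀ a, hat (fun i => (∑ b, w b * kv n σ b i) - kv n σ a i) = w a) ∧
    ∀ m : Fin 3 → ℤ, (∀ a, (fun i => (m i : ℝ)) ≠ kv n σ a) →
      hat (fun i => (∑ b, w b * kv n σ b i) - m i) = 0 := by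
  have hs' := hs
  rw [Fin.sum_univ_four] at hs'
  have w0 := hw 0
  have w1 := hw 1
  have w2 := hw 2
  have w3 := hw 3
  constructor
  · intro a
    rw [← hat_perm _ σ]
    have : (fun j => (∑ b, w b * kv n σ b (σ j)) - kv n σ a (σ j)) =
        fun j => tl w j - if (j : ℕ) < (a : ℕ) then 1 else 0 := by
      funext j
      rw [sum_kv n σ w hs j]
      unfold kv
      rw [Equiv.symm_apply_apply]
      ring
    rw [this]
    fin_cases a
    · rw [hat_eq_of _ 0 (w 1 + w 2 + w 3) le_rfl ?_ (Or.inl rfl) (by linarith) ?_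
        (Or.inr ⟨0, by simp [tl]⟩)]
      · simp
        rw [max_eq_right (by linarith)]
        linarith
      · intro i
        fin_cases i <;> simp [tl] <;> linarith
      · intro i
        fin_cases i <;> simp [tl] <;> linarith
    · rw [hat_eq_of _ (-w 0) (w 2 + w 3) (by linarith) ?_
        (Or.inr ⟨0, by simp [tl]; linarith⟩) (by linarith) ?_ (Or.inr ⟨1, by simp [tl]⟩)]
      · simp
        rw [max_eq_right (by linarith)]
        linarith
      · intro i
        fin_cases i <;> simp [tl] <;> linarith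
      · intro i
        fin_cases i <;> simp [tl] <;> linarith
    · rw [hat_eq_of _ (-(w 0 + w 1)) (w 3) (by linarith) ?_
        (Or.inr ⟨1, by simp [tl]; linarith⟩) (by linarith) ?_ (Or.inr ⟨2, by simp [tl]⟩)]
      · simp
        rw [max_eq_right (by linarith)]
        linarith
      · intro i
        fin_cases i <;> simp [tl] <;> linarith
      · intro i
        fin_cases i <;> simp [tl] <;> linarith
    · rw [hat_eq_of _ (-(w 0 + w 1 + w 2)) 0 (by linarith) ?_
        (Or.inr ⟨2, by simp [tl]; linarith⟩) le_rfl ?_ (Or.inl rfl)]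
      · simp
        rw [max_eq_right (by linarith)]
        linarith
      · intro i
        fin_cases i <;> simp [tl] <;> linarith
      · intro i
        fin_cases i <;> simp [tl] <;> linarith
  · intro m hm
    rw [← hat_perm _ σ]
    have : (fun j => (∑ b, w b * kv n σ b (σ j)) - (m (σ j) : ℝ)) =
        fun j => tl w j - ((m (σ j) - n (σ j) : ℤ) : ℝ) := by
      funext j
      rw [sum_kv n σ w hs j]
      push_cast
      ring
    rw [this]
    have hne : ∀ a : Fin 4, ¬ ∀ j : Fin 3, m (σ j) - n (σ j) = if (j : ℕ) < (a : ℕ) then 1 else 0 := by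
      intro a h
      apply hm a
      funext i
      have := h (σ.symm i)
      rw [Equiv.apply_symm_apply] at this
      unfold kv
      have h2 : m i = n i + if ((σ.symm i : Fin 3) : ℕ) < (a : ℕ) then 1 else 0 := by
        rw [← this]; ring
      rw [h2]
      push_cast
      split_ifs <;> simp
    obtain ⟨d, hd⟩ : ∃ d : Fin 3 → ℤ, d = fun j => m (σ j) - n (σ j) := ⟨_, rfl⟩
    have hd' : ∀ j, m (σ j) - n (σ j) = d j := fun j => by rw [hd]
    simp only [hd'] at hne ⊢
    have t0 : tl w 0 = w 1 + w 2 + w 3 := by simp [tl]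
    have t1 : tl w 1 = w 2 + w 3 := by simp [tl]
    have t2 : tl w 2 = w 3 := by simp [tl]
    have tnn : ∀ j, 0 ≤ tl w j := by
      intro j
      fin_cases j
      · show 0 ≤ tl w 0
        linarith
      · show 0 ≤ tl w 1
        linarith
      · show 0 ≤ tl w 2
        linarith
    have tle : ∀ j, tl w j ≤ 1 := by
      intro j
      fin_cases j
      · show tl w 0 ≤ 1
        linarith
      · show tl w 1 ≤ 1
        linarith
      · show tl w 2 ≤ 1
        linarith
    have key1 : ∀ j, d j ≤ -1 → hat (fun j => tl w j - (d j : ℝ)) = 0 := by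
      intro j hj
      refine hat_zero_of _ ⟨_, 0, Or.inr ⟨j, rfl⟩, Or.inl rfl, ?_⟩
      have : (d j : ℝ) ≤ -1 := by exact_mod_cast hj
      have := tnn j
      linarith
    have key2 : ∀ j, 2 ≤ d j → hat (fun j => tl w j - (d j : ℝ)) = 0 := by
      intro j hj
      refine hat_zero_of _ ⟨0, _, Or.inl rfl, Or.inr ⟨j, rfl⟩, ?_⟩
      have : (2 : ℝ) ≤ (d j : ℝ) := by exact_mod_cast hj
      have := tle j
      linarith
    have key3 : ∀ i j, tl w j ≤ tl w i → d i = 0 → d j = 1 →
        hat (fun j => tl w j - (d j : ℝ)) = 0 := by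
      intro i j hij hi hj
      refine hat_zero_of _ ⟨_, _, Or.inr ⟨i, rfl⟩, Or.inr ⟨j, rfl⟩, ?_⟩
      simp only [hi, hj]
      push_cast
      linarith
    by_cases hlo : ∃ j, d j ≤ -1
    · obtain ⟨j, hj⟩ := hlo
      exact key1 j hj
    by_cases hhi : ∃ j, 2 ≤ d j
    · obtain ⟨j, hj⟩ := hhi
      exact key2 j hj
    push Not at hlo hhi
    have h01 : ∀ j, d j = 0 ∨ d j = 1 := by
      intro j
      have := hlo j
      have := hhi j
      omega
    rcases h01 0 with e0 | e0
    · rcases h01 1 with e1 | e1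
      · rcases h01 2 with e2 | e2
        · exact absurd (fun j => by fin_cases j <;> simp [e0, e1, e2]) (hne 0)
        · exact key3 0 2 (by linarith) e0 e2
      · exact key3 0 1 (by linarith) e0 e1
    · rcases h01 1 with e1 | e1
      · rcases h01 2 with e2 | e2
        · exact absurd (fun j => by fin_cases j <;> simp [e0, e1, e2]) (hne 1)
        · exact key3 1 2 (by linarith) e1 e2
      · rcases h01 2 with e2 | e2
        · exact absurd (fun j => by fin_cases j <;> simp [e0, e1, e2]) (hne 2)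
        · exact absurd (fun j => by fin_cases j <;> simp [e0, e1, e2]) (hne 3)

/-- the path simplices cover -/
theorem kuhn_cover (x : Fin 3 → ℝ) : ∃ (n : Fin 3 → ℤ) (σ : Equiv.Perm (Fin 3)) (w : Fin 4 → ℝ),
    (∀ a, 0 ≤ w a) ∧ ∑ a, w a = 1 ∧ ∀ i, x i = ∑ b, w b * kv n σ b i := by
  let σ := Tuple.sort (fun i => - Int.fract (x i))
  have hmono : Monotone ((fun i => - Int.fract (x i)) ∘ σ) := Tuple.monotone_sort _
  have h01 : Int.fract (x (σ 1)) ≤ Int.fract (x (σ 0)) := by
    have := hmono (show (0 : Fin 3) ≤ 1 by decide)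
    simp only [Function.comp] at this
    linarith
  have h12 : Int.fract (x (σ 2)) ≤ Int.fract (x (σ 1)) := by
    have := hmono (show (1 : Fin 3) ≤ 2 by decide)
    simp only [Function.comp] at this
    linarith
  let w : Fin 4 → ℝ := ![1 - Int.fract (x (σ 0)), Int.fract (x (σ 0)) - Int.fract (x (σ 1)),
    Int.fract (x (σ 1)) - Int.fract (x (σ 2)), Int.fract (x (σ 2))]
  have hw : ∀ a, 0 ≤ w a := by
    intro a
    fin_cases a
    · simpa [w] using (Int.fract_lt_one (x (σ 0))).le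
    · simpa [w] using h01
    · simpa [w] using h12
    · simp [w]
  have hs : ∑ a, w a = 1 := by
    rw [Fin.sum_univ_four]
    simp [w]
  refine ⟨fun i => ⌊x i⌋, σ, w, hw, hs, fun i => ?_⟩
  obtain ⟨j, rfl⟩ := σ.surjective i
  rw [sum_kv (fun i => ⌊x i⌋) σ w hs j]
  have : tl w j = Int.fract (x (σ j)) := by
    unfold tl
    fin_cases j
    · simp [w]
    · simp [w]
    · simp [w]
  rw [this]
  exact (Int.floor_add_fract _).symm

/-- the vertices are lattice points -/
theorem kv_int (n : Fin 3 → ℤ) (σ : Equiv.Perm (Fin 3)) (a : Fin 4) :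
    ∃ m : Fin 3 → ℤ, kv n σ a = fun i => (m i : ℝ) := by
  refine ⟨fun i => n i + if (σ.symm i : ℕ) < (a : ℕ) then 1 else 0, ?_⟩
  funext i
  unfold kv
  push_cast
  rfl

theorem kv_zero (n : Fin 3 → ℤ) (σ : Equiv.Perm (Fin 3)) : kv n σ 0 = fun i => (n i : ℝ) := by
  funext i
  simp [kv]

theorem kv_le (n : Fin 3 → ℤ) (σ : Equiv.Perm (Fin 3)) (a : Fin 4) (i : Fin 3) :
    (n i : ℝ) ≤ kv n σ a i := by
  unfold kv
  split_ifs <;> simp

theorem kv_sum (n : Fin 3 → ℤ) (σ : Equiv.Perm (Fin 3)) (a : Fin 4) :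
    ∑ i, kv n σ a i = ∑ i, (n i : ℝ) + (a : ℕ) := by
  unfold kv
  rw [Finset.sum_add_distrib]
  congr 1
  rw [← Equiv.sum_comp σ]
  simp only [Equiv.symm_apply_apply]
  rw [Fin.sum_univ_three]
  fin_cases a
  · simp
  · simp
  · simp; norm_num
  · simp; norm_num

theorem kv_le_of (n n' : Fin 3 → ℤ) (σ σ' : Equiv.Perm (Fin 3))
    (h : range (kv n σ) = range (kv n' σ')) (i : Fin 3) : n' i ≤ n i := by
  have h0 : kv n σ 0 ∈ range (kv n' σ') := h ▸ mem_range_self 0
  obtain ⟨b, hb⟩ := h0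
  rw [kv_zero] at hb
  have h1 := kv_le n' σ' b i
  rw [hb] at h1
  have h2 : ((n' i : ℤ) : ℝ) ≤ ((n i : ℤ) : ℝ) := h1
  exact_mod_cast h2

theorem kv_sym_le (n : Fin 3 → ℤ) (σ σ' : Equiv.Perm (Fin 3))
    (h : range (kv n σ) = range (kv n σ')) (i : Fin 3) : σ'.symm i ≤ σ.symm i := by
  have h0 : kv n σ (σ.symm i).succ ∈ range (kv n σ') := h ▸ mem_range_self _
  obtain ⟨b, hb⟩ := h0
  have h1 := kv_sum n σ' b
  rw [hb, kv_sum n σ] at h1
  have h2 : ((σ.symm i).succ : ℕ) = (b : ℕ) := by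
    have : (((σ.symm i).succ : ℕ) : ℝ) = ((b : ℕ) : ℝ) := by linarith
    exact_mod_cast this
  have h3 := congrFun hb i
  unfold kv at h3
  rw [← h2] at h3
  have h4 : ((σ.symm i : Fin 3) : ℕ) < ((σ.symm i).succ : ℕ) := by simp
  rw [if_pos h4] at h3
  by_contra hlt
  push Not at hlt
  have h5 : ¬ ((σ'.symm i : Fin 3) : ℕ) < ((σ.symm i).succ : ℕ) := by
    have : ((σ.symm i : Fin 3) : ℕ) < ((σ'.symm i : Fin 3) : ℕ) := hlt
    simp only [Fin.val_succ]
    omega
  rw [if_neg h5] at h3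
  linarith

/-- a path simplex is determined by its set of vertices -/
theorem kv_inj (n n' : Fin 3 → ℤ) (σ σ' : Equiv.Perm (Fin 3))
    (h : range (kv n σ) = range (kv n' σ')) : n = n' ∧ σ = σ' := by
  have hn : n = n' := by
    funext i
    exact le_antisymm (kv_le_of n' n σ' σ h.symm i) (kv_le_of n n' σ σ' h i)
  subst hn
  refine ⟨rfl, ?_⟩
  have : σ.symm = σ'.symm := by
    ext i
    have h1 := le_antisymm (kv_sym_le n σ' σ h.symm i) (kv_sym_le n σ σ' h i)
    rw [h1]
  have h2 := congrArg Equiv.symm this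
  simpa using h2

end Pool.Agent.Helper22.FF
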