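import Pool.Agent.Helper22.FF.Weighted

/-!
FF-21 Sums.  The tilers satisfy the condition `EE`.

PROOF. `ff_class`: apply `weighted_zero` with `g j = if l j = v then f (al l j) else 0`. Local relation at `x`: if `x` is on
no edge everything is `0`. Let `x ∈ seg i₀ j₀`; by `ff_edge` all `(i, j)` with `x ∈ seg i j` have `l j = l j₀` (for `i, i'` with
`x` in both; `ff_edge` is applied to `P i, P i'`; also for `i = i'`, `hff` holds trivially). If `l j₀ = v` the sum is the one
of `local_relation` (LocalRel.lean, finiteness from `tiling_counts`), which is `0`; if `l j₀ ≠ v` all terms vanish. So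
`∑ j, l j * g j = v * ∑ j with l j = v, f (al l j) = 0`. If `v` is no length the sum is empty; otherwise `v > 0`.
`exists_functional`: `π` and `y` are linearly independent over `ℚ` (`y ∉ ℚ π`), extend to a basis.
`EE_of_tilesFF`: index the family by the set `F`; all `q ∈ F` have `len q = len p` and are affinely independent. If for some `j`
the sum `y` over the class of `j` is not in `ℚ π`, `exists_functional` gives `f`, composed with the inclusion `ℚ → ℝ`, and
`ff_class` gives `f y = 0`: contradiction.
`EE_of_indep`: `dehn_zero` with `f` as before (rational values `f' : ℝ →ₗ[ℚ] ℚ`): `∑ j, len p j * f' (al j) = 0`, grouped by the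
distinct lengths: `∑_v v * (∑ j with len p j = v, f' (al j)) = 0` with rational coefficients; by linear independence all
coefficients vanish, so `f' (class sum) = 0` for all `f'` with `f' π = 0`, and `exists_functional` gives `EE`.
-/

open Real Set MeasureTheory Pool.Agent.Helper1.Tet

namespace Pool.Agent.Helper22.FF

theorem ff_class {ι : Type*} (P : ι → Fin 4 → E3) (l : Fin 6 → ℝ)
    (hP : ∀ i, AffineIndependent ℝ (P i)) (hl : ∀ i, len (P i) = l)
    (hcov : ⋃ i, convexHull ℝ (range (P i)) = univ)
    (hdis : Pairwise fun i i' => Disjoint (interior (convexHull ℝ (range (P i))))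
      (interior (convexHull ℝ (range (P i')))))
    (hff : ∀ i i', convexHull ℝ (range (P i)) ∩ convexHull ℝ (range (P i')) =
      convexHull ℝ (range (P i) ∩ range (P i')))
    (f : ℝ →ₗ[ℚ] ℝ) (hf : f π = 0) (v : ℝ) :
    ∑ j with l j = v, f (al l j) = 0 := by
  classical
  obtain ⟨hfin, -⟩ := tiling_counts P l hP hl hcov hdis
  have hne : Nonempty ι := by
    have h0 : (0 : E3) ∈ ⋃ i, convexHull ℝ (range (P i)) := by rw [hcov]; exact mem_univ _
    obtain ⟨i, _⟩ := mem_iUnion.1 h0
    exact ⟨i⟩
  have hlpos : ∀ j, l j ≠ 0 := by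
    obtain ⟨i⟩ := hne
    intro j h0
    rw [← hl i] at h0
    have h1 : P i (ea j) = P i (eb j) := dist_eq_zero.1 h0
    have h2 := (hP i).injective h1
    revert h2
    fin_cases j <;> decide
  have hsame : ∀ x : E3, (∀ i, x ∉ range (P i)) → ∀ i j i' j',
      x ∈ segment ℝ (P i (ea j)) (P i (eb j)) → x ∈ segment ℝ (P i' (ea j')) (P i' (eb j')) →
      l j = l j' := by
    intro x hx i j i' j' h1 h2
    have h3 := ff_edge (P i) (P i') (hP i) (hP i') (hff i i') x (hx i) (hx i') j j' h1 h2
    rwa [hl i, hl i'] at h3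
  have hw := weighted_zero P l (fun j => if l j = v then f (al l j) else 0) hP hl hcov hdis (by
    intro x hx s hs
    by_cases hB : ∃ i j, x ∈ segment ℝ (P i (ea j)) (P i (eb j)) ∧ l j = v
    · obtain ⟨i₀, j₀, hx₀, hj₀⟩ := hB
      rw [← local_relation P l hP hl hcov hdis hfin f hf x hx s hs]
      refine Finset.sum_congr rfl fun i _ => Finset.sum_congr rfl fun j _ => ?_
      by_cases hxj : x ∈ segment ℝ (P i (ea j)) (P i (eb j))
      · have h1 : l j = v := (hsame x hx i j i₀ j₀ hxj hx₀).trans hj₀
        rw [indicator_of_mem hxj, indicator_of_mem hxj, if_pos h1]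
      · rw [indicator_of_notMem hxj, indicator_of_notMem hxj]
    · refine Finset.sum_eq_zero fun i _ => Finset.sum_eq_zero fun j _ => ?_
      by_cases hxj : x ∈ segment ℝ (P i (ea j)) (P i (eb j))
      · rw [indicator_of_mem hxj, if_neg fun h => hB ⟨i, j, hxj, h⟩]
      · rw [indicator_of_notMem hxj])
  rw [Finset.sum_filter]
  by_cases hv : v = 0
  · refine Finset.sum_eq_zero fun j _ => ?_
    rw [if_neg]
    rw [hv]
    exact hlpos j
  · have h1 : v * ∑ j, (if l j = v then f (al l j) else 0) =
        ∑ j, l j * (if l j = v then f (al l j) else 0) := by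
      rw [Finset.mul_sum]
      refine Finset.sum_congr rfl fun j _ => ?_
      by_cases h : l j = v
      · rw [if_pos h, h]
      · rw [if_neg h, mul_zero, mul_zero]
    exact (mul_eq_zero.1 (h1.trans hw)).resolve_left hv

theorem exists_functional (y : ℝ) (h : ∀ q : ℚ, y ≠ q * π) :
    ∃ f : ℝ →ₗ[ℚ] ℚ, f π = 0 ∧ f y ≠ 0 := by
  have hy : y ∉ Submodule.span ℚ {π} := by
    intro hy
    obtain ⟨q, hq⟩ := Submodule.mem_span_singleton.1 hy
    rw [Rat.smul_def] at hq
    exact h q hq.symm
  obtain ⟨f, hf1, hf2⟩ := Submodule.exists_dual_map_eq_bot_of_notMem hy inferInstance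
  refine ⟨f, ?_, hf1⟩
  have h1 : f π ∈ (Submodule.span ℚ {π}).map f :=
    Submodule.mem_map_of_mem (Submodule.mem_span_singleton_self π)
  rw [hf2] at h1
  exact (Submodule.mem_bot ℚ).1 h1

theorem EE_of_tilesFF (p : Fin 4 → E3) (hp : AffineIndependent ℝ p) (h : TilesFF p) :
    EE (len p) := by
  classical
  obtain ⟨F, hF, hcov, hpair⟩ := h
  intro j
  by_contra hn
  push Not at hn
  obtain ⟨f, hf0, hf1⟩ := exists_functional _ hn
  have hP : ∀ q : F, AffineIndependent ℝ (q : Fin 4 → E3) := by
    intro q
    obtain ⟨g, hg⟩ := hF q q.2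
    have e2 : (q : Fin 4 → E3) = g.toRealAffineIsometryEquiv.toAffineEquiv ∘ p := by
      rw [hg]
      rfl
    rw [e2]
    exact (g.toRealAffineIsometryEquiv.toAffineEquiv.affineIndependent_iff).2 hp
  have hl : ∀ q : F, len (q : Fin 4 → E3) = len p := by
    intro q
    obtain ⟨g, hg⟩ := hF q q.2
    rw [hg]
    funext i
    exact g.isometry.dist_eq _ _
  have h1 := ff_class (ι := F) (fun q => (q : Fin 4 → E3)) (len p) hP hl
    (by rw [← hcov, iUnion_coe_set])
    (fun q q' hne => (hpair q q.2 q' q'.2 fun h => hne (Subtype.ext h)).1)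
    (fun q q' => by
      by_cases hqq : q = q'
      · rw [hqq, inter_self, inter_self]
      · exact (hpair q q.2 q' q'.2 fun h => hqq (Subtype.ext h)).2)
    ((Algebra.linearMap ℚ ℝ).comp f) (by
      rw [LinearMap.comp_apply, hf0, map_zero]) (len p j)
  rw [← map_sum, LinearMap.comp_apply, Algebra.linearMap_apply] at h1
  apply hf1
  exact (map_eq_zero_iff (algebraMap ℚ ℝ) (algebraMap ℚ ℝ).injective).1 h1

/-- arbitrary tilings, distinct edge lengths linearly independent over `ℚ` -/
theorem EE_of_indep (p : Fin 4 → E3) (hp : AffineIndependent ℝ p)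
    (hT : TilesSpace (convexHull ℝ (range p)))
    (hI : LinearIndependent ℚ (fun x : range (len p) => (x : ℝ))) : EE (len p) := by
  classical
  intro j
  by_contra hn
  push Not at hn
  obtain ⟨f, hf0, hf1⟩ := exists_functional _ hn
  apply hf1
  have h1 := dehn_zero p hp hT ((Algebra.linearMap ℚ ℝ).comp f) (by
    rw [LinearMap.comp_apply, hf0, map_zero])
  have h2 : ∑ x : range (len p), (∑ i with rangeFactorization (len p) i = x,
      f (al (len p) i)) • (x : ℝ) = 0 := by
    rw [← h1, ← Finset.sum_fiberwise Finset.univ (rangeFactorization (len p))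
      (fun i => len p i * ((Algebra.linearMap ℚ ℝ).comp f) (al (len p) i))]
    refine Finset.sum_congr rfl fun x _ => ?_
    rw [Finset.sum_smul]
    refine Finset.sum_congr rfl fun i hi => ?_
    rw [Finset.mem_filter] at hi
    have h3 : len p i = (x : ℝ) := congrArg Subtype.val hi.2
    rw [h3, Rat.smul_def, mul_comm]
    rfl
  have h4 := Fintype.linearIndependent_iff.1 hI _ h2 (rangeFactorization (len p) j)
  rw [map_sum, ← h4]
  refine Finset.sum_congr ?_ fun _ _ => rfl
  ext i
  simp only [Finset.mem_filter, Finset.mem_univ, true_and]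
  exact ⟨fun h => Subtype.ext h, fun h => congrArg Subtype.val h⟩

end Pool.Agent.Helper22.FF
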