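import Pool.Agent.Helper22.FF.Kuhn
import Pool.Agent.Helper22.FF.Isom

/-!
FF-24 Tile1.  Goldberg's first family tiles face-to-face.

PROOF. `path_tiles`: `Φ x = ∑ i, x i • w i` (a linear isomorphism `(Fin 3 → ℝ) → E3`, as `w` is a basis). Family indexed by
`(n, σ) : (Fin 3 → ℤ) × Perm (Fin 3)`, `P (n, σ) a = Φ (kv n σ a)`. The distances `dist (P (n,σ) a) (P (n,σ) b)` depend only on
`a, b` (the difference is a sum of `|a - b|` different vectors `w i`; all `⟪w i, w i⟫ = A`, `⟪w i, w j⟫ = B`), so each is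
congruent to the one with `n = 0`, `σ = 1`, which is `![0, w 0, w 0 + w 1, w 0 + w 1 + w 2]` (`exists_isometry`; affine
independence: the differences `w σ0`, `w σ0 + w σ1`, ... are independent). Covering: `kuhn_cover` applied to `Φ⁻¹ x`. The rest:
`ff_of_weights` with `Wt x v = hat (Φ⁻¹ x - Φ⁻¹ v)`: `kuhn_weights` (a vertex of another simplex is `Φ` of an integer point,
`kv_int`), injectivity from `kv_inj` and injectivity of `Φ`. The family in `TilesFF` is the range of `P`.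
`G1_tilesFF`: `G1 (len p)`: `A = |01|² = |02|² = |13|²`, `B = |03|² = |12|²`, `|23|² = 3 (B - A)`. Put `w 0 = p 0 - p 2`,
`w 1 = p 1 - p 0`, `w 2 = p 3 - p 1`. Then `|w i|² = A`, `2⟪w 0, w 1⟫ = |p 1 - p 2|² - 2A = B - 2A`, `2⟪w 1, w 2⟫ = |p 3 - p 0|² - 2A = B - 2A`,
and `3A + 2(⟪w0,w1⟫ + ⟪w1,w2⟫ + ⟪w0,w2⟫) = |p 3 - p 2|² = 3(B - A)` gives `2⟪w 0, w 2⟫ = B - 2A`. `w` is linearly independent. So
`![0, w 0, w 0 + w 1, w 0 + w 1 + w 2] = ![p 2, p 0, p 1, p 3] - p 2` tiles; `TilesFF_congr` and `TilesFF_perm`.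
-/

open Real Set Pool.Agent.Helper1.Tet
open scoped RealInnerProductSpace

namespace Pool.Agent.Helper22.FF

private lemma ai_path (w : Fin 3 → E3) (hw : LinearIndependent ℝ w) :
    AffineIndependent ℝ (![0, w 0, w 0 + w 1, w 0 + w 1 + w 2] : Fin 4 → E3) := by
  rw [affineIndependent_iff_of_fintype]
  intro c hc h
  rw [Finset.weightedVSub_eq_linear_combination _ hc] at h
  have hl := Fintype.linearIndependent_iff.1 hw ![c 1 + c 2 + c 3, c 2 + c 3, c 3] (by
    rw [← h]
    simp only [Fin.sum_univ_three, Fin.sum_univ_four, Matrix.cons_val_zero, Matrix.cons_val_one,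
      Matrix.cons_val]
    module)
  have h0 := hl 0
  have h1 := hl 1
  have h2 := hl 2
  simp only [Matrix.cons_val_zero, Matrix.cons_val_one, Matrix.cons_val] at h0 h1 h2
  rw [Fin.sum_univ_four] at hc
  intro i
  fin_cases i
  · show c 0 = 0
    linarith
  · show c 1 = 0
    linarith
  · show c 2 = 0
    linarith
  · show c 3 = 0
    linarith

private lemma norm_sq_comb (w : Fin 3 → E3) (A B : ℝ)
    (hA : ∀ i, ⟪w i, w i⟫ = A) (hB : ∀ i j, i ≠ j → ⟪w i, w j⟫ = B) (z : Fin 3 → ℝ) :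
    ‖∑ i, z i • w i‖ ^ 2 = (A - B) * ∑ i, z i ^ 2 + B * (∑ i, z i) ^ 2 := by
  rw [← real_inner_self_eq_norm_sq]
  simp only [Fin.sum_univ_three, inner_add_left, inner_add_right, inner_smul_left,
    inner_smul_right, hA, hB 0 1 (by decide), hB 0 2 (by decide), hB 1 2 (by decide),
    hB 1 0 (by decide), hB 2 0 (by decide), hB 2 1 (by decide)]
  simp
  ring

theorem path_tiles (w : Fin 3 → E3) (hw : LinearIndependent ℝ w) (A B : ℝ)
    (hA : ∀ i, ⟪w i, w i⟫ = A) (hB : ∀ i j, i ≠ j → ⟪w i, w j⟫ = B) :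
    TilesFF ![0, w 0, w 0 + w 1, w 0 + w 1 + w 2] := by
  classical
  set p : Fin 4 → E3 := ![0, w 0, w 0 + w 1, w 0 + w 1 + w 2] with hp
  have hai : AffineIndependent ℝ p := ai_path w hw
  obtain ⟨Φ, hΦ⟩ : ∃ Φ : (Fin 3 → ℝ) ≃ₗ[ℝ] E3, ∀ x, Φ x = ∑ i, x i • w i := by
    have hc : Fintype.card (Fin 3) = Module.finrank ℝ E3 := by simp
    refine ⟨(basisOfLinearIndependentOfCardEqFinrank hw hc).equivFun.symm, fun x => ?_⟩
    rw [Module.Basis.equivFun_symm_apply]
    simp
  set P : (Fin 3 → ℤ) × Equiv.Perm (Fin 3) → Fin 4 → E3 := fun m a => Φ (kv m.1 m.2 a) with hP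
  have hdist : ∀ (m : (Fin 3 → ℤ) × Equiv.Perm (Fin 3)) (a b : Fin 4),
      dist (P m a) (P m b) ^ 2 =
        (A - B) * ∑ k : Fin 3, ((if (k : ℕ) < (a : ℕ) then (1 : ℝ) else 0) -
          (if (k : ℕ) < (b : ℕ) then (1 : ℝ) else 0)) ^ 2 +
        B * (∑ k : Fin 3, ((if (k : ℕ) < (a : ℕ) then (1 : ℝ) else 0) -
          (if (k : ℕ) < (b : ℕ) then (1 : ℝ) else 0))) ^ 2 := by
    intro m a b
    have e1 : P m a - P m b = Φ (fun i => (if (m.2.symm i : ℕ) < (a : ℕ) then (1 : ℝ) else 0) -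
        (if (m.2.symm i : ℕ) < (b : ℕ) then (1 : ℝ) else 0)) := by
      rw [hP]
      simp only
      rw [← map_sub]
      congr 1
      funext i
      simp only [kv, Pi.sub_apply]
      ring
    rw [dist_eq_norm, e1, hΦ, norm_sq_comb w A B hA hB]
    congr 2
    · exact Equiv.sum_comp m.2.symm (fun k : Fin 3 =>
        ((if (k : ℕ) < (a : ℕ) then (1 : ℝ) else 0) -
          (if (k : ℕ) < (b : ℕ) then (1 : ℝ) else 0)) ^ 2)
    · congr 1
      exact Equiv.sum_comp m.2.symm (fun k : Fin 3 =>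
        ((if (k : ℕ) < (a : ℕ) then (1 : ℝ) else 0) -
          (if (k : ℕ) < (b : ℕ) then (1 : ℝ) else 0)))
  have hdist' : ∀ (m m' : (Fin 3 → ℤ) × Equiv.Perm (Fin 3)) (a b : Fin 4),
      dist (P m a) (P m b) = dist (P m' a) (P m' b) := by
    intro m m' a b
    have h1 := hdist m a b
    rw [← hdist m' a b] at h1
    exact (pow_left_inj₀ dist_nonneg dist_nonneg two_ne_zero).1 h1
  have hP0 : P (0, 1) = p := by
    funext a
    rw [hP, hp]
    simp only
    rw [hΦ, Fin.sum_univ_three]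
    have e : ∀ i : Fin 3, (Equiv.symm (1 : Equiv.Perm (Fin 3))) i = i := fun _ => rfl
    fin_cases a <;> simp [kv, e]
  have hiso : ∀ m, ∃ g : E3 ≃ᵢ E3, P m = g ∘ p := by
    intro m
    refine exists_isometry p (P m) hai fun a b => ?_
    rw [← hP0]
    exact hdist' _ _ a b
  have haiP : ∀ m, AffineIndependent ℝ (P m) := by
    intro m
    obtain ⟨g, hg⟩ := hiso m
    rw [hg]
    have h1 := (AffineEquiv.affineIndependent_iff
      (g.toRealAffineIsometryEquiv.toAffineEquiv) (p := p)).2 hai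
    exact h1
  have hsumΦ : ∀ (m : (Fin 3 → ℤ) × Equiv.Perm (Fin 3)) (c : Fin 4 → ℝ) (i : Fin 3),
      Φ.symm (∑ b, c b • P m b) i = ∑ b, c b * kv m.1 m.2 b i := by
    intro m c i
    rw [map_sum]
    simp only [map_smul, hP, LinearEquiv.symm_apply_apply, Finset.sum_apply, Pi.smul_apply,
      smul_eq_mul]
  have hff := ff_of_weights P haiP
    (fun x v => hat (fun i => Φ.symm x i - Φ.symm v i)) (by
      intro m c hc hs
      obtain ⟨k1, k2⟩ := kuhn_weights m.1 m.2 c hc hs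
      refine ⟨fun a => ?_, fun v hv => ?_⟩
      · rw [← k1 a]
        congr 1
        funext i
        rw [hsumΦ m c i]
        simp only [hP, LinearEquiv.symm_apply_apply]
      · by_cases hv' : ∃ i', v ∈ range (P i')
        · left
          obtain ⟨m', a', hv'⟩ := hv'
          obtain ⟨z, hz⟩ := kv_int m'.1 m'.2 a'
          have hvz : Φ.symm v = fun i => (z i : ℝ) := by
            rw [← hv', ← hz]
            simp only [hP, LinearEquiv.symm_apply_apply]
          have := k2 z (fun a h => hv ⟨a, by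
            show Φ (kv m.1 m.2 a) = v
            rw [← h, ← hvz, LinearEquiv.apply_symm_apply]⟩)
          rw [← this]
          congr 1
          funext i
          rw [hsumΦ m c i, hvz]
        · right
          intro i' h
          exact hv' ⟨i', h⟩) (by
      intro m m' h
      have h1 : range (kv m.1 m.2) = range (kv m'.1 m'.2) := by
        have e : ∀ m : (Fin 3 → ℤ) × Equiv.Perm (Fin 3), range (P m) = Φ '' range (kv m.1 m.2) := by
          intro m
          rw [← range_comp]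
          rfl
        rw [e m, e m'] at h
        exact Φ.injective.image_injective h
      obtain ⟨h2, h3⟩ := kv_inj _ _ _ _ h1
      exact Prod.ext h2 h3)
  refine ⟨range P, ?_, ?_, ?_⟩
  · rintro q ⟨m, rfl⟩
    exact hiso m
  · rw [biUnion_range, eq_univ_iff_forall]
    intro y
    obtain ⟨n, σ, c, hc, hs, hy⟩ := kuhn_cover (Φ.symm y)
    refine mem_iUnion.2 ⟨(n, σ), ?_⟩
    have h1 : y = ∑ b, c b • P (n, σ) b := by
      apply Φ.symm.injective
      funext i
      rw [hsumΦ, hy i]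
    rw [h1]
    exact (convex_convexHull ℝ _).sum_mem (fun b _ => hc b) hs
      (fun b _ => subset_convexHull ℝ _ (mem_range_self b))
  · rintro q ⟨m, rfl⟩ q' ⟨m', rfl⟩ hne
    have hmm : m ≠ m' := fun h => hne (by rw [h])
    exact ⟨hff.1 m m' hmm, hff.2 m m'⟩

theorem G1_tilesFF (p : Fin 4 → E3) (hp : AffineIndependent ℝ p) (h : G1 (len p)) :
    TilesFF p := by
  obtain ⟨h1, h4, h3, h5⟩ := h
  have l0 : len p 0 = ‖p 0 - p 1‖ := dist_eq_norm _ _
  have l1 : len p 1 = ‖p 0 - p 2‖ := dist_eq_norm _ _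
  have l2 : len p 2 = ‖p 0 - p 3‖ := dist_eq_norm _ _
  have l3 : len p 3 = ‖p 1 - p 2‖ := dist_eq_norm _ _
  have l4 : len p 4 = ‖p 1 - p 3‖ := dist_eq_norm _ _
  have l5 : len p 5 = ‖p 2 - p 3‖ := dist_eq_norm _ _
  rw [l1, l0] at h1
  rw [l4, l0] at h4
  rw [l3, l2] at h3
  rw [l5, l2, l0] at h5
  set w : Fin 3 → E3 := ![p 0 - p 2, p 1 - p 0, p 3 - p 1] with hwdef
  have w0 : w 0 = p 0 - p 2 := rfl
  have w1 : w 1 = p 1 - p 0 := rfl
  have w2 : w 2 = p 3 - p 1 := rfl
  have hw : LinearIndependent ℝ w := by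
    rw [Fintype.linearIndependent_iff]
    intro g hg
    have hc : ∑ i, (![g 0 - g 1, g 1 - g 2, - g 0, g 2] : Fin 4 → ℝ) i = 0 := by
      simp only [Fin.sum_univ_four, Matrix.cons_val_zero, Matrix.cons_val_one, Matrix.cons_val]
      ring
    have := (affineIndependent_iff_of_fintype ℝ p).1 hp ![g 0 - g 1, g 1 - g 2, - g 0, g 2] hc (by
      rw [Finset.weightedVSub_eq_linear_combination _ hc, ← hg]
      simp only [Fin.sum_univ_three, Fin.sum_univ_four, Matrix.cons_val_zero, Matrix.cons_val_one,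
        Matrix.cons_val, w0, w1, w2]
      module)
    have c2 := this 2
    have c3 := this 3
    have c0 := this 0
    simp only [Matrix.cons_val_zero, Matrix.cons_val] at c2 c3 c0
    intro i
    fin_cases i
    · show g 0 = 0
      linarith
    · show g 1 = 0
      linarith
    · show g 2 = 0
      linarith
  have n0 : ⟪w 0, w 0⟫ = ‖p 0 - p 1‖ ^ 2 := by
    rw [real_inner_self_eq_norm_sq, w0, h1]
  have n1 : ⟪w 1, w 1⟫ = ‖p 0 - p 1‖ ^ 2 := by
    rw [real_inner_self_eq_norm_sq, w1, norm_sub_rev]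
  have n2 : ⟪w 2, w 2⟫ = ‖p 0 - p 1‖ ^ 2 := by
    rw [real_inner_self_eq_norm_sq, w2, norm_sub_rev, h4]
  have n01 : ⟪w 0, w 1⟫ = (‖p 0 - p 3‖ ^ 2 - 2 * ‖p 0 - p 1‖ ^ 2) / 2 := by
    have e : ‖w 0 + w 1‖ ^ 2 = ‖p 0 - p 3‖ ^ 2 := by
      rw [← h3, w0, w1]
      congr 2
      abel
    rw [← real_inner_self_eq_norm_sq, real_inner_add_add_self, n0, n1] at e
    linarith
  have n12 : ⟪w 1, w 2⟫ = (‖p 0 - p 3‖ ^ 2 - 2 * ‖p 0 - p 1‖ ^ 2) / 2 := by
    have e : ‖w 1 + w 2‖ ^ 2 = ‖p 0 - p 3‖ ^ 2 := by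
      rw [norm_sub_rev (p 0) (p 3), w1, w2]
      congr 2
      abel
    rw [← real_inner_self_eq_norm_sq, real_inner_add_add_self, n1, n2] at e
    linarith
  have n02 : ⟪w 0, w 2⟫ = (‖p 0 - p 3‖ ^ 2 - 2 * ‖p 0 - p 1‖ ^ 2) / 2 := by
    have e : ‖w 0 + w 1 + w 2‖ ^ 2 = 3 * (‖p 0 - p 3‖ ^ 2 - ‖p 0 - p 1‖ ^ 2) := by
      rw [← h5, norm_sub_rev (p 2) (p 3), w0, w1, w2]
      congr 2
      abel
    rw [← real_inner_self_eq_norm_sq, real_inner_add_add_self, real_inner_add_add_self,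
      inner_add_left, n0, n1, n2, n01, n12] at e
    linarith
  have hT := path_tiles w hw _ _ (by
    intro i
    fin_cases i
    · exact n0
    · exact n1
    · exact n2) (by
    intro i j hij
    fin_cases i <;> fin_cases j
    · exact absurd rfl hij
    · exact n01
    · exact n02
    · rw [real_inner_comm]
      exact n01
    · exact absurd rfl hij
    · exact n12
    · rw [real_inner_comm]
      exact n02
    · rw [real_inner_comm]
      exact n12
    · exact absurd rfl hij)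
  set σ : Equiv.Perm (Fin 4) := ⟨![2, 0, 1, 3], ![1, 2, 0, 3], by decide, by decide⟩ with hσ
  have hpath : ∀ a, (![0, w 0, w 0 + w 1, w 0 + w 1 + w 2] : Fin 4 → E3) a = p (σ a) - p 2 := by
    intro a
    fin_cases a
    · show (0 : E3) = p 2 - p 2
      simp
    · show w 0 = p 0 - p 2
      exact w0
    · show w 0 + w 1 = p 1 - p 2
      rw [w0, w1]
      abel
    · show w 0 + w 1 + w 2 = p 3 - p 2
      rw [w0, w1, w2]
      abel
  apply TilesFF_perm σ p
  refine TilesFF_congr _ (p ∘ σ) (ai_path w hw) (fun a b => ?_) hT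
  rw [hpath a, hpath b, dist_eq_norm, Function.comp_apply, Function.comp_apply, dist_eq_norm]
  congr 1
  abel

end Pool.Agent.Helper22.FF
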