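import Pool.Agent.Helper22.FF.Defs

/-!
FF-17 Types.  Every partition of the six edges is one of the 25 of `types` after a permutation of the
vertices.

PROOF. Finite check (203 partitions, 24 permutations, 25 types; verified by a Python program). Suggestion: first
replace `c` by the canonical function `c' i = least j with c j = c i` (`c' i ≤ i`, `c' (c' i) = c' i`, and
`c' i = c' j ↔ c i = c j`); then `decide` / `decide +kernel` over the 720 functions with `c' i ≤ i` (as nested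
quantifiers), with Boolean-valued tests, the permutations as an explicit list of 24 edge permutations, and the types
as an explicit list. If it is too slow split by the value of `c' 5` and `c' 4`.
-/

open Real Set Pool.Agent.Helper1.Tet

namespace Pool.Agent.Helper22.FF

namespace TypesAux

/-- the permutations of the vertices -/
def S : List (Equiv.Perm (Fin 4)) :=
  [
    ⟨![0, 1, 2, 3], ![0, 1, 2, 3], by decide, by decide⟩,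
    ⟨![0, 1, 3, 2], ![0, 1, 3, 2], by decide, by decide⟩,
    ⟨![0, 2, 1, 3], ![0, 2, 1, 3], by decide, by decide⟩,
    ⟨![0, 2, 3, 1], ![0, 3, 1, 2], by decide, by decide⟩,
    ⟨![0, 3, 1, 2], ![0, 2, 3, 1], by decide, by decide⟩,
    ⟨![0, 3, 2, 1], ![0, 3, 2, 1], by decide, by decide⟩,
    ⟨![1, 0, 2, 3], ![1, 0, 2, 3], by decide, by decide⟩,
    ⟨![1, 0, 3, 2], ![1, 0, 3, 2], by decide, by decide⟩,
    ⟨![1, 2, 0, 3], ![2, 0, 1, 3], by decide, by decide⟩,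
    ⟨![1, 2, 3, 0], ![3, 0, 1, 2], by decide, by decide⟩,
    ⟨![1, 3, 0, 2], ![2, 0, 3, 1], by decide, by decide⟩,
    ⟨![1, 3, 2, 0], ![3, 0, 2, 1], by decide, by decide⟩,
    ⟨![2, 0, 1, 3], ![1, 2, 0, 3], by decide, by decide⟩,
    ⟨![2, 0, 3, 1], ![1, 3, 0, 2], by decide, by decide⟩,
    ⟨![2, 1, 0, 3], ![2, 1, 0, 3], by decide, by decide⟩,
    ⟨![2, 1, 3, 0], ![3, 1, 0, 2], by decide, by decide⟩,
    ⟨![2, 3, 0, 1], ![2, 3, 0, 1], by decide, by decide⟩,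
    ⟨![2, 3, 1, 0], ![3, 2, 0, 1], by decide, by decide⟩,
    ⟨![3, 0, 1, 2], ![1, 2, 3, 0], by decide, by decide⟩,
    ⟨![3, 0, 2, 1], ![1, 3, 2, 0], by decide, by decide⟩,
    ⟨![3, 1, 0, 2], ![2, 1, 3, 0], by decide, by decide⟩,
    ⟨![3, 1, 2, 0], ![3, 1, 2, 0], by decide, by decide⟩,
    ⟨![3, 2, 0, 1], ![2, 3, 1, 0], by decide, by decide⟩,
    ⟨![3, 2, 1, 0], ![3, 2, 1, 0], by decide, by decide⟩]

/-- witnesses `24 * type + permutation` for the canonical functions -/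
def W : List ℕ :=
  [
    0, 34, 0, 57, 32, 153, 0, 66, 0, 123, 0, 254, 0, 0, 0, 0, 96, 226, 28, 162,
    0, 245, 288, 442, 0, 97, 0, 125, 0, 224, 0, 124, 0, 99, 0, 225, 0, 0, 0, 0,
    0, 336, 0, 220, 0, 221, 0, 508, 0, 0, 0, 0, 60, 260, 0, 0, 0, 0, 0, 276,
    0, 0, 0, 0, 122, 227, 0, 0, 0, 0, 258, 426, 0, 0, 0, 0, 0, 0, 0, 0,
    0, 0, 0, 0, 0, 0, 0, 0, 0, 0, 51, 251, 0, 267, 249, 417, 26, 289, 0, 243,
    156, 440, 0, 252, 0, 219, 0, 420, 0, 0, 0, 0, 218, 506, 147, 436, 0, 411, 434, 555,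
    0, 55, 0, 78, 0, 176, 0, 84, 0, 61, 0, 182, 0, 0, 0, 0, 0, 271, 0, 196,
    0, 197, 0, 487, 0, 121, 0, 67, 0, 248, 0, 63, 0, 40, 0, 159, 0, 0, 0, 0,
    0, 232, 0, 244, 0, 163, 0, 448, 0, 0, 0, 0, 0, 318, 0, 0, 0, 0, 0, 184,
    0, 0, 0, 0, 0, 256, 0, 0, 0, 0, 0, 474, 0, 0, 0, 0, 0, 0, 0, 0,
    0, 0, 0, 0, 0, 0, 0, 0, 0, 0, 0, 316, 0, 208, 0, 472, 0, 253, 0, 195,
    0, 469, 0, 180, 0, 157, 0, 372, 0, 0, 0, 0, 0, 421, 0, 460, 0, 387, 0, 541,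
    0, 0, 0, 0, 54, 178, 0, 0, 0, 0, 0, 319, 0, 0, 0, 0, 120, 250, 0, 0,
    0, 0, 259, 475, 0, 0, 0, 0, 0, 270, 0, 0, 0, 0, 0, 262, 0, 0, 0, 0,
    0, 233, 0, 0, 0, 0, 0, 427, 0, 0, 0, 0, 90, 188, 0, 0, 0, 0, 0, 190,
    0, 0, 0, 0, 69, 165, 0, 0, 0, 0, 186, 378, 0, 0, 0, 0, 0, 0, 0, 0,
    0, 0, 0, 0, 0, 0, 0, 0, 0, 0, 0, 0, 0, 0, 314, 478, 0, 0, 0, 0,
    194, 486, 0, 0, 0, 0, 0, 468, 0, 0, 0, 0, 242, 449, 0, 0, 0, 0, 458, 547,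
    0, 0, 0, 0, 0, 0, 0, 0, 0, 0, 0, 0, 0, 0, 0, 0, 0, 0, 49, 202,
    0, 317, 255, 466, 0, 0, 0, 0, 0, 0, 0, 0, 0, 0, 0, 0, 0, 0, 0, 0,
    0, 0, 0, 265, 0, 257, 0, 423, 0, 0, 0, 0, 0, 0, 0, 0, 0, 0, 0, 0,
    0, 0, 0, 0, 0, 0, 0, 0, 0, 0, 312, 476, 0, 0, 0, 0, 0, 0, 0, 0,
    0, 0, 0, 0, 0, 0, 0, 0, 0, 0, 72, 203, 0, 209, 201, 393, 0, 0, 0, 0,
    0, 0, 0, 0, 0, 0, 0, 0, 0, 0, 0, 0, 0, 0, 170, 481, 0, 473, 471, 543,
    0, 0, 0, 0, 0, 0, 0, 0, 0, 0, 0, 0, 0, 0, 0, 0, 0, 0, 0, 0,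
    0, 0, 0, 0, 0, 0, 0, 0, 0, 0, 0, 0, 0, 0, 0, 0, 0, 0, 0, 0,
    0, 0, 0, 0, 0, 0, 0, 0, 0, 0, 0, 0, 0, 0, 0, 0, 0, 0, 0, 0,
    0, 0, 0, 0, 0, 0, 0, 0, 0, 0, 0, 0, 0, 0, 0, 0, 0, 0, 0, 0,
    0, 0, 0, 0, 0, 0, 0, 0, 0, 0, 0, 0, 0, 0, 0, 0, 48, 261, 0, 315,
    200, 464, 0, 313, 0, 263, 0, 470, 0, 0, 0, 0, 264, 429, 172, 477, 0, 479, 480, 549,
    24, 151, 0, 174, 150, 366, 0, 193, 0, 247, 0, 463, 0, 0, 0, 0, 216, 415, 145, 385,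
    0, 461, 432, 535, 0, 217, 0, 246, 0, 414, 0, 241, 0, 291, 0, 441, 0, 0, 0, 0,
    0, 504, 0, 409, 0, 437, 0, 553, 0, 0, 0, 0, 192, 462, 0, 0, 0, 0, 0, 492,
    0, 0, 0, 0, 240, 443, 0, 0, 0, 0, 456, 546, 0, 0, 0, 0, 0, 0, 0, 0,
    0, 0, 0, 0, 0, 0, 0, 0, 0, 0, 168, 467, 0, 483, 465, 537, 144, 433, 0, 459,
    384, 534, 0, 457, 0, 435, 0, 540, 0, 0, 0, 0, 408, 552, 360, 529, 0, 531, 528, 576]

/-- the canonical function with values `0, x1, ..., x5` -/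
def fn (x1 : Fin 2) (x2 : Fin 3) (x3 : Fin 4) (x4 : Fin 5) (x5 : Fin 6) : Fin 6 → Fin 6 :=
  ![0, ⟨x1.1, by omega⟩, ⟨x2.1, by omega⟩, ⟨x3.1, by omega⟩, ⟨x4.1, by omega⟩, x5]

/-- the witness -/
def wt (x1 : Fin 2) (x2 : Fin 3) (x3 : Fin 4) (x4 : Fin 5) (x5 : Fin 6) : ℕ :=
  W.getD (x1.1 + 2 * (x2.1 + 3 * (x3.1 + 4 * (x4.1 + 5 * x5.1)))) 0

/-- the test -/
def Tst (t e a : Fin 6 → Fin 6) : Prop := ∀ i j, t i = t j ↔ a (e i) = a (e j)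

instance (t e a : Fin 6 → Fin 6) : Decidable (Tst t e a) := by unfold Tst; infer_instance

theorem key : ∀ (x5 : Fin 6) (x4 : Fin 5) (x3 : Fin 4) (x2 : Fin 3) (x1 : Fin 2),
    (∀ i, fn x1 x2 x3 x4 x5 (fn x1 x2 x3 x4 x5 i) = fn x1 x2 x3 x4 x5 i) →
    wt x1 x2 x3 x4 x5 / 24 < 25 ∧
    Tst (types.getD (wt x1 x2 x3 x4 x5 / 24) (fun _ => 0))
      (es (S.getD (wt x1 x2 x3 x4 x5 % 24) 1)) (fn x1 x2 x3 x4 x5) := by
  decide +kernel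

end TypesAux

open TypesAux in
theorem types_complete (c : Fin 6 → Fin 6) : ∃ t ∈ types, ∃ σ : Equiv.Perm (Fin 4),
    ∀ i j, t i = t j ↔ c (es σ i) = c (es σ j) := by
  classical
  have hne : ∀ i, (Finset.univ.filter fun j => c j = c i).Nonempty := fun i =>
    ⟨i, by simp⟩
  obtain ⟨a, ha⟩ : ∃ a : Fin 6 → Fin 6, ∀ i,
      a i = (Finset.univ.filter fun j => c j = c i).min' (hne i) := ⟨_, fun i => rfl⟩
  have h1 : ∀ i, c (a i) = c i := by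
    intro i
    have := Finset.min'_mem _ (hne i)
    rw [← ha i] at this
    simpa using this
  have h2 : ∀ i, a i ≤ i := by
    intro i
    rw [ha i]
    exact Finset.min'_le _ _ (by simp)
  have h3 : ∀ i j, c i = c j → a i = a j := by
    intro i j hij
    rw [ha i, ha j]
    congr 1
    rw [hij]
  have h4 : ∀ i j, a i = a j ↔ c i = c j := by
    intro i j
    refine ⟨fun h => ?_, h3 i j⟩
    rw [← h1 i, ← h1 j, h]
  have h5 : ∀ i, a (a i) = a i := fun i => h3 _ _ (h1 i)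
  have b0 : a 0 = 0 := Fin.le_zero_iff.1 (h2 0)
  have b1 : (a 1).1 < 2 := by have := h2 1; rw [Fin.le_def] at this; exact Nat.lt_succ_of_le this
  have b2 : (a 2).1 < 3 := by have := h2 2; rw [Fin.le_def] at this; exact Nat.lt_succ_of_le this
  have b3 : (a 3).1 < 4 := by have := h2 3; rw [Fin.le_def] at this; exact Nat.lt_succ_of_le this
  have b4 : (a 4).1 < 5 := by have := h2 4; rw [Fin.le_def] at this; exact Nat.lt_succ_of_le this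
  have hfn : fn ⟨(a 1).1, b1⟩ ⟨(a 2).1, b2⟩ ⟨(a 3).1, b3⟩ ⟨(a 4).1, b4⟩ (a 5) = a := by
    funext i
    fin_cases i
    · exact b0.symm
    · rfl
    · rfl
    · rfl
    · rfl
    · rfl
  have hk := key (a 5) ⟨(a 4).1, b4⟩ ⟨(a 3).1, b3⟩ ⟨(a 2).1, b2⟩ ⟨(a 1).1, b1⟩
  rw [hfn] at hk
  obtain ⟨h6, h7⟩ := hk h5
  have hlen : types.length = 25 := rfl
  refine ⟨_, ?_, S.getD (wt ⟨(a 1).1, b1⟩ ⟨(a 2).1, b2⟩ ⟨(a 3).1, b3⟩ ⟨(a 4).1, b4⟩ (a 5) % 24) 1,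
    fun i j => (h7 i j).trans (h4 _ _)⟩
  rw [List.getD_eq_getElem _ _ (by rw [hlen]; exact h6)]
  exact List.getElem_mem _

end Pool.Agent.Helper22.FF
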