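import Pool.Agent.Helper22.FF.Defs
import Pool.Agent.Helper1.Tet.DehnZero

/-!
FF-20 Weighted.  The counting argument with weights, and the edges of a face-to-face family.

PROOF. `weighted_zero`: this is the proof of `dehn_zero_family` (Helper1/Tet/DehnZero.lean) verbatim, with `f (al l j)`
replaced by `g j` and the use of `local_relation` replaced by the hypothesis `hloc` (that file uses
`local_relation P l hP hl hcov hdis hfin f hf x _ _` at one place only).
`ff_edge`: `x` is in the segment `[p a, p b]` (`a = ea i`, `b = eb i`), `x ≠ p a, p b`, so `x = s p a + t p b`, `s, t > 0`,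
`s + t = 1`. `x` is in both hulls, so `x ∈ convexHull (range p ∩ range q)`: `x` is a convex combination of vertices of `p`
which are vertices of `q`; by affine independence of `p` the barycentric coordinates of `x` are unique, so `p a` and `p b`
occur (their coordinates are positive) and are in `range q`. So `x` is in the open segment between the two vertices
`p a, p b` of `q` and in the open segment between `q (ea j), q (eb j)`; by affine independence of `q` these pairs are equal
as sets, so the lengths agree (`len p i = dist (p a) (p b)`).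
-/

open Real Set MeasureTheory Pool.Agent.Helper1.Tet
open scoped ENNReal

namespace Pool.Agent.Helper22.FF

/-- the counting argument for the Dehn invariant, for arbitrary weights of the edges which satisfy
the local relation at all points which are not vertices -/
theorem weighted_zero {ι : Type*} (P : ι → Fin 4 → E3) (l g : Fin 6 → ℝ)
    (hP : ∀ i, AffineIndependent ℝ (P i)) (hl : ∀ i, len (P i) = l)
    (hcov : ⋃ i, convexHull ℝ (range (P i)) = univ)
    (hdis : Pairwise fun i i' => Disjoint (interior (convexHull ℝ (range (P i))))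
      (interior (convexHull ℝ (range (P i')))))
    (hloc : ∀ x : E3, (∀ i, x ∉ range (P i)) → ∀ s : Finset ι,
      (∀ i, x ∈ convexHull ℝ (range (P i)) → i ∈ s) →
      ∑ i ∈ s, ∑ j, (segment ℝ (P i (ea j)) (P i (eb j))).indicator (fun _ => g j) x = 0) :
    ∑ j, l j * g j = 0 := by
  classical
  obtain ⟨hfin, ⟨K, hK⟩, c, hc, R₀, hR₀⟩ := tiling_counts P l hP hl hcov hdis
  set μ : Measure E3 := Measure.hausdorffMeasure 1 with hμ
  set T : ι → Set E3 := fun i => convexHull ℝ (range (P i)) with hT
  set seg : ι → Fin 6 → Set E3 := fun i j => segment ℝ (P i (ea j)) (P i (eb j)) with hseg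
  have hTne : ∀ i, (T i).Nonempty := fun i => ⟨P i 0, subset_convexHull ℝ _ (mem_range_self 0)⟩
  have hlj : ∀ i j, dist (P i (ea j)) (P i (eb j)) = l j := fun i j => by
    rw [← hl i]; rfl
  have hι : Nonempty ι := by
    have h0 : (0 : E3) ∈ ⋃ i, convexHull ℝ (range (P i)) := by rw [hcov]; exact mem_univ _
    obtain ⟨i, _⟩ := mem_iUnion.1 h0
    exact ⟨i⟩
  have hl0 : ∀ j, 0 ≤ l j := fun j => by
    obtain ⟨i⟩ := hι
    rw [← hlj i j]
    exact dist_nonneg
  have hsegμ : ∀ i j, μ (seg i j) = ENNReal.ofReal (l j) := fun i j => by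
    rw [hμ, hseg, ← hlj i j]
    exact seg_measure _ _
  have hsegm : ∀ i j, MeasurableSet (seg i j) := fun i j => (seg_compact _ _).measurableSet
  set S : ℝ := ∑ j, l j * g j with hS
  set M : ℝ := ∑ j, l j * |g j| with hM
  have hM0 : 0 ≤ M := Finset.sum_nonneg fun j _ => mul_nonneg (hl0 j) (abs_nonneg _)
  -- main inequality
  have hmain : ∀ R : ℝ, ({i | T i ⊆ Metric.ball 0 R}.ncard : ℝ) * |S| ≤
      ({i | (T i ∩ Metric.ball 0 R).Nonempty ∧ ¬ T i ⊆ Metric.ball 0 R}.ncard : ℝ) * M := by
    intro R
    set b : Set E3 := Metric.ball 0 R with hb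
    set s : Finset ι := (hfin R).toFinset with hs
    have hsmem : ∀ i, i ∈ s ↔ (T i ∩ b).Nonempty := fun i => by
      rw [hs, Set.Finite.mem_toFinset]; rfl
    have hin : ∀ i, T i ⊆ b → i ∈ s := fun i hi => by
      rw [hsmem]
      obtain ⟨y, hy⟩ := hTne i
      exact ⟨y, hy, hi hy⟩
    set m : ι → Fin 6 → ℝ := fun i j => (μ.restrict b).real (seg i j) with hm
    have hfinm : ∀ i j, (μ.restrict b) (seg i j) < ∞ := fun i j => by
      refine lt_of_le_of_lt (Measure.restrict_apply_le _ _) ?_
      rw [hsegμ]
      exact ENNReal.ofReal_lt_top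
    -- the function vanishes almost everywhere
    have hae : ∀ᵐ x ∂(μ.restrict b), ∑ i ∈ s, ∑ j, (seg i j).indicator
        (fun _ => g j) x = 0 := by
      rw [ae_restrict_iff' Metric.isOpen_ball.measurableSet]
      have hnull : μ (⋃ i ∈ s, range (P i)) = 0 := by
        have hfin' : (⋃ i ∈ s, range (P i)).Finite :=
          s.finite_toSet.biUnion fun i _ => finite_range _
        have : NullSingletonClass μ := by
          rw [hμ]
          exact Measure.nullSingletonClass_hausdorff E3 one_pos
        exact hfin'.measure_zero μ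
      have h1 : ∀ᵐ x ∂μ, x ∉ ⋃ i ∈ s, range (P i) := measure_eq_zero_iff_ae_notMem.1 hnull
      filter_upwards [h1] with x hx hxb
      refine hloc x ?_ s ?_
      · intro i hi
        apply hx
        simp only [mem_iUnion]
        refine ⟨i, ?_, hi⟩
        rw [hsmem]
        exact ⟨x, subset_convexHull ℝ _ hi, hxb⟩
      · intro i hi
        rw [hsmem]
        exact ⟨x, hi, hxb⟩
    have hint : ∫ x, ∑ i ∈ s, ∑ j, (seg i j).indicator (fun _ => g j) x ∂(μ.restrict b) = 0 :=
      by
        rw [integral_congr_ae hae]
        simp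
    have hsum : ∑ i ∈ s, ∑ j, m i j * g j = 0 := by
      rw [← hint, integral_finsetSum]
      · apply Finset.sum_congr rfl
        intro i _
        rw [integral_finsetSum]
        · apply Finset.sum_congr rfl
          intro j _
          rw [integral_indicator_const _ (hsegm i j)]
          rfl
        · intro j _
          exact (integrable_indicator_iff (hsegm i j)).2 (integrableOn_const (hfinm i j).ne)
      · intro i _
        apply integrable_finsetSum
        intro j _
        exact (integrable_indicator_iff (hsegm i j)).2 (integrableOn_const (hfinm i j).ne)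
    -- split
    have hsegT : ∀ i j, seg i j ⊆ T i := fun i j =>
      segment_subset_convexHull (mem_range_self _) (mem_range_self _)
    have hmin : ∀ i j, T i ⊆ b → m i j = l j := by
      intro i j hi
      rw [hm]
      simp only
      rw [measureReal_def, Measure.restrict_apply (hsegm i j),
        inter_eq_left.2 ((hsegT i j).trans hi), hsegμ, ENNReal.toReal_ofReal (hl0 j)]
    have hmle : ∀ i j, m i j ≤ l j := by
      intro i j
      rw [hm]
      simp only
      rw [measureReal_def]
      have h1 : (μ.restrict b) (seg i j) ≤ ENNReal.ofReal (l j) := by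
        rw [← hsegμ i j]
        exact Measure.restrict_apply_le _ _
      exact ENNReal.toReal_le_of_le_ofReal (hl0 j) h1
    have hm0 : ∀ i j, 0 ≤ m i j := fun i j => measureReal_nonneg
    have hsplit : ∑ i ∈ s, ∑ j, m i j * g j =
        ((s.filter fun i => T i ⊆ b).card : ℝ) * S +
          ∑ i ∈ s.filter (fun i => ¬ T i ⊆ b), ∑ j, m i j * g j := by
      rw [← Finset.sum_filter_add_sum_filter_not s (fun i => T i ⊆ b)]
      congr 1
      rw [Finset.sum_congr rfl (g := fun _ => S)]
      · rw [Finset.sum_const, nsmul_eq_mul]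
      · intro i hi
        rw [Finset.mem_filter] at hi
        rw [hS]
        apply Finset.sum_congr rfl
        intro j _
        rw [hmin i j hi.2]
    rw [hsum] at hsplit
    have hbd : |∑ i ∈ s.filter (fun i => ¬ T i ⊆ b), ∑ j, m i j * g j| ≤
        ((s.filter fun i => ¬ T i ⊆ b).card : ℝ) * M := by
      refine (Finset.abs_sum_le_sum_abs _ _).trans ?_
      rw [← nsmul_eq_mul]
      apply Finset.sum_le_card_nsmul
      intro i _
      refine (Finset.abs_sum_le_sum_abs _ _).trans ?_
      rw [hM]
      apply Finset.sum_le_sum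
      intro j _
      rw [abs_mul, abs_of_nonneg (hm0 i j)]
      exact mul_le_mul_of_nonneg_right (hmle i j) (abs_nonneg _)
    have hc1 : {i | T i ⊆ b}.ncard = (s.filter fun i => T i ⊆ b).card := by
      rw [← Set.ncard_coe_finset]
      congr 1
      ext i
      simp only [mem_ofPred_eq, Finset.coe_filter]
      exact ⟨fun h => ⟨hin i h, h⟩, fun h => h.2⟩
    have hc2 : {i | (T i ∩ b).Nonempty ∧ ¬ T i ⊆ b}.ncard =
        (s.filter fun i => ¬ T i ⊆ b).card := by
      rw [← Set.ncard_coe_finset]
      congr 1
      ext i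
      simp only [mem_ofPred_eq, Finset.coe_filter]
      rw [hsmem]
    rw [hc1, hc2]
    have h1 : ((s.filter fun i => T i ⊆ b).card : ℝ) * S =
        - ∑ i ∈ s.filter (fun i => ¬ T i ⊆ b), ∑ j, m i j * g j := by linarith
    calc ((s.filter fun i => T i ⊆ b).card : ℝ) * |S| =
        |((s.filter fun i => T i ⊆ b).card : ℝ) * S| := by
          rw [abs_mul, Nat.abs_cast]
      _ ≤ _ := by rw [h1, abs_neg]; exact hbd
  -- let R tend to infinity
  by_contra hne
  have hSpos : 0 < |S| := abs_pos.2 hne
  have hK0 : 0 ≤ K := by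
    have h1 := hK 1 le_rfl
    have h2 : (0 : ℝ) ≤ K * 1 ^ 2 := le_trans (Nat.cast_nonneg _) h1
    simpa using h2
  set R : ℝ := max (max 1 R₀) (K * M / (c * |S|) + 1) with hR
  have hR1 : 1 ≤ R := le_trans (le_max_left _ _) (le_max_left _ _)
  have hRR₀ : R₀ ≤ R := le_trans (le_max_right _ _) (le_max_left _ _)
  have hRK : K * M / (c * |S|) + 1 ≤ R := le_max_right _ _
  have h1 := hmain R
  have h2 := hK R hR1
  have h3 := hR₀ R hRR₀
  have h4 : c * R ^ 3 * |S| ≤ K * R ^ 2 * M :=
    (mul_le_mul_of_nonneg_right h3 hSpos.le).trans (h1.trans (mul_le_mul_of_nonneg_right h2 hM0))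
  have hRpos : 0 < R := by linarith
  have h5 : c * R * |S| ≤ K * M := by
    have h6 : R ^ 2 * (c * R * |S|) ≤ R ^ 2 * (K * M) := by nlinarith
    exact le_of_mul_le_mul_left h6 (by positivity)
  have h7 : R ≤ K * M / (c * |S|) := by
    rw [le_div_iff₀ (by positivity)]
    nlinarith
  linarith

namespace WeightedAux

theorem fin_indep [DecidableEq E3] {p : Fin 4 → E3} (hp : AffineIndependent ℝ p) :
    AffineIndependent ℝ (fun x : {y // y ∈ Finset.univ.image p} => (x : E3)) := by
  let e : {y // y ∈ Finset.univ.image p} ↪ range p :=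
    ⟨fun x => ⟨x.1, by
      obtain ⟨k, _, hk⟩ := Finset.mem_image.1 x.2
      exact ⟨k, hk⟩⟩, fun x y h => by
        apply Subtype.ext
        exact congrArg (fun z : range p => (z : E3)) h⟩
  exact hp.range.comp_embedding e

theorem seg_two {s : Finset E3} (hs : AffineIndependent ℝ ((↑) : s → E3)) {a b : E3}
    (ha : a ∈ s) (hb : b ∈ s) {t : Finset E3} (ht : t ⊆ s) {x : E3}
    (hx : x ∈ segment ℝ a b) (hxa : x ≠ a) (hxb : x ≠ b)
    (hxt : x ∈ convexHull ℝ (t : Set E3)) : a ∈ t ∧ b ∈ t := by
  classical
  have h1 : (({a, b} : Finset E3) : Set E3) = {a, b} := by simp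
  have h2 : x ∈ convexHull ℝ ((({a, b} : Finset E3) : Set E3) ∩ (t : Set E3)) := by
    rw [hs.convexHull_inter (by
      intro y hy
      rw [Finset.mem_insert, Finset.mem_singleton] at hy
      rcases hy with rfl | rfl
      · exact ha
      · exact hb) ht]
    refine ⟨?_, hxt⟩
    rw [h1, convexHull_pair]
    exact hx
  rw [h1] at h2
  constructor
  · by_contra hat
    have h3 : ({a, b} : Set E3) ∩ (t : Set E3) ⊆ {b} := by
      rintro y ⟨hy, hyt⟩
      rcases hy with rfl | hy
      · exact absurd hyt hat
      · exact hy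
    have h4 := convexHull_mono h3 h2
    rw [convexHull_singleton] at h4
    exact hxb h4
  · by_contra hbt
    have h3 : ({a, b} : Set E3) ∩ (t : Set E3) ⊆ {a} := by
      rintro y ⟨hy, hyt⟩
      rcases hy with hy | hy
      · exact hy
      · rw [mem_singleton_iff] at hy
        rw [hy] at hyt
        exact absurd hyt hbt
    have h4 := convexHull_mono h3 h2
    rw [convexHull_singleton] at h4
    exact hxa h4

end WeightedAux

/-- in a face-to-face family two edges which share an interior point have the same length -/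
theorem ff_edge (p q : Fin 4 → E3) (hp : AffineIndependent ℝ p) (hq : AffineIndependent ℝ q)
    (h : convexHull ℝ (range p) ∩ convexHull ℝ (range q) = convexHull ℝ (range p ∩ range q))
    (x : E3) (hxp : x ∉ range p) (hxq : x ∉ range q) (i j : Fin 6)
    (hi : x ∈ segment ℝ (p (ea i)) (p (eb i))) (hj : x ∈ segment ℝ (q (ea j)) (q (eb j))) :
    len p i = len q j := by
  classical
  have hsp := WeightedAux.fin_indep hp
  have hsq := WeightedAux.fin_indep hq
  set sp : Finset E3 := Finset.univ.image p with hspd
  set sq : Finset E3 := Finset.univ.image q with hsqd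
  have hmp : ∀ k, p k ∈ sp := fun k => Finset.mem_image_of_mem p (Finset.mem_univ k)
  have hmq : ∀ k, q k ∈ sq := fun k => Finset.mem_image_of_mem q (Finset.mem_univ k)
  have hcp : (sp : Set E3) = range p := by rw [hspd]; simp
  have hcq : (sq : Set E3) = range q := by rw [hsqd]; simp
  have hnp : ∀ k, x ≠ p k := fun k hk => hxp ⟨k, hk.symm⟩
  have hnq : ∀ k, x ≠ q k := fun k hk => hxq ⟨k, hk.symm⟩
  have h1 : x ∈ convexHull ℝ (range p ∩ range q) := by
    rw [← h]
    exact ⟨segment_subset_convexHull (mem_range_self _) (mem_range_self _) hi,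
      segment_subset_convexHull (mem_range_self _) (mem_range_self _) hj⟩
  have h2 : p (ea i) ∈ sp ∩ sq ∧ p (eb i) ∈ sp ∩ sq := by
    refine WeightedAux.seg_two hsp (hmp _) (hmp _) Finset.inter_subset_left hi (hnp _) (hnp _) ?_
    rw [Finset.coe_inter, hcp, hcq]
    exact h1
  have h3 : p (ea i) ∈ sq := (Finset.mem_inter.1 h2.1).2
  have h4 : p (eb i) ∈ sq := (Finset.mem_inter.1 h2.2).2
  have h5 : q (ea j) ∈ ({p (ea i), p (eb i)} : Finset E3) ∧
      q (eb j) ∈ ({p (ea i), p (eb i)} : Finset E3) := by
    refine WeightedAux.seg_two hsq (hmq _) (hmq _) ?_ hj (hnq _) (hnq _) ?_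
    · intro y hy
      rw [Finset.mem_insert, Finset.mem_singleton] at hy
      rcases hy with rfl | rfl
      · exact h3
      · exact h4
    · rw [Finset.coe_insert, Finset.coe_singleton, convexHull_pair]
      exact hi
  have hne : q (ea j) ≠ q (eb j) := fun hh => by
    have := hq.injective hh
    revert this
    fin_cases j <;> decide
  show dist (p (ea i)) (p (eb i)) = dist (q (ea j)) (q (eb j))
  rw [Finset.mem_insert, Finset.mem_singleton, Finset.mem_insert, Finset.mem_singleton] at h5
  rcases h5 with ⟨h6 | h6, h7 | h7⟩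
  · exact absurd (h6.trans h7.symm) hne
  · rw [h6, h7]
  · rw [h6, h7, dist_comm]
  · exact absurd (h6.trans h7.symm) hne

end Pool.Agent.Helper22.FF
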